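import Pool.Agent.H67.FM.Normal
import Pool.Agent.H38.FM.GoodMk

/-!
# Sharpening of the list: the families SEP, TU and BC2
-/

noncomputable section

set_option linter.unusedSimpArgs false
set_option linter.unusedVariables false

namespace Pool.Agent.H38.FM

open FM67 Matrix

/-- Normal forms of nonzero quadratic functions `f0 + f1 x + f2 x²` under affine changes acting as
on `f ∂x²`: `k x (x - 1)`, `k x²`, `x`, `1`. -/
inductive QuadNF : ℂ → ℂ → ℂ → Prop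
  | two (k : ℂ) (hk : k ≠ 0) : QuadNF 0 (-k) k
  | dbl (k : ℂ) (hk : k ≠ 0) : QuadNF 0 0 k
  | lin : QuadNF 0 1 0
  | one : QuadNF 1 0 0

theorem exists_sq (z : ℂ) : ∃ d : ℂ, d ^ 2 = z :=
  IsAlgClosed.exists_pow_nat_eq z (n := 2) (by norm_num)

theorem quad_nf {f0 f1 f2 : ℂ} (h : f0 ≠ 0 ∨ f1 ≠ 0 ∨ f2 ≠ 0) :
    ∃ al be : ℂ, al ≠ 0 ∧
      QuadNF (al ^ 2 * f0 - al * be * f1 + be ^ 2 * f2) (al * f1 - 2 * be * f2) f2 := by
  by_cases h2 : f2 = 0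
  · subst h2
    by_cases h1 : f1 = 0
    · subst h1
      have h0 : f0 ≠ 0 := by tauto
      obtain ⟨d, hd⟩ := exists_sq f0
      have hd0 : d ≠ 0 := by
        rintro rfl
        apply h0
        rw [← hd]
        ring
      refine ⟨d⁻¹, 0, inv_ne_zero hd0, ?_⟩
      have e1 : (d⁻¹) ^ 2 * f0 - d⁻¹ * 0 * 0 + 0 ^ 2 * 0 = 1 := by
        rw [← hd]
        field_simp
        ring
      have e2 : d⁻¹ * 0 - 2 * 0 * 0 = (0 : ℂ) := by ring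
      rw [e1, e2]
      exact QuadNF.one
    · refine ⟨f1⁻¹, f0 / f1 ^ 2, inv_ne_zero h1, ?_⟩
      have e1 : (f1⁻¹) ^ 2 * f0 - f1⁻¹ * (f0 / f1 ^ 2) * f1 + (f0 / f1 ^ 2) ^ 2 * 0 = 0 := by
        field_simp
        ring
      have e2 : f1⁻¹ * f1 - 2 * (f0 / f1 ^ 2) * 0 = 1 := by
        field_simp
        ring
      rw [e1, e2]
      exact QuadNF.lin
  · obtain ⟨d, hd⟩ := exists_sq (f1 ^ 2 - 4 * f0 * f2)
    obtain ⟨r1, hr1⟩ : ∃ r1, r1 = (-f1 + d) / (2 * f2) := ⟨_, rfl⟩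
    obtain ⟨r2, hr2⟩ : ∃ r2, r2 = (-f1 - d) / (2 * f2) := ⟨_, rfl⟩
    have hf1 : f1 = -f2 * (r1 + r2) := by
      rw [hr1, hr2]
      field_simp
      ring
    have hf0 : f0 = f2 * (r1 * r2) := by
      rw [hr1, hr2]
      field_simp
      linear_combination (1 : ℂ) * hd
    by_cases hr : r1 = r2
    · refine ⟨1, -r1, one_ne_zero, ?_⟩
      have e1 : (1 : ℂ) ^ 2 * f0 - 1 * (-r1) * f1 + (-r1) ^ 2 * f2 = 0 := by
        rw [hf0, hf1, ← hr]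
        ring
      have e2 : 1 * f1 - 2 * (-r1) * f2 = 0 := by
        rw [hf1, ← hr]
        ring
      rw [e1, e2]
      exact QuadNF.dbl f2 h2
    · have hd' : r2 - r1 ≠ 0 := sub_ne_zero.mpr (Ne.symm hr)
      refine ⟨(r2 - r1)⁻¹, -r1 / (r2 - r1), inv_ne_zero hd', ?_⟩
      have e1 : ((r2 - r1)⁻¹) ^ 2 * f0 - (r2 - r1)⁻¹ * (-r1 / (r2 - r1)) * f1
          + (-r1 / (r2 - r1)) ^ 2 * f2 = 0 := by
        rw [hf0, hf1]
        field_simp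
        ring
      have e2 : (r2 - r1)⁻¹ * f1 - 2 * (-r1 / (r2 - r1)) * f2 = -f2 := by
        rw [hf1]
        field_simp
        ring
      rw [e1, e2]
      exact QuadNF.two f2 h2

theorem rel_sep_x {al : ℂ} (be : ℂ) (h : al ≠ 0) (f0 f1 f2 g0 g1 g2 : ℂ) :
    Rel (fSEP f0 f1 f2 g0 g1 g2)
      (fSEP (al ^ 2 * f0 - al * be * f1 + be ^ 2 * f2) (al * f1 - 2 * be * f2) f2 g0 g1 g2) := by
  refine rel_mk al 0 be 0 1 0 0 0 1 1 0 (-be) 0 al 0 0 0 al al (by ring) (by ring) (by ring)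
    (by ring) (by ring) (by ring) (by ring) (by ring) (by ring) (by ring) h ?_
  intro X Y Z X' Y' Z' hX hY hZ
  subst hX; subst hY; subst hZ
  refine ⟨?_, ?_, ?_, ?_, ?_, ?_⟩ <;>
    simp only [ha, hb, hc, hd, he, hf, fSEP, zeroPar] <;> ring1

theorem rel_sep_y {al : ℂ} (be : ℂ) (h : al ≠ 0) (f0 f1 f2 g0 g1 g2 : ℂ) :
    Rel (fSEP f0 f1 f2 g0 g1 g2)
      (fSEP f0 f1 f2 (al ^ 2 * g0 - al * be * g1 + be ^ 2 * g2) (al * g1 - 2 * be * g2) g2) := by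
  refine rel_mk 1 0 0 0 al be 0 0 1 al 0 0 0 1 (-be) 0 0 al al (by ring) (by ring) (by ring)
    (by ring) (by ring) (by ring) (by ring) (by ring) (by ring) (by ring) h ?_
  intro X Y Z X' Y' Z' hX hY hZ
  subst hX; subst hY; subst hZ
  refine ⟨?_, ?_, ?_, ?_, ?_, ?_⟩ <;>
    simp only [ha, hb, hc, hd, he, hf, fSEP, zeroPar] <;> ring1

/-- Normal forms in the separable family. -/
theorem sharp_sep {f0 f1 f2 g0 g1 g2 : ℂ} (hf : f0 ≠ 0 ∨ f1 ≠ 0 ∨ f2 ≠ 0)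
    (hg : g0 ≠ 0 ∨ g1 ≠ 0 ∨ g2 ≠ 0) :
    ∃ a0 a1 a2 c0 c1 c2 : ℂ, QuadNF a0 a1 a2 ∧ QuadNF c0 c1 c2 ∧
      Rel (fSEP f0 f1 f2 g0 g1 g2) (fSEP a0 a1 a2 c0 c1 c2) := by
  obtain ⟨al, be, hal, hq⟩ := quad_nf hf
  obtain ⟨al', be', hal', hq'⟩ := quad_nf hg
  exact ⟨_, _, _, _, _, _, hq, hq', (rel_sep_x be hal f0 f1 f2 g0 g1 g2).trans
    (rel_sep_y be' hal' _ _ _ g0 g1 g2)⟩

theorem rel_tu {mu : ℂ} (h : mu ≠ 0) (al be ga : ℂ) :
    Rel (fTU al be ga) (fTU al (mu * be) (mu ^ 2 * ga)) := by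
  refine rel_mk 1 0 0 0 mu 0 0 0 1 mu 0 0 0 1 0 0 0 mu mu (by ring) (by ring) (by ring)
    (by ring) (by ring) (by ring) (by ring) (by ring) (by ring) (by ring) h ?_
  intro X Y Z X' Y' Z' hX hY hZ
  subst hX; subst hY; subst hZ
  refine ⟨?_, ?_, ?_, ?_, ?_, ?_⟩ <;>
    simp only [ha, hb, hc, hd, he, hf, fTU, zeroPar] <;> ring1

/-- Normal forms in the family TU: `(al x², be x, 1)` with `al ≠ be²`, or `(al x², x, 0)`. -/
theorem sharp_tu {al be ga : ℂ} (h : al * ga ≠ be ^ 2) :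
    (∃ be' : ℂ, al ≠ be' ^ 2 ∧ Rel (fTU al be ga) (fTU al be' 1)) ∨
      Rel (fTU al be ga) (fTU al 1 0) := by
  by_cases hg : ga = 0
  · subst hg
    have hb : be ≠ 0 := by
      rintro rfl
      apply h
      ring
    right
    have := rel_tu (inv_ne_zero hb) al be 0
    rwa [inv_mul_cancel₀ hb, mul_zero] at this
  · left
    obtain ⟨d, hd⟩ := exists_sq ga
    have hd0 : d ≠ 0 := by
      rintro rfl
      apply hg
      rw [← hd]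
      ring
    refine ⟨d⁻¹ * be, ?_, ?_⟩
    · intro h1
      apply h
      rw [h1, ← hd]
      field_simp
    · have := rel_tu (inv_ne_zero hd0) al be ga
      have e : (d⁻¹) ^ 2 * ga = 1 := by
        rw [← hd]
        field_simp
      rwa [e] at this

theorem rel_bc_shift (t p0 p1 p2 p3 p4 : ℂ) :
    Rel (fBC p0 p1 p2 p3 p4)
      (fBC (p0 - p1 * t + p2 * t ^ 2 - p3 * t ^ 3 + p4 * t ^ 4)
        (p1 - 2 * p2 * t + 3 * p3 * t ^ 2 - 4 * p4 * t ^ 3) (p2 - 3 * p3 * t + 6 * p4 * t ^ 2)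
        (p3 - 4 * p4 * t) p4) := by
  refine rel_mk 1 0 (2 * t) t 1 (t ^ 2) 0 0 1 1 0 (-(2 * t)) (-t) 1 (t ^ 2) 0 0 1 1 (by ring)
    (by ring) (by ring) (by ring) (by ring) (by ring) (by ring) (by ring) (by ring) (by ring)
    one_ne_zero ?_
  intro X Y Z X' Y' Z' hX hY hZ
  subst hX; subst hY; subst hZ
  refine ⟨?_, ?_, ?_, ?_, ?_, ?_⟩ <;>
    simp only [ha, hb, hc, hd, he, hf, fBC, zeroPar] <;> ring1

theorem rel_bc_scale {l : ℂ} (hl : l ≠ 0) (p0 p1 p2 p3 p4 : ℂ) :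
    Rel (fBC p0 p1 p2 p3 p4)
      (fBC (l ^ 2 * p0) (l * p1) p2 (p3 / l) (p4 / l ^ 2)) := by
  refine rel_mk l 0 0 0 (l ^ 2) 0 0 0 1 (l ^ 2) 0 0 0 l 0 0 0 (l ^ 3) (l ^ 3) (by ring)
    (by ring) (by ring) (by ring) (by ring) (by ring) (by ring) (by ring) (by ring) (by ring)
    (pow_ne_zero 3 hl) ?_
  intro X Y Z X' Y' Z' hX hY hZ
  subst hX; subst hY; subst hZ
  refine ⟨?_, ?_, ?_, ?_, ?_, ?_⟩ <;>
    simp only [ha, hb, hc, hd, he, hf, fBC, zeroPar] <;> field_simp <;> ring1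

theorem rel_bc_inv (p0 p1 p2 p3 p4 : ℂ) :
    Rel (fBC p0 p1 p2 p3 p4) (fBC p4 p3 p2 p1 p0) := by
  refine rel_mk 1 0 0 0 0 1 0 1 0 (-1) 0 0 0 0 (-1) 0 (-1) 0 (-1) (by ring)
    (by ring) (by ring) (by ring) (by ring) (by ring) (by ring) (by ring) (by ring) (by ring)
    (by norm_num) ?_
  intro X Y Z X' Y' Z' hX hY hZ
  subst hX; subst hY; subst hZ
  refine ⟨?_, ?_, ?_, ?_, ?_, ?_⟩ <;>
    simp only [ha, hb, hc, hd, he, hf, fBC, zeroPar] <;> ring1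

/-- Normal forms of nonzero binary quartics under Moebius changes acting as on `P ∂s²`:
`k s (s - 1) (s - m)` with `m ≠ 0, 1` (the fourth root is at infinity), `k s (s - 1)`, `k s²`,
`s`, `1`. -/
inductive QuartNF : ℂ → ℂ → ℂ → ℂ → ℂ → Prop
  | four (k m : ℂ) (hk : k ≠ 0) (h0 : m ≠ 0) (h1 : m ≠ 1) :
      QuartNF 0 (k * m) (-(k * (1 + m))) k 0
  | quad {p0 p1 p2 : ℂ} (h : QuadNF p0 p1 p2) : QuartNF p0 p1 p2 0 0

theorem rel_bc_quad {al : ℂ} (be : ℂ) (hal : al ≠ 0) (p0 p1 p2 : ℂ) :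
    Rel (fBC p0 p1 p2 0 0)
      (fBC (al ^ 2 * p0 - al * be * p1 + be ^ 2 * p2) (al * p1 - 2 * be * p2) p2 0 0) := by
  have h := (rel_bc_scale hal p0 p1 p2 0 0).trans (rel_bc_shift be _ _ _ _ _)
  have e0 : al ^ 2 * p0 - al * p1 * be + p2 * be ^ 2 - 0 / al * be ^ 3 + 0 / al ^ 2 * be ^ 4
      = al ^ 2 * p0 - al * be * p1 + be ^ 2 * p2 := by ring
  have e1 : al * p1 - 2 * p2 * be + 3 * (0 / al) * be ^ 2 - 4 * (0 / al ^ 2) * be ^ 3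
      = al * p1 - 2 * be * p2 := by ring
  have e2 : p2 - 3 * (0 / al) * be + 6 * (0 / al ^ 2) * be ^ 2 = p2 := by ring
  have e3 : 0 / al - 4 * (0 / al ^ 2) * be = 0 := by ring
  have e4 : (0 : ℂ) / al ^ 2 = 0 := by ring
  rw [e0, e1, e2, e3, e4] at h
  exact h

/-- The conclusion for the BC2 family. -/
def BCok (p0 p1 p2 p3 p4 : ℂ) : Prop :=
  ∃ q0 q1 q2 q3 q4 : ℂ, QuartNF q0 q1 q2 q3 q4 ∧ Rel (fBC p0 p1 p2 p3 p4) (fBC q0 q1 q2 q3 q4)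

theorem BCok.of_rel {p0 p1 p2 p3 p4 q0 q1 q2 q3 q4 : ℂ}
    (h : Rel (fBC p0 p1 p2 p3 p4) (fBC q0 q1 q2 q3 q4)) (hq : BCok q0 q1 q2 q3 q4) :
    BCok p0 p1 p2 p3 p4 := by
  obtain ⟨r0, r1, r2, r3, r4, hr, h'⟩ := hq
  exact ⟨r0, r1, r2, r3, r4, hr, h.trans h'⟩

theorem bc_quad {p0 p1 p2 : ℂ} (h : p0 ≠ 0 ∨ p1 ≠ 0 ∨ p2 ≠ 0) : BCok p0 p1 p2 0 0 := by
  obtain ⟨al, be, hal, hq⟩ := quad_nf h
  exact ⟨_, _, _, _, _, QuartNF.quad hq, rel_bc_quad be hal p0 p1 p2⟩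

/-- A double root at the origin. -/
theorem bc_dbl (k r : ℂ) (hk : k ≠ 0) : BCok 0 0 (-(k * r)) k 0 :=
  BCok.of_rel (rel_bc_inv _ _ _ _ _) (bc_quad (Or.inr (Or.inl hk)))

/-- A cubic given by its roots. -/
theorem bc_roots (k r1 r2 r3 : ℂ) (hk : k ≠ 0) :
    BCok (-(k * (r1 * r2 * r3))) (k * (r1 * r2 + r1 * r3 + r2 * r3)) (-(k * (r1 + r2 + r3))) k
      0 := by
  -- move `r1` to the origin
  have h1 := rel_bc_shift (-r1) (-(k * (r1 * r2 * r3))) (k * (r1 * r2 + r1 * r3 + r2 * r3))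
    (-(k * (r1 + r2 + r3))) k 0
  obtain ⟨a, ha⟩ : ∃ a, a = r2 - r1 := ⟨_, rfl⟩
  obtain ⟨b, hb⟩ : ∃ b, b = r3 - r1 := ⟨_, rfl⟩
  have e0 : -(k * (r1 * r2 * r3)) - k * (r1 * r2 + r1 * r3 + r2 * r3) * -r1
      + -(k * (r1 + r2 + r3)) * (-r1) ^ 2 - k * (-r1) ^ 3 + 0 * (-r1) ^ 4 = 0 := by ring
  have e1 : k * (r1 * r2 + r1 * r3 + r2 * r3) - 2 * -(k * (r1 + r2 + r3)) * -r1
      + 3 * k * (-r1) ^ 2 - 4 * 0 * (-r1) ^ 3 = k * (a * b) := by rw [ha, hb]; ring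
  have e2 : -(k * (r1 + r2 + r3)) - 3 * k * -r1 + 6 * 0 * (-r1) ^ 2 = -(k * (a + b)) := by
    rw [ha, hb]; ring
  have e3 : k - 4 * 0 * -r1 = k := by ring
  rw [e0, e1, e2, e3] at h1
  refine BCok.of_rel h1 ?_
  by_cases ha0 : a = 0
  · rw [ha0]
    have e : (0 : ℂ) = k * (0 * b) := by ring
    have e' : -(k * (0 + b)) = -(k * b) := by ring
    rw [e', ← e]
    exact bc_dbl k b hk
  by_cases hb0 : b = 0
  · rw [hb0]
    have e : (0 : ℂ) = k * (a * 0) := by ring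
    have e' : -(k * (a + 0)) = -(k * a) := by ring
    rw [e', ← e]
    exact bc_dbl k a hk
  by_cases hab : a = b
  · -- double root at `a`
    rw [← hab]
    have h2 := rel_bc_shift (-a) 0 (k * (a * a)) (-(k * (a + a))) k 0
    have e0 : 0 - k * (a * a) * -a + -(k * (a + a)) * (-a) ^ 2 - k * (-a) ^ 3
        + 0 * (-a) ^ 4 = 0 := by ring
    have e1 : k * (a * a) - 2 * -(k * (a + a)) * -a + 3 * k * (-a) ^ 2 - 4 * 0 * (-a) ^ 3
        = 0 := by ring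
    have e2 : -(k * (a + a)) - 3 * k * -a + 6 * 0 * (-a) ^ 2 = -(k * (-a)) := by ring
    have e3 : k - 4 * 0 * -a = k := by ring
    rw [e0, e1, e2, e3] at h2
    exact BCok.of_rel h2 (bc_dbl k (-a) hk)
  · -- distinct roots: scale `a` to `1`
    have h2 := rel_bc_scale (inv_ne_zero ha0) 0 (k * (a * b)) (-(k * (a + b))) k 0
    have e0 : (a⁻¹) ^ 2 * 0 = (0 : ℂ) := by ring
    have e1 : a⁻¹ * (k * (a * b)) = k * a * (b / a) := by field_simp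
    have e2 : -(k * (a + b)) = -(k * a * (1 + b / a)) := by field_simp
    have e3 : k / a⁻¹ = k * a := by field_simp
    have e4 : (0 : ℂ) / (a⁻¹) ^ 2 = 0 := by simp
    rw [e0, e1, e3, e4] at h2
    nth_rewrite 2 [e2] at h2
    refine ⟨_, _, _, _, _, QuartNF.four (k * a) (b / a) (mul_ne_zero hk ha0)
      (div_ne_zero hb0 ha0) ?_, h2⟩
    intro h
    apply hab
    rw [div_eq_one_iff_eq ha0] at h
    exact h.symm

/-- Roots of a cubic. -/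
theorem exists_roots (p0 p1 p2 p3 : ℂ) (h : p3 ≠ 0) :
    ∃ r1 r2 r3 : ℂ, p0 = -(p3 * (r1 * r2 * r3)) ∧ p1 = p3 * (r1 * r2 + r1 * r3 + r2 * r3) ∧
      p2 = -(p3 * (r1 + r2 + r3)) := by
  have hdeg : (pol5 p0 p1 p2 p3 0).degree ≠ 0 := by
    intro h0
    have hc : (pol5 p0 p1 p2 p3 0).coeff 3 = p3 := by
      simp [pol5, Polynomial.coeff_C, Polynomial.coeff_X_pow, Polynomial.coeff_X]
    have h1 : (pol5 p0 p1 p2 p3 0).coeff 3 = 0 := by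
      apply Polynomial.coeff_eq_zero_of_degree_lt
      rw [h0]
      norm_num
    exact h (hc.symm.trans h1)
  obtain ⟨r, hr⟩ := IsAlgClosed.exists_root (pol5 p0 p1 p2 p3 0) hdeg
  rw [Polynomial.IsRoot, eval_pol5] at hr
  -- the quotient `p3 s² + u s + v`
  obtain ⟨u, hu⟩ : ∃ u, u = p2 + p3 * r := ⟨_, rfl⟩
  obtain ⟨v, hv⟩ : ∃ v, v = p1 + u * r := ⟨_, rfl⟩
  obtain ⟨d, hd⟩ := exists_sq (u ^ 2 - 4 * v * p3)
  refine ⟨r, (-u + d) / (2 * p3), (-u - d) / (2 * p3), ?_, ?_, ?_⟩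
  · have h1 : p3 * (r * ((-u + d) / (2 * p3)) * ((-u - d) / (2 * p3))) = r * v := by
      field_simp
      linear_combination (-r) * hd
    rw [h1, hv, hu]
    linear_combination hr
  · have h1 : p3 * (r * ((-u + d) / (2 * p3)) + r * ((-u - d) / (2 * p3))
        + (-u + d) / (2 * p3) * ((-u - d) / (2 * p3))) = -(r * u) + v := by
      field_simp
      linear_combination (-1 : ℂ) * hd
    rw [h1, hv]
    ring
  · have h1 : p3 * (r + (-u + d) / (2 * p3) + (-u - d) / (2 * p3)) = p3 * r - u := by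
      field_simp
      ring
    rw [h1, hu]
    ring

theorem bc_cubic {p0 p1 p2 p3 : ℂ} (h : p0 ≠ 0 ∨ p1 ≠ 0 ∨ p2 ≠ 0 ∨ p3 ≠ 0) :
    BCok p0 p1 p2 p3 0 := by
  by_cases h3 : p3 = 0
  · subst h3
    exact bc_quad (by tauto)
  · obtain ⟨r1, r2, r3, e0, e1, e2⟩ := exists_roots p0 p1 p2 p3 h3
    rw [e0, e1, e2]
    exact bc_roots p3 r1 r2 r3 h3

/-- Normal forms in the family BC2. -/
theorem sharp_bc {p0 p1 p2 p3 p4 : ℂ} (h : p0 ≠ 0 ∨ p1 ≠ 0 ∨ p2 ≠ 0 ∨ p3 ≠ 0 ∨ p4 ≠ 0) :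
    BCok p0 p1 p2 p3 p4 := by
  by_cases h4 : p4 = 0
  · subst h4
    exact bc_cubic (by tauto)
  · have hdeg : (pol5 p0 p1 p2 p3 p4).degree ≠ 0 := by
      intro h0
      have hc : (pol5 p0 p1 p2 p3 p4).coeff 4 = p4 := by
        simp [pol5, Polynomial.coeff_C, Polynomial.coeff_X_pow, Polynomial.coeff_X]
      have h1 : (pol5 p0 p1 p2 p3 p4).coeff 4 = 0 := by
        apply Polynomial.coeff_eq_zero_of_degree_lt
        rw [h0]
        norm_num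
      exact h4 (hc.symm.trans h1)
    obtain ⟨r, hr⟩ := IsAlgClosed.exists_root (pol5 p0 p1 p2 p3 p4) hdeg
    rw [Polynomial.IsRoot, eval_pol5] at hr
    have h1 := (rel_bc_shift (-r) p0 p1 p2 p3 p4).trans (rel_bc_inv _ _ _ _ _)
    have e0 : p0 - p1 * -r + p2 * (-r) ^ 2 - p3 * (-r) ^ 3 + p4 * (-r) ^ 4 = 0 := by
      linear_combination hr
    rw [e0] at h1
    exact BCok.of_rel h1 (bc_cubic (Or.inl h4))

end Pool.Agent.H38.FM
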