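import Pool.Agent.H67.FM.T3D

/-!
# Zeros with vanishing linear part: normalised types
-/

noncomputable section

set_option linter.unusedSimpArgs false

namespace Pool.Agent.H38.FM

open FM67 Matrix

/-- Type Z. -/
def TyZ (p : Par) : Prop := T3Q p 0 0 0 0 0 0 0 0 0
/-- Type A1. -/
def TyA1 (p : Par) : Prop :=
  T3Q p p.a20 0 0 0 p.b11 0 0 0 p.c02 ∧ p.a20 ≠ 0 ∧ p.c02 ≠ 0 ∧ p.u20 = 0 ∧ p.v02 = 0
/-- Type A2. -/
def TyA2 (p : Par) : Prop :=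
  T3Q p p.a20 0 0 0 p.b11 0 0 0 0 ∧ p.a20 ≠ 0 ∧ p.b11 ≠ 0 ∧ p.u20 = 0 ∧ p.u11 = 0
/-- Type A5. -/
def TyA5 (p : Par) : Prop := T3Q p 0 0 0 0 p.b11 0 0 0 0 ∧ p.b11 ≠ 0 ∧ p.u11 = 0 ∧ p.v11 = 0
/-- Type B. -/
def TyB (p : Par) : Prop :=
  T3Q p p.a20 p.a11 p.a02 0 p.c02 0 0 0 p.c02 ∧ p.c02 ≠ 0 ∧ p.v02 = 0 ∧ p.v11 = 0
/-- Type B0. -/
def TyB0 (p : Par) : Prop :=
  T3Q p p.c02 (2 * p.b02) p.a02 0 p.c02 p.b02 0 0 p.c02 ∧ p.c02 ≠ 0 ∧ p.b02 ≠ 0 ∧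
    p.v02 = 0 ∧ p.v11 = 0
/-- Type Bz1. -/
def TyBz1 (p : Par) : Prop := T3Q p p.a20 0 p.a02 0 0 0 0 0 0 ∧ p.a20 ≠ 0 ∧ p.u20 = 0
/-- Type Bz2. -/
def TyBz2 (p : Par) : Prop := T3Q p 0 p.a11 0 0 0 0 0 0 0 ∧ p.a11 ≠ 0 ∧ p.u11 = p.v02
/-- Type Bz3. -/
def TyBz3 (p : Par) : Prop := T3Q p 0 0 p.a02 0 0 0 0 0 0 ∧ p.a02 ≠ 0 ∧ p.u02 = 0
/-- Type C1. -/
def TyC1 (p : Par) : Prop :=
  T3Q p 0 p.a11 0 0 0 p.b02 0 0 0 ∧ p.b02 ≠ 0 ∧ p.u02 = 0 ∧ p.v02 = 0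
/-- Type C2. -/
def TyC2 (p : Par) : Prop :=
  T3Q p 0 (2 * p.b02) p.a02 0 0 p.b02 0 0 0 ∧ p.b02 ≠ 0 ∧ p.a02 ≠ 0 ∧ p.u02 = 0 ∧ p.v02 = 0

/-- All types with vanishing linear part. -/
def TyT3All (p : Par) : Prop :=
  TyZ p ∨ TyA1 p ∨ TyA2 p ∨ TyA5 p ∨ TyB p ∨ TyB0 p ∨ TyBz1 p ∨ TyBz2 p ∨ TyBz3 p ∨ TyC1 p ∨
    TyC2 p

theorem quad_gau {p : Par} (hp : Base p) {a20 a11 a02 b20 b11 b02 c20 c11 c02 : ℂ}
    (h : T3Q p a20 a11 a02 b20 b11 b02 c20 c11 c02) (la mu : ℂ) :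
    T3Q (gau la mu p) a20 a11 a02 b20 b11 b02 c20 c11 c02 ∧
    (gau la mu p).u20 = p.u20 - 2 * la * a20 - 2 * mu * b20 ∧
    (gau la mu p).u11 = p.u11 - 2 * la * a11 - 2 * mu * b11 ∧
    (gau la mu p).u02 = p.u02 - 2 * la * a02 - 2 * mu * b02 ∧
    (gau la mu p).v20 = p.v20 - 2 * la * b20 - 2 * mu * c20 ∧
    (gau la mu p).v11 = p.v11 - 2 * la * b11 - 2 * mu * c11 ∧
    (gau la mu p).v02 = p.v02 - 2 * la * b02 - 2 * mu * c02 := by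
  obtain ⟨hl, h1, h2, h3, h4, h5, h6, h7, h8, h9⟩ := h
  have hl' := lin_gau hp hl la mu
  obtain ⟨-, -, h0, h0', h0''⟩ := hp
  obtain ⟨l1, l2, l3, l4, l5, l6⟩ := hl
  refine ⟨⟨hl', ?_, ?_, ?_, ?_, ?_, ?_, ?_, ?_, ?_⟩, ?_, ?_, ?_, ?_, ?_, ?_⟩ <;>
    simp only [gau, h0, h0', h0'', l1, l2, l3, l4, l5, l6, h1, h2, h3, h4, h5, h6, h7, h8, h9] <;>
    ring

theorem gaux {q : Par} (hq : Base q) {a20 a11 a02 b20 b11 b02 c20 c11 c02 : ℂ}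
    (h : T3Q q a20 a11 a02 b20 b11 b02 c20 c11 c02) (la mu : ℂ) :
    ∃ r, Rel q r ∧ Base r ∧ T3Q r a20 a11 a02 b20 b11 b02 c20 c11 c02 ∧
    r.u20 = q.u20 - 2 * la * a20 - 2 * mu * b20 ∧
    r.u11 = q.u11 - 2 * la * a11 - 2 * mu * b11 ∧
    r.u02 = q.u02 - 2 * la * a02 - 2 * mu * b02 ∧
    r.v20 = q.v20 - 2 * la * b20 - 2 * mu * c20 ∧
    r.v11 = q.v11 - 2 * la * b11 - 2 * mu * c11 ∧
    r.v02 = q.v02 - 2 * la * b02 - 2 * mu * c02 :=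
  ⟨gau la mu q, rel_gau la mu q, hq.gau la mu, quad_gau hq h la mu⟩

/-- **Types with vanishing linear part.** -/
theorem tyT3All {p : Par} (hp : Base p) (hl : Lin p 0 0 0 0 0 0) : Ex p TyT3All := by
  refine Ex.bind (qAll hp hl) fun q hq h => ?_
  rcases h with h | ⟨a, b, c, h, ha, hc⟩ | ⟨a, b, h, ha, hb⟩ | ⟨b, h, hb⟩ | ⟨a, b, c, d, h, hd⟩ |
    ⟨c, d, e, h, hd, he⟩ | ⟨a, c, h, ha⟩ | ⟨b, h, hb⟩ | ⟨c, h, hc⟩ | ⟨b, e, h, he⟩ |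
    ⟨c, e, h, he, hc⟩
  · exact Ex.of hq (Or.inl h)
  · obtain ⟨r, hr1, hr2, g, u20, u11, u02, v20, v11, v02⟩ :=
      gaux hq h (q.u20 / (2 * a)) (q.v02 / (2 * c))
    refine ⟨r, hr1, hr2, Or.inr (Or.inl ⟨?_, ?_, ?_, ?_, ?_⟩)⟩
    · obtain ⟨gl, g1, g2, g3, g4, g5, g6, g7, g8, g9⟩ := g
      exact ⟨gl, rfl, g2, g3, g4, rfl, g6, g7, g8, rfl⟩
    · rw [g.2.1]; exact ha
    · rw [g.2.2.2.2.2.2.2.2.2]; exact hc
    · rw [u20]; field_simp; ring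
    · rw [v02]; field_simp; ring
  · obtain ⟨r, hr1, hr2, g, u20, u11, u02, v20, v11, v02⟩ :=
      gaux hq h (q.u20 / (2 * a)) (q.u11 / (2 * b))
    refine ⟨r, hr1, hr2, Or.inr (Or.inr (Or.inl ⟨?_, ?_, ?_, ?_, ?_⟩))⟩
    · obtain ⟨gl, g1, g2, g3, g4, g5, g6, g7, g8, g9⟩ := g
      exact ⟨gl, rfl, g2, g3, g4, rfl, g6, g7, g8, g9⟩
    · rw [g.2.1]; exact ha
    · rw [g.2.2.2.2.2.1]; exact hb
    · rw [u20]; field_simp; ring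
    · rw [u11]; field_simp; ring
  · obtain ⟨r, hr1, hr2, g, u20, u11, u02, v20, v11, v02⟩ :=
      gaux hq h (q.v11 / (2 * b)) (q.u11 / (2 * b))
    refine ⟨r, hr1, hr2, Or.inr (Or.inr (Or.inr (Or.inl ⟨?_, ?_, ?_, ?_⟩)))⟩
    · obtain ⟨gl, g1, g2, g3, g4, g5, g6, g7, g8, g9⟩ := g
      exact ⟨gl, g1, g2, g3, g4, rfl, g6, g7, g8, g9⟩
    · rw [g.2.2.2.2.2.1]; exact hb
    · rw [u11]; field_simp; ring
    · rw [v11]; field_simp; ring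
  · obtain ⟨r, hr1, hr2, g, u20, u11, u02, v20, v11, v02⟩ :=
      gaux hq h (q.v11 / (2 * d)) (q.v02 / (2 * d))
    refine ⟨r, hr1, hr2, Or.inr (Or.inr (Or.inr (Or.inr (Or.inl
      ⟨?_, ?_, ?_, ?_⟩))))⟩
    · obtain ⟨gl, g1, g2, g3, g4, g5, g6, g7, g8, g9⟩ := g
      exact ⟨gl, rfl, rfl, rfl, g4, g5.trans g9.symm, g6, g7, g8, rfl⟩
    · rw [g.2.2.2.2.2.2.2.2.2]; exact hd
    · rw [v02]; field_simp; ring
    · rw [v11]; field_simp; ring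
  · obtain ⟨r, hr1, hr2, g, u20, u11, u02, v20, v11, v02⟩ :=
      gaux hq h (q.v11 / (2 * d)) ((q.v02 - q.v11 / d * e) / (2 * d))
    refine ⟨r, hr1, hr2, Or.inr (Or.inr (Or.inr (Or.inr (Or.inr (Or.inl
      ⟨?_, ?_, ?_, ?_, ?_⟩)))))⟩
    · obtain ⟨gl, g1, g2, g3, g4, g5, g6, g7, g8, g9⟩ := g
      exact ⟨gl, g1.trans g9.symm, by rw [g2, g6], rfl, g4, g5.trans g9.symm, rfl, g7, g8, rfl⟩
    · rw [g.2.2.2.2.2.2.2.2.2]; exact hd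
    · rw [g.2.2.2.2.2.2.1]; exact he
    · rw [v02]; field_simp; ring
    · rw [v11]; field_simp; ring
  · obtain ⟨r, hr1, hr2, g, u20, u11, u02, v20, v11, v02⟩ :=
      gaux hq h (q.u20 / (2 * a)) 0
    refine ⟨r, hr1, hr2, Or.inr (Or.inr (Or.inr (Or.inr (Or.inr (Or.inr
      (Or.inl ⟨?_, ?_, ?_⟩))))))⟩
    · obtain ⟨gl, g1, g2, g3, g4, g5, g6, g7, g8, g9⟩ := g
      exact ⟨gl, rfl, g2, rfl, g4, g5, g6, g7, g8, g9⟩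
    · rw [g.2.1]; exact ha
    · rw [u20]; field_simp; ring
  · obtain ⟨r, hr1, hr2, g, u20, u11, u02, v20, v11, v02⟩ :=
      gaux hq h ((q.u11 - q.v02) / (2 * b)) 0
    refine ⟨r, hr1, hr2, Or.inr (Or.inr (Or.inr (Or.inr (Or.inr (Or.inr
      (Or.inr (Or.inl ⟨?_, ?_, ?_⟩)))))))⟩
    · obtain ⟨gl, g1, g2, g3, g4, g5, g6, g7, g8, g9⟩ := g
      exact ⟨gl, g1, rfl, g3, g4, g5, g6, g7, g8, g9⟩
    · rw [g.2.2.1]; exact hb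
    · rw [u11, v02]; field_simp; ring
  · obtain ⟨r, hr1, hr2, g, u20, u11, u02, v20, v11, v02⟩ :=
      gaux hq h (q.u02 / (2 * c)) 0
    refine ⟨r, hr1, hr2, Or.inr (Or.inr (Or.inr (Or.inr (Or.inr (Or.inr
      (Or.inr (Or.inr (Or.inl ⟨?_, ?_, ?_⟩))))))))⟩
    · obtain ⟨gl, g1, g2, g3, g4, g5, g6, g7, g8, g9⟩ := g
      exact ⟨gl, g1, g2, rfl, g4, g5, g6, g7, g8, g9⟩
    · rw [g.2.2.2.1]; exact hc
    · rw [u02]; field_simp; ring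
  · obtain ⟨r, hr1, hr2, g, u20, u11, u02, v20, v11, v02⟩ :=
      gaux hq h (q.v02 / (2 * e)) (q.u02 / (2 * e))
    refine ⟨r, hr1, hr2, Or.inr (Or.inr (Or.inr (Or.inr (Or.inr (Or.inr
      (Or.inr (Or.inr (Or.inr (Or.inl ⟨?_, ?_, ?_, ?_⟩)))))))))⟩
    · obtain ⟨gl, g1, g2, g3, g4, g5, g6, g7, g8, g9⟩ := g
      exact ⟨gl, g1, rfl, g3, g4, g5, rfl, g7, g8, g9⟩
    · rw [g.2.2.2.2.2.2.1]; exact he
    · rw [u02]; field_simp; ring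
    · rw [v02]; field_simp; ring
  · obtain ⟨r, hr1, hr2, g, u20, u11, u02, v20, v11, v02⟩ :=
      gaux hq h (q.v02 / (2 * e)) ((q.u02 - q.v02 / e * c) / (2 * e))
    refine ⟨r, hr1, hr2, Or.inr (Or.inr (Or.inr (Or.inr (Or.inr (Or.inr
      (Or.inr (Or.inr (Or.inr (Or.inr ⟨?_, ?_, ?_, ?_, ?_⟩)))))))))⟩
    · obtain ⟨gl, g1, g2, g3, g4, g5, g6, g7, g8, g9⟩ := g
      exact ⟨gl, g1, by rw [g2, g6], rfl, g4, g5, rfl, g7, g8, g9⟩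
    · rw [g.2.2.2.2.2.2.1]; exact he
    · rw [g.2.2.2.1]; exact hc
    · rw [u02]; field_simp; ring
    · rw [v02]; field_simp; ring

/-- The final list of types. -/
def AllTypes (p : Par) : Prop :=
  TyN p ∨ TyL p ∨ TyL2 p ∨ TyInf p ∨ TyLp p ∨ TyT1 p ∨ TyT2c p ∨ TyT2z p ∨ TyT2s p ∨ TyT3All p

/-- **Every zero has one of the types.** -/
theorem allTypes {p : Par} (hp : Base p) : Ex p AllTypes := by
  refine Ex.bind (tyAll hp) fun q hq h => ?_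
  rcases h with h | h | h | h | h | h | h | h | h | h
  · exact Ex.of hq (Or.inl h)
  · exact Ex.of hq (Or.inr (Or.inl h))
  · exact Ex.of hq (Or.inr (Or.inr (Or.inl h)))
  · exact Ex.of hq (Or.inr (Or.inr (Or.inr (Or.inl h))))
  · exact Ex.of hq (Or.inr (Or.inr (Or.inr (Or.inr (Or.inl h)))))
  · exact Ex.of hq (Or.inr (Or.inr (Or.inr (Or.inr (Or.inr (Or.inl h))))))
  · exact Ex.of hq (Or.inr (Or.inr (Or.inr (Or.inr (Or.inr (Or.inr (Or.inl h)))))))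
  · exact Ex.of hq (Or.inr (Or.inr (Or.inr (Or.inr (Or.inr (Or.inr (Or.inr (Or.inl h))))))))
  · exact Ex.of hq (Or.inr (Or.inr (Or.inr (Or.inr (Or.inr (Or.inr (Or.inr (Or.inr
      (Or.inl h)))))))))
  · obtain ⟨r, h1, h2, h3⟩ := tyT3All hq h
    exact ⟨r, h1, h2, Or.inr (Or.inr (Or.inr (Or.inr (Or.inr (Or.inr (Or.inr (Or.inr
      (Or.inr h3))))))))⟩

/-- Reduction of the classification to the types. -/
theorem good_of_types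
    (hN : ∀ p, Base p → TyN p → Good p) (hL : ∀ p, Base p → TyL p → Good p)
    (hL2 : ∀ p, Base p → TyL2 p → Good p) (hInf : ∀ p, Base p → TyInf p → Good p)
    (hLp : ∀ p, Base p → TyLp p → Good p) (hT1 : ∀ p, Base p → TyT1 p → Good p)
    (hT2c : ∀ p, Base p → TyT2c p → Good p) (hT2z : ∀ p, Base p → TyT2z p → Good p)
    (hT2s : ∀ p, Base p → TyT2s p → Good p) (hZ : ∀ p, Base p → TyZ p → Good p)
    (hA1 : ∀ p, Base p → TyA1 p → Good p) (hA2 : ∀ p, Base p → TyA2 p → Good p)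
    (hA5 : ∀ p, Base p → TyA5 p → Good p) (hB : ∀ p, Base p → TyB p → Good p)
    (hB0 : ∀ p, Base p → TyB0 p → Good p) (hBz1 : ∀ p, Base p → TyBz1 p → Good p)
    (hBz2 : ∀ p, Base p → TyBz2 p → Good p) (hBz3 : ∀ p, Base p → TyBz3 p → Good p)
    (hC1 : ∀ p, Base p → TyC1 p → Good p) (hC2 : ∀ p, Base p → TyC2 p → Good p)
    {p : Par} (hp : p.Nondeg) (hf : FlatP p) : Good p := by
  refine good_of_local (fun p hp => ?_) hp hf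
  obtain ⟨q, hpq, hq, h⟩ := allTypes hp
  refine Good.of_rel hpq ?_
  rcases h with h | h | h | h | h | h | h | h | h | h
  · exact hN q hq h
  · exact hL q hq h
  · exact hL2 q hq h
  · exact hInf q hq h
  · exact hLp q hq h
  · exact hT1 q hq h
  · exact hT2c q hq h
  · exact hT2z q hq h
  · exact hT2s q hq h
  · rcases h with h | h | h | h | h | h | h | h | h | h | h
    · exact hZ q hq h
    · exact hA1 q hq h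
    · exact hA2 q hq h
    · exact hA5 q hq h
    · exact hB q hq h
    · exact hB0 q hq h
    · exact hBz1 q hq h
    · exact hBz2 q hq h
    · exact hBz3 q hq h
    · exact hC1 q hq h
    · exact hC2 q hq h

end Pool.Agent.H38.FM
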