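import Pool.Agent.H67.FM.Base

/-!
# The literal equivalence is the homogeneous one
-/

noncomputable section

namespace Pool.Agent.H38.FM

open FM67 Matrix MvPolynomial

/-- Polynomial version of `Kx`. -/
def Kp : Matrix (Fin 3) (Fin 3) R3 := !![0, -X 2, X 1; X 2, 0, -X 0; -X 1, X 0, 0]

theorem eval_Kp (Z : Fin 3 → ℂ) : Kp.map (eval Z) = Kx Z := by
  ext i j
  fin_cases i <;> fin_cases j <;> simp [Kp, Kx]

/-- Polynomial version of `Hp`. -/
def HP (p : Par) : Matrix (Fin 3) (Fin 3) R3 := Kp * Gm (toT p) * Kpᵀ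

theorem eval_HP (p : Par) (Z : Fin 3 → ℂ) : (HP p).map (eval Z) = Hp p Z := by
  rw [HP, Matrix.map_mul, Matrix.map_mul, Matrix.transpose_map, eval_Kp, eval_Gm]
  rfl

theorem Hp_symm (p : Par) (Z : Fin 3 → ℂ) : (Hp p Z)ᵀ = Hp p Z := by
  have hG : (Gf (toT p) Z)ᵀ = Gf (toT p) Z := by
    ext i j
    exact Gf_symm p Z j i
  unfold Hp Hf
  rw [Matrix.transpose_mul, Matrix.transpose_mul, Matrix.transpose_transpose, hG,
    Matrix.mul_assoc]

theorem Hp_ker (p : Par) (Z : Fin 3 → ℂ) : (Hp p Z).mulVec Z = 0 := by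
  have hK : (Kx Z)ᵀ.mulVec Z = 0 := by
    ext i
    fin_cases i <;> simp [Kx, Matrix.mulVec, dotProduct, Fin.sum_univ_three] <;> ring
  unfold Hp Hf
  rw [← Matrix.mulVec_mulVec, hK, Matrix.mulVec_zero]

/-- A symmetric matrix with a kernel vector `W`, `W 2 ≠ 0`, is determined by its upper block. -/
theorem mat_eq_of_block {A B : Matrix (Fin 3) (Fin 3) ℂ} {W : Fin 3 → ℂ} (hA : Aᵀ = A)
    (hB : Bᵀ = B) (kA : A.mulVec W = 0) (kB : B.mulVec W = 0) (hW : W 2 ≠ 0)
    (h00 : A 0 0 = B 0 0) (h01 : A 0 1 = B 0 1) (h11 : A 1 1 = B 1 1) : A = B := by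
  have sA : ∀ i j, A i j = A j i := fun i j => congrFun (congrFun hA j) i
  have sB : ∀ i j, B i j = B j i := fun i j => congrFun (congrFun hB j) i
  have a0 := congrFun kA 0
  have a1 := congrFun kA 1
  have a2 := congrFun kA 2
  have b0 := congrFun kB 0
  have b1 := congrFun kB 1
  have b2 := congrFun kB 2
  simp only [Matrix.mulVec, dotProduct, Fin.sum_univ_three, Pi.zero_apply] at a0 a1 a2 b0 b1 b2
  have h10 : A 1 0 = B 1 0 := by rw [sA, h01, sB]
  have h02 : A 0 2 = B 0 2 := by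
    refine mul_right_cancel₀ hW ?_
    linear_combination a0 - b0 - W 0 * h00 - W 1 * h01
  have h12 : A 1 2 = B 1 2 := by
    refine mul_right_cancel₀ hW ?_
    linear_combination a1 - b1 - W 0 * h10 - W 1 * h11
  have h20 : A 2 0 = B 2 0 := by rw [sA, h02, sB]
  have h21 : A 2 1 = B 2 1 := by rw [sA, h12, sB]
  have h22 : A 2 2 = B 2 2 := by
    refine mul_right_cancel₀ hW ?_
    linear_combination a2 - b2 - W 0 * h20 - W 1 * h21
  ext i j
  fin_cases i <;> fin_cases j
  · exact h00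
  · exact h01
  · exact h02
  · exact h10
  · exact h11
  · exact h12
  · exact h20
  · exact h21
  · exact h22

/-- The literal law gives the homogeneous law. -/
theorem act_of_law {M : Matrix (Fin 3) (Fin 3) ℂ} {p q : Par} (hM : M.det ≠ 0)
    (h : ∀ x y : ℂ, M 2 0 * x + M 2 1 * y + M 2 2 ≠ 0 → ∀ i j : Fin 2,
      gUp q.a q.b q.c i j (chg M 0 x y) (chg M 1 x y)
        = ∑ k, ∑ l, pd k (chg M i) x y * pd l (chg M j) x y * gUp p.a p.b p.c k l x y) :
    Act M p q := by
  -- the law at points with `X 2 = 1`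
  have h1 : ∀ x y : ℂ, M 2 0 * x + M 2 1 * y + M 2 2 ≠ 0 →
      Hp q (M.mulVec ![x, y, 1]) = M.adjugateᵀ * Hp p ![x, y, 1] * M.adjugate := by
    intro x y hL
    set L : ℂ := M 2 0 * x + M 2 1 * y + M 2 2 with hLd
    have hv := mulVec_chg M x y hL
    rw [← hLd] at hv
    have hW2 : (M.mulVec ![x, y, 1]) 2 ≠ 0 := by
      rw [hv]
      simpa using hL
    refine mat_eq_of_block (Hp_symm q _) ?_ (Hp_ker q _) ?_ hW2 ?_ ?_ ?_
    · rw [Matrix.transpose_mul, Matrix.transpose_mul, Matrix.transpose_transpose, Hp_symm,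
        Matrix.mul_assoc]
    · rw [← Matrix.mulVec_mulVec, ← Matrix.mulVec_mulVec, Matrix.mulVec_mulVec _ M.adjugate M,
        Matrix.adjugate_mul, Matrix.smul_mulVec, Matrix.one_mulVec, Matrix.mulVec_smul,
        Hp_ker, smul_zero, Matrix.mulVec_zero]
    all_goals
      have e00 := h x y hL 0 0
      have e01 := h x y hL 0 1
      have e11 := h x y hL 1 1
      simp only [Fin.sum_univ_two, pd_chg M _ _ x y hL, ← hLd] at e00 e01 e11
      rw [hv, Hp_smul, Hp_full, Hp_full, Matrix.adjugate_fin_three]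
      simp [gUp] at e00 e01 e11
      simp [Matrix.mul_apply, Fin.sum_univ_three]
    · have e : q.c (chg M 0 x y) (chg M 1 x y) = _ := e11
      rw [e]
      field_simp
      rw [hLd]
      ring
    · have e : q.b (chg M 0 x y) (chg M 1 x y) = _ := e01
      rw [e]
      field_simp
      rw [hLd]
      ring
    · have e : q.a (chg M 0 x y) (chg M 1 x y) = _ := e00
      rw [e]
      field_simp
      rw [hLd]
      ring
  -- the general point
  have h2 : ∀ Z : Fin 3 → ℂ, Z 2 ≠ 0 → (M.mulVec Z) 2 ≠ 0 →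
      Hp q (M.mulVec Z) = M.adjugateᵀ * Hp p Z * M.adjugate := by
    intro Z hz hMz
    have hZ : Z = Z 2 • ![Z 0 / Z 2, Z 1 / Z 2, 1] := by
      ext i
      fin_cases i <;> simp <;> field_simp
    have hL : M 2 0 * (Z 0 / Z 2) + M 2 1 * (Z 1 / Z 2) + M 2 2 ≠ 0 := by
      intro h0
      apply hMz
      simp only [Matrix.mulVec, dotProduct, Fin.sum_univ_three]
      have : M 2 0 * Z 0 + M 2 1 * Z 1 + M 2 2 * Z 2
          = Z 2 * (M 2 0 * (Z 0 / Z 2) + M 2 1 * (Z 1 / Z 2) + M 2 2) := by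
        field_simp
      rw [this, h0, mul_zero]
    have h3 := h1 _ _ hL
    rw [hZ, Matrix.mulVec_smul, Hp_smul, Hp_smul, h3]
    simp
  -- polynomial identity
  have hpoly : (HP q).map (sig M) = M.adjugateᵀ.map C * HP p * M.adjugate.map C := by
    refine Matrix.ext fun i j => ?_
    rw [← sub_eq_zero]
    have hX2 : (X 2 : R3) ≠ 0 := X_ne_zero _
    have hMX2 : sig M (X 2) ≠ 0 := by
      intro h0
      have hrow : ∀ Z : Fin 3 → ℂ, (M.mulVec Z) 2 = 0 := by
        intro Z
        have := congrArg (eval Z) h0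
        rw [eval_sig, eval_X, map_zero] at this
        exact this
      apply hM
      have r0 := hrow ![1, 0, 0]
      have r1 := hrow ![0, 1, 0]
      have r2 := hrow ![0, 0, 1]
      simp [Matrix.mulVec, dotProduct, Fin.sum_univ_three] at r0 r1 r2
      rw [Matrix.det_fin_three, r0, r1, r2]
      ring
    refine (mul_eq_zero.mp (?_ : _ * (X 2 * sig M (X 2)) = 0)).resolve_right
      (mul_ne_zero hX2 hMX2)
    apply eq_zero_of_eval
    intro Z
    rw [map_mul, map_mul, eval_X, eval_sig, eval_X]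
    by_cases hz : Z 2 = 0
    · rw [hz]; ring
    by_cases hMz : (M.mulVec Z) 2 = 0
    · rw [hMz]; ring
    have h3 := congrFun (congrFun (h2 Z hz hMz) i) j
    have h4 : eval Z ((HP q).map (sig M) i j) = Hp q (M.mulVec Z) i j := by
      rw [Matrix.map_apply, eval_sig, ← eval_HP, Matrix.map_apply]
    have h5 : eval Z ((M.adjugateᵀ.map C * HP p * M.adjugate.map C :
        Matrix (Fin 3) (Fin 3) R3) i j) = (M.adjugateᵀ * Hp p Z * M.adjugate) i j := by
      have h6 : (M.adjugateᵀ.map C * HP p * M.adjugate.map C :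
          Matrix (Fin 3) (Fin 3) R3).map (eval Z)
          = M.adjugateᵀ * Hp p Z * M.adjugate := by
        have e1 : (M.adjugateᵀ.map (C : ℂ →+* R3)).map (eval Z) = M.adjugateᵀ := by
          ext i j; simp
        have e2 : (M.adjugate.map (C : ℂ →+* R3)).map (eval Z) = M.adjugate := by
          ext i j; simp
        rw [Matrix.map_mul, Matrix.map_mul, eval_HP, e1, e2]
      rw [← h6, Matrix.map_apply]
    rw [map_sub, h4, h5, h3, sub_self, zero_mul]
  intro Z
  have h3 := congrArg (fun A : Matrix (Fin 3) (Fin 3) R3 => A.map (eval Z)) hpoly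
  have e0 : ((HP q).map (sig M)).map (eval Z) = Hp q (M.mulVec Z) := by
    rw [← eval_HP]
    ext i j
    simp [eval_sig]
  have e1 : (M.adjugateᵀ.map (C : ℂ →+* R3)).map (eval Z) = M.adjugateᵀ := by
    ext i j; simp
  have e2 : (M.adjugate.map (C : ℂ →+* R3)).map (eval Z) = M.adjugate := by
    ext i j; simp
  simp only [Matrix.map_mul] at h3
  rw [e0, eval_HP, e1, e2] at h3
  exact h3

theorem equ_iff_rel {p q : Par} : Equ p q ↔ Rel p q := by
  constructor
  · rintro ⟨M, hM, h⟩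
    exact ⟨M, hM, act_of_law hM h⟩
  · rintro ⟨M, hM, h⟩
    exact Equ_of_Act hM h

end Pool.Agent.H38.FM
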