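import Pool.Agent.H67.FM.SysFam
import Pool.Agent.H67.FM.EquIff

/-!
# The list of normal forms with its nondegeneracy conditions
-/

noncomputable section

set_option linter.unusedSimpArgs false

namespace Pool.Agent.H38.FM

open FM67 Matrix MvPolynomial

/-- The list of normal forms: ten families, with the conditions which make the metric
nondegenerate. -/
inductive Normal : Par → Prop
  | m1 (b0 b1 b2 w a0 a1 a2 c0 c1 : ℂ) (h : b0 ≠ 0 ∨ b1 ≠ 0 ∨ b2 ≠ 0 ∨ w ≠ 0) :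
      Normal (fM1 b0 b1 b2 w a0 a1 a2 c0 c1)
  | sep (f0 f1 f2 g0 g1 g2 : ℂ) (hf : f0 ≠ 0 ∨ f1 ≠ 0 ∨ f2 ≠ 0) (hg : g0 ≠ 0 ∨ g1 ≠ 0 ∨ g2 ≠ 0) :
      Normal (fSEP f0 f1 f2 g0 g1 g2)
  | tor (al be ga : ℂ) (h : al * ga ≠ be ^ 2) : Normal (fTOR al be ga)
  | tu (al be ga : ℂ) (h : al * ga ≠ be ^ 2) : Normal (fTU al be ga)
  | u2 (ga : ℂ) (h : ga ≠ 0) : Normal (fU2 ga)
  | s2 (al be : ℂ) (h : be ≠ 0) : Normal (fS2 al be)
  | bc (p0 p1 p2 p3 p4 : ℂ) (h : p0 ≠ 0 ∨ p1 ≠ 0 ∨ p2 ≠ 0 ∨ p3 ≠ 0 ∨ p4 ≠ 0) :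
      Normal (fBC p0 p1 p2 p3 p4)
  | f8 (m : ℂ) : Normal (fF8 m)
  | a2 (A U : ℂ) : Normal (fA2 A U)
  | rs (ep : ℂ) : Normal (fRS ep)

/-- A polynomial function of degree at most four with a nonzero coefficient is nonzero. -/
theorem exists_ne_of_coeff {c0 c1 c2 c3 c4 : ℂ}
    (h : c0 ≠ 0 ∨ c1 ≠ 0 ∨ c2 ≠ 0 ∨ c3 ≠ 0 ∨ c4 ≠ 0) :
    ∃ t : ℂ, c0 + c1 * t + c2 * t ^ 2 + c3 * t ^ 3 + c4 * t ^ 4 ≠ 0 := by
  by_contra hcon
  push Not at hcon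
  have e0 := hcon 0
  have e1 := hcon 1
  have e2 := hcon (-1)
  have e3 := hcon 2
  have e4 := hcon (-2)
  have k0 : c0 = 0 := by linear_combination e0
  have k4 : c4 = 0 := by linear_combination (e3 + e4 - 4 * e1 - 4 * e2 + 6 * e0) / 24
  have k2 : c2 = 0 := by linear_combination (e1 + e2) / 2 - k0 - k4
  have k3 : c3 = 0 := by linear_combination (e3 - e4 - 2 * e1 + 2 * e2) / 12
  have k1 : c1 = 0 := by linear_combination (e1 - e2) / 2 - k3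
  rcases h with h | h | h | h | h
  · exact h k0
  · exact h k1
  · exact h k2
  · exact h k3
  · exact h k4

/-- Two polynomials have a common nonzero. -/
theorem exists_ne_two {P Q : Polynomial ℂ} (hP : P ≠ 0) (hQ : Q ≠ 0) :
    ∃ t : ℂ, P.eval t ≠ 0 ∧ Q.eval t ≠ 0 := by
  by_contra hcon
  push Not at hcon
  have : P * Q = 0 := by
    apply Polynomial.funext
    intro t
    rw [Polynomial.eval_mul, Polynomial.eval_zero]
    by_cases h : P.eval t = 0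
    · rw [h, zero_mul]
    · rw [hcon t h, mul_zero]
  rcases mul_eq_zero.mp this with h | h
  · exact hP h
  · exact hQ h

theorem D_fM1 (b0 b1 b2 w a0 a1 a2 c0 c1 x y : ℂ) :
    (fM1 b0 b1 b2 w a0 a1 a2 c0 c1).D x y
      = -(b0 + b1 * y + b2 * y ^ 2 + (w / 2) * y ^ 3 + 0 * y ^ 4) ^ 2 := by
  simp only [Par.D, Par.a, Par.b, Par.c, Par.U, Par.V, Par.Q, fM1, zeroPar]; ring

theorem D_fSEP (f0 f1 f2 g0 g1 g2 x y : ℂ) :
    (fSEP f0 f1 f2 g0 g1 g2).D x y = (f0 + f1 * x + f2 * x ^ 2) * (g0 + g1 * y + g2 * y ^ 2) := by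
  simp only [Par.D, Par.a, Par.b, Par.c, Par.U, Par.V, Par.Q, fSEP, zeroPar]; ring

theorem D_fTOR (al be ga x y : ℂ) :
    (fTOR al be ga).D x y = (al * ga - be ^ 2) * (x ^ 2 * y ^ 2) := by
  simp only [Par.D, Par.a, Par.b, Par.c, Par.U, Par.V, Par.Q, fTOR, zeroPar]; ring

theorem D_fTU (al be ga x y : ℂ) : (fTU al be ga).D x y = (al * ga - be ^ 2) * x ^ 2 := by
  simp only [Par.D, Par.a, Par.b, Par.c, Par.U, Par.V, Par.Q, fTU, zeroPar]; ring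

theorem D_fU2 (ga x y : ℂ) : (fU2 ga).D x y = ga := by
  simp only [Par.D, Par.a, Par.b, Par.c, Par.U, Par.V, Par.Q, fU2, zeroPar]; ring

theorem D_fS2 (al be x y : ℂ) :
    (fS2 al be).D x y = 4 * be * (x ^ 2 * y ^ 2 * (x * y + al)) := by
  simp only [Par.D, Par.a, Par.b, Par.c, Par.U, Par.V, Par.Q, fS2, zeroPar]; ring

theorem D_fBC (p0 p1 p2 p3 p4 s t : ℂ) :
    (fBC p0 p1 p2 p3 p4).D (s + t) (s * t)
      = (s - t) ^ 2 * (p0 + p1 * s + p2 * s ^ 2 + p3 * s ^ 3 + p4 * s ^ 4)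
        * (p0 + p1 * t + p2 * t ^ 2 + p3 * t ^ 3 + p4 * t ^ 4) := by
  simp only [Par.D, Par.a, Par.b, Par.c, Par.U, Par.V, Par.Q, fBC, zeroPar]; ring

theorem D_fF8 (m x y : ℂ) : (fF8 m).D x y = y - m * x ^ 2 / 2 := by
  simp only [Par.D, Par.a, Par.b, Par.c, Par.U, Par.V, Par.Q, fF8, zeroPar]; ring

theorem D_fA2 (A U x : ℂ) : (fA2 A U).D x 0 = x ^ 3 * (1 + 0 * x + (-3 * A) * x ^ 2
    + (-U) * x ^ 3 + 0 * x ^ 4) := by
  simp only [Par.D, Par.a, Par.b, Par.c, Par.U, Par.V, Par.Q, fA2, zeroPar]; ring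

theorem D_fRS (ep : ℂ) : (fRS ep).D 0 1 = -1 := by
  simp only [Par.D, Par.a, Par.b, Par.c, Par.U, Par.V, Par.Q, fRS, zeroPar]; ring

/-- The polynomial with given coefficients. -/
def pol5 (c0 c1 c2 c3 c4 : ℂ) : Polynomial ℂ :=
  Polynomial.C c0 + Polynomial.C c1 * Polynomial.X + Polynomial.C c2 * Polynomial.X ^ 2
    + Polynomial.C c3 * Polynomial.X ^ 3 + Polynomial.C c4 * Polynomial.X ^ 4

theorem eval_pol5 (c0 c1 c2 c3 c4 t : ℂ) :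
    (pol5 c0 c1 c2 c3 c4).eval t = c0 + c1 * t + c2 * t ^ 2 + c3 * t ^ 3 + c4 * t ^ 4 := by
  simp [pol5]

theorem pol5_ne {c0 c1 c2 c3 c4 : ℂ}
    (h : c0 ≠ 0 ∨ c1 ≠ 0 ∨ c2 ≠ 0 ∨ c3 ≠ 0 ∨ c4 ≠ 0) : pol5 c0 c1 c2 c3 c4 ≠ 0 := by
  intro h0
  obtain ⟨t, ht⟩ := exists_ne_of_coeff h
  apply ht
  rw [← eval_pol5, h0, Polynomial.eval_zero]

theorem normal_nf {q : Par} (h : Normal q) : NF q := by
  cases h
  · exact NF.m1 ..
  · exact NF.sep ..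
  · exact NF.tor ..
  · exact NF.tu ..
  · exact NF.u2 ..
  · exact NF.s2 ..
  · exact NF.bc ..
  · exact NF.f8 ..
  · exact NF.a2 ..
  · exact NF.rs ..

theorem normal_nondeg {q : Par} (h : Normal q) : q.Nondeg := by
  cases h with
  | m1 b0 b1 b2 w a0 a1 a2 c0 c1 h =>
    have h' : b0 ≠ 0 ∨ b1 ≠ 0 ∨ b2 ≠ 0 ∨ w / 2 ≠ 0 ∨ (0 : ℂ) ≠ 0 := by
      rcases h with h | h | h | h
      · exact Or.inl h
      · exact Or.inr (Or.inl h)
      · exact Or.inr (Or.inr (Or.inl h))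
      · exact Or.inr (Or.inr (Or.inr (Or.inl (div_ne_zero h two_ne_zero))))
    obtain ⟨t, ht⟩ := exists_ne_of_coeff h'
    exact ⟨0, t, by rw [D_fM1]; exact neg_ne_zero.mpr (pow_ne_zero 2 ht)⟩
  | sep f0 f1 f2 g0 g1 g2 hf hg =>
    have hf' : f0 ≠ 0 ∨ f1 ≠ 0 ∨ f2 ≠ 0 ∨ (0 : ℂ) ≠ 0 ∨ (0 : ℂ) ≠ 0 := by tauto
    have hg' : g0 ≠ 0 ∨ g1 ≠ 0 ∨ g2 ≠ 0 ∨ (0 : ℂ) ≠ 0 ∨ (0 : ℂ) ≠ 0 := by tauto
    obtain ⟨x, hx⟩ := exists_ne_of_coeff hf'
    obtain ⟨y, hy⟩ := exists_ne_of_coeff hg'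
    refine ⟨x, y, ?_⟩
    rw [D_fSEP]
    refine mul_ne_zero ?_ ?_
    · intro h0; apply hx; linear_combination h0
    · intro h0; apply hy; linear_combination h0
  | tor al be ga h =>
    refine ⟨1, 1, ?_⟩
    rw [D_fTOR]
    intro h0; apply h; linear_combination h0
  | tu al be ga h =>
    refine ⟨1, 1, ?_⟩
    rw [D_fTU]
    intro h0; apply h; linear_combination h0
  | u2 ga h => exact ⟨0, 0, by rw [D_fU2]; exact h⟩
  | s2 al be h =>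
    have h' : al ≠ 0 ∨ (1 : ℂ) ≠ 0 ∨ (0 : ℂ) ≠ 0 ∨ (0 : ℂ) ≠ 0 ∨ (0 : ℂ) ≠ 0 :=
      Or.inr (Or.inl one_ne_zero)
    obtain ⟨t, ht, ht'⟩ := exists_ne_two (pol5_ne h') Polynomial.X_ne_zero
    rw [eval_pol5] at ht
    rw [Polynomial.eval_X] at ht'
    refine ⟨t, 1, ?_⟩
    rw [D_fS2]
    refine mul_ne_zero (mul_ne_zero (by norm_num) h) (mul_ne_zero (by simpa using ht') ?_)
    intro h0; apply ht; linear_combination h0
  | bc p0 p1 p2 p3 p4 h =>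
    obtain ⟨s, hs⟩ := exists_ne_of_coeff h
    obtain ⟨t, ht, ht'⟩ := exists_ne_two (pol5_ne h) (Polynomial.X_sub_C_ne_zero s)
    rw [eval_pol5] at ht
    rw [Polynomial.eval_sub, Polynomial.eval_X, Polynomial.eval_C] at ht'
    refine ⟨s + t, s * t, ?_⟩
    rw [D_fBC]
    refine mul_ne_zero (mul_ne_zero (pow_ne_zero 2 ?_) hs) ht
    intro h0; apply ht'; linear_combination -h0
  | f8 m => exact ⟨0, 1, by rw [D_fF8]; simp⟩
  | a2 A U =>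
    have h' : (1 : ℂ) ≠ 0 ∨ (0 : ℂ) ≠ 0 ∨ (-3 * A) ≠ 0 ∨ (-U) ≠ 0 ∨ (0 : ℂ) ≠ 0 :=
      Or.inl one_ne_zero
    obtain ⟨t, ht, ht'⟩ := exists_ne_two (pol5_ne h') Polynomial.X_ne_zero
    rw [eval_pol5] at ht
    rw [Polynomial.eval_X] at ht'
    exact ⟨t, 0, by rw [D_fA2]; exact mul_ne_zero (pow_ne_zero 3 ht') ht⟩
  | rs ep => exact ⟨0, 1, by rw [D_fRS]; norm_num⟩

theorem normal_of_nf {q : Par} (h : NF q) (hq : q.Nondeg) : Normal q := by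
  obtain ⟨x, y, hxy⟩ := hq
  cases h with
  | m1 b0 b1 b2 w a0 a1 a2 c0 c1 =>
    refine Normal.m1 _ _ _ _ _ _ _ _ _ ?_
    by_contra hcon
    push Not at hcon
    obtain ⟨h0, h1, h2, h3⟩ := hcon
    apply hxy
    rw [D_fM1, h0, h1, h2, h3]
    ring
  | sep f0 f1 f2 g0 g1 g2 =>
    rw [D_fSEP] at hxy
    refine Normal.sep _ _ _ _ _ _ ?_ ?_
    · by_contra hcon
      push Not at hcon
      obtain ⟨h0, h1, h2⟩ := hcon
      apply hxy
      rw [h0, h1, h2]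
      ring
    · by_contra hcon
      push Not at hcon
      obtain ⟨h0, h1, h2⟩ := hcon
      apply hxy
      rw [h0, h1, h2]
      ring
  | tor al be ga =>
    refine Normal.tor _ _ _ fun h => hxy ?_
    rw [D_fTOR, h]
    ring
  | tu al be ga =>
    refine Normal.tu _ _ _ fun h => hxy ?_
    rw [D_fTU, h]
    ring
  | u2 ga =>
    refine Normal.u2 _ fun h => hxy ?_
    rw [D_fU2, h]
  | s2 al be =>
    refine Normal.s2 _ _ fun h => hxy ?_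
    rw [D_fS2, h]
    ring
  | bc p0 p1 p2 p3 p4 =>
    refine Normal.bc _ _ _ _ _ ?_
    by_contra hcon
    push Not at hcon
    obtain ⟨h0, h1, h2, h3, h4⟩ := hcon
    apply hxy
    rw [h0, h1, h2, h3, h4]
    simp only [Par.D, Par.a, Par.b, Par.c, Par.U, Par.V, Par.Q, fBC, zeroPar]
    ring
  | f8 m => exact Normal.f8 m
  | a2 A U => exact Normal.a2 A U
  | rs ep => exact Normal.rs ep

/-- Every normal form is flat. -/
theorem normal_flat {q : Par} (h : Normal q) : FlatP q :=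
  nf_flat (normal_nf h) (normal_nondeg h)

/-- The classification in the final form, from the local one. -/
theorem final_of_good (H : ∀ p : Par, p.Nondeg → FlatP p → Good p) :
    (∀ q, Normal q → q.Nondeg ∧ Flat q.a q.b q.c) ∧
    ∀ p : Par, p.Nondeg → (Flat p.a p.b p.c ↔ ∃ q, Normal q ∧ Equ p q) := by
  refine ⟨fun q hq => ⟨normal_nondeg hq, normal_flat hq⟩, fun p hp => ⟨fun hf => ?_, ?_⟩⟩
  · obtain ⟨q, hq, M, hM, hact⟩ := H p hp hf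
    exact ⟨q, normal_of_nf hq (nondeg_of_Act hM hact hp), Equ_of_Act hM hact⟩
  · rintro ⟨q, hq, hpq⟩
    obtain ⟨M, hM, hact⟩ := (equ_iff_rel.mp hpq).symm
    exact flatP_of_Act hM hact (normal_nondeg hq) (normal_flat hq)

end Pool.Agent.H38.FM
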