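import Pool.Agent.H67.FM.ParPoly

/-!
# The projective action on the parameters
-/

namespace FM67

open MvPolynomial Pool.Agent.H38.FM Matrix

/-- Tensors of type `S² V ⊗ S² V*`. -/
abbrev T4 := Fin 3 → Fin 3 → Fin 3 → Fin 3 → ℂ

/-- Value of the quadratic form with coefficients `g i j` at `X`. -/
noncomputable def Gf (g : T4) (X : Fin 3 → ℂ) : Matrix (Fin 3) (Fin 3) ℂ :=
  fun i j => ∑ k, ∑ l, g i j k l * (X k * X l)

/-- Matrix with rows `e_i × X`. -/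
def Kx (X : Fin 3 → ℂ) : Matrix (Fin 3) (Fin 3) ℂ :=
  !![0, -X 2, X 1; X 2, 0, -X 0; -X 1, X 0, 0]

/-- The quartic matrix of a tensor. -/
noncomputable def Hf (g : T4) (X : Fin 3 → ℂ) : Matrix (Fin 3) (Fin 3) ℂ :=
  Kx X * Gf g X * (Kx X)ᵀ

/-- The tensor of a parameter. -/
noncomputable def toT (p : Par) : T4 :=
  ![![![![p.a20, p.a11 / 2, p.a10 / 2], ![p.a11 / 2, p.a02, p.a01 / 2], ![p.a10 / 2, p.a01 / 2, p.a00]],
      ![![p.b20, p.b11 / 2, p.b10 / 2], ![p.b11 / 2, p.b02, p.b01 / 2], ![p.b10 / 2, p.b01 / 2, p.b00]],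
      ![![-p.u20 / 2, -p.u11 / 4, 0], ![-p.u11 / 4, -p.u02 / 2, 0], ![0, 0, 0]]],
    ![![![p.b20, p.b11 / 2, p.b10 / 2], ![p.b11 / 2, p.b02, p.b01 / 2], ![p.b10 / 2, p.b01 / 2, p.b00]],
      ![![p.c20, p.c11 / 2, p.c10 / 2], ![p.c11 / 2, p.c02, p.c01 / 2], ![p.c10 / 2, p.c01 / 2, p.c00]],
      ![![-p.v20 / 2, -p.v11 / 4, 0], ![-p.v11 / 4, -p.v02 / 2, 0], ![0, 0, 0]]],
    ![![![-p.u20 / 2, -p.u11 / 4, 0], ![-p.u11 / 4, -p.u02 / 2, 0], ![0, 0, 0]],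
      ![![-p.v20 / 2, -p.v11 / 4, 0], ![-p.v11 / 4, -p.v02 / 2, 0], ![0, 0, 0]],
      ![![p.q20, p.q11 / 2, 0], ![p.q11 / 2, p.q02, 0], ![0, 0, 0]]]]

/-- The parameter of a tensor. -/
noncomputable def fromT (g : T4) : Par where
  a00 := g 0 0 2 2
  b00 := g 0 1 2 2
  c00 := g 1 1 2 2
  a10 := g 0 0 0 2 + g 0 0 2 0 - 2 * g 0 2 2 2
  a01 := g 0 0 1 2 + g 0 0 2 1
  b10 := g 0 1 0 2 + g 0 1 2 0 - g 1 2 2 2
  b01 := g 0 1 1 2 + g 0 1 2 1 - g 0 2 2 2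
  c10 := g 1 1 0 2 + g 1 1 2 0
  c01 := g 1 1 1 2 + g 1 1 2 1 - 2 * g 1 2 2 2
  a20 := g 0 0 0 0 - 2 * (g 0 2 0 2 + g 0 2 2 0) + g 2 2 2 2
  a11 := g 0 0 0 1 + g 0 0 1 0 - 2 * (g 0 2 1 2 + g 0 2 2 1)
  a02 := g 0 0 1 1
  b20 := g 0 1 0 0 - (g 1 2 0 2 + g 1 2 2 0)
  b11 := g 0 1 0 1 + g 0 1 1 0 - (g 1 2 1 2 + g 1 2 2 1) - (g 0 2 0 2 + g 0 2 2 0) + g 2 2 2 2
  b02 := g 0 1 1 1 - (g 0 2 1 2 + g 0 2 2 1)
  c20 := g 1 1 0 0
  c11 := g 1 1 0 1 + g 1 1 1 0 - 2 * (g 1 2 0 2 + g 1 2 2 0)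
  c02 := g 1 1 1 1 - 2 * (g 1 2 1 2 + g 1 2 2 1) + g 2 2 2 2
  u20 := -2 * g 0 2 0 0 + (g 2 2 0 2 + g 2 2 2 0)
  u11 := -2 * (g 0 2 0 1 + g 0 2 1 0) + (g 2 2 1 2 + g 2 2 2 1)
  u02 := -2 * g 0 2 1 1
  v20 := -2 * g 1 2 0 0
  v11 := -2 * (g 1 2 0 1 + g 1 2 1 0) + (g 2 2 0 2 + g 2 2 2 0)
  v02 := -2 * g 1 2 1 1 + (g 2 2 1 2 + g 2 2 2 1)
  q20 := g 2 2 0 0
  q11 := g 2 2 0 1 + g 2 2 1 0
  q02 := g 2 2 1 1

/-- The quartic matrix of a parameter. -/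
noncomputable def Hp (p : Par) (X : Fin 3 → ℂ) : Matrix (Fin 3) (Fin 3) ℂ := Hf (toT p) X

/-- Change of gauge on tensors: `Gf (toT (fromT g)) = Gf g + x l^T + l x^T`. -/
theorem Gf_toT_fromT {g : T4} (hs : ∀ i j k l, g i j k l = g j i k l) (X : Fin 3 → ℂ) :
    ∃ l : Fin 3 → ℂ, ∀ i j, Gf (toT (fromT g)) X i j = Gf g X i j + X i * l j + l i * X j := by
  refine ⟨![-(g 0 2 0 2 + g 0 2 2 0) * X 0 - (g 0 2 1 2 + g 0 2 2 1) * X 1 - g 0 2 2 2 * X 2
      + g 2 2 2 2 / 2 * X 0,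
    -(g 1 2 0 2 + g 1 2 2 0) * X 0 - (g 1 2 1 2 + g 1 2 2 1) * X 1 - g 1 2 2 2 * X 2
      + g 2 2 2 2 / 2 * X 1,
    -(g 2 2 0 2 + g 2 2 2 0) / 2 * X 0 - (g 2 2 1 2 + g 2 2 2 1) / 2 * X 1
      - g 2 2 2 2 / 2 * X 2], fun i j => ?_⟩
  have h10 := fun k l => hs 1 0 k l
  have h20 := fun k l => hs 2 0 k l
  have h21 := fun k l => hs 2 1 k l
  fin_cases i <;> fin_cases j <;>
    simp [Gf, toT, fromT, Fin.sum_univ_three, h10, h20, h21] <;> ring

theorem Hf_toT_fromT {g : T4} (hs : ∀ i j k l, g i j k l = g j i k l) (X : Fin 3 → ℂ) :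
    Hf (toT (fromT g)) X = Hf g X := by
  obtain ⟨l, hl⟩ := Gf_toT_fromT hs X
  ext i j
  simp only [Hf, Matrix.mul_apply, Fin.sum_univ_three, Matrix.transpose_apply, hl]
  fin_cases i <;> fin_cases j <;> simp [Kx] <;> ring

/-- The action on tensors; `N` is the inverse of `M`. -/
noncomputable def actT (M N : Matrix (Fin 3) (Fin 3) ℂ) (g : T4) : T4 :=
  fun i j k l => ∑ a, ∑ b, ∑ c, ∑ d, M i a * M j b * g a b c d * (N c k * N d l)

theorem toT_symm (p : Par) (i j k l : Fin 3) : toT p i j k l = toT p j i k l := by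
  fin_cases i <;> fin_cases j <;> rfl

theorem actT_symm {M N : Matrix (Fin 3) (Fin 3) ℂ} {g : T4}
    (hs : ∀ i j k l, g i j k l = g j i k l) (i j k l : Fin 3) :
    actT M N g i j k l = actT M N g j i k l := by
  unfold actT
  rw [Finset.sum_comm]
  refine Finset.sum_congr rfl fun b _ => Finset.sum_congr rfl fun a _ =>
    Finset.sum_congr rfl fun c _ => Finset.sum_congr rfl fun d _ => ?_
  rw [hs a b c d]; ring

theorem Gf_actT (M N : Matrix (Fin 3) (Fin 3) ℂ) (g : T4) (X : Fin 3 → ℂ) :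
    Gf (actT M N g) X = M * Gf g (N.mulVec X) * Mᵀ := by
  ext i j
  simp only [Gf, actT, Matrix.mul_apply, Matrix.transpose_apply, Matrix.mulVec, dotProduct,
    Finset.sum_mul, Finset.mul_sum]
  -- LHS: sum over k l a b c d ; RHS: sum over b a c d k l
  calc ∑ k, ∑ l, ∑ a, ∑ b, ∑ c, ∑ d, M i a * M j b * g a b c d * (N c k * N d l) * (X k * X l)
      = ∑ k, ∑ a, ∑ l, ∑ b, ∑ c, ∑ d, M i a * M j b * g a b c d * (N c k * N d l) * (X k * X l) := by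
        refine Finset.sum_congr rfl fun k _ => ?_
        rw [Finset.sum_comm]
    _ = ∑ a, ∑ k, ∑ b, ∑ l, ∑ c, ∑ d, M i a * M j b * g a b c d * (N c k * N d l) * (X k * X l) := by
        rw [Finset.sum_comm]
        refine Finset.sum_congr rfl fun a _ => Finset.sum_congr rfl fun k _ => ?_
        rw [Finset.sum_comm]
    _ = ∑ a, ∑ b, ∑ k, ∑ c, ∑ l, ∑ d, M i a * M j b * g a b c d * (N c k * N d l) * (X k * X l) := by
        refine Finset.sum_congr rfl fun a _ => ?_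
        rw [Finset.sum_comm]
        refine Finset.sum_congr rfl fun b _ => Finset.sum_congr rfl fun k _ => ?_
        rw [Finset.sum_comm]
    _ = ∑ a, ∑ b, ∑ c, ∑ k, ∑ d, ∑ l, M i a * M j b * g a b c d * (N c k * N d l) * (X k * X l) := by
        refine Finset.sum_congr rfl fun a _ => Finset.sum_congr rfl fun b _ => ?_
        rw [Finset.sum_comm]
        refine Finset.sum_congr rfl fun c _ => Finset.sum_congr rfl fun k _ => ?_
        rw [Finset.sum_comm]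
    _ = ∑ a, ∑ b, ∑ c, ∑ d, ∑ k, ∑ l, M i a * M j b * g a b c d * (N c k * N d l) * (X k * X l) := by
        refine Finset.sum_congr rfl fun a _ => Finset.sum_congr rfl fun b _ =>
          Finset.sum_congr rfl fun c _ => ?_
        rw [Finset.sum_comm]
    _ = ∑ b, ∑ a, ∑ c, ∑ d, ∑ k, ∑ l, M i a * M j b * g a b c d * (N c k * N d l) * (X k * X l) := by
        rw [Finset.sum_comm]
    _ = _ := by
        refine Finset.sum_congr rfl fun b _ => Finset.sum_congr rfl fun a _ =>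
          Finset.sum_congr rfl fun c _ => Finset.sum_congr rfl fun d _ => ?_
        rw [Finset.sum_comm]
        refine Finset.sum_congr rfl fun l _ => Finset.sum_congr rfl fun k _ => ?_
        ring

/-- `K(M X) M = cof(M) K(X)`. -/
theorem Kx_mul (M : Matrix (Fin 3) (Fin 3) ℂ) (X : Fin 3 → ℂ) :
    Kx (M.mulVec X) * M = M.adjugateᵀ * Kx X := by
  ext i j
  rw [Matrix.adjugate_fin_three]
  simp only [Matrix.mul_apply, Fin.sum_univ_three, Matrix.transpose_apply]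
  fin_cases i <;> fin_cases j <;>
    simp [Kx, Matrix.mulVec, dotProduct, Fin.sum_univ_three] <;> ring

theorem Hf_actT (M N : Matrix (Fin 3) (Fin 3) ℂ) (h : N * M = 1) (g : T4) (X : Fin 3 → ℂ) :
    Hf (actT M N g) (M.mulVec X) = M.adjugateᵀ * Hf g X * M.adjugate := by
  have h1 : N.mulVec (M.mulVec X) = X := by rw [Matrix.mulVec_mulVec, h, Matrix.one_mulVec]
  have h2 : (Kx (M.mulVec X) * M)ᵀ = (M.adjugateᵀ * Kx X)ᵀ := by rw [Kx_mul]
  rw [Matrix.transpose_mul, Matrix.transpose_mul, Matrix.transpose_transpose] at h2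
  unfold Hf
  rw [Gf_actT, h1]
  calc Kx (M.mulVec X) * (M * Gf g X * Mᵀ) * (Kx (M.mulVec X))ᵀ
      = (Kx (M.mulVec X) * M) * Gf g X * (Mᵀ * (Kx (M.mulVec X))ᵀ) := by
        simp only [Matrix.mul_assoc]
    _ = _ := by
        rw [Kx_mul, h2]
        simp only [Matrix.mul_assoc]

/-- The action on parameters. -/
noncomputable def act (M N : Matrix (Fin 3) (Fin 3) ℂ) (p : Par) : Par := fromT (actT M N (toT p))

/-- The transformation law of the quartic matrices. -/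
def Act (M : Matrix (Fin 3) (Fin 3) ℂ) (p q : Par) : Prop :=
  ∀ X : Fin 3 → ℂ, Hp q (M.mulVec X) = M.adjugateᵀ * Hp p X * M.adjugate

theorem Act_act {M N : Matrix (Fin 3) (Fin 3) ℂ} (h : N * M = 1) (p : Par) :
    Act M p (act M N p) := by
  intro X
  rw [Hp, act, Hf_toT_fromT (actT_symm (toT_symm p)), Hf_actT M N h]
  rfl

theorem Act_trans {M N : Matrix (Fin 3) (Fin 3) ℂ} {p q r : Par} (h1 : Act M p q)
    (h2 : Act N q r) : Act (N * M) p r := by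
  intro X
  rw [← Matrix.mulVec_mulVec, h2, h1, Matrix.adjugate_mul_distrib, Matrix.transpose_mul]
  simp only [Matrix.mul_assoc]

theorem Act_one (p : Par) : Act 1 p p := by
  intro X
  simp

theorem Hp_explicit (p : Par) (x y : ℂ) :
    Hp p ![x, y, 1] 0 0 = p.c x y ∧ Hp p ![x, y, 1] 0 1 = -p.b x y ∧
    Hp p ![x, y, 1] 1 1 = p.a x y := by
  refine ⟨?_, ?_, ?_⟩
  all_goals
    simp only [Hp, Hf, Matrix.mul_apply, Fin.sum_univ_three, Matrix.transpose_apply]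
  · simp [Gf, toT, Kx, Fin.sum_univ_three, Par.c, Par.V, Par.Q]
    ring
  · simp [Gf, toT, Kx, Fin.sum_univ_three, Par.b, Par.U, Par.V, Par.Q]
    ring
  · simp [Gf, toT, Kx, Fin.sum_univ_three, Par.a, Par.U, Par.Q]
    ring

theorem Hp_smul (p : Par) (t : ℂ) (X : Fin 3 → ℂ) : Hp p (t • X) = t ^ 4 • Hp p X := by
  have h1 : Kx (t • X) = t • Kx X := by
    ext i j
    fin_cases i <;> fin_cases j <;> simp [Kx]
  have h2 : Gf (toT p) (t • X) = t ^ 2 • Gf (toT p) X := by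
    ext i j
    simp only [Gf, Matrix.smul_apply, Pi.smul_apply, smul_eq_mul, Finset.mul_sum]
    refine Finset.sum_congr rfl fun k _ => Finset.sum_congr rfl fun l _ => ?_
    ring
  unfold Hp Hf
  rw [h1, h2, Matrix.transpose_smul]
  simp only [Matrix.smul_mul, Matrix.mul_smul, smul_smul]
  congr 1
  ring

end FM67
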