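import Pool.Agent.H67.FM.Main
import Pool.Agent.H38.FM.Fam

/-!
# Basic objects of the local classification
-/

noncomputable section

namespace Pool.Agent.H38.FM

open FM67 Matrix

theorem Rel.refl (p : Par) : Rel p p := ⟨1, by simp, Act_one p⟩

theorem Rel.symm {p q : Par} (h : Rel p q) : Rel q p := by
  obtain ⟨M, hM, h⟩ := h
  obtain ⟨N, hMN, hNM⟩ := exists_inv hM
  refine ⟨N, fun h0 => ?_, Act_symm hMN h⟩
  have h1 := congrArg Matrix.det hMN
  rw [Matrix.det_mul, h0, mul_zero, Matrix.det_one] at h1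
  exact zero_ne_one h1

theorem Rel.trans {p q r : Par} (h1 : Rel p q) (h2 : Rel q r) : Rel p r := by
  obtain ⟨M, hM, h1⟩ := h1
  obtain ⟨N, hN, h2⟩ := h2
  exact ⟨N * M, by rw [Matrix.det_mul]; exact mul_ne_zero hN hM, Act_trans h1 h2⟩

theorem Good.of_rel {p q : Par} (h : Rel p q) (hq : Good q) : Good p := by
  obtain ⟨r, hr, hqr⟩ := hq
  exact ⟨r, hr, h.trans hqr⟩

/-- Flat, nondegenerate, with a zero at the origin. -/
def Base (p : Par) : Prop := p.Nondeg ∧ FlatP p ∧ p.a00 = 0 ∧ p.b00 = 0 ∧ p.c00 = 0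

theorem Base.of_rel {p q : Par} (h : Base p) (hr : Rel p q) (h1 : q.a00 = 0) (h2 : q.b00 = 0)
    (h3 : q.c00 = 0) : Base q := by
  obtain ⟨M, hM, hact⟩ := hr
  exact ⟨nondeg_of_Act hM hact h.1, flatP_of_Act hM hact h.1 h.2.1, h1, h2, h3⟩

theorem base_sys {p : Par} (h : Base p) : ∃ s, Sys p s := exists_sys h.1 h.2.1

theorem rel_shear (ka : ℂ) (p : Par) : Rel p (shear ka p) :=
  ⟨_, by simp [Matrix.det_fin_three], act_shear ka p⟩

theorem rel_gau (la mu : ℂ) (p : Par) : Rel p (gau la mu p) :=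
  ⟨_, by simp [Matrix.det_fin_three], act_gau la mu p⟩

theorem rel_swp (p : Par) : Rel p (swp p) :=
  ⟨_, by simp [Matrix.det_fin_three], act_swp p⟩

theorem rel_scal {la mu : ℂ} (hl : la ≠ 0) (hm : mu ≠ 0) (p : Par) : Rel p (scal la mu p) :=
  ⟨_, by simp [Matrix.det_fin_three, hl, hm], act_scal la mu hl hm p⟩

theorem Base.shear {p : Par} (h : Base p) (ka : ℂ) : Base (shear ka p) :=
  h.of_rel (rel_shear ka p) (by simp [FM.shear, h.2.2.1, h.2.2.2.1, h.2.2.2.2])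
    (by simp [FM.shear, h.2.2.2.1, h.2.2.2.2]) (by simp [FM.shear, h.2.2.2.2])

theorem Base.gau {p : Par} (h : Base p) (la mu : ℂ) : Base (gau la mu p) :=
  h.of_rel (rel_gau la mu p) (by simp [FM.gau, h.2.2.1])
    (by simp [FM.gau, h.2.2.2.1]) (by simp [FM.gau, h.2.2.2.2])

theorem Base.swp {p : Par} (h : Base p) : Base (swp p) :=
  h.of_rel (rel_swp p) (by simp [FM.swp, h.2.2.2.2])
    (by simp [FM.swp, h.2.2.2.1]) (by simp [FM.swp, h.2.2.1])

theorem Base.scal {p : Par} (h : Base p) {la mu : ℂ} (hl : la ≠ 0) (hm : mu ≠ 0) :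
    Base (scal la mu p) :=
  h.of_rel (rel_scal hl hm p) (by simp [FM.scal, h.2.2.1])
    (by simp [FM.scal, h.2.2.2.1]) (by simp [FM.scal, h.2.2.2.2])

/-- Reduction to the local classification. -/
theorem good_of_local (H : ∀ p : Par, Base p → Good p) {p : Par} (hp : p.Nondeg)
    (hf : FlatP p) : Good p := by
  obtain ⟨M, q, hM, hact, hq, hfq, h1, h2, h3⟩ := exists_zero_at_origin hp hf
  exact Good.of_rel ⟨M, hM, hact⟩ (H q ⟨hq, hfq, h1, h2, h3⟩)

end Pool.Agent.H38.FM
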