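import Mathlib

/-!
# Two plane curves meet: two forms of positive degree in three variables
over the complex numbers have a common nontrivial zero.
-/

namespace FM67

open MvPolynomial

/-- The ring of polynomials in three variables. -/
abbrev R3 := MvPolynomial (Fin 3) ℂ

/-- The scaling homomorphism `X i ↦ X i * T`. -/
noncomputable def scal {σ : Type*} : MvPolynomial σ ℂ →ₐ[ℂ] Polynomial (MvPolynomial σ ℂ) :=
  MvPolynomial.aeval (fun i => Polynomial.C (X i) * Polynomial.X)

theorem scal_monomial {σ : Type*} (s : σ →₀ ℕ) (c : ℂ) :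
    scal (monomial s c) = Polynomial.C (monomial s c) * Polynomial.X ^ s.degree := by
  unfold scal
  rw [MvPolynomial.aeval_monomial]
  simp only [mul_pow, Finsupp.prod, Finset.prod_mul_distrib]
  rw [Finset.prod_pow_eq_pow_sum, MvPolynomial.monomial_eq]
  have h1 : (algebraMap ℂ (Polynomial (MvPolynomial σ ℂ))) c = Polynomial.C (C c) := rfl
  have h2 : (∏ x ∈ s.support, (Polynomial.C (X x : MvPolynomial σ ℂ)) ^ s x)
      = Polynomial.C (∏ x ∈ s.support, (X x : MvPolynomial σ ℂ) ^ s x) := by
    rw [map_prod]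
    simp only [map_pow]
  rw [h1, h2, Polynomial.C_mul, Finsupp.degree_apply, Finsupp.prod, mul_assoc]

theorem scal_eq_of_homog {σ : Type*} {f : MvPolynomial σ ℂ} {n : ℕ} (h : f.IsHomogeneous n) :
    scal f = Polynomial.C f * Polynomial.X ^ n := by
  conv_lhs => rw [f.as_sum]
  conv_rhs => rw [f.as_sum]
  rw [map_sum, map_sum, Finset.sum_mul]
  refine Finset.sum_congr rfl fun s hs => ?_
  rw [scal_monomial]
  have : s.degree = n := by
    by_contra hne
    exact (MvPolynomial.mem_support_iff.mp hs) (h.coeff_eq_zero hne)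
  rw [this]

theorem scal_inj {σ : Type*} {f : MvPolynomial σ ℂ} : scal f = 0 → f = 0 := by
  intro h
  have h1 : (Polynomial.aeval (R := MvPolynomial σ ℂ) (1 : MvPolynomial σ ℂ)) (scal f) = f := by
    have : ((Polynomial.aeval (R := MvPolynomial σ ℂ)
        (1 : MvPolynomial σ ℂ)).restrictScalars ℂ).comp (scal (σ := σ)) = AlgHom.id ℂ _ := by
      ext i
      simp [scal]
    have h2 := DFunLike.congr_fun this f
    simpa using h2
  rw [← h1, h, map_zero]

theorem homog_of_scal {σ : Type*} {f : MvPolynomial σ ℂ} {n : ℕ}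
    (h : ∃ c, scal f = Polynomial.C c * Polynomial.X ^ n) : f.IsHomogeneous n := by
  obtain ⟨c, hc⟩ := h
  intro d hd
  have hw : Finsupp.weight (1 : σ → ℕ) d = d.degree := by
    rw [Finsupp.degree_eq_weight_one]; rfl
  rw [hw]
  by_contra hne
  have h1 : (scal f).coeff d.degree = 0 := by
    rw [hc, Polynomial.coeff_C_mul_X_pow]
    simp [hne]
  have h2 : (scal f).coeff d.degree = homogeneousComponent d.degree f := by
    conv_lhs => rw [f.as_sum]
    rw [map_sum, Polynomial.finsetSum_coeff, homogeneousComponent_apply, Finset.sum_filter]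
    refine Finset.sum_congr rfl fun s _ => ?_
    rw [scal_monomial, Polynomial.coeff_C_mul_X_pow]
    by_cases hs : s.degree = d.degree
    · simp [hs]
    · simp [hs, Ne.symm hs]
  rw [h2] at h1
  have h3 := congrArg (coeff d) h1
  rw [coeff_homogeneousComponent] at h3
  simp at h3
  exact hd h3

/-- A factor of a nonzero homogeneous polynomial is homogeneous. -/
theorem homog_of_mul {σ : Type*} {f g : MvPolynomial σ ℂ} {n : ℕ}
    (h : (f * g).IsHomogeneous n) (hf : f ≠ 0) (hg : g ≠ 0) :
    ∃ k l, f.IsHomogeneous k ∧ g.IsHomogeneous l ∧ k + l = n := by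
  have h0 : f * g ≠ 0 := mul_ne_zero hf hg
  have h1 : scal f * scal g = Polynomial.C (f * g) * Polynomial.X ^ n := by
    rw [← map_mul]; exact scal_eq_of_homog h
  have hF : scal f ≠ 0 := fun h => hf (scal_inj h)
  have hG : scal g ≠ 0 := fun h => hg (scal_inj h)
  have hd : (scal f).natDegree + (scal g).natDegree = n := by
    rw [← Polynomial.natDegree_mul hF hG, h1, Polynomial.natDegree_C_mul_X_pow n _ h0]
  have ht : (scal f).natTrailingDegree + (scal g).natTrailingDegree = n := by
    rw [← Polynomial.natTrailingDegree_mul hF hG, h1]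
    have := Polynomial.natTrailingDegree_mul_X_pow (p := Polynomial.C (f * g))
      (by simpa using h0) n
    rw [this]; simp [hf, hg]
  have hle1 := Polynomial.natTrailingDegree_le_natDegree (scal f)
  have hle2 := Polynomial.natTrailingDegree_le_natDegree (scal g)
  have e1 : (scal f).natTrailingDegree = (scal f).natDegree := by omega
  have e2 : (scal g).natTrailingDegree = (scal g).natDegree := by omega
  have key : ∀ p : Polynomial (MvPolynomial σ ℂ), p.natTrailingDegree = p.natDegree →
      ∃ c, p = Polynomial.C c * Polynomial.X ^ p.natDegree := by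
    intro p hp
    refine ⟨p.leadingCoeff, ?_⟩
    ext k : 1
    rw [Polynomial.coeff_C_mul_X_pow]
    split_ifs with hk
    · rw [hk]; rfl
    · rcases lt_or_gt_of_ne hk with h | h
      · exact Polynomial.coeff_eq_zero_of_lt_natTrailingDegree (hp ▸ h)
      · exact Polynomial.coeff_eq_zero_of_natDegree_lt h
  exact ⟨_, _, homog_of_scal (key _ e1), homog_of_scal (key _ e2), hd⟩

/-- The coordinate chain of primes of `R3`. -/
noncomputable def chn (k : ℕ) : R3 →ₐ[ℂ] R3 :=
  MvPolynomial.aeval (fun i : Fin 3 => if (i : ℕ) < k then 0 else X i)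

theorem chn_X_mem {k : ℕ} {i : Fin 3} (h : (i : ℕ) < k) :
    (X i : R3) ∈ RingHom.ker (chn k) := by
  rw [RingHom.mem_ker]; simp [chn, h]

theorem chn_X_notMem {k : ℕ} {i : Fin 3} (h : ¬ (i : ℕ) < k) :
    (X i : R3) ∉ RingHom.ker (chn k) := by
  rw [RingHom.mem_ker]; simp [chn, h]

theorem chn_le (k : ℕ) : RingHom.ker (chn k) ≤ RingHom.ker (chn (k + 1)) := by
  intro f hf
  rw [RingHom.mem_ker] at hf ⊢
  have : (chn (k+1)).comp (chn k) = chn (k + 1) := by
    ext i : 1
    by_cases hi : (i : ℕ) < k
    · simp [chn, hi]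
      intro h3
      omega
    · simp [chn, hi]
  rw [← this]
  simp [hf]

theorem chn_lt {k : ℕ} (h : k < 3) : RingHom.ker (chn k) < RingHom.ker (chn (k + 1)) := by
  refine lt_of_le_of_ne (chn_le k) fun he => ?_
  have h1 : (X (⟨k, h⟩ : Fin 3) : R3) ∈ RingHom.ker (chn (k + 1)) := chn_X_mem (by simp)
  rw [← he] at h1
  exact chn_X_notMem (by simp) h1

theorem chn_height {k : ℕ} (h : k ≤ 3) : (k : ℕ∞) ≤ (RingHom.ker (chn k)).height := by
  induction k with
  | zero => simp
  | succ k ih =>
    have h1 := ih (by omega)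
    have hp1 : (RingHom.ker (chn k)).IsPrime := RingHom.ker_isPrime _
    have hp2 : (RingHom.ker (chn (k+1))).IsPrime := RingHom.ker_isPrime _
    have h2 := Ideal.height_add_one_le_of_lt_of_isPrime (chn_lt (k := k) (by omega))
    push_cast
    exact le_trans (by gcongr) h2

theorem eval_zero_of_homog {f : R3} {n : ℕ} (h : f.IsHomogeneous n) (hn : 0 < n) :
    eval (0 : Fin 3 → ℂ) f = 0 := by
  rw [MvPolynomial.eval_zero]
  apply h.coeff_eq_zero
  simp; omega

/-- The kernel of `chn 3` consists of the polynomials without constant term. -/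
theorem mem_ker_chn3 {f : R3} : f ∈ RingHom.ker (chn 3) ↔ eval (0 : Fin 3 → ℂ) f = 0 := by
  rw [RingHom.mem_ker]
  have : chn 3 f = C (eval (0 : Fin 3 → ℂ) f) := by
    have h : chn 3 = (Algebra.ofId ℂ R3).comp (MvPolynomial.aeval (0 : Fin 3 → ℂ)) := by
      ext i : 1
      simp [chn]
    rw [h]
    rfl
  rw [this]
  simp

theorem ker_chn3_le {Q : Ideal R3} (h : ∀ i, (X i : R3) ∈ Q) : RingHom.ker (chn 3) ≤ Q := by
  intro f hf
  rw [mem_ker_chn3] at hf
  rw [f.as_sum]
  refine Q.sum_mem fun s hs => ?_
  have hs0 : s ≠ 0 := by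
    rintro rfl
    rw [MvPolynomial.eval_zero] at hf
    exact (MvPolynomial.mem_support_iff.mp hs) hf
  obtain ⟨i, hi⟩ : ∃ i, s i ≠ 0 := by
    by_contra hcon
    push Not at hcon
    exact hs0 (Finsupp.ext hcon)
  have : monomial s (coeff s f) = monomial (s - Finsupp.single i 1) (coeff s f) * X i := by
    have he : s = (s - Finsupp.single i 1) + Finsupp.single i 1 := by
      ext j
      by_cases hj : j = i
      · subst hj; simp; omega
      · simp [Ne.symm hj]
    rw [MvPolynomial.X, MvPolynomial.monomial_mul, mul_one, ← he]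
  rw [this]
  exact Q.mul_mem_left _ (h i)

/-- Two forms of positive degree in three variables have a common zero. -/
theorem exists_common_zero {f g : R3} {m n : ℕ} (hf : f.IsHomogeneous m)
    (hg : g.IsHomogeneous n) (hm : 0 < m) (hn : 0 < n) :
    ∃ p : Fin 3 → ℂ, p ≠ 0 ∧ eval p f = 0 ∧ eval p g = 0 := by
  classical
  by_contra hcon
  push Not at hcon
  set s : Finset R3 := {f, g} with hs
  have hcard : s.card ≤ 2 := Finset.card_le_two
  set I : Ideal R3 := Ideal.span (s : Set R3) with hI
  have hfI : f ∈ I := Ideal.subset_span (by simp [hs])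
  have hgI : g ∈ I := Ideal.subset_span (by simp [hs])
  have hprime : (RingHom.ker (chn 3)).IsPrime := RingHom.ker_isPrime _
  have hle : I ≤ RingHom.ker (chn 3) := by
    rw [hI, Ideal.span_le]
    intro q hq
    have : q = f ∨ q = g := by simpa [hs] using hq
    rw [SetLike.mem_coe, mem_ker_chn3]
    rcases this with rfl | rfl
    · exact eval_zero_of_homog hf hm
    · exact eval_zero_of_homog hg hn
  have hrad : ∀ i, (X i : R3) ∈ I.radical := by
    intro i
    rw [← MvPolynomial.vanishingIdeal_zeroLocus_eq_radical (K := ℂ)]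
    rw [MvPolynomial.mem_vanishingIdeal_iff]
    intro x hx
    rw [MvPolynomial.mem_zeroLocus_iff] at hx
    have h1 : eval x f = 0 := by simpa [MvPolynomial.aeval_eq_eval] using hx f hfI
    have h2 : eval x g = 0 := by simpa [MvPolynomial.aeval_eq_eval] using hx g hgI
    have h3 : x = 0 := by
      by_contra hx0
      exact hcon x hx0 h1 h2
    simp [h3]
  have hmin : RingHom.ker (chn 3) ∈ I.minimalPrimes := by
    refine ⟨⟨hprime, hle⟩, ?_⟩
    rintro Q ⟨hQ, hIQ⟩ _
    refine ker_chn3_le fun i => ?_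
    exact (hQ.radical_le_iff.mpr hIQ) (hrad i)
  have h1 := Ideal.height_le_card_of_mem_minimalPrimes_span_finset hmin
  have h2 := chn_height (le_refl 3)
  have h3 : ((3 : ℕ) : ℕ∞) ≤ (2 : ℕ) := le_trans h2 (le_trans h1 (by exact_mod_cast hcard))
  have h4 : (3 : ℕ) ≤ 2 := by exact_mod_cast h3
  omega

end FM67
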