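import Pool.Agent.H67.FM.Sq

/-!
# A tangent conic contains a zero
-/

namespace FM67

open MvPolynomial Matrix

/-- Pointwise computation at a point of the conic. -/
theorem conic_pt {H00 H01 H02 H11 H12 H22 m00 m01 m02 m11 m12 m22 p0 p1 p2 n0 n1 n2 x0 x1 x2
    h κ : ℂ}
    (hn0 : n0 = H00 * p0 + H01 * p1 + H02 * p2) (hn1 : n1 = H01 * p0 + H11 * p1 + H12 * p2)
    (hn2 : n2 = H02 * p0 + H12 * p1 + H22 * p2)
    (e0 : m00 * n0 + m01 * n1 + m02 * n2 = h * p0) (e1 : m01 * n0 + m11 * n1 + m12 * n2 = h * p1)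
    (e2 : m02 * n0 + m12 * n1 + m22 * n2 = h * p2)
    (htr : H00 * m00 + H11 * m11 + H22 * m22 + 2 * (H01 * m01 + H02 * m02 + H12 * m12) = 2 * h)
    (hδ : H00 * (H11 * H22 - H12 ^ 2) + H01 * (H02 * H12 - H01 * H22)
      + H02 * (H01 * H12 - H02 * H11) ≠ 0)
    (k0 : x1 * n2 - x2 * n1 = κ * p0) (k1 : x2 * n0 - x0 * n2 = κ * p1)
    (k2 : x0 * n1 - x1 * n0 = κ * p2) :
    (m01 * x0 + m11 * x1 + m12 * x2) * p2 - (m02 * x0 + m12 * x1 + m22 * x2) * p1 = 0 ∧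
    (m02 * x0 + m12 * x1 + m22 * x2) * p0 - (m00 * x0 + m01 * x1 + m02 * x2) * p2 = 0 ∧
    (m00 * x0 + m01 * x1 + m02 * x2) * p1 - (m01 * x0 + m11 * x1 + m12 * x2) * p0 = 0 := by
  set δ : ℂ := H00 * (H11 * H22 - H12 ^ 2) + H01 * (H02 * H12 - H01 * H22)
      + H02 * (H01 * H12 - H02 * H11) with hδd
  set t00 : ℂ := H11 * H22 - H12 ^ 2 with ht00
  set t01 : ℂ := H02 * H12 - H01 * H22 with ht01
  set t02 : ℂ := H01 * H12 - H02 * H11 with ht02
  set t11 : ℂ := H00 * H22 - H02 ^ 2 with ht11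
  set t12 : ℂ := H01 * H02 - H00 * H12 with ht12
  set t22 : ℂ := H00 * H11 - H01 ^ 2 with ht22
  have T0 : t00 * n0 + t01 * n1 + t02 * n2 = δ * p0 := by
    rw [hn0, hn1, hn2, hδd, ht00, ht01, ht02]; ring
  have T1 : t01 * n0 + t11 * n1 + t12 * n2 = δ * p1 := by
    rw [hn0, hn1, hn2, hδd, ht00, ht01, ht02, ht11, ht12]; ring
  have T2 : t02 * n0 + t12 * n1 + t22 * n2 = δ * p2 := by
    rw [hn0, hn1, hn2, hδd, ht00, ht01, ht02, ht12, ht22]; ring
  set w0 : ℂ := t00 * x0 + t01 * x1 + t02 * x2 with hw0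
  set w1 : ℂ := t01 * x0 + t11 * x1 + t12 * x2 with hw1
  set w2 : ℂ := t02 * x0 + t12 * x1 + t22 * x2 with hw2
  set u0 : ℂ := m00 * x0 + m01 * x1 + m02 * x2 with hu0
  set u1 : ℂ := m01 * x0 + m11 * x1 + m12 * x2 with hu1
  set u2 : ℂ := m02 * x0 + m12 * x1 + m22 * x2 with hu2
  -- identity I2
  have I20 : w1 * (t02 * n0 + t12 * n1 + t22 * n2) - w2 * (t01 * n0 + t11 * n1 + t12 * n2)
      = δ * (H00 * (x1 * n2 - x2 * n1) + H01 * (x2 * n0 - x0 * n2)
        + H02 * (x0 * n1 - x1 * n0)) := by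
    rw [hw1, hw2, hδd, ht00, ht01, ht02, ht11, ht12, ht22]; ring
  have I21 : w2 * (t00 * n0 + t01 * n1 + t02 * n2) - w0 * (t02 * n0 + t12 * n1 + t22 * n2)
      = δ * (H01 * (x1 * n2 - x2 * n1) + H11 * (x2 * n0 - x0 * n2)
        + H12 * (x0 * n1 - x1 * n0)) := by
    rw [hw0, hw2, hδd, ht00, ht01, ht02, ht12, ht22]; ring
  have I22 : w0 * (t01 * n0 + t11 * n1 + t12 * n2) - w1 * (t00 * n0 + t01 * n1 + t02 * n2)
      = δ * (H02 * (x1 * n2 - x2 * n1) + H12 * (x2 * n0 - x0 * n2)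
        + H22 * (x0 * n1 - x1 * n0)) := by
    rw [hw0, hw1, hδd, ht00, ht01, ht02, ht11, ht12]; ring
  rw [T1, T2, k0, k1, k2] at I20
  rw [T0, T2, k0, k1, k2] at I21
  rw [T0, T1, k0, k1, k2] at I22
  have W0 : w1 * p2 - w2 * p1 = κ * n0 := by
    refine mul_left_cancel₀ hδ ?_
    linear_combination I20 - δ * κ * hn0
  have W1 : w2 * p0 - w0 * p2 = κ * n1 := by
    refine mul_left_cancel₀ hδ ?_
    linear_combination I21 - δ * κ * hn1
  have W2 : w0 * p1 - w1 * p0 = κ * n2 := by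
    refine mul_left_cancel₀ hδ ?_
    linear_combination I22 - δ * κ * hn2
  -- identity I1
  have I10 : (u1 * (t02 * n0 + t12 * n1 + t22 * n2) - u2 * (t01 * n0 + t11 * n1 + t12 * n2))
      + (w1 * (m02 * n0 + m12 * n1 + m22 * n2) - w2 * (m01 * n0 + m11 * n1 + m12 * n2))
      = (H00 * m00 + H11 * m11 + H22 * m22 + 2 * (H01 * m01 + H02 * m02 + H12 * m12))
        * (H00 * (x1 * n2 - x2 * n1) + H01 * (x2 * n0 - x0 * n2) + H02 * (x0 * n1 - x1 * n0))
      - (H00 * (m00 * (H00 * (x1 * n2 - x2 * n1) + H01 * (x2 * n0 - x0 * n2) + H02 * (x0 * n1 - x1 * n0))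
          + m01 * (H01 * (x1 * n2 - x2 * n1) + H11 * (x2 * n0 - x0 * n2) + H12 * (x0 * n1 - x1 * n0))
          + m02 * (H02 * (x1 * n2 - x2 * n1) + H12 * (x2 * n0 - x0 * n2) + H22 * (x0 * n1 - x1 * n0)))
        + H01 * (m01 * (H00 * (x1 * n2 - x2 * n1) + H01 * (x2 * n0 - x0 * n2) + H02 * (x0 * n1 - x1 * n0))
          + m11 * (H01 * (x1 * n2 - x2 * n1) + H11 * (x2 * n0 - x0 * n2) + H12 * (x0 * n1 - x1 * n0))
          + m12 * (H02 * (x1 * n2 - x2 * n1) + H12 * (x2 * n0 - x0 * n2) + H22 * (x0 * n1 - x1 * n0)))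
        + H02 * (m02 * (H00 * (x1 * n2 - x2 * n1) + H01 * (x2 * n0 - x0 * n2) + H02 * (x0 * n1 - x1 * n0))
          + m12 * (H01 * (x1 * n2 - x2 * n1) + H11 * (x2 * n0 - x0 * n2) + H12 * (x0 * n1 - x1 * n0))
          + m22 * (H02 * (x1 * n2 - x2 * n1) + H12 * (x2 * n0 - x0 * n2) + H22 * (x0 * n1 - x1 * n0)))) := by
    rw [hu1, hu2, hw1, hw2, ht01, ht02, ht11, ht12, ht22]; ring
  have I11 : (u2 * (t00 * n0 + t01 * n1 + t02 * n2) - u0 * (t02 * n0 + t12 * n1 + t22 * n2))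
      + (w2 * (m00 * n0 + m01 * n1 + m02 * n2) - w0 * (m02 * n0 + m12 * n1 + m22 * n2))
      = (H00 * m00 + H11 * m11 + H22 * m22 + 2 * (H01 * m01 + H02 * m02 + H12 * m12))
        * (H01 * (x1 * n2 - x2 * n1) + H11 * (x2 * n0 - x0 * n2) + H12 * (x0 * n1 - x1 * n0))
      - (H01 * (m00 * (H00 * (x1 * n2 - x2 * n1) + H01 * (x2 * n0 - x0 * n2) + H02 * (x0 * n1 - x1 * n0))
          + m01 * (H01 * (x1 * n2 - x2 * n1) + H11 * (x2 * n0 - x0 * n2) + H12 * (x0 * n1 - x1 * n0))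
          + m02 * (H02 * (x1 * n2 - x2 * n1) + H12 * (x2 * n0 - x0 * n2) + H22 * (x0 * n1 - x1 * n0)))
        + H11 * (m01 * (H00 * (x1 * n2 - x2 * n1) + H01 * (x2 * n0 - x0 * n2) + H02 * (x0 * n1 - x1 * n0))
          + m11 * (H01 * (x1 * n2 - x2 * n1) + H11 * (x2 * n0 - x0 * n2) + H12 * (x0 * n1 - x1 * n0))
          + m12 * (H02 * (x1 * n2 - x2 * n1) + H12 * (x2 * n0 - x0 * n2) + H22 * (x0 * n1 - x1 * n0)))
        + H12 * (m02 * (H00 * (x1 * n2 - x2 * n1) + H01 * (x2 * n0 - x0 * n2) + H02 * (x0 * n1 - x1 * n0))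
          + m12 * (H01 * (x1 * n2 - x2 * n1) + H11 * (x2 * n0 - x0 * n2) + H12 * (x0 * n1 - x1 * n0))
          + m22 * (H02 * (x1 * n2 - x2 * n1) + H12 * (x2 * n0 - x0 * n2) + H22 * (x0 * n1 - x1 * n0)))) := by
    rw [hu0, hu2, hw0, hw2, ht00, ht01, ht02, ht12, ht22]; ring
  have I12 : (u0 * (t01 * n0 + t11 * n1 + t12 * n2) - u1 * (t00 * n0 + t01 * n1 + t02 * n2))
      + (w0 * (m01 * n0 + m11 * n1 + m12 * n2) - w1 * (m00 * n0 + m01 * n1 + m02 * n2))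
      = (H00 * m00 + H11 * m11 + H22 * m22 + 2 * (H01 * m01 + H02 * m02 + H12 * m12))
        * (H02 * (x1 * n2 - x2 * n1) + H12 * (x2 * n0 - x0 * n2) + H22 * (x0 * n1 - x1 * n0))
      - (H02 * (m00 * (H00 * (x1 * n2 - x2 * n1) + H01 * (x2 * n0 - x0 * n2) + H02 * (x0 * n1 - x1 * n0))
          + m01 * (H01 * (x1 * n2 - x2 * n1) + H11 * (x2 * n0 - x0 * n2) + H12 * (x0 * n1 - x1 * n0))
          + m02 * (H02 * (x1 * n2 - x2 * n1) + H12 * (x2 * n0 - x0 * n2) + H22 * (x0 * n1 - x1 * n0)))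
        + H12 * (m01 * (H00 * (x1 * n2 - x2 * n1) + H01 * (x2 * n0 - x0 * n2) + H02 * (x0 * n1 - x1 * n0))
          + m11 * (H01 * (x1 * n2 - x2 * n1) + H11 * (x2 * n0 - x0 * n2) + H12 * (x0 * n1 - x1 * n0))
          + m12 * (H02 * (x1 * n2 - x2 * n1) + H12 * (x2 * n0 - x0 * n2) + H22 * (x0 * n1 - x1 * n0)))
        + H22 * (m02 * (H00 * (x1 * n2 - x2 * n1) + H01 * (x2 * n0 - x0 * n2) + H02 * (x0 * n1 - x1 * n0))
          + m12 * (H01 * (x1 * n2 - x2 * n1) + H11 * (x2 * n0 - x0 * n2) + H12 * (x0 * n1 - x1 * n0))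
          + m22 * (H02 * (x1 * n2 - x2 * n1) + H12 * (x2 * n0 - x0 * n2) + H22 * (x0 * n1 - x1 * n0)))) := by
    rw [hu0, hu1, hw0, hw1, ht00, ht01, ht02, ht11, ht12]; ring
  rw [T1, T2, e1, e2, htr, k0, k1, k2] at I10
  rw [T0, T2, e0, e2, htr, k0, k1, k2] at I11
  rw [T0, T1, e0, e1, htr, k0, k1, k2] at I12
  refine ⟨?_, ?_, ?_⟩
  · refine (mul_eq_zero.mp ?_).resolve_left hδ
    linear_combination I10 - h * W0 - (2 * h * κ) * hn0
      + κ * (H00 * m00 + H01 * m01 + H02 * m02) * hn0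
      + κ * (H00 * m01 + H01 * m11 + H02 * m12) * hn1
      + κ * (H00 * m02 + H01 * m12 + H02 * m22) * hn2
      - κ * (H00 * e0 + H01 * e1 + H02 * e2) + κ * h * hn0
  · refine (mul_eq_zero.mp ?_).resolve_left hδ
    linear_combination I11 - h * W1 - (2 * h * κ) * hn1
      + κ * (H01 * m00 + H11 * m01 + H12 * m02) * hn0
      + κ * (H01 * m01 + H11 * m11 + H12 * m12) * hn1
      + κ * (H01 * m02 + H11 * m12 + H12 * m22) * hn2
      - κ * (H01 * e0 + H11 * e1 + H12 * e2) + κ * h * hn1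
  · refine (mul_eq_zero.mp ?_).resolve_left hδ
    linear_combination I12 - h * W2 - (2 * h * κ) * hn2
      + κ * (H02 * m00 + H12 * m01 + H22 * m02) * hn0
      + κ * (H02 * m01 + H12 * m11 + H22 * m12) * hn1
      + κ * (H02 * m02 + H12 * m12 + H22 * m22) * hn2
      - κ * (H02 * e0 + H12 * e1 + H22 * e2) + κ * h * hn2

/-- A tangent irreducible conic contains a zero. -/
theorem exists_zero_of_conic {G : Matrix (Fin 3) (Fin 3) R3} (hs : G.IsSymm)
    (hG : ∀ i j, (G i j).IsHomogeneous 2) {f : R3} (hf : f.IsHomogeneous 2)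
    (hfi : Irreducible f) (ht : Tang G f) : ∃ p : Fin 3 → ℂ, p ≠ 0 ∧ ZeroAt G p := by
  by_cases hsing : ∃ p : Fin 3 → ℂ, p ≠ 0 ∧ ∀ i, eval p (pderiv i f) = 0
  · obtain ⟨p, hp, hz⟩ := hsing
    exact ⟨p, hp, zeroAt_of_sing hs hp hf (by norm_num) hfi ht hz⟩
  push Not at hsing
  have hlin : ∀ i, ∃ a : Fin 3 → ℂ, pderiv i f = C (a 0) * X 0 + C (a 1) * X 1 + C (a 2) * X 2 :=
    fun i => linear_form (hf.pderiv (i := i))
  choose H hH using hlin
  have hcomm : ∀ i j, pderiv j (pderiv i f) = C (H i j) := by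
    intro i j
    rw [hH i]
    fin_cases j <;> simp [pderiv_X, Pi.single_apply]
  have hsymm : ∀ i j, H i j = H j i := by
    intro i j
    have h : ⁅(pderiv j : Derivation ℂ R3 R3), (pderiv i : Derivation ℂ R3 R3)⁆ = 0 := by
      apply MvPolynomial.derivation_ext
      intro k
      rw [Derivation.commutator_apply]
      fin_cases k <;> simp [pderiv_X, Pi.single_apply, apply_ite]
    have h2 := DFunLike.congr_fun h f
    rw [Derivation.commutator_apply, hcomm, hcomm] at h2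
    have h3 : C (H i j) = (C (H j i) : R3) := by simpa [sub_eq_zero] using h2
    exact C_injective _ _ h3
  have h10 := hsymm 1 0
  have h20 := hsymm 2 0
  have h21 := hsymm 2 1
  have hδ : H 0 0 * (H 1 1 * H 2 2 - H 1 2 ^ 2) + H 0 1 * (H 0 2 * H 1 2 - H 0 1 * H 2 2)
      + H 0 2 * (H 0 1 * H 1 2 - H 0 2 * H 1 1) ≠ 0 := by
    intro hz
    have hdet : (Matrix.of H).det = 0 := by
      rw [Matrix.det_fin_three]
      simp only [Matrix.of_apply, h10, h20, h21]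
      linear_combination hz
    obtain ⟨p, hp, hv⟩ := Matrix.exists_mulVec_eq_zero_iff.mpr hdet
    obtain ⟨i, hi⟩ := hsing p hp
    apply hi
    have h1 := congrFun hv i
    simp only [Matrix.mulVec, dotProduct, Fin.sum_univ_three, Matrix.of_apply,
      Pi.zero_apply] at h1
    rw [hH i]
    simpa using h1
  obtain ⟨l, hl, h, hh, hv⟩ := exists_gauge hG hf (by norm_num) hfi.ne_zero ht
  set M := reg G l with hM
  have hMs : M.IsSymm := reg_symm hs l
  have hMh : ∀ i j, (M i j).IsHomogeneous 2 := reg_homog hG hl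
  have m10 : M 1 0 = M 0 1 := hMs.apply 0 1
  have m20 : M 2 0 = M 0 2 := hMs.apply 0 2
  have m21 : M 2 1 = M 1 2 := hMs.apply 1 2
  set L : R3 := C 2 * h - (C (H 0 0) * M 0 0 + C (H 1 1) * M 1 1 + C (H 2 2) * M 2 2
    + C 2 * (C (H 0 1) * M 0 1 + C (H 0 2) * M 0 2 + C (H 1 2) * M 1 2)) with hL
  have hLh : L.IsHomogeneous 2 :=
    (hh.C_mul _).sub (((((hMh 0 0).C_mul _).add ((hMh 1 1).C_mul _)).add ((hMh 2 2).C_mul _)).add
      (((((hMh 0 1).C_mul _).add ((hMh 0 2).C_mul _)).add ((hMh 1 2).C_mul _)).C_mul _))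
  obtain ⟨p, hp, hpf, hpL⟩ := exists_common_zero hf hLh (by norm_num) (by norm_num)
  refine ⟨p, hp, ?_⟩
  apply zeroAt_reg (l := l)
  rw [← hM]
  obtain ⟨k, hk⟩ : ∃ i, p i ≠ 0 := by
    by_contra hcon
    push Not at hcon
    exact hp (funext hcon)
  have hE := congrArg (eval p) (euler3 hf)
  have en : ∀ i, eval p (pderiv i f) = H i 0 * p 0 + H i 1 * p 1 + H i 2 * p 2 := by
    intro i; rw [hH i]; simp
  have e0 := congrArg (eval p) (hv 0)
  have e1 := congrArg (eval p) (hv 1)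
  have e2 := congrArg (eval p) (hv 2)
  simp only [Matrix.mulVec, dotProduct, gr, Fin.sum_univ_three, m10, m20, m21, map_add, map_mul,
    eval_X] at e0 e1 e2 hE
  rw [hpf, mul_zero] at hE
  have htr : H 0 0 * eval p (M 0 0) + H 1 1 * eval p (M 1 1) + H 2 2 * eval p (M 2 2)
      + 2 * (H 0 1 * eval p (M 0 1) + H 0 2 * eval p (M 0 2) + H 1 2 * eval p (M 1 2))
      = 2 * eval p h := by
    simp only [hL, map_sub, map_add, map_mul, eval_C] at hpL
    linear_combination -hpL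
  intro ξ η hξ hη
  -- M η is parallel to p
  set n0 := eval p (pderiv 0 f) with hn0
  set n1 := eval p (pderiv 1 f) with hn1
  set n2 := eval p (pderiv 2 f) with hn2
  rw [dotProduct, Fin.sum_univ_three] at hξ hη
  obtain ⟨κ, k0, k1, k2⟩ : ∃ κ : ℂ, η 1 * n2 - η 2 * n1 = κ * p 0 ∧
      η 2 * n0 - η 0 * n2 = κ * p 1 ∧ η 0 * n1 - η 1 * n0 = κ * p 2 := by
    fin_cases k
    · simp at hk
      refine ⟨(η 1 * n2 - η 2 * n1) / p 0, by field_simp, ?_, ?_⟩
      · field_simp; linear_combination η 2 * hE - n2 * hη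
      · field_simp; linear_combination -η 1 * hE + n1 * hη
    · simp at hk
      refine ⟨(η 2 * n0 - η 0 * n2) / p 1, ?_, by field_simp, ?_⟩
      · field_simp; linear_combination -η 2 * hE + n2 * hη
      · field_simp; linear_combination η 0 * hE - n0 * hη
    · simp at hk
      refine ⟨(η 0 * n1 - η 1 * n0) / p 2, ?_, ?_, by field_simp⟩
      · field_simp; linear_combination η 1 * hE - n1 * hη
      · field_simp; linear_combination -η 0 * hE + n0 * hη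
  have key := conic_pt (H00 := H 0 0) (H01 := H 0 1) (H02 := H 0 2) (H11 := H 1 1)
    (H12 := H 1 2) (H22 := H 2 2) (m00 := eval p (M 0 0)) (m01 := eval p (M 0 1))
    (m02 := eval p (M 0 2)) (m11 := eval p (M 1 1)) (m12 := eval p (M 1 2))
    (m22 := eval p (M 2 2)) (en 0) (by rw [hn1, en 1, h10]) (by rw [hn2, en 2, h20, h21])
    e0 e1 e2 htr hδ k0 k1 k2
  obtain ⟨c0, c1, c2⟩ := key
  simp only [dotProduct, Matrix.mulVec, Matrix.map_apply, Fin.sum_univ_three, m10, m20, m21]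
  refine (mul_eq_zero.mp ?_).resolve_left hk
  fin_cases k
  · show p 0 * _ = 0
    linear_combination (eval p (M 0 0) * η 0 + eval p (M 0 1) * η 1 + eval p (M 0 2) * η 2) * hξ
      - ξ 1 * c2 + ξ 2 * c1
  · show p 1 * _ = 0
    linear_combination (eval p (M 0 1) * η 0 + eval p (M 1 1) * η 1 + eval p (M 1 2) * η 2) * hξ
      + ξ 0 * c2 - ξ 2 * c0
  · show p 2 * _ = 0
    linear_combination (eval p (M 0 2) * η 0 + eval p (M 1 2) * η 1 + eval p (M 2 2) * η 2) * hξ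
      - ξ 0 * c1 + ξ 1 * c0

end FM67
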