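import Pool.Agent.H67.FM.Equ

/-!
# Covariance of flatness under projective transformations
-/

namespace FM67

open MvPolynomial Pool.Agent.H38.FM Matrix

/-- The flatness polynomial at the origin. -/
noncomputable def E0 (p : Par) : ℂ := ev (Ep (pa p) (pb p) (pc p)) 0 0

/-- Explicit form in the coefficients up to order two. -/
noncomputable def e18 (p : Par) : ℂ :=
  let D := p.a00 * p.c00 - p.b00 ^ 2
  let Dx := p.a10 * p.c00 + p.a00 * p.c10 - 2 * p.b00 * p.b10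
  let Dy := p.a01 * p.c00 + p.a00 * p.c01 - 2 * p.b00 * p.b01
  let Dxx := 2 * (p.a20 * p.c00 + p.a10 * p.c10 + p.a00 * p.c20 - 2 * p.b00 * p.b20 - p.b10 ^ 2)
  let Dxy := p.a11 * p.c00 + p.a10 * p.c01 + p.a01 * p.c10 + p.a00 * p.c11
    - 2 * p.b00 * p.b11 - 2 * p.b10 * p.b01
  let Dyy := 2 * (p.a02 * p.c00 + p.a01 * p.c01 + p.a00 * p.c02 - 2 * p.b00 * p.b02 - p.b01 ^ 2)
  let s1 := D * (p.b10 + p.c01) - (p.b00 * Dx + p.c00 * Dy)
  let s2 := -(D * (p.a10 + p.b01)) + (p.a00 * Dx + p.b00 * Dy)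
  let s2x := -(Dx * (p.a10 + p.b01)) - D * (2 * p.a20 + p.b11)
    + (p.a10 * Dx + p.a00 * Dxx + p.b10 * Dy + p.b00 * Dxy)
  let s1y := Dy * (p.b10 + p.c01) + D * (p.b11 + 2 * p.c02)
    - (p.b01 * Dx + p.b00 * Dxy + p.c01 * Dy + p.c00 * Dyy)
  2 * D * (s2x - s1y) - 3 * (Dx * s2 - Dy * s1)
    + D * (p.a00 * (p.c10 * p.b01 - p.c01 * p.b10) + p.b00 * (p.a10 * p.c01 - p.a01 * p.c10)
      + p.c00 * (p.b10 * p.a01 - p.b01 * p.a10))

theorem E0_eq (p : Par) : E0 p = e18 p := by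
  have e2' : ev (2 : R2) 0 0 = 2 := map_ofNat _ 2
  have e3' : ev (3 : R2) 0 0 = 3 := map_ofNat _ 3
  simp only [ev] at e2' e3'
  simp only [E0, ev, Ep, sg1, sg2, om3, Dp, e18]
  simp only [pa, pb, pc, Up, Vp, Qp]
  simp [pderiv_X, pd_two, e2', e3']
  ring

end FM67
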