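import Pool.Agent.H67.FM.Cov

/-!
# Covariance of flatness: general lemmas
-/

namespace FM67

open MvPolynomial Pool.Agent.H38.FM Matrix

theorem pabc_of_Hp {p q : Par} (h : ∀ X, Hp p X = Hp q X) :
    pa p = pa q ∧ pb p = pb q ∧ pc p = pc q := by
  refine ⟨?_, ?_, ?_⟩
  · rw [← sub_eq_zero]
    apply ev_eq_zero
    intro x y
    have h1 := congrFun (congrFun (h ![x, y, 1]) 1) 1
    rw [(Hp_explicit p x y).2.2, (Hp_explicit q x y).2.2, ← ev_pa, ← ev_pa] at h1
    simp only [ev, map_sub] at h1 ⊢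
    rw [h1, sub_self]
  · rw [← sub_eq_zero]
    apply ev_eq_zero
    intro x y
    have h1 := congrFun (congrFun (h ![x, y, 1]) 0) 1
    rw [(Hp_explicit p x y).2.1, (Hp_explicit q x y).2.1, ← ev_pb, ← ev_pb] at h1
    simp only [ev, map_sub] at h1 ⊢
    rw [neg_inj.mp h1, sub_self]
  · rw [← sub_eq_zero]
    apply ev_eq_zero
    intro x y
    have h1 := congrFun (congrFun (h ![x, y, 1]) 0) 0
    rw [(Hp_explicit p x y).1, (Hp_explicit q x y).1, ← ev_pc, ← ev_pc] at h1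
    simp only [ev, map_sub] at h1 ⊢
    rw [h1, sub_self]

theorem E0_congr {p q : Par} (h : ∀ X, Hp p X = Hp q X) : E0 p = E0 q := by
  obtain ⟨h1, h2, h3⟩ := pabc_of_Hp h
  rw [E0, E0, h1, h2, h3]

theorem Act_unique {M N : Matrix (Fin 3) (Fin 3) ℂ} (hMN : M * N = 1) {p q r : Par}
    (h1 : Act M p q) (h2 : Act M p r) (X : Fin 3 → ℂ) : Hp q X = Hp r X := by
  have hX : X = M.mulVec (N.mulVec X) := by
    rw [Matrix.mulVec_mulVec, hMN, Matrix.one_mulVec]
  rw [hX, h1, h2]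

theorem Act_symm {M N : Matrix (Fin 3) (Fin 3) ℂ} (hMN : M * N = 1) {p q : Par}
    (h : Act M p q) : Act N q p := by
  intro X
  have hNM : N * M = 1 := mul_eq_one_comm.mp hMN
  have hadj : M.adjugate * N.adjugate = 1 := by
    rw [← Matrix.adjugate_mul_distrib, hNM, Matrix.adjugate_one]
  have hX : X = M.mulVec (N.mulVec X) := by
    rw [Matrix.mulVec_mulVec, hMN, Matrix.one_mulVec]
  have h1 := h (N.mulVec X)
  rw [← hX] at h1
  rw [h1]
  calc Hp p (N.mulVec X) = (M.adjugate * N.adjugate)ᵀ * Hp p (N.mulVec X)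
        * (M.adjugate * N.adjugate) := by
        rw [hadj, Matrix.transpose_one, Matrix.one_mul, Matrix.mul_one]
    _ = _ := by
        rw [Matrix.transpose_mul]
        simp only [Matrix.mul_assoc]

/-- Cancellation in the transformation law. -/
theorem Act_of_comp {M M' N : Matrix (Fin 3) (Fin 3) ℂ} (hM : M * M' = 1) {p r q : Par}
    (h1 : Act (N * M) p q) (h2 : Act M p r) : Act N r q := by
  have h3 := Act_trans (Act_symm hM h2) h1
  rwa [Matrix.mul_assoc, hM, Matrix.mul_one] at h3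

theorem Act_smul_iff {M : Matrix (Fin 3) (Fin 3) ℂ} {c : ℂ} (hc : c ≠ 0) {p q : Par} :
    Act (c • M) p q ↔ Act M p q := by
  have key : ∀ X : Fin 3 → ℂ, (c • M).adjugateᵀ * Hp p X * (c • M).adjugate
      = c ^ 4 • (M.adjugateᵀ * Hp p X * M.adjugate) := by
    intro X
    rw [Matrix.adjugate_smul, Fintype.card_fin, Matrix.transpose_smul]
    simp only [Matrix.smul_mul, Matrix.mul_smul, smul_smul]
    congr 1
    ring
  constructor
  · intro h X
    have h1 := h X
    rw [key, Matrix.smul_mulVec, Hp_smul] at h1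
    exact smul_right_injective _ (pow_ne_zero 4 hc) h1
  · intro h X
    rw [key, Matrix.smul_mulVec, Hp_smul, h X]

/-- Covariance at the origin under a matrix. -/
def CovM (M : Matrix (Fin 3) (Fin 3) ℂ) : Prop :=
  ∃ c : ℂ, c ≠ 0 ∧ ∀ p q : Par, Act M p q → E0 q = c * E0 p

theorem CovM_of_act {M N : Matrix (Fin 3) (Fin 3) ℂ} (hNM : N * M = 1) {c : ℂ} (hc : c ≠ 0)
    (h : ∀ p, e18 (act M N p) = c * e18 p) : CovM M := by
  refine ⟨c, hc, fun p q hq => ?_⟩
  rw [E0_congr (Act_unique (mul_eq_one_comm.mp hNM) hq (Act_act hNM p)), E0_eq, E0_eq, h]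

theorem exists_inv {M : Matrix (Fin 3) (Fin 3) ℂ} (hM : M.det ≠ 0) :
    ∃ N, M * N = 1 ∧ N * M = 1 :=
  ⟨M⁻¹, Matrix.mul_nonsing_inv M (isUnit_iff_ne_zero.mpr hM),
    Matrix.nonsing_inv_mul M (isUnit_iff_ne_zero.mpr hM)⟩

theorem CovM_mul {M N : Matrix (Fin 3) (Fin 3) ℂ} (hM : M.det ≠ 0)
    (h1 : CovM N) (h2 : CovM M) : CovM (N * M) := by
  obtain ⟨c, hc, h⟩ := h1
  obtain ⟨d, hd, h'⟩ := h2
  obtain ⟨M', hM', hM''⟩ := exists_inv hM
  refine ⟨c * d, mul_ne_zero hc hd, fun p q hq => ?_⟩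
  have hr := Act_act hM'' p
  rw [h _ q (Act_of_comp hM' hq hr), h' p _ hr, mul_assoc]

theorem CovM_smul {M : Matrix (Fin 3) (Fin 3) ℂ} {c : ℂ} (hc : c ≠ 0) (h : CovM M) :
    CovM (c • M) := by
  obtain ⟨d, hd, h'⟩ := h
  exact ⟨d, hd, fun p q hq => h' p q ((Act_smul_iff hc).mp hq)⟩

/-- Translation matrices. -/
def Tr (x0 y0 : ℂ) : Matrix (Fin 3) (Fin 3) ℂ := !![1, 0, x0; 0, 1, y0; 0, 0, 1]

theorem Tr_mul (x0 y0 : ℂ) : Tr x0 y0 * Tr (-x0) (-y0) = 1 := by
  ext i j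
  fin_cases i <;> fin_cases j <;> simp [Tr, Matrix.mul_apply, Fin.sum_univ_three]

theorem Tr_mul' (x0 y0 : ℂ) : Tr (-x0) (-y0) * Tr x0 y0 = 1 := mul_eq_one_comm.mp (Tr_mul x0 y0)

theorem Tr_det (x0 y0 : ℂ) : (Tr x0 y0).det = 1 := by
  simp [Tr, Matrix.det_fin_three]

theorem Tr_mulVec (x0 y0 x y : ℂ) : (Tr x0 y0).mulVec ![x, y, 1] = ![x + x0, y + y0, 1] := by
  ext i
  fin_cases i <;> simp [Tr, Matrix.mulVec, dotProduct, Fin.sum_univ_three]

/-- Translation of polynomials. -/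
noncomputable def tau (x0 y0 : ℂ) : R2 →ₐ[ℂ] R2 := aeval ![X 0 + C x0, X 1 + C y0]

theorem ev_tau (x0 y0 : ℂ) (f : R2) (x y : ℂ) : ev (tau x0 y0 f) x y = ev f (x + x0) (y + y0) := by
  induction f using MvPolynomial.induction_on with
  | C a => simp [ev, tau]
  | add f g hf hg =>
    simp only [ev, map_add] at hf hg ⊢
    rw [hf, hg]
  | mul_X f i hf =>
    simp only [ev, map_mul] at hf ⊢
    rw [hf]
    congr 1
    fin_cases i <;> simp [tau]

theorem pderiv_tau (x0 y0 : ℂ) (i : Fin 2) (f : R2) :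
    pderiv i (tau x0 y0 f) = tau x0 y0 (pderiv i f) := by
  induction f using MvPolynomial.induction_on with
  | C a => simp [tau]
  | add f g hf hg => simp only [map_add, hf, hg]
  | mul_X f j hf =>
    rw [map_mul, pderiv_mul, pderiv_mul, hf, map_add, map_mul, map_mul]
    congr 2
    fin_cases i <;> fin_cases j <;> simp [tau, pderiv_X]

theorem Ep_tau (x0 y0 : ℂ) (a b c : R2) :
    Ep (tau x0 y0 a) (tau x0 y0 b) (tau x0 y0 c) = tau x0 y0 (Ep a b c) := by
  have hD : Dp (tau x0 y0 a) (tau x0 y0 b) (tau x0 y0 c) = tau x0 y0 (Dp a b c) := by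
    simp [Dp]
  have h1 : sg1 (tau x0 y0 a) (tau x0 y0 b) (tau x0 y0 c) = tau x0 y0 (sg1 a b c) := by
    simp only [sg1, hD, pderiv_tau, map_add, map_sub, map_mul]
  have h2 : sg2 (tau x0 y0 a) (tau x0 y0 b) (tau x0 y0 c) = tau x0 y0 (sg2 a b c) := by
    simp only [sg2, hD, pderiv_tau, map_add, map_sub, map_mul, map_neg]
  have h3 : om3 (tau x0 y0 a) (tau x0 y0 b) (tau x0 y0 c) = tau x0 y0 (om3 a b c) := by
    simp only [om3, pderiv_tau, map_add, map_sub, map_mul]
  simp only [Ep, hD, h1, h2, h3, pderiv_tau, map_add, map_sub, map_mul, map_ofNat]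

/-- The value of the flatness polynomial at a point as value at the origin of the translate. -/
theorem E0_translate {p p0 : Par} {x0 y0 : ℂ} (h : Act (Tr x0 y0) p0 p) :
    E0 p0 = ev (Ep (pa p) (pb p) (pc p)) x0 y0 := by
  have hadj : (Tr x0 y0).adjugate = Tr (-x0) (-y0) := by
    rw [Matrix.adjugate_fin_three]
    ext i j
    fin_cases i <;> fin_cases j <;> simp [Tr]
  have hH : ∀ x y : ℂ, p.c (x + x0) (y + y0) = p0.c x y ∧ p.b (x + x0) (y + y0) = p0.b x y ∧
      p.a (x + x0) (y + y0) = p0.a x y := by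
    intro x y
    have h1 := h ![x, y, 1]
    rw [Tr_mulVec, hadj] at h1
    have e00 := congrFun (congrFun h1 0) 0
    have e01 := congrFun (congrFun h1 0) 1
    have e11 := congrFun (congrFun h1 1) 1
    simp only [Matrix.mul_apply, Fin.sum_univ_three, Matrix.transpose_apply] at e00 e01 e11
    rw [(Hp_explicit p _ _).1] at e00
    rw [(Hp_explicit p _ _).2.1] at e01
    rw [(Hp_explicit p _ _).2.2] at e11
    simp only [Tr, Matrix.of_apply, Matrix.cons_val', Matrix.cons_val_zero, Matrix.cons_val_one,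
      Matrix.cons_val_fin_one, Matrix.cons_val, zero_mul, mul_zero, one_mul,
      mul_one, add_zero, zero_add] at e00 e01 e11
    rw [(Hp_explicit p0 _ _).1] at e00
    rw [(Hp_explicit p0 _ _).2.1] at e01
    rw [(Hp_explicit p0 _ _).2.2] at e11
    exact ⟨e00, neg_inj.mp e01, e11⟩
  have ha : pa p0 = tau x0 y0 (pa p) := by
    rw [← sub_eq_zero]
    apply ev_eq_zero
    intro x y
    have := ev_tau x0 y0 (pa p) x y
    rw [ev_pa, (hH x y).2.2, ← ev_pa] at this
    simp only [ev, map_sub] at this ⊢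
    rw [this, sub_self]
  have hb : pb p0 = tau x0 y0 (pb p) := by
    rw [← sub_eq_zero]
    apply ev_eq_zero
    intro x y
    have := ev_tau x0 y0 (pb p) x y
    rw [ev_pb, (hH x y).2.1, ← ev_pb] at this
    simp only [ev, map_sub] at this ⊢
    rw [this, sub_self]
  have hc : pc p0 = tau x0 y0 (pc p) := by
    rw [← sub_eq_zero]
    apply ev_eq_zero
    intro x y
    have := ev_tau x0 y0 (pc p) x y
    rw [ev_pc, (hH x y).1, ← ev_pc] at this
    simp only [ev, map_sub] at this ⊢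
    rw [this, sub_self]
  rw [E0, ha, hb, hc, Ep_tau, ev_tau, zero_add, zero_add]

end FM67
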