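import Pool.Agent.H67.FM.GFast

/-!
# Generators of the stabiliser of the origin: 01
-/

namespace FM67

open MvPolynomial Pool.Agent.H38.FM Matrix

private theorem rM0 (t : ℂ) (f : Fin 3 → ℂ) :
    ∑ a, (!![1, t, 0; 0, 1, 0; 0, 0, 1] : Matrix (Fin 3) (Fin 3) ℂ) 0 a * f a = f 0 + t * f 1 := by
  simp [Fin.sum_univ_three]

private theorem rM1 (t : ℂ) (f : Fin 3 → ℂ) :
    ∑ a, (!![1, t, 0; 0, 1, 0; 0, 0, 1] : Matrix (Fin 3) (Fin 3) ℂ) 1 a * f a = f 1 := by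
  simp [Fin.sum_univ_three]

private theorem rM2 (t : ℂ) (f : Fin 3 → ℂ) :
    ∑ a, (!![1, t, 0; 0, 1, 0; 0, 0, 1] : Matrix (Fin 3) (Fin 3) ℂ) 2 a * f a = f 2 := by
  simp [Fin.sum_univ_three]

private theorem cN0 (t : ℂ) (f : Fin 3 → ℂ) :
    ∑ a, (!![1, -t, 0; 0, 1, 0; 0, 0, 1] : Matrix (Fin 3) (Fin 3) ℂ) a 0 * f a = f 0 := by
  simp [Fin.sum_univ_three]

private theorem cN1 (t : ℂ) (f : Fin 3 → ℂ) :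
    ∑ a, (!![1, -t, 0; 0, 1, 0; 0, 0, 1] : Matrix (Fin 3) (Fin 3) ℂ) a 1 * f a = -t * f 0 + f 1 := by
  simp [Fin.sum_univ_three]

private theorem cN2 (t : ℂ) (f : Fin 3 → ℂ) :
    ∑ a, (!![1, -t, 0; 0, 1, 0; 0, 0, 1] : Matrix (Fin 3) (Fin 3) ℂ) a 2 * f a = f 2 := by
  simp [Fin.sum_univ_three]

theorem g01_f (t : ℂ) (p : Par) :
    (act !![1, t, 0; 0, 1, 0; 0, 0, 1] !![1, -t, 0; 0, 1, 0; 0, 0, 1] p).a00 = p.a00 + 2 * t * p.b00 + t ^ 2 * p.c00 ∧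
    (act !![1, t, 0; 0, 1, 0; 0, 0, 1] !![1, -t, 0; 0, 1, 0; 0, 0, 1] p).b00 = p.b00 + t * p.c00 ∧
    (act !![1, t, 0; 0, 1, 0; 0, 0, 1] !![1, -t, 0; 0, 1, 0; 0, 0, 1] p).c00 = p.c00 ∧
    (act !![1, t, 0; 0, 1, 0; 0, 0, 1] !![1, -t, 0; 0, 1, 0; 0, 0, 1] p).a10 = p.a10 + 2 * t * p.b10 + t ^ 2 * p.c10 ∧
    (act !![1, t, 0; 0, 1, 0; 0, 0, 1] !![1, -t, 0; 0, 1, 0; 0, 0, 1] p).a01 = -t * p.a10 + p.a01 - 2 * t ^ 2 * p.b10 + 2 * t * p.b01 - t ^ 3 * p.c10 + t ^ 2 * p.c01 ∧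
    (act !![1, t, 0; 0, 1, 0; 0, 0, 1] !![1, -t, 0; 0, 1, 0; 0, 0, 1] p).b10 = p.b10 + t * p.c10 ∧
    (act !![1, t, 0; 0, 1, 0; 0, 0, 1] !![1, -t, 0; 0, 1, 0; 0, 0, 1] p).b01 = -t * p.b10 + p.b01 - t ^ 2 * p.c10 + t * p.c01 ∧
    (act !![1, t, 0; 0, 1, 0; 0, 0, 1] !![1, -t, 0; 0, 1, 0; 0, 0, 1] p).c10 = p.c10 ∧
    (act !![1, t, 0; 0, 1, 0; 0, 0, 1] !![1, -t, 0; 0, 1, 0; 0, 0, 1] p).c01 = -t * p.c10 + p.c01 ∧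
    (act !![1, t, 0; 0, 1, 0; 0, 0, 1] !![1, -t, 0; 0, 1, 0; 0, 0, 1] p).a20 = p.a20 + 2 * t * p.b20 + t ^ 2 * p.c20 ∧
    (act !![1, t, 0; 0, 1, 0; 0, 0, 1] !![1, -t, 0; 0, 1, 0; 0, 0, 1] p).a11 = -2 * t * p.a20 + p.a11 - 4 * t ^ 2 * p.b20 + 2 * t * p.b11 - 2 * t ^ 3 * p.c20 + t ^ 2 * p.c11 ∧
    (act !![1, t, 0; 0, 1, 0; 0, 0, 1] !![1, -t, 0; 0, 1, 0; 0, 0, 1] p).a02 = t ^ 2 * p.a20 - t * p.a11 + p.a02 + 2 * t ^ 3 * p.b20 - 2 * t ^ 2 * p.b11 + 2 * t * p.b02 + t ^ 4 * p.c20 - t ^ 3 * p.c11 + t ^ 2 * p.c02 ∧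
    (act !![1, t, 0; 0, 1, 0; 0, 0, 1] !![1, -t, 0; 0, 1, 0; 0, 0, 1] p).b20 = p.b20 + t * p.c20 ∧
    (act !![1, t, 0; 0, 1, 0; 0, 0, 1] !![1, -t, 0; 0, 1, 0; 0, 0, 1] p).b11 = -2 * t * p.b20 + p.b11 - 2 * t ^ 2 * p.c20 + t * p.c11 ∧
    (act !![1, t, 0; 0, 1, 0; 0, 0, 1] !![1, -t, 0; 0, 1, 0; 0, 0, 1] p).b02 = t ^ 2 * p.b20 - t * p.b11 + p.b02 + t ^ 3 * p.c20 - t ^ 2 * p.c11 + t * p.c02 ∧
    (act !![1, t, 0; 0, 1, 0; 0, 0, 1] !![1, -t, 0; 0, 1, 0; 0, 0, 1] p).c20 = p.c20 ∧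
    (act !![1, t, 0; 0, 1, 0; 0, 0, 1] !![1, -t, 0; 0, 1, 0; 0, 0, 1] p).c11 = -2 * t * p.c20 + p.c11 ∧
    (act !![1, t, 0; 0, 1, 0; 0, 0, 1] !![1, -t, 0; 0, 1, 0; 0, 0, 1] p).c02 = t ^ 2 * p.c20 - t * p.c11 + p.c02 := by
  refine ⟨?_, ?_, ?_, ?_, ?_, ?_, ?_, ?_, ?_, ?_, ?_, ?_, ?_, ?_, ?_, ?_, ?_, ?_⟩ <;>
    simp only [act, fromT, actT_nest, rM0, rM1, rM2, cN0, cN1, cN2] <;>
    simp only [tt0000, tt0001, tt0002, tt0010, tt0011, tt0012, tt0020, tt0021, tt0022, tt0100, tt0101,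
      tt0102, tt0110, tt0111, tt0112, tt0120, tt0121, tt0122, tt0200, tt0201, tt0202, tt0210,
      tt0211, tt0212, tt0220, tt0221, tt0222, tt1000, tt1001, tt1002, tt1010, tt1011, tt1012,
      tt1020, tt1021, tt1022, tt1100, tt1101, tt1102, tt1110, tt1111, tt1112, tt1120, tt1121,
      tt1122, tt1200, tt1201, tt1202, tt1210, tt1211, tt1212, tt1220, tt1221, tt1222, tt2000,
      tt2001, tt2002, tt2010, tt2011, tt2012, tt2020, tt2021, tt2022, tt2100, tt2101, tt2102,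
      tt2110, tt2111, tt2112, tt2120, tt2121, tt2122, tt2200, tt2201, tt2202, tt2210, tt2211,
      tt2212, tt2220, tt2221, tt2222] <;> ring

theorem g01_e (t : ℂ) (p : Par) :
    e18 (act !![1, t, 0; 0, 1, 0; 0, 0, 1] !![1, -t, 0; 0, 1, 0; 0, 0, 1] p) = e18 p := by
  obtain ⟨h0, h1, h2, h3, h4, h5, h6, h7, h8, h9, h10, h11, h12, h13, h14, h15, h16, h17⟩ := g01_f t p
  simp only [e18]
  rw [h0, h1, h2, h3, h4, h5, h6, h7, h8, h9, h10, h11, h12, h13, h14, h15, h16, h17]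
  ring

end FM67
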