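import Pool.Agent.H67.FM.GFast

/-!
# Generators of the stabiliser of the origin: 20
-/

namespace FM67

open MvPolynomial Pool.Agent.H38.FM Matrix

private theorem rM0 (t : ℂ) (f : Fin 3 → ℂ) :
    ∑ a, (!![1, 0, 0; 0, 1, 0; t, 0, 1] : Matrix (Fin 3) (Fin 3) ℂ) 0 a * f a = f 0 := by
  simp [Fin.sum_univ_three]

private theorem rM1 (t : ℂ) (f : Fin 3 → ℂ) :
    ∑ a, (!![1, 0, 0; 0, 1, 0; t, 0, 1] : Matrix (Fin 3) (Fin 3) ℂ) 1 a * f a = f 1 := by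
  simp [Fin.sum_univ_three]

private theorem rM2 (t : ℂ) (f : Fin 3 → ℂ) :
    ∑ a, (!![1, 0, 0; 0, 1, 0; t, 0, 1] : Matrix (Fin 3) (Fin 3) ℂ) 2 a * f a = t * f 0 + f 2 := by
  simp [Fin.sum_univ_three]

private theorem cN0 (t : ℂ) (f : Fin 3 → ℂ) :
    ∑ a, (!![1, 0, 0; 0, 1, 0; -t, 0, 1] : Matrix (Fin 3) (Fin 3) ℂ) a 0 * f a = f 0 + -t * f 2 := by
  simp [Fin.sum_univ_three]

private theorem cN1 (t : ℂ) (f : Fin 3 → ℂ) :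
    ∑ a, (!![1, 0, 0; 0, 1, 0; -t, 0, 1] : Matrix (Fin 3) (Fin 3) ℂ) a 1 * f a = f 1 := by
  simp [Fin.sum_univ_three]

private theorem cN2 (t : ℂ) (f : Fin 3 → ℂ) :
    ∑ a, (!![1, 0, 0; 0, 1, 0; -t, 0, 1] : Matrix (Fin 3) (Fin 3) ℂ) a 2 * f a = f 2 := by
  simp [Fin.sum_univ_three]

theorem g20_f (t : ℂ) (p : Par) :
    (act !![1, 0, 0; 0, 1, 0; t, 0, 1] !![1, 0, 0; 0, 1, 0; -t, 0, 1] p).a00 = p.a00 ∧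
    (act !![1, 0, 0; 0, 1, 0; t, 0, 1] !![1, 0, 0; 0, 1, 0; -t, 0, 1] p).b00 = p.b00 ∧
    (act !![1, 0, 0; 0, 1, 0; t, 0, 1] !![1, 0, 0; 0, 1, 0; -t, 0, 1] p).c00 = p.c00 ∧
    (act !![1, 0, 0; 0, 1, 0; t, 0, 1] !![1, 0, 0; 0, 1, 0; -t, 0, 1] p).a10 = -4 * t * p.a00 + p.a10 ∧
    (act !![1, 0, 0; 0, 1, 0; t, 0, 1] !![1, 0, 0; 0, 1, 0; -t, 0, 1] p).a01 = p.a01 ∧
    (act !![1, 0, 0; 0, 1, 0; t, 0, 1] !![1, 0, 0; 0, 1, 0; -t, 0, 1] p).b10 = -3 * t * p.b00 + p.b10 ∧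
    (act !![1, 0, 0; 0, 1, 0; t, 0, 1] !![1, 0, 0; 0, 1, 0; -t, 0, 1] p).b01 = -t * p.a00 + p.b01 ∧
    (act !![1, 0, 0; 0, 1, 0; t, 0, 1] !![1, 0, 0; 0, 1, 0; -t, 0, 1] p).c10 = -2 * t * p.c00 + p.c10 ∧
    (act !![1, 0, 0; 0, 1, 0; t, 0, 1] !![1, 0, 0; 0, 1, 0; -t, 0, 1] p).c01 = -2 * t * p.b00 + p.c01 ∧
    (act !![1, 0, 0; 0, 1, 0; t, 0, 1] !![1, 0, 0; 0, 1, 0; -t, 0, 1] p).a20 = 6 * t ^ 2 * p.a00 - 3 * t * p.a10 + p.a20 ∧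
    (act !![1, 0, 0; 0, 1, 0; t, 0, 1] !![1, 0, 0; 0, 1, 0; -t, 0, 1] p).a11 = -3 * t * p.a01 + p.a11 ∧
    (act !![1, 0, 0; 0, 1, 0; t, 0, 1] !![1, 0, 0; 0, 1, 0; -t, 0, 1] p).a02 = p.a02 ∧
    (act !![1, 0, 0; 0, 1, 0; t, 0, 1] !![1, 0, 0; 0, 1, 0; -t, 0, 1] p).b20 = 3 * t ^ 2 * p.b00 - 2 * t * p.b10 + p.b20 ∧
    (act !![1, 0, 0; 0, 1, 0; t, 0, 1] !![1, 0, 0; 0, 1, 0; -t, 0, 1] p).b11 = 3 * t ^ 2 * p.a00 - t * p.a10 - 2 * t * p.b01 + p.b11 ∧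
    (act !![1, 0, 0; 0, 1, 0; t, 0, 1] !![1, 0, 0; 0, 1, 0; -t, 0, 1] p).b02 = -t * p.a01 + p.b02 ∧
    (act !![1, 0, 0; 0, 1, 0; t, 0, 1] !![1, 0, 0; 0, 1, 0; -t, 0, 1] p).c20 = t ^ 2 * p.c00 - t * p.c10 + p.c20 ∧
    (act !![1, 0, 0; 0, 1, 0; t, 0, 1] !![1, 0, 0; 0, 1, 0; -t, 0, 1] p).c11 = 4 * t ^ 2 * p.b00 - 2 * t * p.b10 - t * p.c01 + p.c11 ∧
    (act !![1, 0, 0; 0, 1, 0; t, 0, 1] !![1, 0, 0; 0, 1, 0; -t, 0, 1] p).c02 = t ^ 2 * p.a00 - 2 * t * p.b01 + p.c02 := by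
  refine ⟨?_, ?_, ?_, ?_, ?_, ?_, ?_, ?_, ?_, ?_, ?_, ?_, ?_, ?_, ?_, ?_, ?_, ?_⟩ <;>
    simp only [act, fromT, actT_nest, rM0, rM1, rM2, cN0, cN1, cN2] <;>
    simp only [tt0000, tt0001, tt0002, tt0010, tt0011, tt0012, tt0020, tt0021, tt0022, tt0100, tt0101,
      tt0102, tt0110, tt0111, tt0112, tt0120, tt0121, tt0122, tt0200, tt0201, tt0202, tt0210,
      tt0211, tt0212, tt0220, tt0221, tt0222, tt1000, tt1001, tt1002, tt1010, tt1011, tt1012,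
      tt1020, tt1021, tt1022, tt1100, tt1101, tt1102, tt1110, tt1111, tt1112, tt1120, tt1121,
      tt1122, tt1200, tt1201, tt1202, tt1210, tt1211, tt1212, tt1220, tt1221, tt1222, tt2000,
      tt2001, tt2002, tt2010, tt2011, tt2012, tt2020, tt2021, tt2022, tt2100, tt2101, tt2102,
      tt2110, tt2111, tt2112, tt2120, tt2121, tt2122, tt2200, tt2201, tt2202, tt2210, tt2211,
      tt2212, tt2220, tt2221, tt2222] <;> ring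

theorem g20_e (t : ℂ) (p : Par) :
    e18 (act !![1, 0, 0; 0, 1, 0; t, 0, 1] !![1, 0, 0; 0, 1, 0; -t, 0, 1] p) = e18 p := by
  obtain ⟨h0, h1, h2, h3, h4, h5, h6, h7, h8, h9, h10, h11, h12, h13, h14, h15, h16, h17⟩ := g20_f t p
  simp only [e18]
  rw [h0, h1, h2, h3, h4, h5, h6, h7, h8, h9, h10, h11, h12, h13, h14, h15, h16, h17]
  ring

end FM67
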