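import Pool.Agent.H67.FM.CovA
import Pool.Agent.H67.FM.G01
import Pool.Agent.H67.FM.G10
import Pool.Agent.H67.FM.G20
import Pool.Agent.H67.FM.G21
import Pool.Agent.H67.FM.Gd0
import Pool.Agent.H67.FM.Gd1

/-!
# Covariance of flatness under projective transformations
-/

namespace FM67

open MvPolynomial Pool.Agent.H38.FM Matrix

theorem cov01 (t : ℂ) : CovM !![1, t, 0; 0, 1, 0; 0, 0, 1] := by
  refine CovM_of_act (N := !![1, -t, 0; 0, 1, 0; 0, 0, 1]) ?_ one_ne_zero (fun p => ?_)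
  · ext i j
    fin_cases i <;> fin_cases j <;> simp [Matrix.mul_apply, Fin.sum_univ_three]
  · rw [g01_e, one_mul]

theorem cov10 (t : ℂ) : CovM !![1, 0, 0; t, 1, 0; 0, 0, 1] := by
  refine CovM_of_act (N := !![1, 0, 0; -t, 1, 0; 0, 0, 1]) ?_ one_ne_zero (fun p => ?_)
  · ext i j
    fin_cases i <;> fin_cases j <;> simp [Matrix.mul_apply, Fin.sum_univ_three]
  · rw [g10_e, one_mul]

theorem cov20 (t : ℂ) : CovM !![1, 0, 0; 0, 1, 0; t, 0, 1] := by
  refine CovM_of_act (N := !![1, 0, 0; 0, 1, 0; -t, 0, 1]) ?_ one_ne_zero (fun p => ?_)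
  · ext i j
    fin_cases i <;> fin_cases j <;> simp [Matrix.mul_apply, Fin.sum_univ_three]
  · rw [g20_e, one_mul]

theorem cov21 (t : ℂ) : CovM !![1, 0, 0; 0, 1, 0; 0, t, 1] := by
  refine CovM_of_act (N := !![1, 0, 0; 0, 1, 0; 0, -t, 1]) ?_ one_ne_zero (fun p => ?_)
  · ext i j
    fin_cases i <;> fin_cases j <;> simp [Matrix.mul_apply, Fin.sum_univ_three]
  · rw [g21_e, one_mul]

theorem covd0 {t : ℂ} (ht : t ≠ 0) : CovM !![t, 0, 0; 0, 1, 0; 0, 0, 1] := by
  refine CovM_of_act (N := !![t⁻¹, 0, 0; 0, 1, 0; 0, 0, 1]) ?_ (pow_ne_zero 4 ht) (fun p => ?_)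
  · ext i j
    fin_cases i <;> fin_cases j <;> simp [Matrix.mul_apply, Fin.sum_univ_three, ht]
  · rw [gd0_e t ht]

theorem covd1 {t : ℂ} (ht : t ≠ 0) : CovM !![1, 0, 0; 0, t, 0; 0, 0, 1] := by
  refine CovM_of_act (N := !![1, 0, 0; 0, t⁻¹, 0; 0, 0, 1]) ?_ (pow_ne_zero 4 ht) (fun p => ?_)
  · ext i j
    fin_cases i <;> fin_cases j <;> simp [Matrix.mul_apply, Fin.sum_univ_three, ht]
  · rw [gd1_e t ht]

/-- The linear group, first case. -/
theorem covK1 {a b c d : ℂ} (ha : a ≠ 0) (h : a * d - b * c ≠ 0) :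
    CovM !![a, b, 0; c, d, 0; 0, 0, 1] := by
  have e : (!![a, b, 0; c, d, 0; 0, 0, 1] : Matrix (Fin 3) (Fin 3) ℂ)
      = !![1, 0, 0; c / a, 1, 0; 0, 0, 1] * (!![a, 0, 0; 0, 1, 0; 0, 0, 1]
        * (!![1, 0, 0; 0, (a * d - b * c) / a, 0; 0, 0, 1] * !![1, b / a, 0; 0, 1, 0; 0, 0, 1])) := by
    ext i j
    fin_cases i <;> fin_cases j <;> simp [Matrix.mul_apply, Fin.sum_univ_three]
    · field_simp
    · field_simp
    · field_simp
      ring
  rw [e]
  have hq : (a * d - b * c) / a ≠ 0 := div_ne_zero h ha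
  refine CovM_mul ?_ (cov10 _) (CovM_mul ?_ (covd0 ha) (CovM_mul ?_ (covd1 hq) (cov01 _)))
  · rw [Matrix.det_mul, Matrix.det_mul]
    refine mul_ne_zero ?_ (mul_ne_zero ?_ ?_)
    · simpa [Matrix.det_fin_three] using ha
    · simpa [Matrix.det_fin_three] using ⟨h, ha⟩
    · simp [Matrix.det_fin_three]
  · rw [Matrix.det_mul]
    refine mul_ne_zero ?_ ?_
    · simpa [Matrix.det_fin_three] using ⟨h, ha⟩
    · simp [Matrix.det_fin_three]
  · simp [Matrix.det_fin_three]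

/-- The linear group. -/
theorem covK {a b c d : ℂ} (h : a * d - b * c ≠ 0) :
    CovM !![a, b, 0; c, d, 0; 0, 0, 1] := by
  by_cases ha : a = 0
  · have hc : c ≠ 0 := by
      intro hc
      apply h
      rw [ha, hc]
      ring
    have e : (!![a, b, 0; c, d, 0; 0, 0, 1] : Matrix (Fin 3) (Fin 3) ℂ)
        = !![1, -1, 0; 0, 1, 0; 0, 0, 1] * !![a + c, b + d, 0; c, d, 0; 0, 0, 1] := by
      ext i j
      fin_cases i <;> fin_cases j <;> simp [Matrix.mul_apply, Fin.sum_univ_three]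
    rw [e]
    have h' : (a + c) * d - (b + d) * c ≠ 0 := by
      intro h0
      apply h
      linear_combination h0
    refine CovM_mul ?_ (cov01 _) (covK1 (by rw [ha, zero_add]; exact hc) h')
    simp only [Matrix.det_fin_three, Matrix.of_apply, Matrix.cons_val', Matrix.cons_val_zero,
      Matrix.cons_val_one, Matrix.cons_val_fin_one, Matrix.cons_val]
    intro h0
    apply h'
    linear_combination h0
  · exact covK1 ha h

/-- The stabiliser of the origin. -/
theorem cov_stab {M : Matrix (Fin 3) (Fin 3) ℂ} (hM : M.det ≠ 0) (h0 : M 0 2 = 0)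
    (h1 : M 1 2 = 0) : CovM M := by
  have hdet : M.det = M 2 2 * (M 0 0 * M 1 1 - M 0 1 * M 1 0) := by
    rw [Matrix.det_fin_three, h0, h1]
    ring
  have hr : M 2 2 ≠ 0 := fun h => hM (by rw [hdet, h, zero_mul])
  have hK : M 0 0 * M 1 1 - M 0 1 * M 1 0 ≠ 0 := fun h => hM (by rw [hdet, h, mul_zero])
  set r := M 2 2 with hrd
  have e : M = r • (!![M 0 0 / r, M 0 1 / r, 0; M 1 0 / r, M 1 1 / r, 0; 0, 0, 1]
      * (!![1, 0, 0; 0, 1, 0; M 2 0 / r, 0, 1] * !![1, 0, 0; 0, 1, 0; 0, M 2 1 / r, 1])) := by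
    ext i j
    fin_cases i <;> fin_cases j <;>
      simp [mul_div_cancel₀ _ hr, h0, h1, ← hrd]
  rw [e]
  have hK' : M 0 0 / r * (M 1 1 / r) - M 0 1 / r * (M 1 0 / r) ≠ 0 := by
    have : M 0 0 / r * (M 1 1 / r) - M 0 1 / r * (M 1 0 / r)
        = (M 0 0 * M 1 1 - M 0 1 * M 1 0) / (r * r) := by
      field_simp
    rw [this]
    exact div_ne_zero hK (mul_ne_zero hr hr)
  refine CovM_smul hr (CovM_mul ?_ (covK hK') (CovM_mul ?_ (cov20 _) (cov21 _)))
  · rw [Matrix.det_mul]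
    refine mul_ne_zero ?_ ?_ <;> simp [Matrix.det_fin_three]
  · simp [Matrix.det_fin_three]

/-- Values of the flatness polynomials at corresponding points. -/
theorem Ep_point {M : Matrix (Fin 3) (Fin 3) ℂ} (hM : M.det ≠ 0) {p q : Par} (h : Act M p q)
    {x y : ℂ} (hL : M 2 0 * x + M 2 1 * y + M 2 2 ≠ 0) :
    ∃ c : ℂ, c ≠ 0 ∧ ev (Ep (pa q) (pb q) (pc q)) (chg M 0 x y) (chg M 1 x y)
      = c * ev (Ep (pa p) (pb p) (pc p)) x y := by
  set x' := chg M 0 x y with hx'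
  set y' := chg M 1 x y with hy'
  obtain ⟨p0, hp0⟩ : ∃ p0, Act (Tr x y) p0 p := ⟨_, Act_symm (Tr_mul' x y) (Act_act (Tr_mul x y) p)⟩
  obtain ⟨q0, hq0⟩ : ∃ q0, Act (Tr x' y') q0 q :=
    ⟨_, Act_symm (Tr_mul' x' y') (Act_act (Tr_mul x' y') q)⟩
  have h1 : Act (Tr (-x') (-y')) q q0 := Act_symm (Tr_mul x' y') hq0
  have h2 : Act (Tr (-x') (-y') * (M * Tr x y)) p0 q0 := Act_trans (Act_trans hp0 h) h1
  have hv := mulVec_chg M x y hL
  have hcol : ∀ i : Fin 3, (Tr (-x') (-y') * (M * Tr x y)) i 2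
      = (M 2 0 * x + M 2 1 * y + M 2 2) * (![0, 0, 1] : Fin 3 → ℂ) i := by
    have e1 : (Tr (-x') (-y') * (M * Tr x y)).mulVec ![0, 0, 1]
        = (M 2 0 * x + M 2 1 * y + M 2 2) • ![0, 0, 1] := by
      rw [← Matrix.mulVec_mulVec, ← Matrix.mulVec_mulVec, Tr_mulVec, zero_add, zero_add, hv,
        Matrix.mulVec_smul, Tr_mulVec, ← hx', ← hy', add_neg_cancel, add_neg_cancel]
    intro i
    have e2 := congrFun e1 i
    simpa [Matrix.mulVec, dotProduct, Fin.sum_univ_three] using e2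
  have hdet : (Tr (-x') (-y') * (M * Tr x y)).det ≠ 0 := by
    rw [Matrix.det_mul, Matrix.det_mul, Tr_det, Tr_det, one_mul, mul_one]
    exact hM
  obtain ⟨c, hc, hcov⟩ := cov_stab hdet (by rw [hcol 0]; simp) (by rw [hcol 1]; simp)
  exact ⟨c, hc, by rw [← E0_translate hp0, ← E0_translate hq0, hcov p0 q0 h2]⟩

/-- **Covariance**: the flatness polynomial of a transform vanishes. -/
theorem Ep_of_Act {M : Matrix (Fin 3) (Fin 3) ℂ} (hM : M.det ≠ 0) {p q : Par} (h : Act M p q)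
    (hE : Ep (pa p) (pb p) (pc p) = 0) : Ep (pa q) (pb q) (pc q) = 0 := by
  obtain ⟨N, hMN, hNM⟩ := exists_inv hM
  have hN : N.det ≠ 0 := by
    intro h0
    have := congrArg Matrix.det hMN
    rw [Matrix.det_mul, h0, mul_zero, Matrix.det_one] at this
    exact zero_ne_one this
  have hq := Act_symm hMN h
  have hL0 : (C (N 2 0) * X 0 + C (N 2 1) * X 1 + C (N 2 2) : R2) ≠ 0 := by
    intro h0
    have hev : ∀ x y : ℂ, N 2 0 * x + N 2 1 * y + N 2 2 = 0 := by
      intro x y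
      have := congrArg (fun f => ev f x y) h0
      simpa [ev] using this
    have h22 : N 2 2 = 0 := by simpa using hev 0 0
    have h20 : N 2 0 = 0 := by simpa [h22] using hev 1 0
    have h21 : N 2 1 = 0 := by simpa [h22] using hev 0 1
    apply hN
    rw [Matrix.det_fin_three, h20, h21, h22]
    ring
  refine (mul_eq_zero.mp (?_ : Ep (pa q) (pb q) (pc q)
    * (C (N 2 0) * X 0 + C (N 2 1) * X 1 + C (N 2 2) : R2) = 0)).resolve_right hL0
  apply ev_eq_zero
  intro x y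
  by_cases hL : N 2 0 * x + N 2 1 * y + N 2 2 = 0
  · have : ev (C (N 2 0) * X 0 + C (N 2 1) * X 1 + C (N 2 2) : R2) x y = 0 := by
      simpa [ev] using hL
    simp only [ev, map_mul] at this ⊢
    rw [this, mul_zero]
  · obtain ⟨c, hc, he⟩ := Ep_point hN hq hL
    have h0 : ev (Ep (pa q) (pb q) (pc q)) x y = 0 := by
      have h1 : c * ev (Ep (pa q) (pb q) (pc q)) x y = 0 := by
        rw [← he, hE]
        simp [ev]
      exact (mul_eq_zero.mp h1).resolve_left hc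
    simp only [ev, map_mul] at h0 ⊢
    rw [h0, zero_mul]

theorem adj_Hp (p : Par) (x y : ℂ) : (Hp p ![x, y, 1]).adjugate 2 2 = p.D x y := by
  rw [Hp_full, Matrix.adjugate_fin_three]
  simp [Par.D]
  ring

/-- Nondegeneracy is invariant. -/
theorem nondeg_of_Act {M : Matrix (Fin 3) (Fin 3) ℂ} (hM : M.det ≠ 0) {p q : Par}
    (h : Act M p q) (hp : p.Nondeg) : q.Nondeg := by
  -- a point off the line at infinity of the transform
  have hD0 := Dp_ne_zero hp
  have hL0 : (C (M 2 0) * X 0 + C (M 2 1) * X 1 + C (M 2 2) : R2) ≠ 0 := by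
    intro h0
    have hev : ∀ x y : ℂ, M 2 0 * x + M 2 1 * y + M 2 2 = 0 := by
      intro x y
      have := congrArg (fun f => ev f x y) h0
      simpa [ev] using this
    have h22 : M 2 2 = 0 := by simpa using hev 0 0
    have h20 : M 2 0 = 0 := by simpa [h22] using hev 1 0
    have h21 : M 2 1 = 0 := by simpa [h22] using hev 0 1
    apply hM
    rw [Matrix.det_fin_three, h20, h21, h22]
    ring
  obtain ⟨x, y, hxy⟩ : ∃ x y, ev (Dp (pa p) (pb p) (pc p)
      * (C (M 2 0) * X 0 + C (M 2 1) * X 1 + C (M 2 2) : R2)) x y ≠ 0 := by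
    by_contra hcon
    push Not at hcon
    exact (mul_ne_zero hD0 hL0) (ev_eq_zero hcon)
  have hD : p.D x y ≠ 0 := by
    rw [← ev_D]
    intro h0
    apply hxy
    simp only [ev, map_mul] at h0 ⊢
    rw [h0, zero_mul]
  have hL : M 2 0 * x + M 2 1 * y + M 2 2 ≠ 0 := by
    intro h0
    apply hxy
    have : ev (C (M 2 0) * X 0 + C (M 2 1) * X 1 + C (M 2 2) : R2) x y = 0 := by
      simpa [ev] using h0
    simp only [ev, map_mul] at this ⊢
    rw [this, mul_zero]
  refine ⟨chg M 0 x y, chg M 1 x y, fun hq => ?_⟩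
  have h1 := h ![x, y, 1]
  rw [mulVec_chg M x y hL, Hp_smul] at h1
  set L : ℂ := M 2 0 * x + M 2 1 * y + M 2 2 with hLd
  have h2 := congrArg Matrix.adjugate h1
  have hcard : Fintype.card (Fin 3) ≠ 1 := by simp
  rw [Matrix.adjugate_smul, Matrix.adjugate_mul_distrib, Matrix.adjugate_mul_distrib,
    Matrix.adjugate_adjugate _ hcard, ← Matrix.adjugate_transpose,
    Matrix.adjugate_adjugate _ hcard] at h2
  -- the adjugate of `Hp` is `D` times the square of the point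
  have hadj : ∀ (r : Par) (u v : ℂ), (Hp r ![u, v, 1]).adjugate
      = r.D u v • Matrix.vecMulVec ![u, v, 1] ![u, v, 1] := by
    intro r u v
    rw [Hp_full, Matrix.adjugate_fin_three]
    ext i j
    fin_cases i <;> fin_cases j <;>
      simp [Matrix.vecMulVec, Par.D] <;> ring
  rw [hadj, hq, zero_smul, smul_zero, hadj] at h2
  simp only [Fintype.card_fin, Matrix.transpose_smul, Matrix.smul_mul, Matrix.mul_smul,
    smul_smul] at h2
  have h3 := congrArg (fun A : Matrix (Fin 3) (Fin 3) ℂ => A 2 2) h2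
  simp only [Matrix.zero_apply, Matrix.smul_apply, smul_eq_mul] at h3
  have h4 : (M * (Matrix.vecMulVec ![x, y, 1] ![x, y, 1] * Mᵀ)) 2 2 = L ^ 2 := by
    simp only [Matrix.mul_apply, Fin.sum_univ_three, Matrix.vecMulVec_apply,
      Matrix.transpose_apply, Matrix.cons_val_zero, Matrix.cons_val_one, Matrix.cons_val]
    rw [hLd]
    ring
  rw [h4] at h3
  have hne : M.det ≠ 0 := hM
  have : M.det ^ (3 - 2) * (p.D x y * M.det ^ (3 - 2)) * L ^ 2 ≠ 0 :=
    mul_ne_zero (mul_ne_zero (pow_ne_zero _ hne) (mul_ne_zero hD (pow_ne_zero _ hne)))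
      (pow_ne_zero _ hL)
  apply this
  rw [← mul_assoc]
  exact h3.symm

/-- **Covariance of flatness.** -/
theorem flatP_of_Act {M : Matrix (Fin 3) (Fin 3) ℂ} (hM : M.det ≠ 0) {p q : Par}
    (h : Act M p q) (hp : p.Nondeg) (hf : FlatP p) : FlatP q := by
  rw [flatP_iff (nondeg_of_Act hM h hp)]
  exact Ep_of_Act hM h ((flatP_iff hp).mp hf)

end FM67
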