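import Mathlib

/-!
# Curvature of a contravariant metric in two variables

The definitions are literal: `g_{kl}` is the inverse matrix of `g^{kl}`, the Christoffel symbols
and the Riemann tensor are computed with partial derivatives of functions of two complex
variables.
-/

namespace FM67

open MvPolynomial

/-- The contravariant metric `g^{kl}` at a point: `g^{11} = a`, `g^{12} = g^{21} = b`,
`g^{22} = c`. -/
noncomputable def gUp (a b c : ℂ → ℂ → ℂ) (k l : Fin 2) (x y : ℂ) : ℂ :=
  !![a x y, b x y; b x y, c x y] k l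

/-- The covariant metric `g_{kl}`, the inverse matrix of `g^{kl}`. -/
noncomputable def gLo (a b c : ℂ → ℂ → ℂ) (k l : Fin 2) (x y : ℂ) : ℂ :=
  !![a x y, b x y; b x y, c x y]⁻¹ k l

/-- Partial derivatives of functions of two complex variables. -/
noncomputable def pd (k : Fin 2) (F : ℂ → ℂ → ℂ) (x y : ℂ) : ℂ :=
  if k = 0 then deriv (fun t => F t y) x else deriv (fun t => F x t) y

/-- Christoffel symbols `Γ^k_{ij}` of the Levi-Civita connection. -/
noncomputable def Gam (a b c : ℂ → ℂ → ℂ) (k i j : Fin 2) (x y : ℂ) : ℂ :=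
  1 / 2 * ∑ l, gUp a b c k l x y *
    (pd i (gLo a b c j l) x y + pd j (gLo a b c i l) x y - pd l (gLo a b c i j) x y)

/-- The Riemann curvature tensor `R^l_{kij}`. -/
noncomputable def Riem (a b c : ℂ → ℂ → ℂ) (l k i j : Fin 2) (x y : ℂ) : ℂ :=
  pd i (Gam a b c l j k) x y - pd j (Gam a b c l i k) x y
    + ∑ m, (Gam a b c l i m x y * Gam a b c m j k x y
      - Gam a b c l j m x y * Gam a b c m i k x y)

/-- The metric is flat: the Riemann curvature vanishes wherever the metric is defined. -/
def Flat (a b c : ℂ → ℂ → ℂ) : Prop :=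
  ∀ x y : ℂ, a x y * c x y - b x y ^ 2 ≠ 0 → ∀ l k i j, Riem a b c l k i j x y = 0

/-- Polynomials in the two coordinates `x = X 0`, `y = X 1`. -/
abbrev R2 := MvPolynomial (Fin 2) ℂ

/-- Value of a polynomial at the point `(x, y)`. -/
noncomputable def ev (p : R2) (x y : ℂ) : ℂ := eval ![x, y] p

theorem hasDerivAt_ev0 (p : R2) (x y : ℂ) :
    HasDerivAt (fun t => ev p t y) (ev (pderiv 0 p) x y) x := by
  induction p using MvPolynomial.induction_on with
  | C r =>
    have : (fun t => ev (C r : R2) t y) = fun _ => r := by funext t; simp [ev]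
    rw [this]; simpa [ev] using hasDerivAt_const x r
  | add p q hp hq =>
    have : (fun t => ev (p + q) t y) = fun t => ev p t y + ev q t y := by
      funext t; simp [ev]
    rw [this]
    exact (hp.add hq).congr_deriv (by simp [ev])
  | mul_X p i hp =>
    fin_cases i
    · have : (fun t => ev (p * X (0 : Fin 2)) t y) = fun t => ev p t y * t := by
        funext t; simp [ev]
      show HasDerivAt (fun t => ev (p * X (0 : Fin 2)) t y) (ev (pderiv 0 (p * X 0)) x y) x
      rw [this]
      exact (hp.mul (hasDerivAt_id x)).congr_deriv (by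
        simp [ev]; ring)
    · have : (fun t => ev (p * X (1 : Fin 2)) t y) = fun t => ev p t y * y := by
        funext t; simp [ev]
      show HasDerivAt (fun t => ev (p * X (1 : Fin 2)) t y) (ev (pderiv 0 (p * X 1)) x y) x
      rw [this]
      exact (hp.mul_const y).congr_deriv (by
        simp [ev, pderiv_X]; ring)

theorem hasDerivAt_ev1 (p : R2) (x y : ℂ) :
    HasDerivAt (fun t => ev p x t) (ev (pderiv 1 p) x y) y := by
  induction p using MvPolynomial.induction_on with
  | C r =>
    have : (fun t => ev (C r : R2) x t) = fun _ => r := by funext t; simp [ev]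
    rw [this]; simpa [ev] using hasDerivAt_const y r
  | add p q hp hq =>
    have : (fun t => ev (p + q) x t) = fun t => ev p x t + ev q x t := by
      funext t; simp [ev]
    rw [this]
    exact (hp.add hq).congr_deriv (by simp [ev])
  | mul_X p i hp =>
    fin_cases i
    · have : (fun t => ev (p * X (0 : Fin 2)) x t) = fun t => ev p x t * x := by
        funext t; simp [ev]
      show HasDerivAt (fun t => ev (p * X (0 : Fin 2)) x t) (ev (pderiv 1 (p * X 0)) x y) y
      rw [this]
      exact (hp.mul_const x).congr_deriv (by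
        simp [ev, pderiv_X]; ring)
    · have : (fun t => ev (p * X (1 : Fin 2)) x t) = fun t => ev p x t * t := by
        funext t; simp [ev]
      show HasDerivAt (fun t => ev (p * X (1 : Fin 2)) x t) (ev (pderiv 1 (p * X 1)) x y) y
      rw [this]
      exact (hp.mul (hasDerivAt_id y)).congr_deriv (by
        simp [ev]; ring)

/-- Derivative of a quotient `p / D ^ n` of polynomials. -/
theorem pd_quot (p D : R2) (n : ℕ) (k : Fin 2) (F : ℂ → ℂ → ℂ) (x y : ℂ) (hD : ev D x y ≠ 0)
    (hF : ∀ u v, ev D u v ≠ 0 → F u v = ev p u v / ev D u v ^ n) :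
    pd k F x y = (ev (pderiv k p) x y * ev D x y - n * ev p x y * ev (pderiv k D) x y)
      / ev D x y ^ (n + 1) := by
  fin_cases k
  · have hp := hasDerivAt_ev0 p x y
    have hd := hasDerivAt_ev0 D x y
    have hne : ∀ᶠ t in nhds x, ev D t y ≠ 0 := hd.continuousAt.eventually_ne hD
    have hev : (fun t => F t y) =ᶠ[nhds x] fun t => ev p t y / ev D t y ^ n :=
      hne.mono fun t ht => hF t y ht
    have h := hp.div (hd.pow n) (pow_ne_zero n hD)
    show pd 0 F x y = _
    rw [pd, if_pos rfl, hev.deriv_eq]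
    rw [show (fun t => ev p t y / ev D t y ^ n) = ((fun t => ev p t y) / (fun t => ev D t y) ^ n)
      from rfl, h.deriv]
    rcases n with _ | n
    · simp
      field_simp
    · simp only [Pi.pow_apply, Nat.add_sub_cancel]
      push_cast
      rw [div_eq_div_iff (pow_ne_zero _ (pow_ne_zero _ hD)) (pow_ne_zero _ hD)]
      ring
  · have hp := hasDerivAt_ev1 p x y
    have hd := hasDerivAt_ev1 D x y
    have hne : ∀ᶠ t in nhds y, ev D x t ≠ 0 := hd.continuousAt.eventually_ne hD
    have hev : (fun t => F x t) =ᶠ[nhds y] fun t => ev p x t / ev D x t ^ n :=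
      hne.mono fun t ht => hF x t ht
    have h := hp.div (hd.pow n) (pow_ne_zero n hD)
    show pd 1 F x y = _
    rw [pd, if_neg (by decide), hev.deriv_eq]
    rw [show (fun t => ev p x t / ev D x t ^ n) = ((fun t => ev p x t) / (fun t => ev D x t) ^ n)
      from rfl, h.deriv]
    rcases n with _ | n
    · simp
      field_simp
    · simp only [Pi.pow_apply, Nat.add_sub_cancel]
      push_cast
      rw [div_eq_div_iff (pow_ne_zero _ (pow_ne_zero _ hD)) (pow_ne_zero _ hD)]
      ring

/-- The discriminant. -/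
noncomputable def Dp (a b c : R2) : R2 := a * c - b ^ 2

/-- Numerators of the covariant metric. -/
noncomputable def nLo (a b c : R2) : Fin 2 → Fin 2 → R2 := ![![c, -b], ![-b, a]]

/-- The contravariant metric. -/
noncomputable def nUp (a b c : R2) : Fin 2 → Fin 2 → R2 := ![![a, b], ![b, c]]

/-- Numerators of the Christoffel symbols. -/
noncomputable def nGam (a b c : R2) (k i j : Fin 2) : R2 :=
  C (1 / 2) * ∑ l, nUp a b c k l *
    ((pderiv i (nLo a b c j l) * Dp a b c - nLo a b c j l * pderiv i (Dp a b c))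
     + (pderiv j (nLo a b c i l) * Dp a b c - nLo a b c i l * pderiv j (Dp a b c))
     - (pderiv l (nLo a b c i j) * Dp a b c - nLo a b c i j * pderiv l (Dp a b c)))

theorem gLo_eq (a b c : R2) (k l : Fin 2) (x y : ℂ) (hD : ev (Dp a b c) x y ≠ 0) :
    gLo (ev a) (ev b) (ev c) k l x y = ev (nLo a b c k l) x y / ev (Dp a b c) x y ^ 1 := by
  have h1 : ev (Dp a b c) x y = ev a x y * ev c x y - ev b x y * ev b x y := by
    simp [Dp, ev, pow_two]
  unfold gLo
  rw [Matrix.inv_def, Matrix.adjugate_fin_two_of, Matrix.det_fin_two_of, ← h1,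
    Ring.inverse_eq_inv']
  rw [pow_one, div_eq_inv_mul]
  fin_cases k <;> fin_cases l <;> simp [nLo, ev]

theorem Gam_eq (a b c : R2) (k i j : Fin 2) (x y : ℂ) (hD : ev (Dp a b c) x y ≠ 0) :
    Gam (ev a) (ev b) (ev c) k i j x y
      = ev (nGam a b c k i j) x y / ev (Dp a b c) x y ^ 2 := by
  have hq : ∀ i j k : Fin 2, pd k (gLo (ev a) (ev b) (ev c) i j) x y
      = (ev (pderiv k (nLo a b c i j)) x y * ev (Dp a b c) x y
          - (1 : ℕ) * ev (nLo a b c i j) x y * ev (pderiv k (Dp a b c)) x y)
        / ev (Dp a b c) x y ^ (1 + 1) := fun i j k =>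
    pd_quot _ _ 1 k _ x y hD (fun u v h => gLo_eq a b c i j u v h)
  unfold Gam
  simp only [hq]
  have hup : ∀ k l, gUp (ev a) (ev b) (ev c) k l x y = ev (nUp a b c k l) x y := by
    intro k l
    fin_cases k <;> fin_cases l <;> simp [gUp, nUp]
  simp only [hup, Fin.sum_univ_two]
  simp only [nGam, ev, map_mul, map_sub, map_add, map_sum, eval_C, Fin.sum_univ_two]
  rw [show (1 + 1 : ℕ) = 2 from rfl]
  push_cast
  field_simp

/-- Numerator of the Riemann tensor over `D ^ 4`. -/
noncomputable def nRiem (a b c : R2) (l k i j : Fin 2) : R2 :=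
  Dp a b c * ((pderiv i (nGam a b c l j k) * Dp a b c - 2 * nGam a b c l j k * pderiv i (Dp a b c))
    - (pderiv j (nGam a b c l i k) * Dp a b c - 2 * nGam a b c l i k * pderiv j (Dp a b c)))
    + ∑ m, (nGam a b c l i m * nGam a b c m j k - nGam a b c l j m * nGam a b c m i k)

theorem Riem_eq (a b c : R2) (l k i j : Fin 2) (x y : ℂ) (hD : ev (Dp a b c) x y ≠ 0) :
    Riem (ev a) (ev b) (ev c) l k i j x y
      = ev (nRiem a b c l k i j) x y / ev (Dp a b c) x y ^ 4 := by
  have hq : ∀ l j k i : Fin 2, pd i (Gam (ev a) (ev b) (ev c) l j k) x y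
      = (ev (pderiv i (nGam a b c l j k)) x y * ev (Dp a b c) x y
          - (2 : ℕ) * ev (nGam a b c l j k) x y * ev (pderiv i (Dp a b c)) x y)
        / ev (Dp a b c) x y ^ (2 + 1) := fun l j k i =>
    pd_quot _ _ 2 i _ x y hD (fun u v h => Gam_eq a b c l j k u v h)
  unfold Riem
  simp only [hq, Gam_eq a b c _ _ _ x y hD, Fin.sum_univ_two]
  have e2 : ev (2 : R2) x y = 2 := map_ofNat _ 2
  simp only [nRiem, ev, map_mul, map_sub, map_add, map_sum, Fin.sum_univ_two] at e2 ⊢
  rw [e2]
  rw [show (2 + 1 : ℕ) = 3 from rfl]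
  push_cast
  have hD' : (eval ![x, y]) (Dp a b c) ≠ 0 := hD
  field_simp

end FM67
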