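import Pool.Agent.H67.FM.Curv

/-!
# The flatness equation as one polynomial
-/

namespace FM67

open MvPolynomial

/-- First component of `D s`. -/
noncomputable def sg1 (a b c : R2) : R2 :=
  Dp a b c * (pderiv 0 b + pderiv 1 c) - (b * pderiv 0 (Dp a b c) + c * pderiv 1 (Dp a b c))

/-- Second component of `D s`. -/
noncomputable def sg2 (a b c : R2) : R2 :=
  -(Dp a b c * (pderiv 0 a + pderiv 1 b)) + (a * pderiv 0 (Dp a b c) + b * pderiv 1 (Dp a b c))

/-- The cubic form in the first derivatives. -/
noncomputable def om3 (a b c : R2) : R2 :=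
  a * (pderiv 0 c * pderiv 1 b - pderiv 1 c * pderiv 0 b)
  + b * (pderiv 0 a * pderiv 1 c - pderiv 1 a * pderiv 0 c)
  + c * (pderiv 0 b * pderiv 1 a - pderiv 1 b * pderiv 0 a)

/-- The flatness polynomial, `4 D ^ 3 R_{1212}`. -/
noncomputable def Ep (a b c : R2) : R2 :=
  2 * Dp a b c * (pderiv 0 (sg2 a b c) - pderiv 1 (sg1 a b c))
  - 3 * (pderiv 0 (Dp a b c) * sg2 a b c - pderiv 1 (Dp a b c) * sg1 a b c)
  + Dp a b c * om3 a b c

theorem pd_comm (f : R2) : pderiv 1 (pderiv 0 f) = pderiv 0 (pderiv 1 f) := by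
  have h : ⁅(pderiv 1 : Derivation ℂ R2 R2), (pderiv 0 : Derivation ℂ R2 R2)⁆ = 0 := by
    apply MvPolynomial.derivation_ext
    intro k
    rw [Derivation.commutator_apply]
    fin_cases k <;> simp [pderiv_X]
  have h2 := DFunLike.congr_fun h f
  rw [Derivation.commutator_apply] at h2
  simpa [sub_eq_zero] using h2

theorem pd_two (i : Fin 2) : pderiv i (2 : R2) = 0 := by
  have : (2 : R2) = C 2 := (map_ofNat C 2).symm
  rw [this, pderiv_C]

/-- Coefficients of the Riemann tensor. -/
noncomputable def cf (a b c : R2) : Fin 2 → Fin 2 → R2 := ![![-b, a], ![-c, b]]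

set_option maxHeartbeats 4000000 in
theorem nRiem_eq (a b c : R2) (l k : Fin 2) :
    4 * nRiem a b c l k 0 1 = cf a b c l k * (Dp a b c * Ep a b c) := by
  have h2 : (2 : R2) * C (1 / 2) = 1 := by
    have : (2 : R2) = C 2 := (map_ofNat C 2).symm
    rw [this, ← map_mul]
    norm_num
  have e : ∀ l i j, 2 * nGam a b c l i j = ∑ m, nUp a b c l m *
    ((pderiv i (nLo a b c j m) * Dp a b c - nLo a b c j m * pderiv i (Dp a b c))
     + (pderiv j (nLo a b c i m) * Dp a b c - nLo a b c i m * pderiv j (Dp a b c))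
     - (pderiv m (nLo a b c i j) * Dp a b c - nLo a b c i j * pderiv m (Dp a b c))) := by
    intro l i j
    rw [nGam, ← mul_assoc, h2, one_mul]
  have hd : ∀ (r : Fin 2) l i j, 2 * pderiv r (nGam a b c l i j)
      = pderiv r (2 * nGam a b c l i j) := by
    intro r l i j
    rw [two_mul, two_mul, map_add]
  have key : 4 * nRiem a b c l k 0 1 = Dp a b c *
      ((2 * (2 * pderiv 0 (nGam a b c l 1 k)) * Dp a b c
          - 2 * (2 * (2 * nGam a b c l 1 k)) * pderiv 0 (Dp a b c))
    - (2 * (2 * pderiv 1 (nGam a b c l 0 k)) * Dp a b c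
          - 2 * (2 * (2 * nGam a b c l 0 k)) * pderiv 1 (Dp a b c)))
    + ∑ m, ((2 * nGam a b c l 0 m) * (2 * nGam a b c m 1 k)
        - (2 * nGam a b c l 1 m) * (2 * nGam a b c m 0 k)) := by
    simp only [nRiem, Fin.sum_univ_two]
    ring
  rw [key]
  simp only [hd, e, Fin.sum_univ_two]
  fin_cases l <;> fin_cases k <;>
  · simp only [Ep, sg1, sg2, om3, cf, nUp, nLo, Dp]
    simp [pderiv_mul, pd_comm, pd_two]
    ring

theorem ev_eq_zero {p : R2} (h : ∀ x y, ev p x y = 0) : p = 0 := by
  apply MvPolynomial.funext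
  intro q
  have h1 := h (q 0) (q 1)
  have h2 : ![q 0, q 1] = q := by
    funext i; fin_cases i <;> rfl
  rw [ev, h2] at h1
  rw [h1, map_zero]

theorem four_ne : (4 : R2) ≠ 0 := by
  have : (4 : R2) = C 4 := (map_ofNat C 4).symm
  rw [this]
  intro h
  have := C_injective (Fin 2) ℂ (h.trans C_0.symm)
  norm_num at this

/-- Flatness is the vanishing of one polynomial. -/
theorem flat_iff {a b c : R2} (hD : Dp a b c ≠ 0) :
    Flat (ev a) (ev b) (ev c) ↔ Ep a b c = 0 := by
  have hDp : ∀ x y, ev (Dp a b c) x y = ev a x y * ev c x y - ev b x y ^ 2 := by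
    intro x y; simp [Dp, ev]
  have h4 : ∀ x y, ev (4 : R2) x y = 4 := fun x y => map_ofNat _ 4
  constructor
  · intro h
    have hz : Dp a b c * Ep a b c = 0 := by
      apply ev_eq_zero
      intro x y
      by_cases hxy : ev (Dp a b c) x y = 0
      · simp only [ev, map_mul] at hxy ⊢
        rw [hxy, zero_mul]
      · have hR : ∀ l k, ev (cf a b c l k * (Dp a b c * Ep a b c)) x y = 0 := by
          intro l k
          have h1 := h x y (by rw [← hDp]; exact hxy) l k 0 1
          rw [Riem_eq a b c l k 0 1 x y hxy, div_eq_zero_iff] at h1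
          have h2 := h1.resolve_right (pow_ne_zero _ hxy)
          rw [← nRiem_eq]
          simp only [ev, map_mul] at h2 ⊢
          rw [h2, mul_zero]
        by_contra hne
        have h3 : ∀ l k, ev (cf a b c l k) x y = 0 := by
          intro l k
          have h1 := hR l k
          have h2 : ev (cf a b c l k * (Dp a b c * Ep a b c)) x y
              = ev (cf a b c l k) x y * ev (Dp a b c * Ep a b c) x y := by
            simp only [ev, map_mul]
          rw [h2] at h1
          exact (mul_eq_zero.mp h1).resolve_right hne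
        have ha := h3 0 1
        have hb := h3 1 1
        simp only [cf, Matrix.cons_val_zero, Matrix.cons_val_one] at ha hb
        apply hxy
        rw [hDp, ha, hb]
        ring
    exact (mul_eq_zero.mp hz).resolve_left hD
  · intro hE x y hxy l k i j
    rw [← hDp] at hxy
    have h01 : ∀ l k, nRiem a b c l k 0 1 = 0 := by
      intro l k
      have h1 := nRiem_eq a b c l k
      rw [hE, mul_zero, mul_zero] at h1
      exact (mul_eq_zero.mp h1).resolve_left four_ne
    rw [Riem_eq a b c l k i j x y hxy]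
    have h2 : nRiem a b c l k i j = 0 := by
      fin_cases i <;> fin_cases j
      · show nRiem a b c l k 0 0 = 0
        simp only [nRiem, Fin.sum_univ_two]; ring
      · exact h01 l k
      · show nRiem a b c l k 1 0 = 0
        have : nRiem a b c l k 1 0 = -nRiem a b c l k 0 1 := by
          simp only [nRiem, Fin.sum_univ_two]; ring
        rw [this, h01, neg_zero]
      · show nRiem a b c l k 1 1 = 0
        simp only [nRiem, Fin.sum_univ_two]; ring
    rw [h2]
    simp [ev]

end FM67
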