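import Pool.Agent.H67.FM.Act

/-!
# The equivalence relation, literally
-/

namespace FM67

open MvPolynomial Pool.Agent.H38.FM Matrix

/-- Components of the projective change of coordinates with matrix `M`:
`x̃ = (M₀₀ x + M₀₁ y + M₀₂) / (M₂₀ x + M₂₁ y + M₂₂)`, `ỹ = (M₁₀ x + M₁₁ y + M₁₂) / (…)`. -/
noncomputable def chg (M : Matrix (Fin 3) (Fin 3) ℂ) (i : Fin 2) (x y : ℂ) : ℂ :=
  (M i.castSucc 0 * x + M i.castSucc 1 * y + M i.castSucc 2) / (M 2 0 * x + M 2 1 * y + M 2 2)

/-- Equivalence of two members of the family: one is carried to the other by a projective change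
of coordinates, as a contravariant symmetric 2-tensor. -/
def Equ (p q : Par) : Prop :=
  ∃ M : Matrix (Fin 3) (Fin 3) ℂ, M.det ≠ 0 ∧
    ∀ x y : ℂ, M 2 0 * x + M 2 1 * y + M 2 2 ≠ 0 → ∀ i j : Fin 2,
      gUp q.a q.b q.c i j (chg M 0 x y) (chg M 1 x y)
        = ∑ k, ∑ l, pd k (chg M i) x y * pd l (chg M j) x y * gUp p.a p.b p.c k l x y

theorem pd_chg (M : Matrix (Fin 3) (Fin 3) ℂ) (i k : Fin 2) (x y : ℂ)
    (h : M 2 0 * x + M 2 1 * y + M 2 2 ≠ 0) :
    pd k (chg M i) x y = (M i.castSucc k.castSucc * (M 2 0 * x + M 2 1 * y + M 2 2)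
      - (M i.castSucc 0 * x + M i.castSucc 1 * y + M i.castSucc 2) * M 2 k.castSucc)
      / (M 2 0 * x + M 2 1 * y + M 2 2) ^ 2 := by
  have hev : ∀ (r : Fin 3) (u v : ℂ), ev (C (M r 0) * X 0 + C (M r 1) * X 1 + C (M r 2)) u v
      = M r 0 * u + M r 1 * v + M r 2 := by
    intro r u v; simp [ev]
  have hq := pd_quot (C (M i.castSucc 0) * X 0 + C (M i.castSucc 1) * X 1 + C (M i.castSucc 2))
    (C (M 2 0) * X 0 + C (M 2 1) * X 1 + C (M 2 2)) 1 k (chg M i) x y (by rw [hev]; exact h)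
    (by
      intro u v _
      rw [hev, hev, pow_one]
      rfl)
  rw [hq, hev, hev]
  fin_cases k
  · simp [ev, pderiv_X]
  · simp [ev, pderiv_X]

theorem Hp_full (p : Par) (x y : ℂ) :
    Hp p ![x, y, 1] = !![p.c x y, -p.b x y, -(p.c x y * x) + p.b x y * y;
      -p.b x y, p.a x y, p.b x y * x - p.a x y * y;
      -(p.c x y * x) + p.b x y * y, p.b x y * x - p.a x y * y,
      p.c x y * x ^ 2 - 2 * p.b x y * x * y + p.a x y * y ^ 2] := by
  obtain ⟨h00, h01, h11⟩ := Hp_explicit p x y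
  have hsym : ∀ i j, Hp p ![x, y, 1] i j = Hp p ![x, y, 1] j i := by
    have hG : (Gf (toT p) ![x, y, 1])ᵀ = Gf (toT p) ![x, y, 1] := by
      ext i j
      simp only [Gf, Matrix.transpose_apply]
      refine Finset.sum_congr rfl fun k _ => Finset.sum_congr rfl fun l _ => ?_
      rw [toT_symm p j i]
    have hH : (Hp p ![x, y, 1])ᵀ = Hp p ![x, y, 1] := by
      unfold Hp Hf
      rw [Matrix.transpose_mul, Matrix.transpose_mul, Matrix.transpose_transpose, hG,
        Matrix.mul_assoc]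
    intro i j
    have := congrFun (congrFun hH j) i
    rw [Matrix.transpose_apply] at this
    exact this
  have hker : ∀ i, Hp p ![x, y, 1] i 0 * x + Hp p ![x, y, 1] i 1 * y + Hp p ![x, y, 1] i 2 = 0 := by
    intro i
    have hK : (Kx ![x, y, 1])ᵀ.mulVec ![x, y, 1] = 0 := by
      ext i
      fin_cases i <;> simp [Kx, Matrix.mulVec, dotProduct, Fin.sum_univ_three] <;> ring
    have hz : (Hp p ![x, y, 1]).mulVec ![x, y, 1] = 0 := by
      unfold Hp Hf
      rw [← Matrix.mulVec_mulVec, hK, Matrix.mulVec_zero]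
    have := congrFun hz i
    simpa [Matrix.mulVec, dotProduct, Fin.sum_univ_three] using this
  have k0 := hker 0
  have k1 := hker 1
  have k2 := hker 2
  rw [h00, h01] at k0
  rw [hsym 1 0, h01, h11] at k1
  rw [hsym 2 0, hsym 2 1] at k2
  have h02 : Hp p ![x, y, 1] 0 2 = -(p.c x y * x) + p.b x y * y := by linear_combination k0
  have h12 : Hp p ![x, y, 1] 1 2 = p.b x y * x - p.a x y * y := by linear_combination k1
  have h22 : Hp p ![x, y, 1] 2 2 = p.c x y * x ^ 2 - 2 * p.b x y * x * y + p.a x y * y ^ 2 := by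
    rw [h02, h12] at k2
    linear_combination k2
  ext i j
  fin_cases i <;> fin_cases j
  · exact h00
  · exact h01
  · exact h02
  · exact (hsym 1 0).trans h01
  · exact h11
  · exact h12
  · exact (hsym 2 0).trans h02
  · exact (hsym 2 1).trans h12
  · exact h22

theorem mulVec_chg (M : Matrix (Fin 3) (Fin 3) ℂ) (x y : ℂ)
    (h : M 2 0 * x + M 2 1 * y + M 2 2 ≠ 0) :
    M.mulVec ![x, y, 1] = (M 2 0 * x + M 2 1 * y + M 2 2) • ![chg M 0 x y, chg M 1 x y, 1] := by
  have key : ∀ n : ℂ, n = (M 2 0 * x + M 2 1 * y + M 2 2)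
      * (n / (M 2 0 * x + M 2 1 * y + M 2 2)) := by
    intro n
    rw [mul_div_assoc', mul_div_cancel_left₀ _ h]
  ext i
  fin_cases i
  · simp [Matrix.mulVec, dotProduct, Fin.sum_univ_three, chg]
    exact key _
  · simp [Matrix.mulVec, dotProduct, Fin.sum_univ_three, chg]
    exact key _
  · simp [Matrix.mulVec, dotProduct, Fin.sum_univ_three]

/-- The law for the quartic matrices gives the literal law. -/
theorem Equ_of_Act {M : Matrix (Fin 3) (Fin 3) ℂ} {p q : Par} (hM : M.det ≠ 0)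
    (h : Act M p q) : Equ p q := by
  refine ⟨M, hM, fun x y hL i j => ?_⟩
  have h1 := h ![x, y, 1]
  rw [mulVec_chg M x y hL, Hp_smul, Hp_full, Hp_full, Matrix.adjugate_fin_three] at h1
  set L : ℂ := M 2 0 * x + M 2 1 * y + M 2 2 with hLd
  have e00 := congrFun (congrFun h1 0) 0
  have e01 := congrFun (congrFun h1 0) 1
  have e11 := congrFun (congrFun h1 1) 1
  simp only [Matrix.smul_apply, Matrix.mul_apply, Fin.sum_univ_three, Matrix.transpose_apply,
    Matrix.of_apply, Matrix.cons_val', Matrix.cons_val_zero, Matrix.cons_val_one,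
    Matrix.cons_val_two, Matrix.head_cons, Matrix.tail_cons, Matrix.head_fin_const,
    Matrix.cons_val_fin_one, smul_eq_mul, Matrix.cons_val] at e00 e01 e11
  have hL4 : L ^ 4 ≠ 0 := pow_ne_zero _ hL
  simp only [Fin.sum_univ_two, pd_chg M _ _ x y hL]
  rw [← hLd]
  fin_cases i <;> fin_cases j
  · simp [gUp]
    refine mul_left_cancel₀ hL4 ?_
    rw [e11]
    field_simp
    rw [hLd]
    ring
  · simp [gUp]
    refine mul_left_cancel₀ hL4 ?_
    have : L ^ 4 * q.b (chg M 0 x y) (chg M 1 x y)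
      = -(L ^ 4 * -q.b (chg M 0 x y) (chg M 1 x y)) := by ring
    rw [this, e01]
    field_simp
    rw [hLd]
    ring
  · simp [gUp]
    refine mul_left_cancel₀ hL4 ?_
    have : L ^ 4 * q.b (chg M 0 x y) (chg M 1 x y)
      = -(L ^ 4 * -q.b (chg M 0 x y) (chg M 1 x y)) := by ring
    rw [this, e01]
    field_simp
    rw [hLd]
    ring
  · simp [gUp]
    refine mul_left_cancel₀ hL4 ?_
    rw [e00]
    field_simp
    rw [hLd]
    ring

end FM67
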