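import Pool.Agent.H67.FM.Hom
import Pool.Agent.H67.FM.Act

/-!
# Transport of tangency under linear changes of coordinates
-/

namespace FM67

open MvPolynomial Pool.Agent.H38.FM Matrix

/-- The polynomial matrix of a tensor. -/
noncomputable def Gm (g : T4) : Matrix (Fin 3) (Fin 3) R3 :=
  fun i j => ∑ k, ∑ l, C (g i j k l) * (X k * X l)

theorem eval_Gm (g : T4) (Z : Fin 3 → ℂ) : (Gm g).map (eval Z) = Gf g Z := by
  ext i j
  simp [Gm, Gf, Matrix.map_apply]

theorem Gm_symm {g : T4} (hs : ∀ i j k l, g i j k l = g j i k l) : (Gm g).IsSymm := by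
  refine Matrix.IsSymm.ext fun i j => ?_
  simp only [Gm]
  refine Finset.sum_congr rfl fun k _ => Finset.sum_congr rfl fun l _ => ?_
  rw [hs j i]

theorem Gm_homog (g : T4) (i j : Fin 3) : (Gm g i j).IsHomogeneous 2 := by
  refine IsHomogeneous.sum _ _ _ fun k _ => IsHomogeneous.sum _ _ _ fun l _ => ?_
  exact ((isHomogeneous_X _ k).mul (isHomogeneous_X _ l)).C_mul _

/-- Linear change of variables. -/
noncomputable def sig (N : Matrix (Fin 3) (Fin 3) ℂ) : R3 →ₐ[ℂ] R3 :=
  aeval (fun i => ∑ j, C (N i j) * X j)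

theorem eval_sig (N : Matrix (Fin 3) (Fin 3) ℂ) (f : R3) (Z : Fin 3 → ℂ) :
    eval Z (sig N f) = eval (N.mulVec Z) f := by
  induction f using MvPolynomial.induction_on with
  | C a => simp [sig]
  | add f g hf hg => simp only [map_add, hf, hg]
  | mul_X f i hf =>
    rw [map_mul, map_mul, map_mul, hf]
    congr 1
    simp [sig, Matrix.mulVec, dotProduct]

theorem sig_homog {N : Matrix (Fin 3) (Fin 3) ℂ} {f : R3} {n : ℕ} (hf : f.IsHomogeneous n) :
    (sig N f).IsHomogeneous n := by
  have h1 : ∀ i : Fin 3, (∑ j, C (N i j) * X j : R3).IsHomogeneous 1 := fun i =>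
    IsHomogeneous.sum _ _ _ fun j _ => (isHomogeneous_X _ j).C_mul _
  have := hf.aeval (n := 1) _ h1
  rwa [one_mul] at this

theorem pderiv_sig (N : Matrix (Fin 3) (Fin 3) ℂ) (f : R3) (j : Fin 3) :
    pderiv j (sig N f) = ∑ i, C (N i j) * sig N (pderiv i f) := by
  induction f using MvPolynomial.induction_on with
  | C a => simp [sig]
  | add f g hf hg =>
    simp only [map_add, hf, hg, mul_add, Finset.sum_add_distrib]
  | mul_X f k hf =>
    have hX : sig N (X k) = ∑ j, C (N k j) * X j := by simp [sig]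
    have hd : pderiv j (sig N (X k)) = C (N k j) := by
      rw [hX, map_sum]
      simp [pderiv_X, Pi.single_apply]
    rw [map_mul, pderiv_mul, hf, hd]
    simp only [pderiv_mul, map_add, map_mul, mul_add, Finset.sum_add_distrib, Finset.sum_mul]
    congr 1
    · refine Finset.sum_congr rfl fun i _ => ?_
      ring
    · rw [Finset.sum_eq_single k]
      · simp; ring
      · intro i _ hik
        rw [pderiv_X_of_ne (Ne.symm hik)]
        simp
      · intro h; exact absurd (Finset.mem_univ _) h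

/-- The transported matrix. -/
noncomputable def tra (M N : Matrix (Fin 3) (Fin 3) ℂ) (G : Matrix (Fin 3) (Fin 3) R3) :
    Matrix (Fin 3) (Fin 3) R3 := M.map C * G.map (sig N) * (M.map C)ᵀ

theorem eval_tra (M N : Matrix (Fin 3) (Fin 3) ℂ) (G : Matrix (Fin 3) (Fin 3) R3)
    (Z : Fin 3 → ℂ) :
    (tra M N G).map (eval Z) = M * G.map (eval (N.mulVec Z)) * Mᵀ := by
  have h1 : (M.map C).map (eval Z) = M := by ext i j; simp
  have h2 : (G.map (sig N)).map (eval Z) = G.map (eval (N.mulVec Z)) := by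
    ext i j
    simp [eval_sig]
  rw [tra, Matrix.map_mul, Matrix.map_mul, Matrix.transpose_map, h1, h2]

theorem mat_ext_eval {A B : Matrix (Fin 3) (Fin 3) R3}
    (h : ∀ Z : Fin 3 → ℂ, A.map (eval Z) = B.map (eval Z)) : A = B := by
  refine Matrix.ext fun i j => ?_
  rw [← sub_eq_zero]
  apply eq_zero_of_eval
  intro Z
  have := congrFun (congrFun (h Z) i) j
  simp only [Matrix.map_apply] at this
  rw [map_sub, this, sub_self]

theorem Gm_actT (M N : Matrix (Fin 3) (Fin 3) ℂ) (g : T4) :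
    Gm (actT M N g) = tra M N (Gm g) := by
  apply mat_ext_eval
  intro Z
  rw [eval_Gm, Gf_actT, eval_tra, eval_Gm]

theorem tra_tra {M N : Matrix (Fin 3) (Fin 3) ℂ} (h : N * M = 1)
    (G : Matrix (Fin 3) (Fin 3) R3) : tra N M (tra M N G) = G := by
  apply mat_ext_eval
  intro Z
  rw [eval_tra, eval_tra, Matrix.mulVec_mulVec, h, Matrix.one_mulVec]
  calc N * (M * G.map (eval Z) * Mᵀ) * Nᵀ = (N * M) * G.map (eval Z) * (N * M)ᵀ := by
        rw [Matrix.transpose_mul]
        simp only [Matrix.mul_assoc]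
    _ = _ := by rw [h, Matrix.one_mul, Matrix.transpose_one, Matrix.mul_one]

theorem tra_symm {M N : Matrix (Fin 3) (Fin 3) ℂ} {G : Matrix (Fin 3) (Fin 3) R3}
    (hG : G.IsSymm) : (tra M N G).IsSymm := by
  have hG' : Gᵀ = G := hG
  rw [Matrix.IsSymm, tra, Matrix.transpose_mul, Matrix.transpose_mul, Matrix.transpose_transpose,
    ← Matrix.transpose_map, hG', Matrix.mul_assoc]

/-- Cross products under a linear map. -/
theorem cross_mulVec (M : Matrix (Fin 3) (Fin 3) ℂ) (u v : Fin 3 → ℂ) :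
    crossProduct (M.mulVec u) (M.mulVec v) = M.adjugateᵀ.mulVec (crossProduct u v) := by
  rw [Matrix.adjugate_fin_three]
  ext i
  rw [cross_apply, cross_apply]
  fin_cases i <;> simp [Matrix.mulVec, dotProduct, Fin.sum_univ_three] <;> ring

theorem eval_cross (u v : Fin 3 → R3) (Z : Fin 3 → ℂ) (i : Fin 3) :
    eval Z (crossProduct u v i)
      = crossProduct (fun j => eval Z (u j)) (fun j => eval Z (v j)) i := by
  rw [cross_apply, cross_apply]
  fin_cases i <;> simp

theorem eval_mulVec (G : Matrix (Fin 3) (Fin 3) R3) (u : Fin 3 → R3) (Z : Fin 3 → ℂ) :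
    (fun j => eval Z (G.mulVec u j)) = (G.map (eval Z)).mulVec (fun j => eval Z (u j)) := by
  ext j
  simp [Matrix.mulVec, dotProduct]

theorem eval_gr_sig (N : Matrix (Fin 3) (Fin 3) ℂ) (f : R3) (Z : Fin 3 → ℂ) :
    (fun j => eval Z (gr (sig N f) j)) = Nᵀ.mulVec (fun j => eval (N.mulVec Z) (gr f j)) := by
  ext j
  simp only [gr]
  rw [pderiv_sig, map_sum]
  simp [Matrix.mulVec, dotProduct, eval_sig, Matrix.transpose_apply]

theorem cross_tra {M N : Matrix (Fin 3) (Fin 3) ℂ} (h : N * M = 1)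
    (G : Matrix (Fin 3) (Fin 3) R3) (f : R3) (i : Fin 3) :
    crossProduct ((tra M N G).mulVec (gr (sig N f))) xv i
      = ∑ j, C (M.adjugateᵀ i j) * sig N (crossProduct (G.mulVec (gr f)) xv j) := by
  rw [← sub_eq_zero]
  apply eq_zero_of_eval
  intro Z
  have hMN : M * N = 1 := mul_eq_one_comm.mp h
  have hx : (fun j => eval Z (xv j)) = M.mulVec (N.mulVec Z) := by
    rw [Matrix.mulVec_mulVec, hMN, Matrix.one_mulVec]
    ext j
    simp [xv]
  have hx' : (fun j => eval (N.mulVec Z) (xv j)) = N.mulVec Z := by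
    ext j
    simp [xv]
  have hNM : Mᵀ * Nᵀ = 1 := by rw [← Matrix.transpose_mul, h, Matrix.transpose_one]
  rw [map_sub, eval_cross, eval_mulVec, eval_tra, eval_gr_sig, hx, map_sum]
  simp only [map_mul, eval_C, eval_sig, eval_cross, eval_mulVec, hx']
  rw [Matrix.mulVec_mulVec, Matrix.mul_assoc, hNM, Matrix.mul_one, ← Matrix.mulVec_mulVec,
    cross_mulVec]
  simp [Matrix.mulVec, dotProduct]

theorem tang_tra {M N : Matrix (Fin 3) (Fin 3) ℂ} (h : N * M = 1)
    {G : Matrix (Fin 3) (Fin 3) R3} {f : R3} (ht : Tang G f) : Tang (tra M N G) (sig N f) := by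
  intro i
  rw [cross_tra h]
  exact Finset.dvd_sum fun j _ => Dvd.dvd.mul_left (map_dvd (sig N) (ht j)) _

theorem eval_disc (G : Matrix (Fin 3) (Fin 3) R3) (Z : Fin 3 → ℂ) :
    eval Z (disc G) = Z ⬝ᵥ ((G.map (eval Z)).adjugate.mulVec Z) := by
  have h1 : (G.map (eval Z)).adjugate = G.adjugate.map (eval Z) := by
    have := RingHom.map_adjugate (eval Z) G
    simpa using this.symm
  rw [h1, disc]
  simp [dotProduct, Matrix.mulVec, xv, map_sum]

theorem disc_tra {M N : Matrix (Fin 3) (Fin 3) ℂ} (h : N * M = 1)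
    (G : Matrix (Fin 3) (Fin 3) R3) : disc (tra M N G) = C (M.det ^ 2) * sig N (disc G) := by
  rw [← sub_eq_zero]
  apply eq_zero_of_eval
  intro Z
  have hMN : M * N = 1 := mul_eq_one_comm.mp h
  have hM : M.adjugate.mulVec Z = M.det • N.mulVec Z := by
    have h1 : M.adjugate = M.det • N := by
      calc M.adjugate = M.adjugate * (M * N) := by rw [hMN, Matrix.mul_one]
        _ = _ := by rw [← Matrix.mul_assoc, Matrix.adjugate_mul, Matrix.smul_mul, Matrix.one_mul]
    rw [h1, Matrix.smul_mulVec]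
  rw [map_sub, eval_disc, eval_tra, map_mul, eval_C, eval_sig, eval_disc,
    Matrix.adjugate_mul_distrib, Matrix.adjugate_mul_distrib, ← Matrix.adjugate_transpose]
  set A := (G.map (eval (N.mulVec Z))).adjugate with hA
  have e : Z ⬝ᵥ (M.adjugateᵀ * (A * M.adjugate)).mulVec Z
      = (M.adjugate.mulVec Z) ⬝ᵥ A.mulVec (M.adjugate.mulVec Z) := by
    rw [← Matrix.mulVec_mulVec, ← Matrix.mulVec_mulVec, Matrix.dotProduct_mulVec,
      Matrix.vecMul_transpose]
  rw [e, hM, Matrix.mulVec_smul, dotProduct_smul, smul_dotProduct]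
  simp only [smul_eq_mul]
  ring

/-- Tangency of the discriminant transports. -/
theorem tang_disc_tra {M N : Matrix (Fin 3) (Fin 3) ℂ} (h : N * M = 1)
    {G : Matrix (Fin 3) (Fin 3) R3} (ht : Tang G (disc G)) :
    Tang (tra M N G) (disc (tra M N G)) := by
  rw [disc_tra h]
  have hd : M.det ^ 2 ≠ 0 := by
    intro h0
    have h1 := congrArg Matrix.det h
    rw [Matrix.det_mul, Matrix.det_one, pow_eq_zero_iff (by norm_num)] at *
    rw [h0, mul_zero] at h1
    exact zero_ne_one h1
  have hu : IsUnit (C (M.det ^ 2) : R3) := (isUnit_iff_ne_zero.mpr hd).map C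
  intro i
  have e : crossProduct ((tra M N G).mulVec (gr (C (M.det ^ 2) * sig N (disc G)))) xv i
      = C (M.det ^ 2) * crossProduct ((tra M N G).mulVec (gr (sig N (disc G)))) xv i := by
    have hg : ∀ j, gr (C (M.det ^ 2) * sig N (disc G)) j
        = C (M.det ^ 2) * gr (sig N (disc G)) j := by
      intro j
      simp only [gr, pderiv_C_mul]
    rw [cross_apply, cross_apply]
    fin_cases i <;>
    · simp only [Matrix.mulVec, dotProduct, hg, Fin.sum_univ_three]
      simp
      ring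
  rw [e]
  exact mul_dvd_mul_left _ (tang_tra h ht i)

end FM67
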