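import Pool.Agent.H67.FM.CovB
import Pool.Agent.H67.FM.Tra

/-!
# The discriminant of a flat metric is tangent, in the whole projective plane
-/

namespace FM67

open MvPolynomial Pool.Agent.H38.FM Matrix

/-- The homogeneous discriminant. -/
noncomputable def dh (p : Par) : R3 := disc (Gm (toT p))

theorem dh_homog (p : Par) : (dh p).IsHomogeneous 6 :=
  disc_homog (Gm_symm (toT_symm p)) (Gm_homog _)

theorem G_abc (p : Par) (x y : ℂ) :
    p.a x y = Gf (toT p) ![x, y, 1] 0 0 - 2 * x * Gf (toT p) ![x, y, 1] 0 2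
      + x ^ 2 * Gf (toT p) ![x, y, 1] 2 2 ∧
    p.b x y = Gf (toT p) ![x, y, 1] 0 1 - x * Gf (toT p) ![x, y, 1] 1 2
      - y * Gf (toT p) ![x, y, 1] 0 2 + x * y * Gf (toT p) ![x, y, 1] 2 2 ∧
    p.c x y = Gf (toT p) ![x, y, 1] 1 1 - 2 * y * Gf (toT p) ![x, y, 1] 1 2
      + y ^ 2 * Gf (toT p) ![x, y, 1] 2 2 := by
  refine ⟨?_, ?_, ?_⟩
  · simp [Gf, toT, Fin.sum_univ_three, Par.a, Par.U, Par.Q]
    ring
  · simp [Gf, toT, Fin.sum_univ_three, Par.b, Par.U, Par.V, Par.Q]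
    ring
  · simp [Gf, toT, Fin.sum_univ_three, Par.c, Par.V, Par.Q]
    ring

theorem G_col (p : Par) (x y : ℂ) :
    Gf (toT p) ![x, y, 1] 0 2 = -p.U x y / 2 ∧ Gf (toT p) ![x, y, 1] 1 2 = -p.V x y / 2 ∧
    Gf (toT p) ![x, y, 1] 2 2 = p.Q x y := by
  refine ⟨?_, ?_, ?_⟩
  · simp [Gf, toT, Fin.sum_univ_three, Par.U]
    ring
  · simp [Gf, toT, Fin.sum_univ_three, Par.V]
    ring
  · simp [Gf, toT, Fin.sum_univ_three, Par.Q]
    ring

theorem Gf_symm (p : Par) (Z : Fin 3 → ℂ) (i j : Fin 3) :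
    Gf (toT p) Z i j = Gf (toT p) Z j i := by
  simp only [Gf]
  refine Finset.sum_congr rfl fun k _ => Finset.sum_congr rfl fun l _ => ?_
  rw [toT_symm p j i]

theorem deh_dh (p : Par) : deh (dh p) = Dp (pa p) (pb p) (pc p) := by
  rw [← sub_eq_zero]
  apply ev_eq_zero
  intro x y
  have h1 : ev (deh (dh p) - Dp (pa p) (pb p) (pc p)) x y
      = ev (deh (dh p)) x y - ev (Dp (pa p) (pb p) (pc p)) x y := by simp [ev]
  rw [h1, ev_D, ev_deh, dh, eval_disc, eval_Gm, Par.D]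
  obtain ⟨ha, hb, hc⟩ := G_abc p x y
  rw [ha, hb, hc, Matrix.adjugate_fin_three]
  have s01 := Gf_symm p ![x, y, 1] 1 0
  have s02 := Gf_symm p ![x, y, 1] 2 0
  have s12 := Gf_symm p ![x, y, 1] 2 1
  simp [Matrix.mulVec, dotProduct, Fin.sum_univ_three, s01, s02, s12]
  ring

theorem grd0 (p : Par) (x y : ℂ) : eval ![x, y, 1] (pderiv 0 (dh p)) = p.Dx x y := by
  rw [← ev_Dx, ← deh_dh, pderiv_deh, ev_deh]
  rfl

theorem grd1 (p : Par) (x y : ℂ) : eval ![x, y, 1] (pderiv 1 (dh p)) = p.Dy x y := by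
  rw [← ev_Dy, ← deh_dh, pderiv_deh, ev_deh]
  rfl

theorem grd2 (p : Par) (x y : ℂ) :
    eval ![x, y, 1] (pderiv 2 (dh p)) = 6 * p.D x y - x * p.Dx x y - y * p.Dy x y := by
  have h := congrArg (eval ![x, y, 1]) (euler3 (dh_homog p))
  simp only [map_add, map_mul, eval_X, grd0, grd1, map_natCast] at h
  have hD : eval ![x, y, 1] (dh p) = p.D x y := by rw [← ev_deh, deh_dh, ev_D]
  rw [hD] at h
  simp at h
  linear_combination h

theorem dh_ne_zero {p : Par} (hp : p.Nondeg) : dh p ≠ 0 := by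
  intro h
  apply Dp_ne_zero hp
  rw [← deh_dh, h, map_zero]

/-- The crucial computation. -/
theorem ev_cross (p : Par) (x y : ℂ) (i : Fin 3) :
    eval ![x, y, 1] (crossProduct ((Gm (toT p)).mulVec (gr (dh p))) xv i)
      = (![(p.b x y * p.Dx x y + p.c x y * p.Dy x y) - 6 * p.D x y * (p.V x y / 2 + y * p.Q x y),
        -(p.a x y * p.Dx x y + p.b x y * p.Dy x y) + 6 * p.D x y * (p.U x y / 2 + x * p.Q x y),
        y * (p.a x y * p.Dx x y + p.b x y * p.Dy x y)
          - x * (p.b x y * p.Dx x y + p.c x y * p.Dy x y)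
          + 3 * p.D x y * (x * p.V x y - y * p.U x y)] : Fin 3 → ℂ) i := by
  have hx : (fun j => eval ![x, y, 1] (xv j)) = ![x, y, 1] := by
    ext j
    simp [xv]
  have hg : (fun j => eval ![x, y, 1] (gr (dh p) j))
      = ![p.Dx x y, p.Dy x y, 6 * p.D x y - x * p.Dx x y - y * p.Dy x y] := by
    ext j
    fin_cases j
    · exact grd0 p x y
    · exact grd1 p x y
    · exact grd2 p x y
  rw [eval_cross, eval_mulVec, eval_Gm, hx, hg]
  obtain ⟨ha, hb, hc⟩ := G_abc p x y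
  obtain ⟨h02, h12, h22⟩ := G_col p x y
  have s01 := Gf_symm p ![x, y, 1] 1 0
  have s02 := Gf_symm p ![x, y, 1] 2 0
  have s12 := Gf_symm p ![x, y, 1] 2 1
  have hU : p.U x y = -2 * Gf (toT p) ![x, y, 1] 0 2 := by rw [h02]; ring
  have hV : p.V x y = -2 * Gf (toT p) ![x, y, 1] 1 2 := by rw [h12]; ring
  rw [ha, hb, hc, hU, hV, ← h22, cross_apply]
  fin_cases i <;>
  · simp [Matrix.mulVec, dotProduct, Fin.sum_univ_three, s01, s02, s12]
    ring

theorem cross_homog {G : Matrix (Fin 3) (Fin 3) R3} (hG : ∀ i j, (G i j).IsHomogeneous 2)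
    {f : R3} {n : ℕ} (hn : 0 < n) (hf : f.IsHomogeneous n) (i : Fin 3) :
    (crossProduct (G.mulVec (gr f)) xv i).IsHomogeneous (n + 2) := by
  have hmv : ∀ i, (G.mulVec (gr f) i).IsHomogeneous (n + 1) := by
    intro i
    have : n + 1 = 2 + (n - 1) := by omega
    rw [this]
    simp only [Matrix.mulVec, dotProduct]
    exact IsHomogeneous.sum _ _ _ fun j _ => (hG i j).mul (hgr hf j)
  have hX := fun i : Fin 3 => isHomogeneous_X ℂ i
  rw [cross_apply]
  fin_cases i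
  · exact ((hmv 1).mul (hX 2)).sub ((hmv 2).mul (hX 1))
  · exact ((hmv 2).mul (hX 0)).sub ((hmv 0).mul (hX 2))
  · exact ((hmv 0).mul (hX 1)).sub ((hmv 1).mul (hX 0))

/-- Tangency when the line at infinity is not a component of the discriminant. -/
theorem tang_of_not_dvd {p : Par} (hp : p.Nondeg) (hE : Ep (pa p) (pb p) (pc p) = 0)
    (h2 : ¬ X 2 ∣ dh p) : Tang (Gm (toT p)) (dh p) := by
  obtain ⟨⟨u, hu⟩, ⟨w, hw⟩⟩ := dvd_of_flat hE (Dp_ne_zero hp)
  intro i
  refine dvd_of_deh (dh_homog p) (cross_homog (Gm_homog _) (by norm_num) (dh_homog p) i) h2 ?_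
  rw [deh_dh]
  have hu' : ∀ x y, p.a x y * p.Dx x y + p.b x y * p.Dy x y = p.D x y * ev u x y := by
    intro x y
    have h1 := congrArg (fun f => ev f x y) hu
    have h3 : ev (Dp (pa p) (pb p) (pc p) * u) x y
        = ev (Dp (pa p) (pb p) (pc p)) x y * ev u x y := by simp [ev]
    have h4 : ev (pa p * pderiv 0 (Dp (pa p) (pb p) (pc p))
        + pb p * pderiv 1 (Dp (pa p) (pb p) (pc p))) x y
        = ev (pa p) x y * ev (pderiv 0 (Dp (pa p) (pb p) (pc p))) x y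
          + ev (pb p) x y * ev (pderiv 1 (Dp (pa p) (pb p) (pc p))) x y := by simp [ev]
    rw [h3, h4, ev_pa, ev_pb, ev_Dx, ev_Dy, ev_D] at h1
    exact h1
  have hw' : ∀ x y, p.b x y * p.Dx x y + p.c x y * p.Dy x y = p.D x y * ev w x y := by
    intro x y
    have h1 := congrArg (fun f => ev f x y) hw
    have h3 : ev (Dp (pa p) (pb p) (pc p) * w) x y
        = ev (Dp (pa p) (pb p) (pc p)) x y * ev w x y := by simp [ev]
    have h4 : ev (pb p * pderiv 0 (Dp (pa p) (pb p) (pc p))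
        + pc p * pderiv 1 (Dp (pa p) (pb p) (pc p))) x y
        = ev (pb p) x y * ev (pderiv 0 (Dp (pa p) (pb p) (pc p))) x y
          + ev (pc p) x y * ev (pderiv 1 (Dp (pa p) (pb p) (pc p))) x y := by simp [ev]
    rw [h3, h4, ev_pb, ev_pc, ev_Dx, ev_Dy, ev_D] at h1
    exact h1
  have hU : ∀ x y, ev (Up p) x y = p.U x y := by intro x y; simp [ev, Up, Par.U]
  have hV : ∀ x y, ev (Vp p) x y = p.V x y := by intro x y; simp [ev, Vp, Par.V]
  have hQ : ∀ x y, ev (Qp p) x y = p.Q x y := by intro x y; simp [ev, Qp, Par.Q]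
  have key : ∀ g : R2, (∀ x y, eval ![x, y, 1]
      (crossProduct ((Gm (toT p)).mulVec (gr (dh p))) xv i) = p.D x y * ev g x y) →
      Dp (pa p) (pb p) (pc p) ∣ deh (crossProduct ((Gm (toT p)).mulVec (gr (dh p))) xv i) := by
    intro g hg
    refine ⟨g, ?_⟩
    rw [← sub_eq_zero]
    apply ev_eq_zero
    intro x y
    have h1 := hg x y
    rw [← ev_deh, ← ev_D] at h1
    have h3 : ∀ A B c : R2, ev (A - B * c) x y = ev A x y - ev B x y * ev c x y := by
      intro A B c; simp [ev]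
    rw [h3, h1, sub_self]
  fin_cases i
  · refine key (w - C 6 * (C (1 / 2) * Vp p + X 1 * Qp p)) fun x y => ?_
    have h3 : ev (w - C 6 * (C (1 / 2) * Vp p + X 1 * Qp p)) x y
        = ev w x y - 6 * (1 / 2 * ev (Vp p) x y + y * ev (Qp p) x y) := by simp [ev]
    rw [h3, hV, hQ, ev_cross]
    simp only [Matrix.cons_val_zero, Fin.zero_eta]
    rw [hw']
    ring
  · refine key (-u + C 6 * (C (1 / 2) * Up p + X 0 * Qp p)) fun x y => ?_
    have h3 : ev (-u + C 6 * (C (1 / 2) * Up p + X 0 * Qp p)) x y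
        = -ev u x y + 6 * (1 / 2 * ev (Up p) x y + x * ev (Qp p) x y) := by simp [ev]
    rw [h3, hU, hQ, ev_cross]
    simp only [Matrix.cons_val_one, Fin.mk_one, Matrix.cons_val_zero]
    rw [hu']
    ring
  · refine key (X 1 * u - X 0 * w + C 3 * (X 0 * Vp p - X 1 * Up p)) fun x y => ?_
    have h3 : ev (X 1 * u - X 0 * w + C 3 * (X 0 * Vp p - X 1 * Up p)) x y
        = y * ev u x y - x * ev w x y + 3 * (x * ev (Vp p) x y - y * ev (Up p) x y) := by
      simp [ev]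
    rw [h3, hU, hV, ev_cross]
    simp only [Fin.reduceFinMk, Matrix.cons_val]
    rw [hu', hw']
    ring

/-- Change of gauge for the polynomial matrices. -/
theorem Gm_toT_fromT {g : T4} (hs : ∀ i j k l, g i j k l = g j i k l) :
    ∃ l : Fin 3 → R3, (∀ i, (l i).IsHomogeneous 1) ∧ Gm (toT (fromT g)) = reg (Gm g) l := by
  have hl : ∀ a b c : ℂ, (C a * X 0 + C b * X 1 + C c * X 2 : R3).IsHomogeneous 1 :=
    fun a b c => (((isHomogeneous_X _ _).C_mul _).add ((isHomogeneous_X _ _).C_mul _)).add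
      ((isHomogeneous_X _ _).C_mul _)
  refine ⟨![C (-(g 0 2 0 2 + g 0 2 2 0) + g 2 2 2 2 / 2) * X 0 + C (-(g 0 2 1 2 + g 0 2 2 1)) * X 1
      + C (-g 0 2 2 2) * X 2,
    C (-(g 1 2 0 2 + g 1 2 2 0)) * X 0 + C (-(g 1 2 1 2 + g 1 2 2 1) + g 2 2 2 2 / 2) * X 1
      + C (-g 1 2 2 2) * X 2,
    C (-(g 2 2 0 2 + g 2 2 2 0) / 2) * X 0 + C (-(g 2 2 1 2 + g 2 2 2 1) / 2) * X 1
      + C (-g 2 2 2 2 / 2) * X 2], fun i => ?_, ?_⟩
  · fin_cases i
    · exact hl _ _ _
    · exact hl _ _ _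
    · exact hl _ _ _
  · refine mat_ext_eval fun Z => ?_
    rw [eval_Gm]
    ext i j
    have h10 := fun k l => hs 1 0 k l
    have h20 := fun k l => hs 2 0 k l
    have h21 := fun k l => hs 2 1 k l
    fin_cases i <;> fin_cases j <;>
      simp [Gf, Gm, reg, toT, fromT, Fin.sum_univ_three, h10, h20, h21] <;> ring

theorem reg_reg_neg (G : Matrix (Fin 3) (Fin 3) R3) (l : Fin 3 → R3) :
    reg (reg G l) (-l) = G := by
  refine Matrix.ext fun i j => ?_
  simp only [reg, Pi.neg_apply]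
  ring

/-- **Tangency.** -/
theorem tang_of_flat {p : Par} (hp : p.Nondeg) (hE : Ep (pa p) (pb p) (pc p) = 0) :
    Tang (Gm (toT p)) (dh p) := by
  obtain ⟨x0, y0, hxy⟩ := hp
  have hp : p.Nondeg := ⟨x0, y0, hxy⟩
  set N : Matrix (Fin 3) (Fin 3) ℂ := !![x0, 1, 0; y0, 0, 1; 1, 0, 0] with hN
  set M : Matrix (Fin 3) (Fin 3) ℂ := !![0, 0, 1; 1, 0, -x0; 0, 1, -y0] with hM
  have hNM : N * M = 1 := by
    ext i j
    fin_cases i <;> fin_cases j <;> simp [hN, hM, Matrix.mul_apply, Fin.sum_univ_three]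
  have hMN : M * N = 1 := mul_eq_one_comm.mp hNM
  have hdM : M.det ≠ 0 := by
    intro h0
    have h1 := congrArg Matrix.det hMN
    rw [Matrix.det_mul, h0, zero_mul, Matrix.det_one] at h1
    exact zero_ne_one h1
  set q := act M N p with hq
  have hact : Act M p q := Act_act hNM p
  have hqn := nondeg_of_Act hdM hact hp
  have hqE := Ep_of_Act hdM hact hE
  obtain ⟨l, hl, hGl⟩ := Gm_toT_fromT (g := actT M N (toT p)) (actT_symm (toT_symm p))
  have hs := Gm_symm (toT_symm p)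
  have hGq : Gm (toT q) = reg (tra M N (Gm (toT p))) l := by
    rw [← Gm_actT]
    exact hGl
  have hdq : dh q = C (M.det ^ 2) * sig N (dh p) := by
    rw [dh, hGq, disc_reg (tra_symm hs), disc_tra hNM]
    rfl
  have h2 : ¬ X 2 ∣ dh q := by
    rintro ⟨r, hr⟩
    have h3 := congrArg (eval ![1, 0, 0]) (hdq.symm.trans hr)
    rw [map_mul, map_mul, eval_C, eval_X, eval_sig] at h3
    have h4 : N.mulVec ![1, 0, 0] = ![x0, y0, 1] := by
      ext i
      fin_cases i <;> simp [hN, Matrix.mulVec, dotProduct, Fin.sum_univ_three]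
    have h5 : eval ![x0, y0, 1] (dh p) = p.D x0 y0 := by rw [← ev_deh, deh_dh, ev_D]
    rw [h4, h5] at h3
    simp at h3
    exact h3.elim hdM hxy
  have ht := tang_of_not_dvd hqn hqE h2
  -- transport back
  have ht1 : Tang (tra M N (Gm (toT p))) (disc (tra M N (Gm (toT p)))) := by
    have e1 : disc (tra M N (Gm (toT p))) = dh q := by
      rw [dh, hGq, disc_reg (tra_symm hs)]
    rw [e1, ← reg_reg_neg (tra M N (Gm (toT p))) l, ← hGq]
    exact tang_reg (dh_homog q) ht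
  have ht2 := tang_disc_tra hMN ht1
  rw [tra_tra hNM] at ht2
  exact ht2

end FM67
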