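import Pool.Agent.H67.FM.Cov

/-!
# Fast evaluation of the action of elementary matrices
-/

namespace FM67

open MvPolynomial Pool.Agent.H38.FM Matrix

theorem actT_nest (M N : Matrix (Fin 3) (Fin 3) ℂ) (g : T4) (i j k l : Fin 3) :
    actT M N g i j k l = ∑ a, M i a * ∑ b, M j b * ∑ c, N c k * ∑ d, N d l * g a b c d := by
  simp only [actT, Finset.mul_sum]
  refine Finset.sum_congr rfl fun a _ => Finset.sum_congr rfl fun b _ =>
    Finset.sum_congr rfl fun c _ => Finset.sum_congr rfl fun d _ => ?_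
  ring

theorem tt0000 (p : Par) : toT p 0 0 0 0 = p.a20 := rfl
theorem tt0001 (p : Par) : toT p 0 0 0 1 = p.a11 / 2 := rfl
theorem tt0002 (p : Par) : toT p 0 0 0 2 = p.a10 / 2 := rfl
theorem tt0010 (p : Par) : toT p 0 0 1 0 = p.a11 / 2 := rfl
theorem tt0011 (p : Par) : toT p 0 0 1 1 = p.a02 := rfl
theorem tt0012 (p : Par) : toT p 0 0 1 2 = p.a01 / 2 := rfl
theorem tt0020 (p : Par) : toT p 0 0 2 0 = p.a10 / 2 := rfl
theorem tt0021 (p : Par) : toT p 0 0 2 1 = p.a01 / 2 := rfl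
theorem tt0022 (p : Par) : toT p 0 0 2 2 = p.a00 := rfl
theorem tt0100 (p : Par) : toT p 0 1 0 0 = p.b20 := rfl
theorem tt0101 (p : Par) : toT p 0 1 0 1 = p.b11 / 2 := rfl
theorem tt0102 (p : Par) : toT p 0 1 0 2 = p.b10 / 2 := rfl
theorem tt0110 (p : Par) : toT p 0 1 1 0 = p.b11 / 2 := rfl
theorem tt0111 (p : Par) : toT p 0 1 1 1 = p.b02 := rfl
theorem tt0112 (p : Par) : toT p 0 1 1 2 = p.b01 / 2 := rfl
theorem tt0120 (p : Par) : toT p 0 1 2 0 = p.b10 / 2 := rfl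
theorem tt0121 (p : Par) : toT p 0 1 2 1 = p.b01 / 2 := rfl
theorem tt0122 (p : Par) : toT p 0 1 2 2 = p.b00 := rfl
theorem tt0200 (p : Par) : toT p 0 2 0 0 = -p.u20 / 2 := rfl
theorem tt0201 (p : Par) : toT p 0 2 0 1 = -p.u11 / 4 := rfl
theorem tt0202 (p : Par) : toT p 0 2 0 2 = 0 := rfl
theorem tt0210 (p : Par) : toT p 0 2 1 0 = -p.u11 / 4 := rfl
theorem tt0211 (p : Par) : toT p 0 2 1 1 = -p.u02 / 2 := rfl
theorem tt0212 (p : Par) : toT p 0 2 1 2 = 0 := rfl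
theorem tt0220 (p : Par) : toT p 0 2 2 0 = 0 := rfl
theorem tt0221 (p : Par) : toT p 0 2 2 1 = 0 := rfl
theorem tt0222 (p : Par) : toT p 0 2 2 2 = 0 := rfl
theorem tt1000 (p : Par) : toT p 1 0 0 0 = p.b20 := rfl
theorem tt1001 (p : Par) : toT p 1 0 0 1 = p.b11 / 2 := rfl
theorem tt1002 (p : Par) : toT p 1 0 0 2 = p.b10 / 2 := rfl
theorem tt1010 (p : Par) : toT p 1 0 1 0 = p.b11 / 2 := rfl
theorem tt1011 (p : Par) : toT p 1 0 1 1 = p.b02 := rfl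
theorem tt1012 (p : Par) : toT p 1 0 1 2 = p.b01 / 2 := rfl
theorem tt1020 (p : Par) : toT p 1 0 2 0 = p.b10 / 2 := rfl
theorem tt1021 (p : Par) : toT p 1 0 2 1 = p.b01 / 2 := rfl
theorem tt1022 (p : Par) : toT p 1 0 2 2 = p.b00 := rfl
theorem tt1100 (p : Par) : toT p 1 1 0 0 = p.c20 := rfl
theorem tt1101 (p : Par) : toT p 1 1 0 1 = p.c11 / 2 := rfl
theorem tt1102 (p : Par) : toT p 1 1 0 2 = p.c10 / 2 := rfl
theorem tt1110 (p : Par) : toT p 1 1 1 0 = p.c11 / 2 := rfl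
theorem tt1111 (p : Par) : toT p 1 1 1 1 = p.c02 := rfl
theorem tt1112 (p : Par) : toT p 1 1 1 2 = p.c01 / 2 := rfl
theorem tt1120 (p : Par) : toT p 1 1 2 0 = p.c10 / 2 := rfl
theorem tt1121 (p : Par) : toT p 1 1 2 1 = p.c01 / 2 := rfl
theorem tt1122 (p : Par) : toT p 1 1 2 2 = p.c00 := rfl
theorem tt1200 (p : Par) : toT p 1 2 0 0 = -p.v20 / 2 := rfl
theorem tt1201 (p : Par) : toT p 1 2 0 1 = -p.v11 / 4 := rfl
theorem tt1202 (p : Par) : toT p 1 2 0 2 = 0 := rfl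
theorem tt1210 (p : Par) : toT p 1 2 1 0 = -p.v11 / 4 := rfl
theorem tt1211 (p : Par) : toT p 1 2 1 1 = -p.v02 / 2 := rfl
theorem tt1212 (p : Par) : toT p 1 2 1 2 = 0 := rfl
theorem tt1220 (p : Par) : toT p 1 2 2 0 = 0 := rfl
theorem tt1221 (p : Par) : toT p 1 2 2 1 = 0 := rfl
theorem tt1222 (p : Par) : toT p 1 2 2 2 = 0 := rfl
theorem tt2000 (p : Par) : toT p 2 0 0 0 = -p.u20 / 2 := rfl
theorem tt2001 (p : Par) : toT p 2 0 0 1 = -p.u11 / 4 := rfl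
theorem tt2002 (p : Par) : toT p 2 0 0 2 = 0 := rfl
theorem tt2010 (p : Par) : toT p 2 0 1 0 = -p.u11 / 4 := rfl
theorem tt2011 (p : Par) : toT p 2 0 1 1 = -p.u02 / 2 := rfl
theorem tt2012 (p : Par) : toT p 2 0 1 2 = 0 := rfl
theorem tt2020 (p : Par) : toT p 2 0 2 0 = 0 := rfl
theorem tt2021 (p : Par) : toT p 2 0 2 1 = 0 := rfl
theorem tt2022 (p : Par) : toT p 2 0 2 2 = 0 := rfl
theorem tt2100 (p : Par) : toT p 2 1 0 0 = -p.v20 / 2 := rfl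
theorem tt2101 (p : Par) : toT p 2 1 0 1 = -p.v11 / 4 := rfl
theorem tt2102 (p : Par) : toT p 2 1 0 2 = 0 := rfl
theorem tt2110 (p : Par) : toT p 2 1 1 0 = -p.v11 / 4 := rfl
theorem tt2111 (p : Par) : toT p 2 1 1 1 = -p.v02 / 2 := rfl
theorem tt2112 (p : Par) : toT p 2 1 1 2 = 0 := rfl
theorem tt2120 (p : Par) : toT p 2 1 2 0 = 0 := rfl
theorem tt2121 (p : Par) : toT p 2 1 2 1 = 0 := rfl
theorem tt2122 (p : Par) : toT p 2 1 2 2 = 0 := rfl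
theorem tt2200 (p : Par) : toT p 2 2 0 0 = p.q20 := rfl
theorem tt2201 (p : Par) : toT p 2 2 0 1 = p.q11 / 2 := rfl
theorem tt2202 (p : Par) : toT p 2 2 0 2 = 0 := rfl
theorem tt2210 (p : Par) : toT p 2 2 1 0 = p.q11 / 2 := rfl
theorem tt2211 (p : Par) : toT p 2 2 1 1 = p.q02 := rfl
theorem tt2212 (p : Par) : toT p 2 2 1 2 = 0 := rfl
theorem tt2220 (p : Par) : toT p 2 2 2 0 = 0 := rfl
theorem tt2221 (p : Par) : toT p 2 2 2 1 = 0 := rfl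
theorem tt2222 (p : Par) : toT p 2 2 2 2 = 0 := rfl

end FM67
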