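import Pool.Agent.H67.FM.Vin

/-!
# Gauge: a tangent curve has a lift with `G ∇f = h x`; reduced discriminants
-/

namespace FM67

open MvPolynomial Matrix

theorem hgr {f : R3} {n : ℕ} (h : f.IsHomogeneous n) (i : Fin 3) :
    (gr f i).IsHomogeneous (n - 1) := h.pderiv

theorem euler3 {f : R3} {n : ℕ} (h : f.IsHomogeneous n) :
    X 0 * pderiv 0 f + X 1 * pderiv 1 f + X 2 * pderiv 2 f = (n : R3) * f := by
  have := h.sum_X_mul_pderiv
  rw [Fin.sum_univ_three] at this
  rw [this, nsmul_eq_mul]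

/-- Koszul, first step. -/
theorem koszul1 {v : Fin 3 → R3} {k : ℕ} (hv : ∀ i, (v i).IsHomogeneous k)
    (h : ∀ i, crossProduct v xv i = 0) :
    ∃ c : R3, c.IsHomogeneous (k - 1) ∧ ∀ i, v i = c * X i := by
  have h0 := h 0
  have h1 := h 1
  have h2 := h 2
  simp only [cross_apply, xv, Matrix.cons_val_zero, Matrix.cons_val_one, Matrix.cons_val_two,
    Matrix.head_cons, Matrix.tail_cons] at h0 h1 h2
  have e0 := euler3 (hv 0)
  have e1 := euler3 (hv 1)
  have e2 := euler3 (hv 2)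
  have hk : ((k : ℂ) + 2) ≠ 0 := by exact_mod_cast (by omega : k + 2 ≠ 0)
  have hC : (C ((k : ℂ) + 2)⁻¹ : R3) * ((k : R3) + 2) = 1 := by
    have h2C : (C (2 : ℂ) : R3) = 2 := map_ofNat C 2
    have : ((k : R3) + 2) = C ((k : ℂ) + 2) := by simp [h2C]
    rw [this, ← map_mul, inv_mul_cancel₀ hk, map_one]
  refine ⟨C ((k : ℂ) + 2)⁻¹ * (pderiv 0 (v 0) + pderiv 1 (v 1) + pderiv 2 (v 2)), ?_, ?_⟩
  · exact (((hv 0).pderiv.add (hv 1).pderiv).add (hv 2).pderiv).C_mul _
  · have d20 := congrArg (pderiv 0) h2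
    have d21 := congrArg (pderiv 1) h2
    have d10 := congrArg (pderiv 0) h1
    have d12 := congrArg (pderiv 2) h1
    have d01 := congrArg (pderiv 1) h0
    have d02 := congrArg (pderiv 2) h0
    simp [pderiv_X, Pi.single_apply] at d20 d21 d10 d12 d01 d02
    intro i
    fin_cases i
    · show v 0 = _ * X 0
      have : (pderiv 0 (v 0) + pderiv 1 (v 1) + pderiv 2 (v 2)) * X 0 = ((k : R3) + 2) * v 0 := by
        linear_combination e0 - d21 + d12
      rw [mul_assoc, this, ← mul_assoc, hC, one_mul]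
    · show v 1 = _ * X 1
      have : (pderiv 0 (v 0) + pderiv 1 (v 1) + pderiv 2 (v 2)) * X 1 = ((k : R3) + 2) * v 1 := by
        linear_combination e1 + d20 - d02
      rw [mul_assoc, this, ← mul_assoc, hC, one_mul]
    · show v 2 = _ * X 2
      have : (pderiv 0 (v 0) + pderiv 1 (v 1) + pderiv 2 (v 2)) * X 2 = ((k : R3) + 2) * v 2 := by
        linear_combination e2 - d10 + d01
      rw [mul_assoc, this, ← mul_assoc, hC, one_mul]

/-- Koszul, second step. -/
theorem koszul2 {w : Fin 3 → R3} {k : ℕ} (hw : ∀ i, (w i).IsHomogeneous k)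
    (h : X 0 * w 0 + X 1 * w 1 + X 2 * w 2 = 0) :
    ∃ u : Fin 3 → R3, (∀ i, (u i).IsHomogeneous (k - 1)) ∧ ∀ i, w i = crossProduct u xv i := by
  have e0 := euler3 (hw 0)
  have e1 := euler3 (hw 1)
  have e2 := euler3 (hw 2)
  have d0 := congrArg (pderiv 0) h
  have d1 := congrArg (pderiv 1) h
  have d2 := congrArg (pderiv 2) h
  simp [pderiv_X, Pi.single_apply] at d0 d1 d2
  have hk : ((k : ℂ) + 1) ≠ 0 := by exact_mod_cast (by omega : k + 1 ≠ 0)
  have hC : (C ((k : ℂ) + 1)⁻¹ : R3) * ((k : R3) + 1) = 1 := by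
    have : ((k : R3) + 1) = C ((k : ℂ) + 1) := by simp
    rw [this, ← map_mul, inv_mul_cancel₀ hk, map_one]
  refine ⟨![C ((k : ℂ) + 1)⁻¹ * (pderiv 1 (w 2) - pderiv 2 (w 1)),
    C ((k : ℂ) + 1)⁻¹ * (pderiv 2 (w 0) - pderiv 0 (w 2)),
    C ((k : ℂ) + 1)⁻¹ * (pderiv 0 (w 1) - pderiv 1 (w 0))], ?_, ?_⟩
  · intro i
    fin_cases i
    · exact ((hw 2).pderiv.sub (hw 1).pderiv).C_mul _
    · exact ((hw 0).pderiv.sub (hw 2).pderiv).C_mul _
    · exact ((hw 1).pderiv.sub (hw 0).pderiv).C_mul _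
  · intro i
    rw [cross_apply]
    fin_cases i
    · simp [xv]
      linear_combination (-w 0) * hC + C ((k : ℂ) + 1)⁻¹ * (-e0 + d0)
    · simp [xv]
      linear_combination (-w 1) * hC + C ((k : ℂ) + 1)⁻¹ * (-e1 + d1)
    · simp [xv]
      linear_combination (-w 2) * hC + C ((k : ℂ) + 1)⁻¹ * (-e2 + d2)

/-- The discriminant of the tensor restricted to the annihilator of `x`. -/
noncomputable def disc (G : Matrix (Fin 3) (Fin 3) R3) : R3 := xv ⬝ᵥ (G.adjugate.mulVec xv)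

/-- Change of gauge. -/
noncomputable def reg (G : Matrix (Fin 3) (Fin 3) R3) (l : Fin 3 → R3) :
    Matrix (Fin 3) (Fin 3) R3 := fun i j => G i j + X i * l j + l i * X j

theorem reg_symm {G : Matrix (Fin 3) (Fin 3) R3} (hG : G.IsSymm) (l : Fin 3 → R3) :
    (reg G l).IsSymm := by
  ext i j
  simp only [reg, Matrix.transpose_apply]
  have : G j i = G i j := hG.apply i j
  rw [this]; ring

theorem reg_homog {G : Matrix (Fin 3) (Fin 3) R3} (hG : ∀ i j, (G i j).IsHomogeneous 2)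
    {l : Fin 3 → R3} (hl : ∀ i, (l i).IsHomogeneous 1) (i j : Fin 3) :
    (reg G l i j).IsHomogeneous 2 :=
  ((hG i j).add ((isHomogeneous_X _ i).mul (hl j))).add ((hl i).mul (isHomogeneous_X _ j))

theorem disc_explicit {G : Matrix (Fin 3) (Fin 3) R3} (hG : G.IsSymm) :
    disc G = (G 1 1 * G 2 2 - G 1 2 ^ 2) * X 0 ^ 2 + (G 0 0 * G 2 2 - G 0 2 ^ 2) * X 1 ^ 2
      + (G 0 0 * G 1 1 - G 0 1 ^ 2) * X 2 ^ 2
      + 2 * (G 0 2 * G 1 2 - G 0 1 * G 2 2) * (X 0 * X 1)
      + 2 * (G 0 1 * G 1 2 - G 0 2 * G 1 1) * (X 0 * X 2)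
      + 2 * (G 0 1 * G 0 2 - G 0 0 * G 1 2) * (X 1 * X 2) := by
  have h01 : G 1 0 = G 0 1 := hG.apply 0 1
  have h02 : G 2 0 = G 0 2 := hG.apply 0 2
  have h12 : G 2 1 = G 1 2 := hG.apply 1 2
  unfold disc
  rw [Matrix.adjugate_fin_three]
  simp [xv, dotProduct, Matrix.mulVec, Fin.sum_univ_three, h01, h02, h12]
  ring

theorem disc_reg {G : Matrix (Fin 3) (Fin 3) R3} (hG : G.IsSymm) (l : Fin 3 → R3) :
    disc (reg G l) = disc G := by
  rw [disc_explicit (reg_symm hG l), disc_explicit hG]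
  simp only [reg]
  ring

theorem disc_homog {G : Matrix (Fin 3) (Fin 3) R3} (hs : G.IsSymm)
    (hG : ∀ i j, (G i j).IsHomogeneous 2) : (disc G).IsHomogeneous 6 := by
  rw [disc_explicit hs]
  have hX := fun i : Fin 3 => isHomogeneous_X ℂ i
  have h2 : ∀ {p : R3}, p.IsHomogeneous 4 → (2 * p).IsHomogeneous 4 := by
    intro p hp
    have : (2 : R3) * p = p + p := by ring
    rw [this]
    exact hp.add hp
  refine ((((((?_ : IsHomogeneous _ _).add ?_).add ?_).add ?_).add ?_).add ?_)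
  · exact (((hG 1 1).mul (hG 2 2)).sub ((hG 1 2).pow 2)).mul ((hX 0).pow 2)
  · exact (((hG 0 0).mul (hG 2 2)).sub ((hG 0 2).pow 2)).mul ((hX 1).pow 2)
  · exact (((hG 0 0).mul (hG 1 1)).sub ((hG 0 1).pow 2)).mul ((hX 2).pow 2)
  · exact (h2 (((hG 0 2).mul (hG 1 2)).sub ((hG 0 1).mul (hG 2 2)))).mul ((hX 0).mul (hX 1))
  · exact (h2 (((hG 0 1).mul (hG 1 2)).sub ((hG 0 2).mul (hG 1 1)))).mul ((hX 0).mul (hX 2))
  · exact (h2 (((hG 0 1).mul (hG 0 2)).sub ((hG 0 0).mul (hG 1 2)))).mul ((hX 1).mul (hX 2))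

theorem zeroAt_reg {G : Matrix (Fin 3) (Fin 3) R3} {l : Fin 3 → R3} {p : Fin 3 → ℂ}
    (h : ZeroAt (reg G l) p) : ZeroAt G p := by
  intro ξ η hξ hη
  have h1 := h ξ η hξ hη
  simp only [dotProduct, Fin.sum_univ_three] at hξ hη
  simp only [dotProduct, Matrix.mulVec, Matrix.map_apply, reg, Fin.sum_univ_three, map_add,
    map_mul, eval_X] at h1 ⊢
  linear_combination h1 - (eval p (l 0) * η 0 + eval p (l 1) * η 1 + eval p (l 2) * η 2) * hξ
    - (ξ 0 * eval p (l 0) + ξ 1 * eval p (l 1) + ξ 2 * eval p (l 2)) * hη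

theorem tang_reg {G : Matrix (Fin 3) (Fin 3) R3} {l : Fin 3 → R3} {f : R3} {n : ℕ}
    (hf : f.IsHomogeneous n) (h : Tang G f) : Tang (reg G l) f := by
  have hE := euler3 hf
  have e : ∀ i, crossProduct ((reg G l).mulVec (gr f)) xv i
      = crossProduct (G.mulVec (gr f)) xv i + (n : R3) * f * crossProduct l xv i := by
    intro i
    rw [cross_apply, cross_apply, cross_apply]
    fin_cases i <;>
    · simp [reg, gr, xv, Matrix.mulVec, dotProduct, Fin.sum_univ_three]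
      rw [← hE]
      ring
  intro i
  rw [e]
  exact dvd_add (h i) (Dvd.intro _ (by ring : f * ((n : R3) * crossProduct l xv i) = _))

/-- In a suitable gauge a tangent curve satisfies `G ∇f = h x`. -/
theorem exists_gauge {G : Matrix (Fin 3) (Fin 3) R3}
    (hG : ∀ i j, (G i j).IsHomogeneous 2) {f : R3} {n : ℕ} (hf : f.IsHomogeneous n)
    (hn : 0 < n) (hf0 : f ≠ 0) (ht : Tang G f) :
    ∃ l : Fin 3 → R3, (∀ i, (l i).IsHomogeneous 1) ∧ ∃ h : R3, h.IsHomogeneous n ∧
      ∀ i, (reg G l).mulVec (gr f) i = h * X i := by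
  choose w hw using ht
  have hmv : ∀ i, (G.mulVec (gr f) i).IsHomogeneous (n + 1) := by
    intro i
    have : n + 1 = 2 + (n - 1) := by omega
    rw [this]
    simp only [Matrix.mulVec, dotProduct]
    exact IsHomogeneous.sum _ _ _ fun j _ => (hG i j).mul (hgr hf j)
  have hcr : ∀ i, (crossProduct (G.mulVec (gr f)) xv i).IsHomogeneous (n + 2) := by
    intro i
    have hX := fun i : Fin 3 => isHomogeneous_X ℂ i
    rw [cross_apply]
    fin_cases i
    · exact ((hmv 1).mul (hX 2)).sub ((hmv 2).mul (hX 1))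
    · exact ((hmv 2).mul (hX 0)).sub ((hmv 0).mul (hX 2))
    · exact ((hmv 0).mul (hX 1)).sub ((hmv 1).mul (hX 0))
  have hwh : ∀ i, (w i).IsHomogeneous 2 := by
    intro i
    by_cases hw0 : w i = 0
    · rw [hw0]; exact isHomogeneous_zero _ _ _
    · have h1 := hcr i
      rw [hw i] at h1
      obtain ⟨k, m, hk, hm, hkm⟩ := homog_of_mul h1 hf0 hw0
      have : k = n := hk.inj_right hf hf0
      have : m = 2 := by omega
      exact this ▸ hm
  have hwx : X 0 * w 0 + X 1 * w 1 + X 2 * w 2 = 0 := by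
    have h0 := hw 0
    have h1 := hw 1
    have h2 := hw 2
    simp only [cross_apply, xv, Matrix.cons_val_zero, Matrix.cons_val_one, Matrix.cons_val_two,
      Matrix.head_cons, Matrix.tail_cons] at h0 h1 h2
    have : f * (X 0 * w 0 + X 1 * w 1 + X 2 * w 2) = 0 := by
      linear_combination -(X 0 * h0) - X 1 * h1 - X 2 * h2
    exact (mul_eq_zero.mp this).resolve_left hf0
  obtain ⟨u, hu, huw⟩ := koszul2 hwh hwx
  -- G ∇f - f u is radial
  obtain ⟨c, hc, hcv⟩ := koszul1 (v := fun i => G.mulVec (gr f) i - f * u i) (k := n + 1)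
    (fun i => (hmv i).sub (by
      have := hf.mul (hu i)
      simpa using this)) (by
    intro i
    have h1 := hw i
    rw [huw i] at h1
    rw [cross_apply] at h1 ⊢
    rw [cross_apply] at h1
    fin_cases i <;>
    · simp at h1 ⊢
      linear_combination h1)
  have hnC : (C (n : ℂ)⁻¹ : R3) * (n : R3) = 1 := by
    have : (n : R3) = C (n : ℂ) := by simp
    rw [this, ← map_mul, inv_mul_cancel₀ (by exact_mod_cast hn.ne'), map_one]
  have hE := euler3 hf
  refine ⟨fun i => -(C (n : ℂ)⁻¹ * u i), fun i => ?_, c - C (n : ℂ)⁻¹ *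
    (u 0 * pderiv 0 f + u 1 * pderiv 1 f + u 2 * pderiv 2 f), ?_, ?_⟩
  · have := (hu i).C_mul (n : ℂ)⁻¹
    exact this.neg
  · have h1 : ∀ i, (u i * pderiv i f).IsHomogeneous n := by
      intro i
      have h2 := (hu i).mul (hf.pderiv (i := i))
      have : 2 - 1 + (n - 1) = n := by omega
      rwa [this] at h2
    have h3 : c.IsHomogeneous n := by simpa using hc
    exact h3.sub ((((h1 0).add (h1 1)).add (h1 2)).C_mul _)
  · intro i
    have h1 := hcv i
    simp only [Matrix.mulVec, dotProduct, gr, Fin.sum_univ_three, reg] at h1 ⊢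
    linear_combination h1 - C (n : ℂ)⁻¹ * u i * hE - f * u i * hnC

end FM67
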