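import Pool.Agent.H67.FM.Zero
import Pool.Agent.H67.FM.Curv

/-!
# Dehomogenisation and divisibility
-/

namespace FM67

open MvPolynomial Matrix

/-- Dehomogenisation `X 2 = 1`. -/
noncomputable def deh : R3 →ₐ[ℂ] R2 := aeval ![X 0, X 1, 1]

theorem ev_deh (f : R3) (x y : ℂ) : ev (deh f) x y = eval ![x, y, 1] f := by
  induction f using MvPolynomial.induction_on with
  | C a => simp [ev, deh]
  | add f g hf hg =>
    simp only [ev, map_add] at hf hg ⊢
    rw [hf, hg]
  | mul_X f i hf =>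
    simp only [ev, map_mul] at hf ⊢
    rw [hf]
    congr 1
    fin_cases i <;> simp [deh]

theorem pderiv_deh (f : R3) (i : Fin 2) : pderiv i (deh f) = deh (pderiv i.castSucc f) := by
  induction f using MvPolynomial.induction_on with
  | C a => simp [deh]
  | add f g hf hg => simp only [map_add, hf, hg]
  | mul_X f j hf =>
    rw [map_mul, pderiv_mul, pderiv_mul, hf, map_add, map_mul, map_mul]
    congr 2
    fin_cases i <;> fin_cases j <;> simp [deh, pderiv_X]

theorem eval_smul_homog {f : R3} {n : ℕ} (h : f.IsHomogeneous n) (t : ℂ) (p : Fin 3 → ℂ) :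
    eval (t • p) f = t ^ n * eval p f := by
  have h1 := lin_homog (p := p) h
  have h2 : (Polynomial.aeval (R := ℂ) t).comp (lin p) = MvPolynomial.aeval (t • p) := by
    ext i
    simp [lin]
    ring
  have h3 := DFunLike.congr_fun h2 f
  rw [MvPolynomial.aeval_eq_eval] at h3
  simp only [AlgHom.comp_apply, h1, map_mul, map_pow, Polynomial.aeval_X, Polynomial.aeval_C,
    Algebra.algebraMap_self, RingHom.id_apply, RingHom.coe_coe] at h3
  rw [← h3]
  ring

theorem eq_zero_of_eval {f : R3} (h : ∀ Z : Fin 3 → ℂ, eval Z f = 0) : f = 0 :=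
  MvPolynomial.funext fun Z => by rw [h Z, map_zero]

theorem deh_inj {f : R3} {n : ℕ} (hf : f.IsHomogeneous n) (h : deh f = 0) : f = 0 := by
  refine (mul_eq_zero.mp (?_ : f * X 2 = 0)).resolve_right (X_ne_zero _)
  apply eq_zero_of_eval
  intro Z
  rw [map_mul, eval_X]
  by_cases hz : Z 2 = 0
  · rw [hz, mul_zero]
  · have h1 : Z = Z 2 • ![Z 0 / Z 2, Z 1 / Z 2, 1] := by
      ext i
      fin_cases i <;> simp <;> field_simp
    have h2 : eval ![Z 0 / Z 2, Z 1 / Z 2, 1] f = 0 := by
      rw [← ev_deh, h]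
      simp [ev]
    rw [h1, eval_smul_homog hf, h2, mul_zero, zero_mul]

theorem exists_hom (q : R2) : ∃ n, ∃ Q : R3, Q.IsHomogeneous n ∧ deh Q = q := by
  induction q using MvPolynomial.induction_on with
  | C a => exact ⟨0, C a, isHomogeneous_C _ _, by simp [deh]⟩
  | add f g hf hg =>
    obtain ⟨m, P, hP, hPf⟩ := hf
    obtain ⟨n, Q, hQ, hQg⟩ := hg
    refine ⟨m + n, P * X 2 ^ n + Q * X 2 ^ m, ?_, ?_⟩
    · refine (hP.mul ?_).add ?_
      · have := (isHomogeneous_X ℂ (2 : Fin 3)).pow n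
        simpa using this
      · have := hQ.mul ((isHomogeneous_X ℂ (2 : Fin 3)).pow m)
        rw [one_mul, Nat.add_comm] at this
        exact this
    · simp [hPf, hQg]
      simp [deh]
  | mul_X f i hf =>
    obtain ⟨m, P, hP, hPf⟩ := hf
    refine ⟨m + 1, P * X i.castSucc, hP.mul (isHomogeneous_X _ _), ?_⟩
    rw [map_mul, hPf]
    congr 1
    fin_cases i <;> simp [deh]

theorem dvd_of_deh {F V : R3} {m n : ℕ} (hF : F.IsHomogeneous m) (hV : V.IsHomogeneous n)
    (h2 : ¬ X 2 ∣ F) (h : deh F ∣ deh V) : F ∣ V := by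
  obtain ⟨q, hq⟩ := h
  obtain ⟨k, Q, hQ, rfl⟩ := exists_hom q
  have hX : ∀ j : ℕ, (X 2 ^ j : R3).IsHomogeneous j := by
    intro j
    have := (isHomogeneous_X ℂ (2 : Fin 3)).pow j
    simpa using this
  have e : X 2 ^ (m + k) * V - X 2 ^ n * (F * Q) = 0 := by
    refine deh_inj (n := m + k + n) ?_ ?_
    · refine ((hX _).mul hV).sub ?_
      have h1 := (hX n).mul (hF.mul hQ)
      rwa [Nat.add_comm n] at h1
    · have h1 : deh (X 2) = 1 := by simp [deh]
      rw [map_sub, map_mul, map_mul, map_pow, map_pow, map_mul, h1, hq]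
      simp
  have hd : F ∣ X 2 ^ (m + k) * V := ⟨X 2 ^ n * Q, by linear_combination e⟩
  have hir : Irreducible (X 2 : R3) := (X_prime (R := ℂ)).irreducible
  have hrel : IsRelPrime (X 2 ^ (m + k) : R3) F :=
    (hir.isRelPrime_iff_not_dvd.mpr h2).pow_left
  exact hrel.symm.dvd_of_dvd_mul_left hd

end FM67
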