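import Pool.Agent.H67.FM.Base

/-!
# Order one consequences of the reduced system at a zero
-/

noncomputable section

set_option linter.unusedSimpArgs false

namespace Pool.Agent.H38.FM

open FM67 Matrix

theorem lin_E1_x {p : Par} {s : SPar} (h : Sys p s) (h00 : p.a00 = 0) (h01 : p.b00 = 0)
    (h02 : p.c00 = 0) :
    p.a10 * s.s1 + p.b10 * s.s2 - p.b10 * p.b01 + p.c10 * p.a01 = 0 := by
  have k0 := (h 1 0).1
  have k1 := (h (-1) 0).1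
  have k2 := (h 2 0).1
  have k3 := (h (-2) 0).1
  have k4 := (h 3 0).1
  have k5 := (h (-3) 0).1
  have k6 := (h 4 0).1
  simp only [E1, E2, FF, S1, S2, S1y, S2x, Par.D, Par.Dx, Par.Dy, Par.a, Par.b, Par.c, Par.ax, Par.ay, Par.bx, Par.bY, Par.cx, Par.cy, Par.U, Par.V, Par.Q, Par.Ux, Par.Uy, Par.Vx, Par.Vy, Par.Qx, Par.Qy, h00, h01, h02] at k0 k1 k2 k3 k4 k5 k6
  linear_combination 1 * k0 - (3 / 5) * k1 - (3 / 10) * k2 + (1 / 10) * k3 + (1 / 15) * k4 - (1 / 105) * k5 - (1 / 140) * k6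

theorem lin_E1_y {p : Par} {s : SPar} (h : Sys p s) (h00 : p.a00 = 0) (h01 : p.b00 = 0)
    (h02 : p.c00 = 0) :
    p.a01 * s.s1 + p.b01 * s.s2 - p.a01 * p.b10 - p.b01 ^ 2 + p.b01 * p.a10 + p.c01 * p.a01 = 0 := by
  have k0 := (h 0 1).1
  have k1 := (h 0 (-1)).1
  have k2 := (h 0 2).1
  have k3 := (h 0 (-2)).1
  have k4 := (h 0 3).1
  have k5 := (h 0 (-3)).1
  have k6 := (h 0 4).1
  simp only [E1, E2, FF, S1, S2, S1y, S2x, Par.D, Par.Dx, Par.Dy, Par.a, Par.b, Par.c, Par.ax, Par.ay, Par.bx, Par.bY, Par.cx, Par.cy, Par.U, Par.V, Par.Q, Par.Ux, Par.Uy, Par.Vx, Par.Vy, Par.Qx, Par.Qy, h00, h01, h02] at k0 k1 k2 k3 k4 k5 k6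
  linear_combination 1 * k0 - (3 / 5) * k1 - (3 / 10) * k2 + (1 / 10) * k3 + (1 / 15) * k4 - (1 / 105) * k5 - (1 / 140) * k6

theorem lin_E2_x {p : Par} {s : SPar} (h : Sys p s) (h00 : p.a00 = 0) (h01 : p.b00 = 0)
    (h02 : p.c00 = 0) :
    p.b10 * s.s1 + p.c10 * s.s2 - p.a10 * p.c10 - p.b10 * p.c01 + p.b10 ^ 2 + p.c10 * p.b01 = 0 := by
  have k0 := (h 1 0).2.1
  have k1 := (h (-1) 0).2.1
  have k2 := (h 2 0).2.1
  have k3 := (h (-2) 0).2.1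
  have k4 := (h 3 0).2.1
  have k5 := (h (-3) 0).2.1
  have k6 := (h 4 0).2.1
  simp only [E1, E2, FF, S1, S2, S1y, S2x, Par.D, Par.Dx, Par.Dy, Par.a, Par.b, Par.c, Par.ax, Par.ay, Par.bx, Par.bY, Par.cx, Par.cy, Par.U, Par.V, Par.Q, Par.Ux, Par.Uy, Par.Vx, Par.Vy, Par.Qx, Par.Qy, h00, h01, h02] at k0 k1 k2 k3 k4 k5 k6
  linear_combination 1 * k0 - (3 / 5) * k1 - (3 / 10) * k2 + (1 / 10) * k3 + (1 / 15) * k4 - (1 / 105) * k5 - (1 / 140) * k6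

theorem lin_E2_y {p : Par} {s : SPar} (h : Sys p s) (h00 : p.a00 = 0) (h01 : p.b00 = 0)
    (h02 : p.c00 = 0) :
    p.b01 * s.s1 + p.c01 * s.s2 - p.a01 * p.c10 + p.b01 * p.b10 = 0 := by
  have k0 := (h 0 1).2.1
  have k1 := (h 0 (-1)).2.1
  have k2 := (h 0 2).2.1
  have k3 := (h 0 (-2)).2.1
  have k4 := (h 0 3).2.1
  have k5 := (h 0 (-3)).2.1
  have k6 := (h 0 4).2.1
  simp only [E1, E2, FF, S1, S2, S1y, S2x, Par.D, Par.Dx, Par.Dy, Par.a, Par.b, Par.c, Par.ax, Par.ay, Par.bx, Par.bY, Par.cx, Par.cy, Par.U, Par.V, Par.Q, Par.Ux, Par.Uy, Par.Vx, Par.Vy, Par.Qx, Par.Qy, h00, h01, h02] at k0 k1 k2 k3 k4 k5 k6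
  linear_combination 1 * k0 - (3 / 5) * k1 - (3 / 10) * k2 + (1 / 10) * k3 + (1 / 15) * k4 - (1 / 105) * k5 - (1 / 140) * k6

theorem lin_FF_x {p : Par} {s : SPar} (h : Sys p s) (h00 : p.a00 = 0) (h01 : p.b00 = 0)
    (h02 : p.c00 = 0) :
    2 * (p.a10 * p.c10 - p.b10 ^ 2) * s.s2 - (p.a10 * p.c01 + p.a01 * p.c10 - 2 * p.b10 * p.b01) * s.s1 = 0 := by
  have k0 := (h 1 0).2.2
  have k1 := (h (-1) 0).2.2
  have k2 := (h 2 0).2.2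
  have k3 := (h (-2) 0).2.2
  have k4 := (h 3 0).2.2
  have k5 := (h (-3) 0).2.2
  have k6 := (h 4 0).2.2
  have k7 := (h (-4) 0).2.2
  simp only [E1, E2, FF, S1, S2, S1y, S2x, Par.D, Par.Dx, Par.Dy, Par.a, Par.b, Par.c, Par.ax, Par.ay, Par.bx, Par.bY, Par.cx, Par.cy, Par.U, Par.V, Par.Q, Par.Ux, Par.Uy, Par.Vx, Par.Vy, Par.Qx, Par.Qy, h00, h01, h02] at k0 k1 k2 k3 k4 k5 k6 k7
  linear_combination - (4 / 5) * k0 + (4 / 5) * k1 + (1 / 5) * k2 - (1 / 5) * k3 - (4 / 105) * k4 + (4 / 105) * k5 + (1 / 280) * k6 - (1 / 280) * k7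

theorem lin_FF_y {p : Par} {s : SPar} (h : Sys p s) (h00 : p.a00 = 0) (h01 : p.b00 = 0)
    (h02 : p.c00 = 0) :
    (p.a10 * p.c01 + p.a01 * p.c10 - 2 * p.b10 * p.b01) * s.s2 - 2 * (p.a01 * p.c01 - p.b01 ^ 2) * s.s1 = 0 := by
  have k0 := (h 0 1).2.2
  have k1 := (h 0 (-1)).2.2
  have k2 := (h 0 2).2.2
  have k3 := (h 0 (-2)).2.2
  have k4 := (h 0 3).2.2
  have k5 := (h 0 (-3)).2.2
  have k6 := (h 0 4).2.2
  have k7 := (h 0 (-4)).2.2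
  simp only [E1, E2, FF, S1, S2, S1y, S2x, Par.D, Par.Dx, Par.Dy, Par.a, Par.b, Par.c, Par.ax, Par.ay, Par.bx, Par.bY, Par.cx, Par.cy, Par.U, Par.V, Par.Q, Par.Ux, Par.Uy, Par.Vx, Par.Vy, Par.Qx, Par.Qy, h00, h01, h02] at k0 k1 k2 k3 k4 k5 k6 k7
  linear_combination - (4 / 5) * k0 + (4 / 5) * k1 + (1 / 5) * k2 - (1 / 5) * k3 - (4 / 105) * k4 + (4 / 105) * k5 + (1 / 280) * k6 - (1 / 280) * k7

end Pool.Agent.H38.FM
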