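import Pool.Agent.H67.FM.LinFacts

/-!
# Types of the linear part at a zero
-/

noncomputable section

namespace Pool.Agent.H38.FM

open FM67 Matrix

/-- Equivalent to a `Base` parameter with property `P`. -/
def Ex (p : Par) (P : Par → Prop) : Prop := ∃ q, Rel p q ∧ Base q ∧ P q

theorem Ex.bind {p : Par} {P R : Par → Prop} (h : Ex p P)
    (H : ∀ q, Base q → P q → Ex q R) : Ex p R := by
  obtain ⟨q, hpq, hq, hP⟩ := h
  obtain ⟨r, hqr, hr, hR⟩ := H q hq hP
  exact ⟨r, hpq.trans hqr, hr, hR⟩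

theorem Ex.of {p : Par} {P : Par → Prop} (hp : Base p) (h : P p) : Ex p P :=
  ⟨p, Rel.refl p, hp, h⟩

/-- The linear coefficients are the given ones. -/
def Lin (p : Par) (a b c d e f : ℂ) : Prop :=
  p.a10 = a ∧ p.a01 = b ∧ p.b10 = c ∧ p.b01 = d ∧ p.c10 = e ∧ p.c01 = f

/-- The list of linear types. -/
def LinAll (p : Par) : Prop :=
  Lin p 1 0 0 0 0 1 ∨ (∃ mu : ℂ, mu ≠ 0 ∧ Lin p 1 0 0 mu 0 0) ∨ Lin p 0 0 0 1 0 0 ∨
  Lin p 1 1 0 (1 / 2) 0 0 ∨ Lin p 1 0 0 0 0 0 ∨ Lin p 0 1 0 0 0 0 ∨ Lin p 0 0 0 0 0 0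

theorem Ex.lin {p q : Par} {R : Par → Prop} (hr : Rel p q) (hb : Base q) {a b c d e f : ℂ}
    (hl : Lin q a b c d e f) (H : ∀ q', Base q' → Lin q' a b c d e f → Ex q' R) : Ex p R := by
  obtain ⟨r, hqr, hr', hR⟩ := H q hb hl
  exact ⟨r, hr.trans hqr, hr', hR⟩

theorem cubic_root (a b c d : ℂ) (h : a ≠ 0 ∨ b ≠ 0 ∨ c ≠ 0) :
    ∃ t : ℂ, a * t ^ 3 + b * t ^ 2 + c * t + d = 0 := by
  set f : Polynomial ℂ := Polynomial.C a * Polynomial.X ^ 3 + Polynomial.C b * Polynomial.X ^ 2
    + Polynomial.C c * Polynomial.X + Polynomial.C d with hf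
  have hev : ∀ t, f.eval t = a * t ^ 3 + b * t ^ 2 + c * t + d := by
    intro t
    simp [hf]
  have hdeg : f.degree ≠ 0 := by
    intro h0
    have hc := Polynomial.eq_C_of_degree_eq_zero h0
    have hcst : ∀ t, f.eval t = f.coeff 0 := by
      intro t
      rw [hc]
      simp
    have e0 := (hev 0).symm.trans (hcst 0)
    have e1 := (hev 1).symm.trans (hcst 1)
    have e2 := (hev (-1)).symm.trans (hcst (-1))
    have e3 := (hev 2).symm.trans (hcst 2)
    have ha : a = 0 := by linear_combination (e3 - e0) / 6 - (e1 - e0) / 2 - (e2 - e0) / 6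
    have hb : b = 0 := by linear_combination (e1 - e0) / 2 + (e2 - e0) / 2
    have hcc : c = 0 := by linear_combination (e1 - e0) - ha - hb
    rcases h with h | h | h
    · exact h ha
    · exact h hb
    · exact h hcc
  obtain ⟨t, ht⟩ := IsAlgClosed.exists_root f hdeg
  exact ⟨t, by rw [← hev]; exact ht⟩

/-- Shear of `y` by `x`. -/
def sheary (ka : ℂ) (p : Par) : Par := swp (shear ka (swp p))

theorem rel_sheary (ka : ℂ) (p : Par) : Rel p (sheary ka p) :=
  ((rel_swp p).trans (rel_shear ka _)).trans (rel_swp _)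

theorem Base.sheary {p : Par} (h : Base p) (ka : ℂ) : Base (sheary ka p) :=
  ((h.swp).shear ka).swp

theorem lin_sheary {p : Par} {a b c d e f : ℂ} (h : Lin p a b c d e f) (ka : ℂ) :
    Lin (sheary ka p) (-ka * b + a) b (-ka ^ 2 * b - ka * d + ka * a + c) (ka * b + d)
      (-ka ^ 3 * b - 2 * ka ^ 2 * d + ka ^ 2 * a - ka * f + 2 * ka * c + e)
      (ka ^ 2 * b + 2 * ka * d + f) := by
  obtain ⟨h1, h2, h3, h4, h5, h6⟩ := h
  refine ⟨?_, ?_, ?_, ?_, ?_, ?_⟩ <;> simp only [sheary, swp, shear, h1, h2, h3, h4, h5, h6]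

theorem lin_shear {p : Par} {a b c d e f : ℂ} (h : Lin p a b c d e f) (ka : ℂ) :
    Lin (shear ka p) (ka ^ 2 * e + 2 * ka * c + a)
      (-ka ^ 3 * e - 2 * ka ^ 2 * c + ka ^ 2 * f - ka * a + 2 * ka * d + b)
      (ka * e + c) (-ka ^ 2 * e - ka * c + ka * f + d) e (-ka * e + f) := by
  obtain ⟨h1, h2, h3, h4, h5, h6⟩ := h
  refine ⟨?_, ?_, ?_, ?_, ?_, ?_⟩ <;> simp only [shear, h1, h2, h3, h4, h5, h6]

theorem lin_swp {p : Par} {a b c d e f : ℂ} (h : Lin p a b c d e f) :
    Lin (swp p) f e d c b a := by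
  obtain ⟨h1, h2, h3, h4, h5, h6⟩ := h
  exact ⟨h6, h5, h4, h3, h2, h1⟩

theorem lin_scal {p : Par} {a b c d e f : ℂ} (h : Lin p a b c d e f) (la mu : ℂ) :
    Lin (scal la mu p) (la * a) (la ^ 2 * b / mu) (mu * c) (la * d) (mu ^ 2 * e / la)
      (mu * f) := by
  obtain ⟨h1, h2, h3, h4, h5, h6⟩ := h
  refine ⟨?_, ?_, ?_, ?_, ?_, ?_⟩ <;> simp only [scal, h1, h2, h3, h4, h5, h6]

theorem Lin.congr {p : Par} {a b c d e f a' b' c' d' e' f' : ℂ} (h : Lin p a b c d e f)
    (h1 : a = a') (h2 : b = b') (h3 : c = c') (h4 : d = d') (h5 : e = e') (h6 : f = f') :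
    Lin p a' b' c' d' e' f' := by
  subst h1; subst h2; subst h3; subst h4; subst h5; subst h6
  exact h

/-- Order one facts in terms of `Lin`. -/
theorem lin_facts {p : Par} (hp : Base p) {a b c d e f : ℂ} (h : Lin p a b c d e f) :
    ∃ s1 s2 : ℂ, a * s1 + c * s2 - c * d + e * b = 0 ∧
      b * s1 + d * s2 - b * c - d ^ 2 + d * a + f * b = 0 ∧
      c * s1 + e * s2 - a * e - c * f + c ^ 2 + e * d = 0 ∧
      d * s1 + f * s2 - b * e + d * c = 0 ∧
      2 * (a * e - c ^ 2) * s2 - (a * f + b * e - 2 * c * d) * s1 = 0 ∧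
      (a * f + b * e - 2 * c * d) * s2 - 2 * (b * f - d ^ 2) * s1 = 0 := by
  obtain ⟨s, hs⟩ := base_sys hp
  obtain ⟨-, -, h0, h0', h0''⟩ := hp
  obtain ⟨rfl, rfl, rfl, rfl, rfl, rfl⟩ := h
  exact ⟨s.s1, s.s2, lin_E1_x hs h0 h0' h0'', lin_E1_y hs h0 h0' h0'', lin_E2_x hs h0 h0' h0'',
    lin_E2_y hs h0 h0' h0'', lin_FF_x hs h0 h0' h0'', lin_FF_y hs h0 h0' h0''⟩

theorem stepA {p : Par} (hp : Base p) : Ex p (fun q => ∃ a c d e f, Lin q a 0 c d e f) := by
  by_cases hc : p.c10 = 0
  · exact ⟨swp p, rel_swp p, hp.swp, _, _, _, _, _, rfl, hc, rfl, rfl, rfl, rfl⟩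
  · obtain ⟨t, ht⟩ := cubic_root (-p.c10) (p.c01 - 2 * p.b10) (2 * p.b01 - p.a10) p.a01
      (Or.inl (neg_ne_zero.mpr hc))
    refine ⟨shear t p, rel_shear t p, hp.shear t, _, _, _, _, _, rfl, ?_, rfl, rfl, rfl, rfl⟩
    simp only [shear]
    linear_combination ht

/-- Case `μ = 1`. -/
theorem stepMu1 {p : Par} (hp : Base p) {e f : ℂ} (h : Lin p 1 0 0 1 e f) : Ex p LinAll := by
  obtain ⟨t, ht⟩ := cubic_root 0 1 f (-e) (Or.inr (Or.inl one_ne_zero))
  have h1 := lin_sheary h t
  have h1' : Lin (sheary t p) 1 0 0 1 0 (f + 2 * t) :=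
    h1.congr (by ring) rfl (by ring) (by ring) (by linear_combination -ht) (by ring)
  refine Ex.lin (rel_sheary t p) (hp.sheary t) h1' fun q hq hl => ?_
  by_cases hg : f + 2 * t = 0
  · rw [hg] at hl
    exact Ex.of hq (Or.inr (Or.inl ⟨1, one_ne_zero, hl⟩))
  · have hi : (f + 2 * t)⁻¹ ≠ 0 := inv_ne_zero hg
    have h2 := lin_scal hl 1 (f + 2 * t)⁻¹
    have h2' : Lin (scal 1 (f + 2 * t)⁻¹ q) 1 0 0 1 0 1 :=
      h2.congr (by ring) (by ring) (by ring) (by ring) (by ring) (inv_mul_cancel₀ hg)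
    refine Ex.lin (rel_scal one_ne_zero hi q) (hq.scal one_ne_zero hi) h2' fun r hr hl => ?_
    have h3 := lin_shear hl (-1)
    refine ⟨_, rel_shear (-1) r, hr.shear (-1), Or.inl (h3.congr ?_ ?_ ?_ ?_ ?_ ?_)⟩ <;> norm_num

theorem stepB1 {p : Par} (hp : Base p) {d e f : ℂ} (h : Lin p 1 0 0 d e f) : Ex p LinAll := by
  obtain ⟨s1, s2, f1, f2, f3, f4, f5, f6⟩ := lin_facts hp h
  have hs1 : s1 = 0 := by linear_combination f1
  subst hs1
  have hes : e * s2 = 0 := by linear_combination f5 / 2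
  have hfs : f * s2 = 0 := by linear_combination f4
  have he : e * (d - 1) = 0 := by linear_combination f3 - hes
  by_cases hd : d = 0
  · subst hd
    have he0 : e = 0 := by linear_combination -he
    subst he0
    by_cases hf : f = 0
    · subst hf
      exact Ex.of hp (Or.inr (Or.inr (Or.inr (Or.inr (Or.inl h)))))
    · have hi : f⁻¹ ≠ 0 := inv_ne_zero hf
      have h2 := lin_scal h 1 f⁻¹
      exact ⟨_, rel_scal one_ne_zero hi p, hp.scal one_ne_zero hi, Or.inl
        (h2.congr (by ring) (by ring) (by ring) (by ring) (by ring) (inv_mul_cancel₀ hf))⟩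
  · have hs2 : s2 = d - 1 := by
      have : d * (s2 - (d - 1)) = 0 := by linear_combination f2
      have := (mul_eq_zero.mp this).resolve_left hd
      linear_combination this
    by_cases hd1 : d = 1
    · subst hd1
      exact stepMu1 hp h
    · have hd1' : d - 1 ≠ 0 := sub_ne_zero.mpr hd1
      have he0 : e = 0 := (mul_eq_zero.mp he).resolve_right hd1'
      have hf0 : f = 0 := by
        rw [hs2] at hfs
        exact (mul_eq_zero.mp hfs).resolve_right hd1'
      subst he0
      subst hf0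
      exact Ex.of hp (Or.inr (Or.inl ⟨d, hd, h⟩))

theorem stepB {p : Par} (hp : Base p) {a c d e f : ℂ} (ha : a ≠ 0) (h : Lin p a 0 c d e f) :
    Ex p LinAll := by
  have hi : a⁻¹ ≠ 0 := inv_ne_zero ha
  have h2 := lin_scal h a⁻¹ 1
  have h2' : Lin (scal a⁻¹ 1 p) 1 0 c (a⁻¹ * d) (1 ^ 2 * e / a⁻¹) f :=
    h2.congr (inv_mul_cancel₀ ha) (by ring) (by ring) rfl rfl (by ring)
  refine Ex.lin (rel_scal hi one_ne_zero p) (hp.scal hi one_ne_zero) h2' fun q hq hl => ?_
  generalize a⁻¹ * d = d' at hl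
  generalize 1 ^ 2 * e / a⁻¹ = e' at hl
  by_cases hd : d' = 1
  · subst hd
    obtain ⟨s1, s2, f1, f2, f3, f4, f5, f6⟩ := lin_facts hq hl
    have hs2 : s2 = 0 := by linear_combination f2
    subst hs2
    have hc : c = 0 := by linear_combination (f4 - f1) / 2
    subst hc
    exact stepB1 hq hl
  · have hd' : d' - 1 ≠ 0 := sub_ne_zero.mpr hd
    have h3 := lin_sheary hl (c / (d' - 1))
    have hk : c / (d' - 1) * (d' - 1) = c := div_mul_cancel₀ c hd'
    refine Ex.lin (rel_sheary _ q) (hq.sheary _) (h3.congr (a' := 1) (c' := 0) (by ring) rfl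
      (by linear_combination -hk) rfl rfl rfl) fun r hr hl => ?_
    exact stepB1 hr hl

theorem stepD1 {p : Par} (hp : Base p) {b mu : ℂ} (hmu : mu ≠ 0) (h : Lin p 1 b 0 mu 0 0) :
    Ex p LinAll := by
  by_cases h2 : mu = 1 / 2
  · subst h2
    by_cases hb : b = 0
    · subst hb
      exact Ex.of hp (Or.inr (Or.inl ⟨_, hmu, h⟩))
    · have h3 := lin_scal h 1 b
      refine ⟨_, rel_scal one_ne_zero hb p, hp.scal one_ne_zero hb, Or.inr (Or.inr (Or.inr
        (Or.inl (h3.congr (by ring) ?_ (by ring) (by ring) (by ring) (by ring)))))⟩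
      rw [one_pow, one_mul, div_self hb]
  · have hne : 1 - 2 * mu ≠ 0 := by
      intro h0
      apply h2
      linear_combination -h0 / 2
    have h3 := lin_shear h (b / (1 - 2 * mu))
    have hk : b / (1 - 2 * mu) * (1 - 2 * mu) = b := div_mul_cancel₀ b hne
    exact ⟨_, rel_shear _ p, hp.shear _, Or.inr (Or.inl ⟨mu, hmu, h3.congr (by ring)
      (by linear_combination -hk) (by ring) (by ring) rfl (by ring)⟩)⟩

theorem stepC {p : Par} (hp : Base p) {c d e f : ℂ} (h : Lin p 0 0 c d e f) : Ex p LinAll := by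
  obtain ⟨s1, s2, f1, f2, f3, f4, f5, f6⟩ := lin_facts hp h
  by_cases hd : d = 0
  · subst hd
    by_cases hc : c = 0
    · subst hc
      by_cases hf : f = 0
      · subst hf
        by_cases he : e = 0
        · subst he
          exact Ex.of hp (Or.inr (Or.inr (Or.inr (Or.inr (Or.inr (Or.inr h))))))
        · refine Ex.lin (rel_swp p) hp.swp (lin_swp h) fun q hq hl => ?_
          have h3 := lin_scal hl 1 e
          refine ⟨_, rel_scal one_ne_zero he q, hq.scal one_ne_zero he, Or.inr (Or.inr (Or.inr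
            (Or.inr (Or.inr (Or.inl (h3.congr (by ring) ?_ (by ring) (by ring) (by ring)
              (by ring)))))))⟩
          rw [one_pow, one_mul, div_self he]
      · refine Ex.lin (rel_swp p) hp.swp (lin_swp h) fun q hq hl => ?_
        have h3 := lin_shear hl (e / f)
        have hk : e / f * f = e := div_mul_cancel₀ e hf
        refine Ex.lin (rel_shear _ q) (hq.shear _) (h3.congr (a' := f) (b' := 0) (c' := 0)
          (d' := 0) (e' := 0) (f' := 0) (by ring) (by linear_combination -hk) (by ring)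
          (by ring) rfl (by ring)) fun r hr hl => ?_
        have hi : f⁻¹ ≠ 0 := inv_ne_zero hf
        have h4 := lin_scal hl f⁻¹ 1
        exact ⟨_, rel_scal hi one_ne_zero r, hr.scal hi one_ne_zero, Or.inr (Or.inr (Or.inr
          (Or.inr (Or.inl (h4.congr (inv_mul_cancel₀ hf) (by ring) (by ring) (by ring)
            (by ring) (by ring))))))⟩
    · have hs2 : s2 = 0 := by
        have : c * s2 = 0 := by linear_combination f1
        exact (mul_eq_zero.mp this).resolve_left hc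
      refine Ex.lin (rel_swp p) hp.swp (lin_swp h) fun q hq hl => ?_
      by_cases hf : f = 0
      · subst hf
        -- (e y, c y, 0)
        have h3 := lin_shear hl (-(e / (2 * c)))
        have h2c : 2 * c ≠ 0 := mul_ne_zero two_ne_zero hc
        have hk : e / (2 * c) * (2 * c) = e := div_mul_cancel₀ e h2c
        refine Ex.lin (rel_shear _ q) (hq.shear _) (h3.congr (a' := 0) (b' := 0) (c' := 0)
          (d' := c) (e' := 0) (f' := 0) (by ring) (by linear_combination -hk) (by ring)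
          (by ring) rfl (by ring)) fun r hr hl => ?_
        have hi : c⁻¹ ≠ 0 := inv_ne_zero hc
        have h4 := lin_scal hl c⁻¹ 1
        exact ⟨_, rel_scal hi one_ne_zero r, hr.scal hi one_ne_zero, Or.inr (Or.inr (Or.inl
          (h4.congr (by ring) (by ring) (by ring) (inv_mul_cancel₀ hc) (by ring) (by ring))))⟩
      · have hi : f⁻¹ ≠ 0 := inv_ne_zero hf
        have h4 := lin_scal hl f⁻¹ 1
        refine Ex.lin (rel_scal hi one_ne_zero q) (hq.scal hi one_ne_zero) (h4.congr (a' := 1) (b' := (f⁻¹) ^ 2 * e / 1) (c' := 0) (d' := f⁻¹ * c) (e' := 0)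
            (f' := 0) (inv_mul_cancel₀ hf) rfl (by ring) rfl (by ring) (by ring))
          fun r hr hl => ?_
        exact stepD1 hr (mul_ne_zero hi hc) hl
  · have hs2 : s2 = d := by
      have : d * (s2 - d) = 0 := by linear_combination f2
      have := (mul_eq_zero.mp this).resolve_left hd
      linear_combination this
    have h3 := lin_sheary h (c / d)
    have hk : c / d * d = c := div_mul_cancel₀ c hd
    refine Ex.lin (rel_sheary _ p) (hp.sheary _) (h3.congr (a' := 0) (b' := 0) (c' := 0)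
      (d' := d) (by ring) rfl (by linear_combination -hk) (by ring) rfl rfl) fun q hq hl => ?_
    generalize -(c / d) ^ 3 * 0 - 2 * (c / d) ^ 2 * d + (c / d) ^ 2 * 0 - c / d * f
      + 2 * (c / d) * c + e = e' at hl
    generalize (c / d) ^ 2 * 0 + 2 * (c / d) * d + f = f' at hl
    obtain ⟨t1, t2, g1, g2, g3, g4, g5, g6⟩ := lin_facts hq hl
    have ht2 : t2 = d := by
      have : d * (t2 - d) = 0 := by linear_combination g2
      have := (mul_eq_zero.mp this).resolve_left hd
      linear_combination this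
    subst ht2
    have ht1 : t1 = 0 := by
      have : t2 ^ 2 * t1 = 0 := by linear_combination g6 / 2
      exact (mul_eq_zero.mp this).resolve_left (pow_ne_zero 2 hd)
    subst ht1
    have hf0 : f' = 0 := by
      have : f' * t2 = 0 := by linear_combination g4
      exact (mul_eq_zero.mp this).resolve_right hd
    have he0 : e' = 0 := by
      have : e' * t2 = 0 := by linear_combination g3 / 2
      exact (mul_eq_zero.mp this).resolve_right hd
    subst hf0
    subst he0
    have hi : t2⁻¹ ≠ 0 := inv_ne_zero hd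
    have h4 := lin_scal hl t2⁻¹ 1
    exact ⟨_, rel_scal hi one_ne_zero q, hq.scal hi one_ne_zero, Or.inr (Or.inr (Or.inl
      (h4.congr (by ring) (by ring) (by ring) (inv_mul_cancel₀ hd) (by ring) (by ring))))⟩

/-- Every `Base` parameter is equivalent to one with linear part in the list. -/
theorem linAll {p : Par} (hp : Base p) : Ex p LinAll := by
  refine Ex.bind (stepA hp) fun q hq hl => ?_
  obtain ⟨a, c, d, e, f, hl⟩ := hl
  by_cases ha : a = 0
  · subst ha
    exact stepC hq hl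
  · exact stepB hq ha hl

end Pool.Agent.H38.FM
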