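import Pool.Agent.H67.FM.FTang

/-!
# Reduction of flat metrics: a zero at the origin and the reduced system
-/

namespace FM67

open MvPolynomial Pool.Agent.H38.FM Matrix

/-- An invertible matrix with prescribed last column. -/
theorem exists_col {P : Fin 3 → ℂ} (hP : P ≠ 0) :
    ∃ N : Matrix (Fin 3) (Fin 3) ℂ, N.det ≠ 0 ∧ N.mulVec ![0, 0, 1] = P := by
  by_cases h2 : P 2 = 0
  · by_cases h1 : P 1 = 0
    · have h0 : P 0 ≠ 0 := by
        intro h0
        apply hP
        ext i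
        fin_cases i
        · exact h0
        · exact h1
        · exact h2
      refine ⟨!![0, 0, P 0; 1, 0, P 1; 0, 1, P 2], ?_, ?_⟩
      · simpa [Matrix.det_fin_three] using h0
      · ext i
        fin_cases i <;> simp [Matrix.mulVec, dotProduct, Fin.sum_univ_three]
    · refine ⟨!![0, 1, P 0; 0, 0, P 1; 1, 0, P 2], ?_, ?_⟩
      · simpa [Matrix.det_fin_three] using h1
      · ext i
        fin_cases i <;> simp [Matrix.mulVec, dotProduct, Fin.sum_univ_three]
  · refine ⟨!![1, 0, P 0; 0, 1, P 1; 0, 0, P 2], ?_, ?_⟩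
    · simpa [Matrix.det_fin_three] using h2
    · ext i
      fin_cases i <;> simp [Matrix.mulVec, dotProduct, Fin.sum_univ_three]

/-- The quartic matrix vanishes at a zero. -/
theorem Hf_zero {g : T4} {P : Fin 3 → ℂ} (h : ZeroAt (Gm g) P) : Hf g P = 0 := by
  have h' := h
  ext i j
  have hrow : ∀ i : Fin 3, (fun k => Kx P i k) ⬝ᵥ P = 0 := by
    intro i
    fin_cases i <;> simp [Kx, dotProduct, Fin.sum_univ_three] <;> ring
  have h1 := h (fun k => Kx P i k) (fun k => Kx P j k) (hrow i) (hrow j)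
  rw [eval_Gm] at h1
  rw [Hf, Matrix.mul_assoc, Matrix.zero_apply]
  simp only [dotProduct, Matrix.mulVec, Matrix.mul_apply, Matrix.transpose_apply] at h1 ⊢
  exact h1

/-- **(I2)** A flat nondegenerate metric is equivalent to one vanishing at the origin. -/
theorem exists_zero_at_origin {p : Par} (hp : p.Nondeg) (hf : FlatP p) :
    ∃ (M : Matrix (Fin 3) (Fin 3) ℂ) (q : Par), M.det ≠ 0 ∧ Act M p q ∧ q.Nondeg ∧ FlatP q ∧
      q.a00 = 0 ∧ q.b00 = 0 ∧ q.c00 = 0 := by
  have hE := (flatP_iff hp).mp hf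
  obtain ⟨P, hP, hz⟩ := exists_zero (Gm_symm (toT_symm p)) (Gm_homog _) (dh_ne_zero hp)
    (tang_of_flat hp hE)
  obtain ⟨N, hN, hNP⟩ := exists_col hP
  obtain ⟨M, hNM, hMN⟩ := exists_inv hN
  have hM : M.det ≠ 0 := by
    intro h0
    have h1 := congrArg Matrix.det hNM
    rw [Matrix.det_mul, h0, mul_zero, Matrix.det_one] at h1
    exact zero_ne_one h1
  have hact := Act_act hNM p
  refine ⟨M, act M N p, hM, hact, nondeg_of_Act hM hact hp, flatP_of_Act hM hact hp hf, ?_⟩
  have h1 := hact P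
  have hMP : M.mulVec P = ![0, 0, 1] := by
    rw [← hNP, Matrix.mulVec_mulVec, hMN, Matrix.one_mulVec]
  have h2 : Hp p P = 0 := Hf_zero hz
  rw [hMP, h2, Matrix.mul_zero, Matrix.zero_mul] at h1
  obtain ⟨hc, hb, ha⟩ := Hp_explicit (act M N p) 0 0
  rw [h1, Matrix.zero_apply] at hc hb ha
  refine ⟨?_, ?_, ?_⟩
  · simpa [Par.a, Par.U, Par.Q] using ha.symm
  · simpa [Par.b, Par.U, Par.V, Par.Q] using hb.symm
  · simpa [Par.c, Par.V, Par.Q] using hc.symm

/-- **(I3)** A flat nondegenerate metric satisfies the reduced system. -/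
theorem exists_sys {p : Par} (hp : p.Nondeg) (hf : FlatP p) : ∃ s : SPar, Sys p s := by
  have hE := (flatP_iff hp).mp hf
  obtain ⟨l, hl, h, hh, hg⟩ := exists_gauge (Gm_homog (toT p)) (dh_homog p) (by norm_num)
    (dh_ne_zero hp) (tang_of_flat hp hE)
  obtain ⟨u, hu⟩ := linear_form (hl 0)
  obtain ⟨v, hv⟩ := linear_form (hl 1)
  obtain ⟨w, hw⟩ := linear_form (hl 2)
  -- the two scalar consequences
  have key : ∀ x y : ℂ,
      p.a x y * p.Dx x y + p.b x y * p.Dy x y = -6 * p.D x y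
        * (-p.U x y / 2 - x * p.Q x y + (u 0 * x + u 1 * y + u 2) - x * (w 0 * x + w 1 * y + w 2)) ∧
      p.b x y * p.Dx x y + p.c x y * p.Dy x y = -6 * p.D x y
        * (-p.V x y / 2 - y * p.Q x y + (v 0 * x + v 1 * y + v 2)
          - y * (w 0 * x + w 1 * y + w 2)) := by
    intro x y
    have hgr' : (fun j => eval ![x, y, 1] (gr (dh p) j))
        = ![p.Dx x y, p.Dy x y, 6 * p.D x y - x * p.Dx x y - y * p.Dy x y] := by
      ext j
      fin_cases j
      · exact grd0 p x y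
      · exact grd1 p x y
      · exact grd2 p x y
    have hreg : (reg (Gm (toT p)) l).map (eval ![x, y, 1])
        = fun i j => Gf (toT p) ![x, y, 1] i j + ![x, y, 1] i * eval ![x, y, 1] (l j)
          + eval ![x, y, 1] (l i) * ![x, y, 1] j := by
      have hGe := eval_Gm (toT p) ![x, y, 1]
      ext i j
      have h1 := congrFun (congrFun hGe i) j
      rw [Matrix.map_apply] at h1
      rw [Matrix.map_apply, reg]
      simp only [map_add, map_mul, eval_X, h1]
    have hL : ∀ i, eval ![x, y, 1] (l i)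
        = (![u 0 * x + u 1 * y + u 2, v 0 * x + v 1 * y + v 2, w 0 * x + w 1 * y + w 2]
            : Fin 3 → ℂ) i := by
      intro i
      fin_cases i
      · simp [hu]
      · simp [hv]
      · simp [hw]
    have hrow : ∀ i, (fun j => eval ![x, y, 1] ((reg (Gm (toT p)) l).mulVec (gr (dh p)) j)) i
        = eval ![x, y, 1] h * ![x, y, 1] i := by
      intro i
      simp only [dh] at hg ⊢
      rw [hg i, map_mul, eval_X]
    rw [eval_mulVec, hgr', hreg] at hrow
    have r0 := hrow 0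
    have r1 := hrow 1
    have r2 := hrow 2
    obtain ⟨ha, hb, hc⟩ := G_abc p x y
    obtain ⟨h02, h12, h22⟩ := G_col p x y
    have s01 := Gf_symm p ![x, y, 1] 1 0
    have s02 := Gf_symm p ![x, y, 1] 2 0
    have s12 := Gf_symm p ![x, y, 1] 2 1
    simp only [Matrix.mulVec, dotProduct, Fin.sum_univ_three, hL, Matrix.cons_val_zero,
      Matrix.cons_val_one, Matrix.cons_val] at r0 r1 r2
    rw [s01, s12] at *
    rw [s02] at *
    rw [ha, hb, hc, ← h22]
    have hU : -p.U x y / 2 = Gf (toT p) ![x, y, 1] 0 2 := h02.symm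
    have hV : -p.V x y / 2 = Gf (toT p) ![x, y, 1] 1 2 := h12.symm
    rw [hU, hV]
    constructor
    · linear_combination r0 - x * r2
    · linear_combination r1 - y * r2
  refine ⟨⟨p.b10 + p.c01 + 6 * v 2, -6 * u 2 - p.a10 - p.b01, 2 * p.b20 + p.c11 + 6 * v 0,
    p.b11 + 2 * p.c02 + 6 * v 1 - 6 * w 2, -6 * (u 0 - w 2) - 2 * p.a20 - p.b11,
    -6 * u 1 - p.a11 - 2 * p.b02, (2 * p.u20 + p.v11) / 2 - 6 * w 0,
    (p.u11 + 2 * p.v02) / 2 - 6 * w 1⟩, sys_of_flat hp hE ?_ ?_⟩
  · rw [← sub_eq_zero]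
    apply ev_eq_zero
    intro x y
    have e1 : ∀ D S B Cc b c D0 D1 : R2, ev (D * S - (D * (B + Cc) - (b * D0 + c * D1))) x y
        = ev D x y * ev S x y - (ev D x y * (ev B x y + ev Cc x y)
          - (ev b x y * ev D0 x y + ev c x y * ev D1 x y)) := by
      intros; simp [ev]
    rw [sg1, e1, ev_S1, ev_D, ev_pbx, ev_pcy, ev_pb, ev_pc, ev_Dx, ev_Dy, (key x y).2]
    simp only [S1, Par.bx, Par.cy, Par.Ux, Par.Vx, Par.Vy, Par.V, Par.Q, Par.Qx, Par.Qy]
    ring
  · rw [← sub_eq_zero]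
    apply ev_eq_zero
    intro x y
    have e1 : ∀ D S B Cc b c D0 D1 : R2, ev (D * S - (-(D * (B + Cc)) + (b * D0 + c * D1))) x y
        = ev D x y * ev S x y - (-(ev D x y * (ev B x y + ev Cc x y))
          + (ev b x y * ev D0 x y + ev c x y * ev D1 x y)) := by
      intros; simp [ev]
    rw [sg2, e1, ev_S2, ev_D, ev_pax, ev_pby, ev_pa, ev_pb, ev_Dx, ev_Dy, (key x y).1]
    simp only [S2, Par.ax, Par.bY, Par.Ux, Par.Uy, Par.Vy, Par.U, Par.Q, Par.Qx, Par.Qy]
    ring

/-- Summary: every flat nondegenerate metric is equivalent to one with a zero at the origin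
satisfying the reduced system. -/
theorem reduction {p : Par} (hp : p.Nondeg) (hf : FlatP p) :
    ∃ (M : Matrix (Fin 3) (Fin 3) ℂ) (q : Par) (s : SPar), M.det ≠ 0 ∧ Act M p q ∧ q.Nondeg ∧
      Sys q s ∧ q.a00 = 0 ∧ q.b00 = 0 ∧ q.c00 = 0 := by
  obtain ⟨M, q, hM, hact, hq, hfq, h0⟩ := exists_zero_at_origin hp hf
  obtain ⟨s, hs⟩ := exists_sys hq hfq
  exact ⟨M, q, s, hM, hact, hq, hs, h0⟩

end FM67
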