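import Pool.Agent.H67.FM.Ufd
import Pool.Agent.H38.FM.Par

/-!
# The metric of a parameter as polynomials; `Sys` and flatness
-/

namespace FM67

open MvPolynomial Pool.Agent.H38.FM

/-- Polynomial versions of the coefficient functions. -/
noncomputable def Qp (p : Par) : R2 := C p.q20 * X 0 ^ 2 + C p.q11 * X 0 * X 1 + C p.q02 * X 1 ^ 2
noncomputable def Up (p : Par) : R2 := C p.u20 * X 0 ^ 2 + C p.u11 * X 0 * X 1 + C p.u02 * X 1 ^ 2
noncomputable def Vp (p : Par) : R2 := C p.v20 * X 0 ^ 2 + C p.v11 * X 0 * X 1 + C p.v02 * X 1 ^ 2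
noncomputable def pa (p : Par) : R2 :=
  C p.a00 + C p.a10 * X 0 + C p.a01 * X 1 + C p.a20 * X 0 ^ 2 + C p.a11 * X 0 * X 1
    + C p.a02 * X 1 ^ 2 + X 0 * Up p + X 0 ^ 2 * Qp p
noncomputable def pb (p : Par) : R2 :=
  C p.b00 + C p.b10 * X 0 + C p.b01 * X 1 + C p.b20 * X 0 ^ 2 + C p.b11 * X 0 * X 1
    + C p.b02 * X 1 ^ 2 + C (1 / 2) * (X 1 * Up p + X 0 * Vp p) + X 0 * X 1 * Qp p
noncomputable def pc (p : Par) : R2 :=
  C p.c00 + C p.c10 * X 0 + C p.c01 * X 1 + C p.c20 * X 0 ^ 2 + C p.c11 * X 0 * X 1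
    + C p.c02 * X 1 ^ 2 + X 1 * Vp p + X 1 ^ 2 * Qp p

noncomputable def S1p (p : Par) (s : SPar) : R2 :=
  C s.s1 + C s.s11 * X 0 + C s.s12 * X 1 + X 1 * (C s.l1 * X 0 + C s.l2 * X 1)
    - C (1 / 2) * Vp p - X 1 * Qp p
noncomputable def S2p (p : Par) (s : SPar) : R2 :=
  C s.s2 + C s.s21 * X 0 + C s.s22 * X 1 + C (1 / 2) * Up p
    - X 0 * (C s.l1 * X 0 + C s.l2 * X 1) + X 0 * Qp p

section
variable (p : Par) (s : SPar) (x y : ℂ)

theorem ev_pa : ev (pa p) x y = p.a x y := by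
  simp [ev, pa, Up, Qp, Par.a, Par.U, Par.Q]
theorem ev_pb : ev (pb p) x y = p.b x y := by
  simp [ev, pb, Up, Vp, Qp, Par.b, Par.U, Par.V, Par.Q]; ring
theorem ev_pc : ev (pc p) x y = p.c x y := by
  simp [ev, pc, Vp, Qp, Par.c, Par.V, Par.Q]
theorem ev_pax : ev (pderiv 0 (pa p)) x y = p.ax x y := by
  simp [ev, pa, Up, Qp, Par.ax, Par.U, Par.Ux, Par.Q, Par.Qx, pderiv_X]; ring
theorem ev_pay : ev (pderiv 1 (pa p)) x y = p.ay x y := by
  simp [ev, pa, Up, Qp, Par.ay, Par.Uy, Par.Qy, pderiv_X]; ring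
theorem ev_pbx : ev (pderiv 0 (pb p)) x y = p.bx x y := by
  simp [ev, pb, Up, Vp, Qp, Par.bx, Par.Ux, Par.Vx, Par.V, Par.Q, Par.Qx, pderiv_X]; ring
theorem ev_pby : ev (pderiv 1 (pb p)) x y = p.bY x y := by
  simp [ev, pb, Up, Vp, Qp, Par.bY, Par.Uy, Par.Vy, Par.U, Par.Q, Par.Qy, pderiv_X]; ring
theorem ev_pcx : ev (pderiv 0 (pc p)) x y = p.cx x y := by
  simp [ev, pc, Vp, Qp, Par.cx, Par.Vx, Par.Qx, pderiv_X]; ring
theorem ev_pcy : ev (pderiv 1 (pc p)) x y = p.cy x y := by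
  simp [ev, pc, Vp, Qp, Par.cy, Par.Vy, Par.V, Par.Q, Par.Qy, pderiv_X]; ring
theorem ev_S1 : ev (S1p p s) x y = S1 p s x y := by
  simp [ev, S1p, S1, Vp, Qp, Par.V, Par.Q]; ring
theorem ev_S2 : ev (S2p p s) x y = S2 p s x y := by
  simp [ev, S2p, S2, Up, Qp, Par.U, Par.Q]; ring
theorem ev_S1y : ev (pderiv 1 (S1p p s)) x y = S1y p s x y := by
  simp [ev, S1p, S1y, Vp, Qp, Par.Vy, Par.Q, Par.Qy, pderiv_X]; ring
theorem ev_S2x : ev (pderiv 0 (S2p p s)) x y = S2x p s x y := by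
  simp [ev, S2p, S2x, Up, Qp, Par.Ux, Par.Q, Par.Qx, pderiv_X]; ring
theorem ev_D : ev (Dp (pa p) (pb p) (pc p)) x y = p.D x y := by
  have : ev (Dp (pa p) (pb p) (pc p)) x y = ev (pa p) x y * ev (pc p) x y - ev (pb p) x y ^ 2 := by
    simp [ev, Dp]
  rw [this, ev_pa, ev_pb, ev_pc]; rfl
theorem ev_Dx : ev (pderiv 0 (Dp (pa p) (pb p) (pc p))) x y = p.Dx x y := by
  have : ev (pderiv 0 (Dp (pa p) (pb p) (pc p))) x y
      = ev (pderiv 0 (pa p)) x y * ev (pc p) x y + ev (pa p) x y * ev (pderiv 0 (pc p)) x y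
        - 2 * ev (pb p) x y * ev (pderiv 0 (pb p)) x y := by
    simp [ev, Dp]; ring
  rw [this, ev_pa, ev_pb, ev_pc, ev_pax, ev_pbx, ev_pcx]; rfl
theorem ev_Dy : ev (pderiv 1 (Dp (pa p) (pb p) (pc p))) x y = p.Dy x y := by
  have : ev (pderiv 1 (Dp (pa p) (pb p) (pc p))) x y
      = ev (pderiv 1 (pa p)) x y * ev (pc p) x y + ev (pa p) x y * ev (pderiv 1 (pc p)) x y
        - 2 * ev (pb p) x y * ev (pderiv 1 (pb p)) x y := by
    simp [ev, Dp]; ring
  rw [this, ev_pa, ev_pb, ev_pc, ev_pay, ev_pby, ev_pcy]; rfl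
end

theorem Dp_ne_zero {p : Par} (h : p.Nondeg) : Dp (pa p) (pb p) (pc p) ≠ 0 := by
  obtain ⟨x, y, hxy⟩ := h
  intro h0
  apply hxy
  rw [← ev_D, h0]
  simp [ev]

/-- Flatness of a member of the family. -/
def FlatP (p : Par) : Prop := Flat p.a p.b p.c

theorem flatP_iff {p : Par} (h : p.Nondeg) : FlatP p ↔ Ep (pa p) (pb p) (pc p) = 0 := by
  rw [← flat_iff (Dp_ne_zero h)]
  have ha : ev (pa p) = p.a := by funext x y; exact ev_pa p x y
  have hb : ev (pb p) = p.b := by funext x y; exact ev_pb p x y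
  have hc : ev (pc p) = p.c := by funext x y; exact ev_pc p x y
  rw [ha, hb, hc]; rfl

/-- `D F'' = E` when `D s = σ`. -/
theorem Ep_of_s {a b c s1 s2 : R2} (h1 : Dp a b c * s1 = sg1 a b c)
    (h2 : Dp a b c * s2 = sg2 a b c) :
    Dp a b c * (2 * Dp a b c * (pderiv 0 s2 - pderiv 1 s1)
      - (pderiv 0 (Dp a b c) * s2 - pderiv 1 (Dp a b c) * s1) + om3 a b c) = Ep a b c := by
  have d1 := congrArg (pderiv 1) h1
  have d2 := congrArg (pderiv 0) h2
  rw [pderiv_mul] at d1 d2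
  rw [Ep]
  linear_combination 2 * Dp a b c * (d2 - d1) - 3 * pderiv 0 (Dp a b c) * h2
    + 3 * pderiv 1 (Dp a b c) * h1

/-- Flatness follows from the reduced system. -/
theorem flat_of_sys {p : Par} {s : SPar} (hD : p.Nondeg) (h : Sys p s) : FlatP p := by
  rw [flatP_iff hD]
  set a := pa p
  set b := pb p
  set c := pc p
  set s1 := S1p p s
  set s2 := S2p p s
  have e1 : a * s1 + b * s2 - (a * pderiv 0 b + b * pderiv 1 b - b * pderiv 0 a
      - c * pderiv 1 a) = 0 := by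
    apply ev_eq_zero
    intro x y
    have := (h x y).1
    rw [E1, ← ev_pa, ← ev_pb, ← ev_pc, ← ev_pax, ← ev_pay, ← ev_pbx, ← ev_pby, ← ev_S1,
      ← ev_S2] at this
    simpa [ev] using this
  have e2 : b * s1 + c * s2 - (a * pderiv 0 c + b * pderiv 1 c - b * pderiv 0 b
      - c * pderiv 1 b) = 0 := by
    apply ev_eq_zero
    intro x y
    have := (h x y).2.1
    rw [E2, ← ev_pa, ← ev_pb, ← ev_pc, ← ev_pcx, ← ev_pcy, ← ev_pbx, ← ev_pby, ← ev_S1,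
      ← ev_S2] at this
    simpa [ev] using this
  have e3 : 2 * Dp a b c * (pderiv 0 s2 - pderiv 1 s1)
      - (pderiv 0 (Dp a b c) * s2 - pderiv 1 (Dp a b c) * s1) + om3 a b c = 0 := by
    apply ev_eq_zero
    intro x y
    have := (h x y).2.2
    rw [FF, ← ev_pa, ← ev_pb, ← ev_pc, ← ev_pax, ← ev_pay, ← ev_pcx, ← ev_pcy, ← ev_pbx,
      ← ev_pby, ← ev_S1, ← ev_S2, ← ev_S1y, ← ev_S2x, ← ev_D, ← ev_Dx, ← ev_Dy] at this
    have e2' : ev (2 : R2) x y = 2 := map_ofNat _ 2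
    simp only [ev, om3, map_add, map_sub, map_mul] at this e2' ⊢
    rw [e2']
    linear_combination this
  have h1 : Dp a b c * s1 = sg1 a b c := by
    rw [sg1, Dp]
    simp only [map_sub, pderiv_mul, pderiv_pow]
    push_cast
    linear_combination c * e1 - b * e2
  have h2 : Dp a b c * s2 = sg2 a b c := by
    rw [sg2, Dp]
    simp only [map_sub, pderiv_mul, pderiv_pow]
    push_cast
    linear_combination -b * e1 + a * e2
  rw [← Ep_of_s h1 h2, e3, mul_zero]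

/-- The reduced system from flatness and `D s = σ`. -/
theorem sys_of_flat {p : Par} {s : SPar} (hD : p.Nondeg) (hE : Ep (pa p) (pb p) (pc p) = 0)
    (h1 : Dp (pa p) (pb p) (pc p) * S1p p s = sg1 (pa p) (pb p) (pc p))
    (h2 : Dp (pa p) (pb p) (pc p) * S2p p s = sg2 (pa p) (pb p) (pc p)) : Sys p s := by
  have hD0 := Dp_ne_zero hD
  have e3 := Ep_of_s h1 h2
  rw [hE] at e3
  have e3' := (mul_eq_zero.mp e3).resolve_left hD0
  have e1 : pa p * S1p p s + pb p * S2p p s - (pa p * pderiv 0 (pb p) + pb p * pderiv 1 (pb p)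
      - pb p * pderiv 0 (pa p) - pc p * pderiv 1 (pa p)) = 0 := by
    refine (mul_eq_zero.mp (?_ : Dp (pa p) (pb p) (pc p) * _ = 0)).resolve_left hD0
    rw [sg1] at h1
    rw [sg2] at h2
    have d1 : pderiv 1 (Dp (pa p) (pb p) (pc p)) = pderiv 1 (pa p) * pc p
        + pa p * pderiv 1 (pc p) - 2 * pb p * pderiv 1 (pb p) := by
      rw [Dp]; simp only [map_sub, pderiv_mul, pderiv_pow]; push_cast; ring
    have hDe : Dp (pa p) (pb p) (pc p) = pa p * pc p - pb p ^ 2 := rfl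
    linear_combination pa p * h1 + pb p * h2 - Dp (pa p) (pb p) (pc p) * d1
      + pderiv 1 (Dp (pa p) (pb p) (pc p)) * hDe
  have e2 : pb p * S1p p s + pc p * S2p p s - (pa p * pderiv 0 (pc p) + pb p * pderiv 1 (pc p)
      - pb p * pderiv 0 (pb p) - pc p * pderiv 1 (pb p)) = 0 := by
    refine (mul_eq_zero.mp (?_ : Dp (pa p) (pb p) (pc p) * _ = 0)).resolve_left hD0
    rw [sg1] at h1
    rw [sg2] at h2
    have d0 : pderiv 0 (Dp (pa p) (pb p) (pc p)) = pderiv 0 (pa p) * pc p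
        + pa p * pderiv 0 (pc p) - 2 * pb p * pderiv 0 (pb p) := by
      rw [Dp]; simp only [map_sub, pderiv_mul, pderiv_pow]; push_cast; ring
    have hDe : Dp (pa p) (pb p) (pc p) = pa p * pc p - pb p ^ 2 := rfl
    linear_combination pb p * h1 + pc p * h2 + Dp (pa p) (pb p) (pc p) * d0
      - pderiv 0 (Dp (pa p) (pb p) (pc p)) * hDe
  intro x y
  refine ⟨?_, ?_, ?_⟩
  · rw [E1, ← ev_pa, ← ev_pb, ← ev_pc, ← ev_pax, ← ev_pay, ← ev_pbx, ← ev_pby, ← ev_S1,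
      ← ev_S2]
    have := congrArg (fun q => ev q x y) e1
    simpa [ev] using this
  · rw [E2, ← ev_pa, ← ev_pb, ← ev_pc, ← ev_pcx, ← ev_pcy, ← ev_pbx, ← ev_pby, ← ev_S1,
      ← ev_S2]
    have := congrArg (fun q => ev q x y) e2
    simpa [ev] using this
  · rw [FF, ← ev_pa, ← ev_pb, ← ev_pc, ← ev_pax, ← ev_pay, ← ev_pcx, ← ev_pcy, ← ev_pbx,
      ← ev_pby, ← ev_S1, ← ev_S2, ← ev_S1y, ← ev_S2x, ← ev_D, ← ev_Dx, ← ev_Dy]
    have h3 := congrArg (fun q => ev q x y) e3'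
    have e2' : ev (2 : R2) x y = 2 := map_ofNat _ 2
    simp only [ev, om3, map_add, map_sub, map_mul, map_zero] at h3 e2' ⊢
    rw [e2'] at h3
    linear_combination h3

end FM67
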