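import Pool.Agent.H67.FM.LinTypes

/-!
# Normalisation of the gauge for each linear type
-/

noncomputable section

namespace Pool.Agent.H38.FM

open FM67 Matrix

/-- Type N. -/
def TyN (p : Par) : Prop := Lin p 1 0 0 0 0 1 ∧ p.a11 = 0 ∧ p.c11 = 0
/-- Type L, `μ ≠ 2`. -/
def TyL (p : Par) : Prop :=
  ∃ mu : ℂ, mu ≠ 0 ∧ mu ≠ 2 ∧ Lin p 1 0 0 mu 0 0 ∧ p.a20 = 0 ∧ p.b02 = 0
/-- Type L, `μ = 2`. -/
def TyL2 (p : Par) : Prop := Lin p 1 0 0 2 0 0 ∧ p.a20 = 0 ∧ p.a11 = 3 / 2 * p.b02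
/-- Type Linf. -/
def TyInf (p : Par) : Prop := Lin p 0 0 0 1 0 0 ∧ p.b11 = 0 ∧ p.b02 = 0
/-- Type Lp. -/
def TyLp (p : Par) : Prop := Lin p 1 1 0 (1 / 2) 0 0 ∧ p.a20 = 0 ∧ p.b02 = 0
/-- Type T1. -/
def TyT1 (p : Par) : Prop := Lin p 1 0 0 0 0 0 ∧ p.a11 = 0 ∧ p.b11 = 0
/-- Type T2c. -/
def TyT2c (p : Par) : Prop := Lin p 0 1 0 0 0 0 ∧ p.c02 ≠ 0 ∧ p.a11 = 0 ∧ p.a02 = 0 ∧ p.b02 = 0
/-- Type T2z. -/
def TyT2z (p : Par) : Prop := Lin p 0 1 0 0 0 0 ∧ p.c02 = 0 ∧ p.a11 = 0 ∧ p.a02 = 0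
/-- Type T2s (contradictory). -/
def TyT2s (p : Par) : Prop :=
  Lin p 0 1 0 0 0 0 ∧ p.c02 ≠ 0 ∧ p.a11 = 0 ∧ p.a02 = 0 ∧ p.b02 = 1 ∧
    2 * p.a20 = 5 * p.b11 - 3 * p.c02 ∧ p.c20 = 0 ∧ 4 * p.c11 = 7 * p.b20
/-- Type T3. -/
def TyT3 (p : Par) : Prop := Lin p 0 0 0 0 0 0

/-- All types. -/
def TyAll (p : Par) : Prop :=
  TyN p ∨ TyL p ∨ TyL2 p ∨ TyInf p ∨ TyLp p ∨ TyT1 p ∨ TyT2c p ∨ TyT2z p ∨ TyT2s p ∨ TyT3 p

theorem lin_gau {p : Par} (hp : Base p) {a b c d e f : ℂ} (h : Lin p a b c d e f) (la mu : ℂ) :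
    Lin (gau la mu p) a b c d e f := by
  obtain ⟨-, -, h0, h0', h0''⟩ := hp
  obtain ⟨h1, h2, h3, h4, h5, h6⟩ := h
  refine ⟨?_, ?_, ?_, ?_, ?_, ?_⟩ <;>
    simp only [gau, h0, h0', h0'', h1, h2, h3, h4, h5, h6] <;> ring

theorem ex_N {p : Par} (hp : Base p) (h : Lin p 1 0 0 0 0 1) : Ex p TyN := by
  refine ⟨gau p.c11 p.a11 p, rel_gau _ _ p, hp.gau _ _, lin_gau hp h _ _, ?_, ?_⟩
  all_goals
    obtain ⟨-, -, h0, h0', h0''⟩ := hp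
    obtain ⟨h1, h2, h3, h4, h5, h6⟩ := h
    simp only [gau, h0, h0', h0'', h1, h2, h3, h4, h5, h6]
    ring

theorem ex_L {p : Par} (hp : Base p) {mu : ℂ} (hmu : mu ≠ 0) (h : Lin p 1 0 0 mu 0 0) :
    Ex p TyAll := by
  by_cases h2 : mu = 2
  · subst h2
    refine ⟨gau (p.a20 / 3) (3 / 2 * p.b02 - p.a11) p, rel_gau _ _ p, hp.gau _ _,
      Or.inr (Or.inr (Or.inl ⟨lin_gau hp h _ _, ?_, ?_⟩))⟩
    all_goals
      obtain ⟨-, -, h0, h0', h0''⟩ := hp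
      obtain ⟨h1, h2, h3, h4, h5, h6⟩ := h
      simp only [gau, h0, h0', h0'', h1, h2, h3, h4, h5, h6]
      ring
  · refine ⟨gau (p.a20 / 3) (p.b02 / (2 * mu)) p, rel_gau _ _ p, hp.gau _ _,
      Or.inr (Or.inl ⟨mu, hmu, h2, lin_gau hp h _ _, ?_, ?_⟩)⟩
    · obtain ⟨-, -, h0, h0', h0''⟩ := hp
      obtain ⟨h1, h2, h3, h4, h5, h6⟩ := h
      simp only [gau, h0, h0', h0'', h1, h2, h3, h4, h5, h6]
      ring
    · obtain ⟨-, -, h0, h0', h0''⟩ := hp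
      obtain ⟨h1, h2, h3, h4, h5, h6⟩ := h
      simp only [gau, h0, h0', h0'', h1, h2, h3, h4, h5, h6]
      field_simp
      ring

theorem ex_Inf {p : Par} (hp : Base p) (h : Lin p 0 0 0 1 0 0) : Ex p TyInf := by
  refine ⟨gau (p.b11 / 2) (p.b02 / 2) p, rel_gau _ _ p, hp.gau _ _, lin_gau hp h _ _, ?_, ?_⟩
  all_goals
    obtain ⟨-, -, h0, h0', h0''⟩ := hp
    obtain ⟨h1, h2, h3, h4, h5, h6⟩ := h
    simp only [gau, h0, h0', h0'', h1, h2, h3, h4, h5, h6]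
    ring

theorem ex_Lp {p : Par} (hp : Base p) (h : Lin p 1 1 0 (1 / 2) 0 0) : Ex p TyLp := by
  refine ⟨gau (p.a20 / 3) (p.b02 - p.a20 / 3) p, rel_gau _ _ p, hp.gau _ _,
    lin_gau hp h _ _, ?_, ?_⟩
  all_goals
    obtain ⟨-, -, h0, h0', h0''⟩ := hp
    obtain ⟨h1, h2, h3, h4, h5, h6⟩ := h
    simp only [gau, h0, h0', h0'', h1, h2, h3, h4, h5, h6]
    ring

theorem ex_T1 {p : Par} (hp : Base p) (h : Lin p 1 0 0 0 0 0) : Ex p TyT1 := by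
  refine ⟨gau p.b11 p.a11 p, rel_gau _ _ p, hp.gau _ _, lin_gau hp h _ _, ?_, ?_⟩
  all_goals
    obtain ⟨-, -, h0, h0', h0''⟩ := hp
    obtain ⟨h1, h2, h3, h4, h5, h6⟩ := h
    simp only [gau, h0, h0', h0'', h1, h2, h3, h4, h5, h6]
    ring

/-- The gauge of type T2: kills `a11` and `a02`. -/
theorem gau_T2 {p : Par} (hp : Base p) (h : Lin p 0 1 0 0 0 0) :
    ∃ q, Rel p q ∧ Base q ∧ Lin q 0 1 0 0 0 0 ∧ q.a11 = 0 ∧ q.a02 = 0 ∧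
      q.b02 = p.b02 - p.a11 / 3 ∧ q.a20 = p.a20 ∧ q.b20 = p.b20 ∧ q.b11 = p.b11 ∧
      q.c20 = p.c20 ∧ q.c11 = p.c11 ∧ q.c02 = p.c02 := by
  refine ⟨gau (p.a11 / 3) p.a02 p, rel_gau _ _ p, hp.gau _ _, lin_gau hp h _ _,
    ?_, ?_, ?_, ?_, ?_, ?_, ?_, ?_, ?_⟩
  all_goals
    obtain ⟨-, -, h0, h0', h0''⟩ := hp
    obtain ⟨h1, h2, h3, h4, h5, h6⟩ := h
    simp only [gau, h0, h0', h0'', h1, h2, h3, h4, h5, h6]
    ring

theorem ex_T2 {p : Par} (hp : Base p) (h : Lin p 0 1 0 0 0 0) : Ex p TyAll := by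
  obtain ⟨q, hpq, hq, hl, ha11, ha02, hb02, -⟩ := gau_T2 hp h
  have hT2 : ∀ r, TyT2c r ∨ TyT2z r ∨ TyT2s r → TyAll r := by
    intro r hr
    rcases hr with h | h | h
    · exact Or.inr (Or.inr (Or.inr (Or.inr (Or.inr (Or.inr (Or.inl h))))))
    · exact Or.inr (Or.inr (Or.inr (Or.inr (Or.inr (Or.inr (Or.inr (Or.inl h)))))))
    · exact Or.inr (Or.inr (Or.inr (Or.inr (Or.inr (Or.inr (Or.inr (Or.inr (Or.inl h))))))))
  by_cases hc : q.c02 = 0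
  · exact ⟨q, hpq, hq, hT2 q (Or.inr (Or.inl ⟨hl, hc, ha11, ha02⟩))⟩
  by_cases hb : q.b02 = 0
  · exact ⟨q, hpq, hq, hT2 q (Or.inl ⟨hl, hc, ha11, ha02, hb⟩)⟩
  by_cases hdeg : q.c20 = 0 ∧ 4 * q.c11 - 7 * q.b20 = 0 ∧ 5 * q.b11 - 2 * q.a20 - 3 * q.c02 = 0
  · obtain ⟨d1, d2, d3⟩ := hdeg
    have hb2 : q.b02 ^ 2 ≠ 0 := pow_ne_zero 2 hb
    have hls := lin_scal hl q.b02 (q.b02 ^ 2)
    refine ⟨scal q.b02 (q.b02 ^ 2) q, hpq.trans (rel_scal hb hb2 q), hq.scal hb hb2,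
      hT2 _ (Or.inr (Or.inr ⟨hls.congr (by ring) ?_ (by ring) (by ring) (by ring) (by ring),
        hc, ?_, ?_, ?_, ?_, ?_, ?_⟩))⟩
    · rw [mul_one, div_self hb2]
    · simp only [scal, ha11]; ring
    · simp only [scal, ha02]; ring
    · simp only [scal]
      field_simp
    · simp only [scal]
      linear_combination -d3
    · simp only [scal, d1]; ring
    · simp only [scal]
      field_simp
      linear_combination d2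
  · -- choose the shear
    have hroot : ∃ t : ℂ, (-5 * q.c20) * t ^ 3 + (4 * q.c11 - 7 * q.b20) * t ^ 2
        + (5 * q.b11 - 2 * q.a20 - 3 * q.c02) * t + (q.a11 - 3 * q.b02) = 0 := by
      apply cubic_root
      by_contra hcon
      push Not at hcon
      apply hdeg
      refine ⟨?_, hcon.2.1, hcon.2.2⟩
      linear_combination (-1 / 5) * hcon.1
    obtain ⟨t, ht⟩ := hroot
    have hls := lin_shear hl t
    have hls' : Lin (shear t q) 0 1 0 0 0 0 :=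
      hls.congr (by ring) (by ring) (by ring) (by ring) rfl (by ring)
    obtain ⟨r, hqr, hr, hlr, hra11, hra02, hrb02, -, -, -, -, -, hrc02⟩ :=
      gau_T2 (hq.shear t) hls'
    refine ⟨r, (hpq.trans (rel_shear t q)).trans hqr, hr, hT2 r ?_⟩
    have hb0 : r.b02 = 0 := by
      rw [hrb02]
      simp only [shear]
      linear_combination (-1 / 3) * ht
    by_cases hc' : r.c02 = 0
    · exact Or.inr (Or.inl ⟨hlr, hc', hra11, hra02⟩)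
    · exact Or.inl ⟨hlr, hc', hra11, hra02, hb0⟩

/-- **Types.** -/
theorem tyAll {p : Par} (hp : Base p) : Ex p TyAll := by
  refine Ex.bind (linAll hp) fun q hq hl => ?_
  have tr : ∀ {P : Par → Prop}, Ex q P → (∀ r, P r → TyAll r) → Ex q TyAll := by
    intro P hP hPT
    obtain ⟨r, h1, h2, h3⟩ := hP
    exact ⟨r, h1, h2, hPT r h3⟩
  rcases hl with h | ⟨mu, hmu, h⟩ | h | h | h | h | h
  · exact tr (ex_N hq h) fun r hr => Or.inl hr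
  · exact ex_L hq hmu h
  · exact tr (ex_Inf hq h) fun r hr => Or.inr (Or.inr (Or.inr (Or.inl hr)))
  · exact tr (ex_Lp hq h) fun r hr => Or.inr (Or.inr (Or.inr (Or.inr (Or.inl hr))))
  · exact tr (ex_T1 hq h) fun r hr => Or.inr (Or.inr (Or.inr (Or.inr (Or.inr (Or.inl hr)))))
  · exact ex_T2 hq h
  · exact Ex.of hq (Or.inr (Or.inr (Or.inr (Or.inr (Or.inr (Or.inr (Or.inr (Or.inr
      (Or.inr h)))))))))

end Pool.Agent.H38.FM
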