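import Pool.Agent.H67.FM.Gau

/-!
# Irreducible discriminant: there is a zero
-/

namespace FM67

open MvPolynomial Matrix

theorem exists_not_dvd_pderiv {F : R3} {m : ℕ} (hF : F.IsHomogeneous m) (hm : 0 < m)
    (hFi : Irreducible F) : ∃ i, ¬ F ∣ pderiv i F := by
  have hE : ∑ i : Fin 3, X i * pderiv i F = m • F := hF.sum_X_mul_pderiv
  by_contra hcon
  push Not at hcon
  have hz : ∀ i, pderiv i F = 0 := by
    intro i
    by_contra hne
    obtain ⟨c, hc⟩ := hcon i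
    have hc0 : c ≠ 0 := by
      rintro rfl
      exact hne (by rw [hc, mul_zero])
    have hd1 : (pderiv i F).totalDegree = m - 1 := (hF.pderiv (i := i)).totalDegree hne
    have hd2 : (pderiv i F).totalDegree = F.totalDegree + c.totalDegree := by
      rw [hc]; exact totalDegree_mul_of_isDomain hFi.ne_zero hc0
    rw [hF.totalDegree hFi.ne_zero] at hd2
    omega
  simp only [hz, mul_zero, Finset.sum_const_zero] at hE
  rw [eq_comm, smul_eq_zero] at hE
  rcases hE with hE | hE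
  · omega
  · exact hFi.ne_zero hE

theorem ker_id {R : Type*} [CommRing R] {a b c d e f n0 n1 n2 : R} (x0 x1 x2 : R)
    (E0 : a * n0 + b * n1 + c * n2 = 0) (E1 : b * n0 + d * n1 + e * n2 = 0)
    (E2 : c * n0 + e * n1 + f * n2 = 0) :
    ((d * f - e ^ 2) * x0 ^ 2 + (a * f - c ^ 2) * x1 ^ 2 + (a * d - b ^ 2) * x2 ^ 2
      + 2 * (c * e - b * f) * (x0 * x1) + 2 * (b * e - c * d) * (x0 * x2)
      + 2 * (b * c - a * e) * (x1 * x2)) * n0 ^ 2
      = (d * f - e ^ 2) * (x0 * n0 + x1 * n1 + x2 * n2) ^ 2 := by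
  linear_combination x1 ^ 2 * (n0 * (f * E0 - c * E2) + n1 * (-f * E1 + e * E2))
    + x2 ^ 2 * (n0 * (d * E0 - b * E1) + n2 * (e * E1 - d * E2))
    + 2 * x0 * x1 * n0 * (-f * E1 + e * E2) + 2 * x0 * x2 * n0 * (e * E1 - d * E2)
    + 2 * x1 * x2 * (n0 * (c * E1 - e * E0) + n1 * (e * E1 - d * E2))

theorem sq_id {R : Type*} [CommRing R] (a b c d e f x0 x1 x2 : R) :
    ((d * f - e ^ 2) * x0 + (c * e - b * f) * x1 + (b * e - c * d) * x2) ^ 2
      = (d * f - e ^ 2) * ((d * f - e ^ 2) * x0 ^ 2 + (a * f - c ^ 2) * x1 ^ 2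
        + (a * d - b ^ 2) * x2 ^ 2 + 2 * (c * e - b * f) * (x0 * x1)
        + 2 * (b * e - c * d) * (x0 * x2) + 2 * (b * c - a * e) * (x1 * x2))
      - (a * d * f + 2 * b * c * e - a * e ^ 2 - d * c ^ 2 - f * b ^ 2)
        * (f * x1 ^ 2 - 2 * e * x1 * x2 + d * x2 ^ 2) := by
  ring

/-- An irreducible tangent discriminant forces a zero. -/
theorem exists_zero_of_irreducible {G : Matrix (Fin 3) (Fin 3) R3} (hs : G.IsSymm)
    (hG : ∀ i j, (G i j).IsHomogeneous 2) (hD : Irreducible (disc G)) (ht : Tang G (disc G)) :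
    ∃ p : Fin 3 → ℂ, p ≠ 0 ∧ ZeroAt G p := by
  have hDh := disc_homog hs hG
  have hD0 := hD.ne_zero
  obtain ⟨l, hl, h, hh, hv⟩ := exists_gauge hG hDh (by norm_num) hD0 ht
  set M := reg G l with hM
  have hMs : M.IsSymm := reg_symm hs l
  have hMD : disc M = disc G := disc_reg hs l
  have h01 : M 1 0 = M 0 1 := hMs.apply 0 1
  have h02 : M 2 0 = M 0 2 := hMs.apply 0 2
  have h12 : M 2 1 = M 1 2 := hMs.apply 1 2
  set D := disc G with hDdef
  have hex : D = (M 1 1 * M 2 2 - M 1 2 ^ 2) * X 0 ^ 2 + (M 0 0 * M 2 2 - M 0 2 ^ 2) * X 1 ^ 2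
      + (M 0 0 * M 1 1 - M 0 1 ^ 2) * X 2 ^ 2
      + 2 * (M 0 2 * M 1 2 - M 0 1 * M 2 2) * (X 0 * X 1)
      + 2 * (M 0 1 * M 1 2 - M 0 2 * M 1 1) * (X 0 * X 2)
      + 2 * (M 0 1 * M 0 2 - M 0 0 * M 1 2) * (X 1 * X 2) := by
    rw [← hMD]; exact disc_explicit hMs
  have e0 := hv 0
  have e1 := hv 1
  have e2 := hv 2
  simp only [Matrix.mulVec, dotProduct, gr, Fin.sum_univ_three, h01, h02, h12] at e0 e1 e2
  have hE := euler3 hDh
  set n0 := pderiv 0 D with hn0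
  set n1 := pderiv 1 D with hn1
  set n2 := pderiv 2 D with hn2
  set dt : R3 := M 0 0 * M 1 1 * M 2 2 + 2 * M 0 1 * M 0 2 * M 1 2 - M 0 0 * M 1 2 ^ 2
    - M 1 1 * M 0 2 ^ 2 - M 2 2 * M 0 1 ^ 2 with hdt
  set A0 : R3 := (M 1 1 * M 2 2 - M 1 2 ^ 2) * X 0 + (M 0 2 * M 1 2 - M 0 1 * M 2 2) * X 1
    + (M 0 1 * M 1 2 - M 0 2 * M 1 1) * X 2 with hA0
  set A1 : R3 := (M 0 0 * M 2 2 - M 0 2 ^ 2) * X 1 + (M 0 2 * M 1 2 - M 0 1 * M 2 2) * X 0
    + (M 0 1 * M 0 2 - M 0 0 * M 1 2) * X 2 with hA1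
  set A2 : R3 := (M 0 0 * M 1 1 - M 0 1 ^ 2) * X 2 + (M 0 1 * M 1 2 - M 0 2 * M 1 1) * X 0
    + (M 0 1 * M 0 2 - M 0 0 * M 1 2) * X 1 with hA2
  have g0 : dt * n0 = h * A0 := by
    rw [hdt, hA0]
    linear_combination (M 1 1 * M 2 2 - M 1 2 ^ 2) * e0 + (M 0 2 * M 1 2 - M 0 1 * M 2 2) * e1
      + (M 0 1 * M 1 2 - M 0 2 * M 1 1) * e2
  have g1 : dt * n1 = h * A1 := by
    rw [hdt, hA1]
    linear_combination (M 0 2 * M 1 2 - M 0 1 * M 2 2) * e0 + (M 0 0 * M 2 2 - M 0 2 ^ 2) * e1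
      + (M 0 1 * M 0 2 - M 0 0 * M 1 2) * e2
  have g2 : dt * n2 = h * A2 := by
    rw [hdt, hA2]
    linear_combination (M 0 1 * M 1 2 - M 0 2 * M 1 1) * e0 + (M 0 1 * M 0 2 - M 0 0 * M 1 2) * e1
      + (M 0 0 * M 1 1 - M 0 1 ^ 2) * e2
  have hDA : D = X 0 * A0 + X 1 * A1 + X 2 * A2 := by
    rw [hex, hA0, hA1, hA2]; ring
  have h6 : h = 6 * dt := by
    have : D * (6 * dt - h) = 0 := by
      push_cast at hE
      linear_combination X 0 * g0 + X 1 * g1 + X 2 * g2 - dt * hE - h * hDA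
    have := (mul_eq_zero.mp this).resolve_left hD0
    linear_combination -this
  by_cases hh0 : h = 0
  · -- impossible
    exfalso
    rw [hh0] at e0 e1 e2
    simp only [zero_mul] at e0 e1 e2
    push_cast at hE
    have q0 : n0 ^ 2 = D * (36 * (M 1 1 * M 2 2 - M 1 2 ^ 2)) := by
      have k := ker_id (X 0) (X 1) (X 2) e0 e1 e2
      rw [← hex] at k
      rw [hE] at k
      refine mul_left_cancel₀ hD0 ?_
      linear_combination k
    have q1 : n1 ^ 2 = D * (36 * (M 0 0 * M 2 2 - M 0 2 ^ 2)) := by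
      have k := ker_id (a := M 1 1) (b := M 0 1) (c := M 1 2) (d := M 0 0) (e := M 0 2)
        (f := M 2 2) (n0 := n1) (n1 := n0) (n2 := n2) (X 1) (X 0) (X 2)
        (by linear_combination e1) (by linear_combination e0) (by linear_combination e2)
      refine mul_left_cancel₀ hD0 ?_
      have hE' : X 1 * n1 + X 0 * n0 + X 2 * n2 = 6 * D := by linear_combination hE
      rw [hE'] at k
      linear_combination k + n1 ^ 2 * hex
    have q2 : n2 ^ 2 = D * (36 * (M 0 0 * M 1 1 - M 0 1 ^ 2)) := by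
      have k := ker_id (a := M 2 2) (b := M 1 2) (c := M 0 2) (d := M 1 1) (e := M 0 1)
        (f := M 0 0) (n0 := n2) (n1 := n1) (n2 := n0) (X 2) (X 1) (X 0)
        (by linear_combination e2) (by linear_combination e1) (by linear_combination e0)
      refine mul_left_cancel₀ hD0 ?_
      have hE' : X 2 * n2 + X 1 * n1 + X 0 * n0 = 6 * D := by linear_combination hE
      rw [hE'] at k
      linear_combination k + n2 ^ 2 * hex
    obtain ⟨i, hi⟩ := exists_not_dvd_pderiv hDh (by norm_num) hD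
    have hprime := hD.prime
    fin_cases i
    · exact hi (hprime.dvd_of_dvd_pow (n := 2) ⟨_, q0⟩)
    · exact hi (hprime.dvd_of_dvd_pow (n := 2) ⟨_, q1⟩)
    · exact hi (hprime.dvd_of_dvd_pow (n := 2) ⟨_, q2⟩)
  · have k0 : n0 = 6 * A0 := by
      refine mul_left_cancel₀ hh0 ?_
      linear_combination n0 * h6 + 6 * g0
    have k1 : n1 = 6 * A1 := by
      refine mul_left_cancel₀ hh0 ?_
      linear_combination n1 * h6 + 6 * g1
    have k2 : n2 = 6 * A2 := by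
      refine mul_left_cancel₀ hh0 ?_
      linear_combination n2 * h6 + 6 * g2
    obtain ⟨p, hp0, hp1, hp2⟩ := exists_common_zero hDh hh (by norm_num) (by norm_num)
    refine ⟨p, hp0, ?_⟩
    have hdtp : eval p dt = 0 := by
      rw [h6, map_mul] at hp2
      have h6' : eval p (6 : R3) = 6 := map_ofNat _ 6
      rw [h6'] at hp2
      exact (mul_eq_zero.mp hp2).resolve_left (by norm_num)
    have s0 : eval p A0 = 0 := by
      have k := sq_id (M 0 0) (M 0 1) (M 0 2) (M 1 1) (M 1 2) (M 2 2) (X 0) (X 1) (X 2 : R3)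
      rw [← hA0, ← hex, ← hdt] at k
      have k' := congrArg (eval p) k
      simp only [map_pow, map_sub, map_mul, hp1, hdtp, mul_zero, zero_mul, sub_zero] at k'
      exact pow_eq_zero_iff (two_ne_zero) |>.mp k'
    have s1 : eval p A1 = 0 := by
      have k := sq_id (M 1 1) (M 0 1) (M 1 2) (M 0 0) (M 0 2) (M 2 2) (X 1) (X 0) (X 2 : R3)
      have k2 : A1 ^ 2 = (M 0 0 * M 2 2 - M 0 2 ^ 2) * D
          - dt * (M 2 2 * X 0 ^ 2 - 2 * M 0 2 * X 0 * X 2 + M 0 0 * X 2 ^ 2) := by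
        rw [hA1, hdt]
        linear_combination k - (M 0 0 * M 2 2 - M 0 2 ^ 2) * hex
      have k' := congrArg (eval p) k2
      simp only [map_pow, map_sub, map_mul, hp1, hdtp, mul_zero, zero_mul, sub_zero] at k'
      exact pow_eq_zero_iff (two_ne_zero) |>.mp k'
    have s2 : eval p A2 = 0 := by
      have k := sq_id (M 2 2) (M 1 2) (M 0 2) (M 1 1) (M 0 1) (M 0 0) (X 2) (X 1) (X 0 : R3)
      have k2 : A2 ^ 2 = (M 0 0 * M 1 1 - M 0 1 ^ 2) * D
          - dt * (M 0 0 * X 1 ^ 2 - 2 * M 0 1 * X 1 * X 0 + M 1 1 * X 0 ^ 2) := by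
        rw [hA2, hdt]
        linear_combination k - (M 0 0 * M 1 1 - M 0 1 ^ 2) * hex
      have k' := congrArg (eval p) k2
      simp only [map_pow, map_sub, map_mul, hp1, hdtp, mul_zero, zero_mul, sub_zero] at k'
      exact pow_eq_zero_iff (two_ne_zero) |>.mp k'
    refine zeroAt_of_sing hs hp0 hDh (by norm_num) hD ht ?_
    intro i
    fin_cases i
    · show eval p n0 = 0
      rw [k0, map_mul, s0, mul_zero]
    · show eval p n1 = 0
      rw [k1, map_mul, s1, mul_zero]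
    · show eval p n2 = 0
      rw [k2, map_mul, s2, mul_zero]

end FM67
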