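import Pool.Agent.H67.FM.Sharp

/-!
# Sharpening of the list: coincidences between the families
-/

noncomputable section

set_option linter.unusedSimpArgs false
set_option linter.unusedVariables false

namespace Pool.Agent.H38.FM

open FM67 Matrix

theorem swp_sep (f0 f1 f2 g0 g1 g2 : ℂ) :
    swp (fSEP f0 f1 f2 g0 g1 g2) = fSEP g0 g1 g2 f0 f1 f2 := by
  simp [swp, fSEP, zeroPar]

theorem rel_sep_swap (f0 f1 f2 g0 g1 g2 : ℂ) :
    Rel (fSEP f0 f1 f2 g0 g1 g2) (fSEP g0 g1 g2 f0 f1 f2) := by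
  rw [← swp_sep]
  exact rel_swp _

theorem sep_dbl_dbl (k l : ℂ) : fSEP 0 0 k 0 0 l = fTOR k 0 l := by
  simp [fSEP, fTOR, zeroPar]

theorem sep_dbl_one (k : ℂ) : fSEP 0 0 k 1 0 0 = fTU k 0 1 := by
  simp [fSEP, fTU, zeroPar]

theorem sep_one_lin : fSEP 1 0 0 0 1 0 = fF8 0 := by
  simp [fSEP, fF8, zeroPar]

/-- The constant metric. -/
theorem rel_sep_one_one : Rel (fSEP 1 0 0 1 0 0) (fM1 1 0 0 0 0 0 0 0 0) := by
  obtain ⟨i, hi⟩ := exists_sq (-1 : ℂ)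
  have hi2 : i * i = -1 := by rw [← hi]; ring
  refine rel_mk 1 i 0 (1 / 2) (-i / 2) 0 0 0 1 (-i / 2) (-i) 0 (-(1 / 2)) 1 0 0 0 (-i) (-i)
    (by ring) (by ring) (by ring)
    (by ring) (by ring) (by ring) (by ring) (by ring) (by ring) (by ring) ?_ ?_
  · intro h
    have h0 : i = 0 := by linear_combination -h
    rw [h0] at hi2
    norm_num at hi2
  · intro X Y Z X' Y' Z' hX hY hZ
    subst hX; subst hY; subst hZ
    refine ⟨?_, ?_, ?_, ?_, ?_, ?_⟩
    · simp only [ha, hb, hc, hd, he, hf, fSEP, fM1, zeroPar]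
      linear_combination (-(1 / 4) * Z ^ 4) * hi2
    · simp only [ha, hb, hc, hd, he, hf, fSEP, fM1, zeroPar]
      linear_combination (-(1 / 2) * Z ^ 4) * hi2
    · simp only [ha, hb, hc, hd, he, hf, fSEP, fM1, zeroPar]
      linear_combination (-1 * Z ^ 4) * hi2
    · simp only [ha, hb, hc, hd, he, hf, fSEP, fM1, zeroPar]
      linear_combination (1 / 2 * X * Z ^ 3) * hi2
    · simp only [ha, hb, hc, hd, he, hf, fSEP, fM1, zeroPar]
      linear_combination (X * Z ^ 3) * hi2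
    · simp only [ha, hb, hc, hd, he, hf, fSEP, fM1, zeroPar]
      linear_combination (-(X ^ 2 * Z ^ 2)) * hi2

/-- TU with `al = 0`. -/
theorem rel_tu_zero {be : ℂ} (h : be ≠ 0) (ga : ℂ) :
    Rel (fTU 0 be ga) (fM1 0 1 0 0 (ga / be ^ 2) 0 0 0 0) := by
  refine rel_mk 0 (be⁻¹) 0 1 0 0 0 0 1 0 (-be⁻¹) 0 (-1) 0 0 0 0 (-be⁻¹) (-be⁻¹)
    (by ring) (by ring) (by ring)
    (by ring) (by ring) (by ring) (by ring) (by ring) (by ring) (by ring)
    (neg_ne_zero.mpr (inv_ne_zero h)) ?_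
  intro X Y Z X' Y' Z' hX hY hZ
  subst hX; subst hY; subst hZ
  refine ⟨?_, ?_, ?_, ?_, ?_, ?_⟩ <;>
    simp only [ha, hb, hc, hd, he, hf, fTU, fM1, zeroPar] <;> field_simp <;> ring1

/-- BC2 with two double roots. -/
theorem rel_bc_dbl {k : ℂ} (hk : k ≠ 0) : Rel (fS2 (k / 2) (k / 2)) (fBC 0 0 k 0 0) := by
  obtain ⟨g, hg⟩ := exists_sq (-2 * k)
  have hg0 : g ≠ 0 := by
    intro h
    rw [h] at hg
    apply hk
    linear_combination (1 / 2 : ℂ) * hg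
  refine rel_mk 0 0 g 1 0 0 0 1 0 0 g 0 0 0 g 1 0 0 g (by ring) (by ring) (by ring)
    (by ring) (by ring) (by ring) (by ring) (by ring) (by ring) (by ring) hg0 ?_
  intro X Y Z X' Y' Z' hX hY hZ
  subst hX; subst hY; subst hZ
  refine ⟨?_, ?_, ?_, ?_, ?_, ?_⟩
  · simp only [ha, hb, hc, hd, he, hf, fS2, fBC, zeroPar]
    ring1
  · simp only [ha, hb, hc, hd, he, hf, fS2, fBC, zeroPar]
    ring1
  · simp only [ha, hb, hc, hd, he, hf, fS2, fBC, zeroPar]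
    linear_combination (-(X * Y ^ 3)) * hg
  · simp only [ha, hb, hc, hd, he, hf, fS2, fBC, zeroPar]
    ring1
  · simp only [ha, hb, hc, hd, he, hf, fS2, fBC, zeroPar]
    linear_combination (X ^ 2 * Y ^ 2) * hg
  · simp only [ha, hb, hc, hd, he, hf, fS2, fBC, zeroPar]
    linear_combination (-(X ^ 3 * Y)) * hg

/-- BC2 with a quadruple root. -/
theorem rel_bc_one : Rel (fBC 1 0 0 0 0) (fF8 (-1 / 2)) := by
  obtain ⟨l, hl⟩ := exists_sq (1 / 2 : ℂ)
  have hl0 : l ≠ 0 := by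
    intro h
    rw [h] at hl
    norm_num at hl
  refine rel_mk l 0 0 0 (-1 / 2) 0 0 0 1 (-1 / 2) 0 0 0 l 0 0 0 (-l / 2) (-l / 2)
    (by ring) (by ring) (by ring)
    (by ring) (by ring) (by ring) (by ring) (by ring) (by ring) (by ring)
    (div_ne_zero (neg_ne_zero.mpr hl0) two_ne_zero) ?_
  intro X Y Z X' Y' Z' hX hY hZ
  subst hX; subst hY; subst hZ
  refine ⟨?_, ?_, ?_, ?_, ?_, ?_⟩
  · simp only [ha, hb, hc, hd, he, hf, fF8, fBC, zeroPar]
    linear_combination (1 / 2 * X ^ 2 * Z ^ 2) * hl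
  · simp only [ha, hb, hc, hd, he, hf, fF8, fBC, zeroPar]
    ring1
  · simp only [ha, hb, hc, hd, he, hf, fF8, fBC, zeroPar]
    linear_combination (-2 * Z ^ 4) * hl
  · simp only [ha, hb, hc, hd, he, hf, fF8, fBC, zeroPar]
    linear_combination (-(1 / 2) * l * X ^ 3 * Z) * hl
  · simp only [ha, hb, hc, hd, he, hf, fF8, fBC, zeroPar]
    linear_combination (-(Y * Z ^ 3)) * hl
  · simp only [ha, hb, hc, hd, he, hf, fF8, fBC, zeroPar]
    linear_combination (1 / 2 * X ^ 4 * l ^ 2 - 1 / 2 * Y ^ 2 * Z ^ 2) * hl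

end Pool.Agent.H38.FM
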