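import Pool.Agent.H67.FM.Red

/-!
# Square discriminant: there is a zero
-/

namespace FM67

open MvPolynomial Matrix

/-- A rank one matrix over `R3` is a product of a column and a row. -/
theorem rank_one {B : Fin 3 → Fin 3 → R3} (hB : ∀ i j k l, B i j * B k l = B i l * B k j)
    (h0 : ∃ i j, B i j ≠ 0) : ∃ μ ν : Fin 3 → R3, ∀ i j, B i j = μ i * ν j := by
  classical
  obtain ⟨i0, j0, h0⟩ := h0
  obtain ⟨inst⟩ : Nonempty (NormalizedGCDMonoid R3) := inferInstance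
  let _ := inst
  set g : R3 := gcd (B 0 j0) (gcd (B 1 j0) (B 2 j0)) with hg
  have hg0 : g ≠ 0 := by
    intro hz
    rw [hg, gcd_eq_zero_iff, gcd_eq_zero_iff] at hz
    fin_cases i0
    · exact h0 hz.1
    · exact h0 hz.2.1
    · exact h0 hz.2.2
  have hd0 : g ∣ B 0 j0 := gcd_dvd_left _ _
  have hd1 : g ∣ B 1 j0 := (gcd_dvd_right _ _).trans (gcd_dvd_left _ _)
  have hd2 : g ∣ B 2 j0 := (gcd_dvd_right _ _).trans (gcd_dvd_right _ _)
  have hd : ∀ i, g ∣ B i j0 := by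
    intro i
    fin_cases i
    · exact hd0
    · exact hd1
    · exact hd2
  choose μ hμ using hd
  have hprop : ∀ i k l, μ i * B k l = μ k * B i l := by
    intro i k l
    refine mul_left_cancel₀ hg0 ?_
    rw [← mul_assoc, ← hμ i, ← mul_assoc, ← hμ k, hB i j0 k l, mul_comm]
  have hgcd : IsUnit (gcd (μ 0) (gcd (μ 1) (μ 2))) := by
    have h1 : Associated (g * gcd (μ 0) (gcd (μ 1) (μ 2))) (g * 1) := by
      have e1 : Associated (gcd (g * μ 1) (g * μ 2)) (g * gcd (μ 1) (μ 2)) := gcd_mul_left' _ _ _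
      have e2 : Associated (gcd (g * μ 0) (g * gcd (μ 1) (μ 2)))
        (g * gcd (μ 0) (gcd (μ 1) (μ 2))) := gcd_mul_left' _ _ _
      have e3 : Associated (gcd (g * μ 0) (gcd (g * μ 1) (g * μ 2)))
        (gcd (g * μ 0) (g * gcd (μ 1) (μ 2))) := (Associated.refl _).gcd e1
      have e4 : g = gcd (g * μ 0) (gcd (g * μ 1) (g * μ 2)) := by
        rw [← hμ 0, ← hμ 1, ← hμ 2]
      have e5 := e3.trans e2
      rw [← e4] at e5
      rw [mul_one]
      exact e5.symm
    have h2 := Associated.of_mul_left h1 (Associated.refl g) hg0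
    exact (associated_one_iff_isUnit).mp h2
  have hi0 : μ i0 ≠ 0 := by
    intro hz
    exact h0 (by rw [hμ i0, hz, mul_zero])
  have hdvd : ∀ l, μ i0 ∣ B i0 l := by
    intro l
    have e1 : μ i0 ∣ gcd (μ 0 * B i0 l) (gcd (μ 1 * B i0 l) (μ 2 * B i0 l)) := by
      refine dvd_gcd ?_ (dvd_gcd ?_ ?_)
      · rw [← hprop]; exact dvd_mul_right _ _
      · rw [← hprop]; exact dvd_mul_right _ _
      · rw [← hprop]; exact dvd_mul_right _ _
    have e2 : Associated (gcd (μ 1 * B i0 l) (μ 2 * B i0 l)) (gcd (μ 1) (μ 2) * B i0 l) :=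
      gcd_mul_right' _ _ _
    have e3 : Associated (gcd (μ 0 * B i0 l) (gcd (μ 1) (μ 2) * B i0 l))
      (gcd (μ 0) (gcd (μ 1) (μ 2)) * B i0 l) := gcd_mul_right' _ _ _
    have e4 := ((Associated.refl (μ 0 * B i0 l)).gcd e2).trans e3
    have e5 := e1.trans e4.dvd
    exact (hgcd.dvd_mul_left).mp e5
  choose ν hν using hdvd
  refine ⟨μ, ν, fun k l => ?_⟩
  refine mul_left_cancel₀ hi0 ?_
  rw [hprop i0 k l, hν l]
  ring

theorem rank_of_minors {R : Type*} [CommRing R] {b : Fin 3 → Fin 3 → R}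
    (m22 : b 0 0 * b 1 1 = b 0 1 * b 1 0)
    (m21 : b 0 0 * b 1 2 = b 0 2 * b 1 0)
    (m20 : b 0 1 * b 1 2 = b 0 2 * b 1 1)
    (m12 : b 0 0 * b 2 1 = b 0 1 * b 2 0)
    (m11 : b 0 0 * b 2 2 = b 0 2 * b 2 0)
    (m10 : b 0 1 * b 2 2 = b 0 2 * b 2 1)
    (m02 : b 1 0 * b 2 1 = b 1 1 * b 2 0)
    (m01 : b 1 0 * b 2 2 = b 1 2 * b 2 0)
    (m00 : b 1 1 * b 2 2 = b 1 2 * b 2 1) :
    ∀ i j k l, b i j * b k l = b i l * b k j := by
  intro i j k l
  fin_cases i <;> fin_cases j <;> fin_cases k <;> fin_cases l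
  · show b 0 0 * b 0 0 = b 0 0 * b 0 0
    ring1
  · show b 0 0 * b 0 1 = b 0 1 * b 0 0
    ring1
  · show b 0 0 * b 0 2 = b 0 2 * b 0 0
    ring1
  · show b 0 0 * b 1 0 = b 0 0 * b 1 0
    ring1
  · show b 0 0 * b 1 1 = b 0 1 * b 1 0
    linear_combination m22
  · show b 0 0 * b 1 2 = b 0 2 * b 1 0
    linear_combination m21
  · show b 0 0 * b 2 0 = b 0 0 * b 2 0
    ring1
  · show b 0 0 * b 2 1 = b 0 1 * b 2 0
    linear_combination m12
  · show b 0 0 * b 2 2 = b 0 2 * b 2 0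
    linear_combination m11
  · show b 0 1 * b 0 0 = b 0 0 * b 0 1
    ring1
  · show b 0 1 * b 0 1 = b 0 1 * b 0 1
    ring1
  · show b 0 1 * b 0 2 = b 0 2 * b 0 1
    ring1
  · show b 0 1 * b 1 0 = b 0 0 * b 1 1
    linear_combination -m22
  · show b 0 1 * b 1 1 = b 0 1 * b 1 1
    ring1
  · show b 0 1 * b 1 2 = b 0 2 * b 1 1
    linear_combination m20
  · show b 0 1 * b 2 0 = b 0 0 * b 2 1
    linear_combination -m12
  · show b 0 1 * b 2 1 = b 0 1 * b 2 1
    ring1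
  · show b 0 1 * b 2 2 = b 0 2 * b 2 1
    linear_combination m10
  · show b 0 2 * b 0 0 = b 0 0 * b 0 2
    ring1
  · show b 0 2 * b 0 1 = b 0 1 * b 0 2
    ring1
  · show b 0 2 * b 0 2 = b 0 2 * b 0 2
    ring1
  · show b 0 2 * b 1 0 = b 0 0 * b 1 2
    linear_combination -m21
  · show b 0 2 * b 1 1 = b 0 1 * b 1 2
    linear_combination -m20
  · show b 0 2 * b 1 2 = b 0 2 * b 1 2
    ring1
  · show b 0 2 * b 2 0 = b 0 0 * b 2 2
    linear_combination -m11
  · show b 0 2 * b 2 1 = b 0 1 * b 2 2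
    linear_combination -m10
  · show b 0 2 * b 2 2 = b 0 2 * b 2 2
    ring1
  · show b 1 0 * b 0 0 = b 1 0 * b 0 0
    ring1
  · show b 1 0 * b 0 1 = b 1 1 * b 0 0
    linear_combination -m22
  · show b 1 0 * b 0 2 = b 1 2 * b 0 0
    linear_combination -m21
  · show b 1 0 * b 1 0 = b 1 0 * b 1 0
    ring1
  · show b 1 0 * b 1 1 = b 1 1 * b 1 0
    ring1
  · show b 1 0 * b 1 2 = b 1 2 * b 1 0
    ring1
  · show b 1 0 * b 2 0 = b 1 0 * b 2 0
    ring1
  · show b 1 0 * b 2 1 = b 1 1 * b 2 0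
    linear_combination m02
  · show b 1 0 * b 2 2 = b 1 2 * b 2 0
    linear_combination m01
  · show b 1 1 * b 0 0 = b 1 0 * b 0 1
    linear_combination m22
  · show b 1 1 * b 0 1 = b 1 1 * b 0 1
    ring1
  · show b 1 1 * b 0 2 = b 1 2 * b 0 1
    linear_combination -m20
  · show b 1 1 * b 1 0 = b 1 0 * b 1 1
    ring1
  · show b 1 1 * b 1 1 = b 1 1 * b 1 1
    ring1
  · show b 1 1 * b 1 2 = b 1 2 * b 1 1
    ring1
  · show b 1 1 * b 2 0 = b 1 0 * b 2 1
    linear_combination -m02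
  · show b 1 1 * b 2 1 = b 1 1 * b 2 1
    ring1
  · show b 1 1 * b 2 2 = b 1 2 * b 2 1
    linear_combination m00
  · show b 1 2 * b 0 0 = b 1 0 * b 0 2
    linear_combination m21
  · show b 1 2 * b 0 1 = b 1 1 * b 0 2
    linear_combination m20
  · show b 1 2 * b 0 2 = b 1 2 * b 0 2
    ring1
  · show b 1 2 * b 1 0 = b 1 0 * b 1 2
    ring1
  · show b 1 2 * b 1 1 = b 1 1 * b 1 2
    ring1
  · show b 1 2 * b 1 2 = b 1 2 * b 1 2
    ring1
  · show b 1 2 * b 2 0 = b 1 0 * b 2 2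
    linear_combination -m01
  · show b 1 2 * b 2 1 = b 1 1 * b 2 2
    linear_combination -m00
  · show b 1 2 * b 2 2 = b 1 2 * b 2 2
    ring1
  · show b 2 0 * b 0 0 = b 2 0 * b 0 0
    ring1
  · show b 2 0 * b 0 1 = b 2 1 * b 0 0
    linear_combination -m12
  · show b 2 0 * b 0 2 = b 2 2 * b 0 0
    linear_combination -m11
  · show b 2 0 * b 1 0 = b 2 0 * b 1 0
    ring1
  · show b 2 0 * b 1 1 = b 2 1 * b 1 0
    linear_combination -m02
  · show b 2 0 * b 1 2 = b 2 2 * b 1 0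
    linear_combination -m01
  · show b 2 0 * b 2 0 = b 2 0 * b 2 0
    ring1
  · show b 2 0 * b 2 1 = b 2 1 * b 2 0
    ring1
  · show b 2 0 * b 2 2 = b 2 2 * b 2 0
    ring1
  · show b 2 1 * b 0 0 = b 2 0 * b 0 1
    linear_combination m12
  · show b 2 1 * b 0 1 = b 2 1 * b 0 1
    ring1
  · show b 2 1 * b 0 2 = b 2 2 * b 0 1
    linear_combination -m10
  · show b 2 1 * b 1 0 = b 2 0 * b 1 1
    linear_combination m02
  · show b 2 1 * b 1 1 = b 2 1 * b 1 1
    ring1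
  · show b 2 1 * b 1 2 = b 2 2 * b 1 1
    linear_combination -m00
  · show b 2 1 * b 2 0 = b 2 0 * b 2 1
    ring1
  · show b 2 1 * b 2 1 = b 2 1 * b 2 1
    ring1
  · show b 2 1 * b 2 2 = b 2 2 * b 2 1
    ring1
  · show b 2 2 * b 0 0 = b 2 0 * b 0 2
    linear_combination m11
  · show b 2 2 * b 0 1 = b 2 1 * b 0 2
    linear_combination m10
  · show b 2 2 * b 0 2 = b 2 2 * b 0 2
    ring1
  · show b 2 2 * b 1 0 = b 2 0 * b 1 2
    linear_combination m01
  · show b 2 2 * b 1 1 = b 2 1 * b 1 2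
    linear_combination m00
  · show b 2 2 * b 1 2 = b 2 2 * b 1 2
    ring1
  · show b 2 2 * b 2 0 = b 2 0 * b 2 2
    ring1
  · show b 2 2 * b 2 1 = b 2 1 * b 2 2
    ring1
  · show b 2 2 * b 2 2 = b 2 2 * b 2 2
    ring1

/-- A linear form is `∑ a_j X_j`. -/
theorem linear_form {f : R3} (h : f.IsHomogeneous 1) :
    ∃ a : Fin 3 → ℂ, f = C (a 0) * X 0 + C (a 1) * X 1 + C (a 2) * X 2 := by
  have hE := euler3 h
  have hc : ∀ i, ∃ c : ℂ, pderiv i f = C c := by
    intro i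
    have h1 : (pderiv i f).IsHomogeneous 0 := h.pderiv
    refine ⟨coeff 0 (pderiv i f), ?_⟩
    rw [← totalDegree_zero_iff_isHomogeneous] at h1
    exact totalDegree_eq_zero_iff_eq_C.mp h1
  choose a ha using hc
  refine ⟨a, ?_⟩
  rw [ha 0, ha 1, ha 2] at hE
  simp only [Nat.cast_one, one_mul] at hE
  rw [← hE]; ring

theorem const_form {f : R3} (h : f.IsHomogeneous 0) : ∃ a : ℂ, f = C a := by
  refine ⟨coeff 0 f, ?_⟩
  rw [← totalDegree_zero_iff_isHomogeneous] at h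
  exact totalDegree_eq_zero_iff_eq_C.mp h

/-- An eigenvector. -/
theorem exists_eig (U : Fin 3 → Fin 3 → ℂ) :
    ∃ p : Fin 3 → ℂ, p ≠ 0 ∧ ∃ c : ℂ, ∀ i, U i 0 * p 0 + U i 1 * p 1 + U i 2 * p 2 = c * p i := by
  obtain ⟨c, hc⟩ := Module.End.exists_eigenvalue (Matrix.toLin' (Matrix.of U))
  obtain ⟨p, hp⟩ := hc.exists_hasEigenvector
  refine ⟨p, hp.2, c, fun i => ?_⟩
  have h1 := congrFun hp.apply_eq_smul i
  simpa [Matrix.toLin'_apply, Matrix.mulVec, dotProduct, Fin.sum_univ_three] using h1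

/-- A nonzero vector of forms of degree at most two orthogonal to `x` has a zero. -/
theorem exists_zero_vec {μ : Fin 3 → R3} {k : ℕ} (hk : k ≤ 2) (hμ : ∀ i, (μ i).IsHomogeneous k)
    (h0 : ∃ i, μ i ≠ 0) (hx : X 0 * μ 0 + X 1 * μ 1 + X 2 * μ 2 = 0) :
    ∃ p : Fin 3 → ℂ, p ≠ 0 ∧ ∀ i, eval p (μ i) = 0 := by
  have hk3 : k = 0 ∨ k = 1 ∨ k = 2 := by omega
  rcases hk3 with rfl | rfl | rfl
  · exfalso
    obtain ⟨i, hi⟩ := h0
    choose a ha using fun i => const_form (hμ i)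
    rw [ha 0, ha 1, ha 2] at hx
    apply hi
    rw [ha i]
    have h1 := congrArg (eval (Pi.single i (1 : ℂ))) hx
    fin_cases i
    · simp at h1; simp [h1]
    · simp at h1; simp [h1]
    · simp at h1; simp [h1]
  · obtain ⟨u, hu, hw⟩ := koszul2 hμ hx
    choose a ha using fun i => const_form (hu i)
    refine ⟨a, ?_, ?_⟩
    · rintro rfl
      obtain ⟨i, hi⟩ := h0
      apply hi
      rw [hw i, cross_apply, ha 0, ha 1, ha 2]
      fin_cases i <;> simp
    · intro i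
      rw [hw i, cross_apply, ha 0, ha 1, ha 2]
      fin_cases i
      · simp [xv]; ring
      · simp [xv]; ring
      · simp [xv]; ring
  · obtain ⟨u, hu, hw⟩ := koszul2 hμ hx
    choose a ha using fun i => linear_form (hu i)
    obtain ⟨p, hp, c, hc⟩ := exists_eig a
    refine ⟨p, hp, fun i => ?_⟩
    have e : ∀ i, eval p (u i) = c * p i := by
      intro i
      rw [ha i, ← hc i]
      simp
    rw [hw i, cross_apply]
    fin_cases i
    · simp [xv, e]; ring
    · simp [xv, e]; ring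
    · simp [xv, e]; ring

theorem exists_cross {p η : Fin 3 → ℂ} (hp : p ≠ 0) (hη : η ⬝ᵥ p = 0) :
    ∃ ζ : Fin 3 → ℂ, crossProduct ζ p = η := by
  obtain ⟨k, hk⟩ : ∃ i, p i ≠ 0 := by
    by_contra hcon
    push Not at hcon
    exact hp (funext hcon)
  rw [dotProduct, Fin.sum_univ_three] at hη
  fin_cases k
  · refine ⟨![0, -η 2 / p 0, η 1 / p 0], ?_⟩
    simp at hk
    rw [cross_apply]
    funext i
    fin_cases i
    · simp; field_simp; linear_combination -hη
    · simp; field_simp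
    · simp; field_simp
  · refine ⟨![η 2 / p 1, 0, -η 0 / p 1], ?_⟩
    simp at hk
    rw [cross_apply]
    funext i
    fin_cases i
    · simp; field_simp
    · simp; field_simp; linear_combination -hη
    · simp; field_simp
  · refine ⟨![-η 1 / p 2, η 0 / p 2, 0], ?_⟩
    simp at hk
    rw [cross_apply]
    funext i
    fin_cases i
    · simp; field_simp
    · simp; field_simp
    · simp; field_simp; linear_combination -hη

/-- A square discriminant forces a zero. -/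
theorem exists_zero_of_square {G : Matrix (Fin 3) (Fin 3) R3} (hs : G.IsSymm)
    (hG : ∀ i j, (G i j).IsHomogeneous 2) (hD0 : disc G ≠ 0) {t : R3}
    (hD : disc G = -(t ^ 2)) : ∃ p : Fin 3 → ℂ, p ≠ 0 ∧ ZeroAt G p := by
  have ht0 : t ≠ 0 := by
    rintro rfl
    exact hD0 (by rw [hD]; ring)
  have hth : t.IsHomogeneous 3 := by
    have h1 := disc_homog hs hG
    rw [hD] at h1
    have h2 : (t * t).IsHomogeneous 6 := by
      have := h1.neg
      rwa [neg_neg, pow_two] at this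
    obtain ⟨k, l, hk, hl, hkl⟩ := homog_of_mul h2 ht0 ht0
    have := hk.inj_right hl ht0
    have h3 : k = 3 := by omega
    exact h3 ▸ hk
  have hex := disc_explicit hs
  rw [hD] at hex
  set N00 : R3 := G 1 1 * X 2 ^ 2 - 2 * G 1 2 * X 1 * X 2 + G 2 2 * X 1 ^ 2 with hN00
  set N11 : R3 := G 0 0 * X 2 ^ 2 - 2 * G 0 2 * X 0 * X 2 + G 2 2 * X 0 ^ 2 with hN11
  set N22 : R3 := G 0 0 * X 1 ^ 2 - 2 * G 0 1 * X 0 * X 1 + G 1 1 * X 0 ^ 2 with hN22
  set N01 : R3 := -(G 0 1 * X 2 ^ 2) + G 1 2 * X 0 * X 2 + G 0 2 * X 1 * X 2 - G 2 2 * X 0 * X 1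
    with hN01
  set N02 : R3 := G 0 1 * X 1 * X 2 - G 1 1 * X 0 * X 2 - G 0 2 * X 1 ^ 2 + G 1 2 * X 0 * X 1
    with hN02
  set N12 : R3 := -(G 0 0 * X 1 * X 2) + G 0 1 * X 0 * X 2 + G 0 2 * X 0 * X 1 - G 1 2 * X 0 ^ 2
    with hN12
  set B : Fin 3 → Fin 3 → R3 := ![![N00, N01 - t * X 2, N02 + t * X 1],
    ![N01 + t * X 2, N11, N12 - t * X 0], ![N02 - t * X 1, N12 + t * X 0, N22]] with hB
  -- the nine minors
  have m00 : N11 * N22 = (N12 - t * X 0) * (N12 + t * X 0) := by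
    rw [hN11, hN22, hN12]; linear_combination -X 0 ^ 2 * hex
  have m11 : N00 * N22 = (N02 + t * X 1) * (N02 - t * X 1) := by
    rw [hN00, hN22, hN02]; linear_combination -X 1 ^ 2 * hex
  have m22 : N00 * N11 = (N01 - t * X 2) * (N01 + t * X 2) := by
    rw [hN00, hN11, hN01]; linear_combination -X 2 ^ 2 * hex
  have m21 : N00 * (N12 - t * X 0) = (N02 + t * X 1) * (N01 + t * X 2) := by
    rw [hN00, hN12, hN02, hN01]; linear_combination X 1 * X 2 * hex
  have m12 : N00 * (N12 + t * X 0) = (N01 - t * X 2) * (N02 - t * X 1) := by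
    rw [hN00, hN12, hN02, hN01]; linear_combination X 1 * X 2 * hex
  have m20 : (N01 - t * X 2) * (N12 - t * X 0) = (N02 + t * X 1) * N11 := by
    rw [hN11, hN12, hN02, hN01]; linear_combination -X 0 * X 2 * hex
  have m02 : (N01 + t * X 2) * (N12 + t * X 0) = N11 * (N02 - t * X 1) := by
    rw [hN11, hN12, hN02, hN01]; linear_combination -X 0 * X 2 * hex
  have m10 : (N01 - t * X 2) * N22 = (N02 + t * X 1) * (N12 + t * X 0) := by
    rw [hN22, hN12, hN02, hN01]; linear_combination X 0 * X 1 * hex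
  have m01 : (N01 + t * X 2) * N22 = (N12 - t * X 0) * (N02 - t * X 1) := by
    rw [hN22, hN12, hN02, hN01]; linear_combination X 0 * X 1 * hex
  have hrank : ∀ i j k l, B i j * B k l = B i l * B k j :=
    rank_of_minors m22 m21 m20 m12 m11 m10 m02 m01 m00
  have hne : ∃ i j, B i j ≠ 0 := by
    by_contra hcon
    push Not at hcon
    have h1 := hcon 0 1
    have h2 := hcon 1 0
    simp [hB] at h1 h2
    have : t * X 2 = 0 := by
      refine mul_left_cancel₀ (two_ne_zero : (2 : R3) ≠ 0) ?_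
      linear_combination h2 - h1
    exact (mul_ne_zero ht0 (X_ne_zero 2)) this
  have hX := fun i : Fin 3 => isHomogeneous_X ℂ i
  have two : ∀ {p : R3} {n : ℕ}, p.IsHomogeneous n → (2 * p).IsHomogeneous n := by
    intro p n hp
    have : (2 : R3) * p = p + p := by ring
    rw [this]
    exact hp.add hp
  have g11 : ∀ (a b : Fin 3) (q : R3), q.IsHomogeneous 2 →
      (q * X a * X b).IsHomogeneous 4 := fun a b q hq => (hq.mul (hX a)).mul (hX b)
  have g2 : ∀ (a : Fin 3) (q : R3), q.IsHomogeneous 2 →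
      (q * X a ^ 2).IsHomogeneous 4 := fun a q hq => hq.mul ((hX a).pow 2)
  have hBh : ∀ i j, (B i j).IsHomogeneous 4 := by
    have htx : ∀ a, (t * X a).IsHomogeneous 4 := fun a => hth.mul (hX a)
    have k00 : N00.IsHomogeneous 4 :=
      ((g2 _ _ (hG 1 1)).sub (g11 _ _ _ (two (hG 1 2)))).add (g2 _ _ (hG 2 2))
    have k11 : N11.IsHomogeneous 4 :=
      ((g2 _ _ (hG 0 0)).sub (g11 _ _ _ (two (hG 0 2)))).add (g2 _ _ (hG 2 2))
    have k22 : N22.IsHomogeneous 4 :=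
      ((g2 _ _ (hG 0 0)).sub (g11 _ _ _ (two (hG 0 1)))).add (g2 _ _ (hG 1 1))
    have k01 : N01.IsHomogeneous 4 :=
      (((g2 _ _ (hG 0 1)).neg.add (g11 _ _ _ (hG 1 2))).add (g11 _ _ _ (hG 0 2))).sub
        (g11 _ _ _ (hG 2 2))
    have k02 : N02.IsHomogeneous 4 :=
      (((g11 _ _ _ (hG 0 1)).sub (g11 _ _ _ (hG 1 1))).sub (g2 _ _ (hG 0 2))).add
        (g11 _ _ _ (hG 1 2))
    have k12 : N12.IsHomogeneous 4 :=
      (((g11 _ _ _ (hG 0 0)).neg.add (g11 _ _ _ (hG 0 1))).add (g11 _ _ _ (hG 0 2))).sub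
        (g2 _ _ (hG 1 2))
    intro i j
    fin_cases i <;> fin_cases j <;> simp only [hB]
    · exact k00
    · exact k01.sub (htx 2)
    · exact k02.add (htx 1)
    · exact k01.add (htx 2)
    · exact k11
    · exact k12.sub (htx 0)
    · exact k02.sub (htx 1)
    · exact k12.add (htx 0)
    · exact k22
  obtain ⟨μ, ν, hμν⟩ := rank_one hrank hne
  -- it suffices to find a zero of all entries of B
  have suff : ∀ p : Fin 3 → ℂ, p ≠ 0 → (∀ i j, eval p (B i j) = 0) → ZeroAt G p := by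
    intro p hp hz ξ η hξ hη
    obtain ⟨ζ, rfl⟩ := exists_cross hp hξ
    obtain ⟨ω, rfl⟩ := exists_cross hp hη
    have z00 := hz 0 0
    have z01 := hz 0 1
    have z02 := hz 0 2
    have z10 := hz 1 0
    have z11 := hz 1 1
    have z12 := hz 1 2
    have z20 := hz 2 0
    have z21 := hz 2 1
    have z22 := hz 2 2
    have h01 : G 1 0 = G 0 1 := hs.apply 0 1
    have h02 : G 2 0 = G 0 2 := hs.apply 0 2
    have h12 : G 2 1 = G 1 2 := hs.apply 1 2
    simp [hB, hN00, hN11, hN22, hN01, hN02, hN12] at z00 z01 z02 z10 z11 z12 z20 z21 z22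
    simp only [dotProduct, Matrix.mulVec, Matrix.map_apply, Fin.sum_univ_three, cross_apply,
      Matrix.cons_val_zero, Matrix.cons_val_one, Matrix.cons_val_two, Matrix.head_cons,
      Matrix.tail_cons, h01, h02, h12]
    linear_combination ζ 0 * ω 0 * z00 + ζ 1 * ω 1 * z11 + ζ 2 * ω 2 * z22
      + (ζ 0 * ω 1 + ζ 1 * ω 0) / 2 * (z01 + z10) + (ζ 0 * ω 2 + ζ 2 * ω 0) / 2 * (z02 + z20)
      + (ζ 1 * ω 2 + ζ 2 * ω 1) / 2 * (z12 + z21)
  obtain ⟨i0, j0, hij⟩ := hne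
  have hμ0 : μ i0 ≠ 0 := by
    intro h; exact hij (by rw [hμν, h, zero_mul])
  have hν0 : ν j0 ≠ 0 := by
    intro h; exact hij (by rw [hμν, h, mul_zero])
  obtain ⟨a, b, ha, hb, hab⟩ := homog_of_mul (hμν i0 j0 ▸ hBh i0 j0) hμ0 hν0
  have hμh : ∀ i, (μ i).IsHomogeneous a := by
    intro i
    by_cases h : μ i = 0
    · rw [h]; exact isHomogeneous_zero _ _ _
    · obtain ⟨a', b', ha', hb', hab'⟩ := homog_of_mul (hμν i j0 ▸ hBh i j0) h hν0
      have := hb'.inj_right hb hν0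
      have h3 : a' = a := by omega
      exact h3 ▸ ha'
  have hνh : ∀ j, (ν j).IsHomogeneous b := by
    intro j
    by_cases h : ν j = 0
    · rw [h]; exact isHomogeneous_zero _ _ _
    · obtain ⟨a', b', ha', hb', hab'⟩ := homog_of_mul (hμν i0 j ▸ hBh i0 j) hμ0 h
      have := ha'.inj_right ha hμ0
      have h3 : b' = b := by omega
      exact h3 ▸ hb'
  have hxB : ∀ j, X 0 * B 0 j + X 1 * B 1 j + X 2 * B 2 j = 0 := by
    intro j
    fin_cases j <;> simp [hB, hN00, hN11, hN22, hN01, hN02, hN12] <;> ring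
  have hBx : ∀ i, X 0 * B i 0 + X 1 * B i 1 + X 2 * B i 2 = 0 := by
    intro i
    fin_cases i <;> simp [hB, hN00, hN11, hN22, hN01, hN02, hN12] <;> ring
  by_cases ha2 : a ≤ 2
  · obtain ⟨p, hp, hz⟩ := exists_zero_vec ha2 hμh ⟨i0, hμ0⟩ (by
      refine mul_left_cancel₀ hν0 ?_
      have := hxB j0
      rw [hμν, hμν, hμν] at this
      linear_combination this)
    exact ⟨p, hp, suff p hp fun i j => by rw [hμν, map_mul, hz, zero_mul]⟩
  · obtain ⟨p, hp, hz⟩ := exists_zero_vec (by omega : b ≤ 2) hνh ⟨j0, hν0⟩ (by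
      refine mul_left_cancel₀ hμ0 ?_
      have := hBx i0
      rw [hμν, hμν, hμν] at this
      linear_combination this)
    exact ⟨p, hp, suff p hp fun i j => by rw [hμν, map_mul, hz, mul_zero]⟩

end FM67
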