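import Pool.Agent.H67.FM.Base

/-!
# The members of the ten families satisfy the reduced system
-/

noncomputable section

set_option linter.unusedSimpArgs false

namespace Pool.Agent.H38.FM

open FM67 Matrix

theorem sys_fM1 (b0 b1 b2 w a0 a1 a2 c0 c1 : ℂ) :
    Sys (fM1 b0 b1 b2 w a0 a1 a2 c0 c1) ⟨0, b1 - c0, 0, 0, 0, 2 * b2 - c1, 0, 0⟩ := by
  intro x y
  refine ⟨?_, ?_, ?_⟩ <;>
    simp only [E1, E2, FF, S1, S2, S1y, S2x, Par.D, Par.Dx, Par.Dy, Par.a, Par.b, Par.c, Par.ax, Par.ay,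
      Par.bx, Par.bY, Par.cx, Par.cy, Par.U, Par.V, Par.Q, Par.Ux, Par.Uy, Par.Vx, Par.Vy, Par.Qx,
      Par.Qy, fM1, zeroPar] <;> ring

theorem sys_fSEP (f0 f1 f2 g0 g1 g2 : ℂ) :
    Sys (fSEP f0 f1 f2 g0 g1 g2) ⟨0, 0, 0, 0, 0, 0, 0, 0⟩ := by
  intro x y
  refine ⟨?_, ?_, ?_⟩ <;>
    simp only [E1, E2, FF, S1, S2, S1y, S2x, Par.D, Par.Dx, Par.Dy, Par.a, Par.b, Par.c, Par.ax, Par.ay,
      Par.bx, Par.bY, Par.cx, Par.cy, Par.U, Par.V, Par.Q, Par.Ux, Par.Uy, Par.Vx, Par.Vy, Par.Qx,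
      Par.Qy, fSEP, zeroPar] <;> ring

theorem sys_fTOR (al be ga : ℂ) :
    Sys (fTOR al be ga) ⟨0, 0, 0, -be, be, 0, 0, 0⟩ := by
  intro x y
  refine ⟨?_, ?_, ?_⟩ <;>
    simp only [E1, E2, FF, S1, S2, S1y, S2x, Par.D, Par.Dx, Par.Dy, Par.a, Par.b, Par.c, Par.ax, Par.ay,
      Par.bx, Par.bY, Par.cx, Par.cy, Par.U, Par.V, Par.Q, Par.Ux, Par.Uy, Par.Vx, Par.Vy, Par.Qx,
      Par.Qy, fTOR, zeroPar] <;> ring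

theorem sys_fTU (al be ga : ℂ) :
    Sys (fTU al be ga) ⟨-be, 0, 0, 0, 0, 0, 0, 0⟩ := by
  intro x y
  refine ⟨?_, ?_, ?_⟩ <;>
    simp only [E1, E2, FF, S1, S2, S1y, S2x, Par.D, Par.Dx, Par.Dy, Par.a, Par.b, Par.c, Par.ax, Par.ay,
      Par.bx, Par.bY, Par.cx, Par.cy, Par.U, Par.V, Par.Q, Par.Ux, Par.Uy, Par.Vx, Par.Vy, Par.Qx,
      Par.Qy, fTU, zeroPar] <;> ring

theorem sys_fU2 (ga : ℂ) :
    Sys (fU2 ga) ⟨1, 0, 0, 0, 0, 0, 0, 0⟩ := by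
  intro x y
  refine ⟨?_, ?_, ?_⟩ <;>
    simp only [E1, E2, FF, S1, S2, S1y, S2x, Par.D, Par.Dx, Par.Dy, Par.a, Par.b, Par.c, Par.ax, Par.ay,
      Par.bx, Par.bY, Par.cx, Par.cy, Par.U, Par.V, Par.Q, Par.Ux, Par.Uy, Par.Vx, Par.Vy, Par.Qx,
      Par.Qy, fU2, zeroPar] <;> ring

theorem sys_fS2 (al be : ℂ) :
    Sys (fS2 al be) ⟨0, 0, 0, -al + be, al - be, 0, 0, 0⟩ := by
  intro x y
  refine ⟨?_, ?_, ?_⟩ <;>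
    simp only [E1, E2, FF, S1, S2, S1y, S2x, Par.D, Par.Dx, Par.Dy, Par.a, Par.b, Par.c, Par.ax, Par.ay,
      Par.bx, Par.bY, Par.cx, Par.cy, Par.U, Par.V, Par.Q, Par.Ux, Par.Uy, Par.Vx, Par.Vy, Par.Qx,
      Par.Qy, fS2, zeroPar] <;> ring

theorem sys_fBC (p0 p1 p2 p3 p4 : ℂ) :
    Sys (fBC p0 p1 p2 p3 p4) ⟨p0, p1, 0, -p2, p2, -p3, -1 / 2 * p3, 0⟩ := by
  intro x y
  refine ⟨?_, ?_, ?_⟩ <;>
    simp only [E1, E2, FF, S1, S2, S1y, S2x, Par.D, Par.Dx, Par.Dy, Par.a, Par.b, Par.c, Par.ax, Par.ay,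
      Par.bx, Par.bY, Par.cx, Par.cy, Par.U, Par.V, Par.Q, Par.Ux, Par.Uy, Par.Vx, Par.Vy, Par.Qx,
      Par.Qy, fBC, zeroPar] <;> ring

theorem sys_fF8 (m : ℂ) :
    Sys (fF8 m) ⟨m, 0, 0, 0, 0, 0, 0, 0⟩ := by
  intro x y
  refine ⟨?_, ?_, ?_⟩ <;>
    simp only [E1, E2, FF, S1, S2, S1y, S2x, Par.D, Par.Dx, Par.Dy, Par.a, Par.b, Par.c, Par.ax, Par.ay,
      Par.bx, Par.bY, Par.cx, Par.cy, Par.U, Par.V, Par.Q, Par.Ux, Par.Uy, Par.Vx, Par.Vy, Par.Qx,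
      Par.Qy, fF8, zeroPar] <;> ring

theorem sys_fA2 (A U : ℂ) :
    Sys (fA2 A U) ⟨0, 1 / 2, 0, 0, 0, 0, A, 0⟩ := by
  intro x y
  refine ⟨?_, ?_, ?_⟩ <;>
    simp only [E1, E2, FF, S1, S2, S1y, S2x, Par.D, Par.Dx, Par.Dy, Par.a, Par.b, Par.c, Par.ax, Par.ay,
      Par.bx, Par.bY, Par.cx, Par.cy, Par.U, Par.V, Par.Q, Par.Ux, Par.Uy, Par.Vx, Par.Vy, Par.Qx,
      Par.Qy, fA2, zeroPar] <;> ring

theorem sys_fRS (ep : ℂ) :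
    Sys (fRS ep) ⟨0, 0, -1 / 2, 0, 0, 0, 0, 0⟩ := by
  intro x y
  refine ⟨?_, ?_, ?_⟩ <;>
    simp only [E1, E2, FF, S1, S2, S1y, S2x, Par.D, Par.Dx, Par.Dy, Par.a, Par.b, Par.c, Par.ax, Par.ay,
      Par.bx, Par.bY, Par.cx, Par.cy, Par.U, Par.V, Par.Q, Par.Ux, Par.Uy, Par.Vx, Par.Vy, Par.Qx,
      Par.Qy, fRS, zeroPar] <;> ring

/-- Every member of the list satisfies the reduced system. -/
theorem nf_sys {q : Par} (h : NF q) : ∃ s, Sys q s := by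
  cases h with
  | m1 b0 b1 b2 w a0 a1 a2 c0 c1 => exact ⟨_, sys_fM1 b0 b1 b2 w a0 a1 a2 c0 c1⟩
  | sep f0 f1 f2 g0 g1 g2 => exact ⟨_, sys_fSEP f0 f1 f2 g0 g1 g2⟩
  | tor al be ga => exact ⟨_, sys_fTOR al be ga⟩
  | tu al be ga => exact ⟨_, sys_fTU al be ga⟩
  | u2 ga => exact ⟨_, sys_fU2 ga⟩
  | s2 al be => exact ⟨_, sys_fS2 al be⟩
  | bc p0 p1 p2 p3 p4 => exact ⟨_, sys_fBC p0 p1 p2 p3 p4⟩
  | f8 m => exact ⟨_, sys_fF8 m⟩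
  | a2 A U => exact ⟨_, sys_fA2 A U⟩
  | rs ep => exact ⟨_, sys_fRS ep⟩

/-- Every nondegenerate member of the list is flat. -/
theorem nf_flat {q : Par} (h : NF q) (hq : q.Nondeg) : FlatP q := by
  obtain ⟨s, hs⟩ := nf_sys h
  exact flat_of_sys hq hs

end Pool.Agent.H38.FM
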