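import Pool.Agent.H67.FM.QTypes
import Pool.Agent.H38.FM.Facts
import Pool.Agent.H38.FM.TreeG2a
import Pool.Agent.H38.FM.TreeG2b
import Pool.Agent.H38.FM.TreeG2c
import Pool.Agent.H38.FM.TreeG2d

/-!
# Zeros with vanishing linear part: preparations
-/

noncomputable section

set_option linter.unusedSimpArgs false

namespace Pool.Agent.H38.FM

open FM67 Matrix

/-- Vanishing linear part and given quadratic coefficients. -/
def T3Q (p : Par) (a20 a11 a02 b20 b11 b02 c20 c11 c02 : ℂ) : Prop :=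
  Lin p 0 0 0 0 0 0 ∧ p.a20 = a20 ∧ p.a11 = a11 ∧ p.a02 = a02 ∧ p.b20 = b20 ∧ p.b11 = b11 ∧
    p.b02 = b02 ∧ p.c20 = c20 ∧ p.c11 = c11 ∧ p.c02 = c02

theorem T3Q.congr {p : Par} {a20 a11 a02 b20 b11 b02 c20 c11 c02 : ℂ}
    {a20' a11' a02' b20' b11' b02' c20' c11' c02' : ℂ}
    (h : T3Q p a20 a11 a02 b20 b11 b02 c20 c11 c02)
    (h1 : a20 = a20') (h2 : a11 = a11') (h3 : a02 = a02') (h4 : b20 = b20') (h5 : b11 = b11')
    (h6 : b02 = b02') (h7 : c20 = c20') (h8 : c11 = c11') (h9 : c02 = c02') :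
    T3Q p a20' a11' a02' b20' b11' b02' c20' c11' c02' := by
  subst h1; subst h2; subst h3; subst h4; subst h5; subst h6; subst h7; subst h8; subst h9
  exact h

theorem Ex.quad {p q : Par} {R : Par → Prop} (hr : Rel p q) (hb : Base q)
    {a20 a11 a02 b20 b11 b02 c20 c11 c02 : ℂ}
    (hl : T3Q q a20 a11 a02 b20 b11 b02 c20 c11 c02)
    (H : ∀ q', Base q' → T3Q q' a20 a11 a02 b20 b11 b02 c20 c11 c02 → Ex q' R) : Ex p R := by
  obtain ⟨r, hqr, hr', hR⟩ := H q hb hl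
  exact ⟨r, hr.trans hqr, hr', hR⟩

theorem quad_swp {p : Par} {a20 a11 a02 b20 b11 b02 c20 c11 c02 : ℂ}
    (h : T3Q p a20 a11 a02 b20 b11 b02 c20 c11 c02) :
    T3Q (swp p) c02 c11 c20 b02 b11 b20 a02 a11 a20 := by
  obtain ⟨hl, h1, h2, h3, h4, h5, h6, h7, h8, h9⟩ := h
  exact ⟨lin_swp hl, h9, h8, h7, h6, h5, h4, h3, h2, h1⟩

theorem quad_shear {p : Par} {a20 a11 a02 b20 b11 b02 c20 c11 c02 : ℂ}
    (h : T3Q p a20 a11 a02 b20 b11 b02 c20 c11 c02) (ka : ℂ) :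
    T3Q (shear ka p) (ka ^ 2 * c20 + 2 * ka * b20 + a20)
      (-2 * ka ^ 3 * c20 - 4 * ka ^ 2 * b20 + ka ^ 2 * c11 - 2 * ka * a20 + 2 * ka * b11 + a11)
      (ka ^ 4 * c20 + 2 * ka ^ 3 * b20 - ka ^ 3 * c11 + ka ^ 2 * a20 - 2 * ka ^ 2 * b11
        + ka ^ 2 * c02 - ka * a11 + 2 * ka * b02 + a02)
      (ka * c20 + b20)
      (-2 * ka ^ 2 * c20 - 2 * ka * b20 + ka * c11 + b11)
      (ka ^ 3 * c20 + ka ^ 2 * b20 - ka ^ 2 * c11 - ka * b11 + ka * c02 + b02)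
      c20 (-2 * ka * c20 + c11) (ka ^ 2 * c20 - ka * c11 + c02) := by
  obtain ⟨hl, h1, h2, h3, h4, h5, h6, h7, h8, h9⟩ := h
  refine ⟨(lin_shear hl ka).congr (by ring) (by ring) (by ring) (by ring) (by ring) (by ring),
    ?_, ?_, ?_, ?_, ?_, ?_, ?_, ?_, ?_⟩ <;>
    simp only [shear, h1, h2, h3, h4, h5, h6, h7, h8, h9]

/-- The quartic discriminant form. -/
def D4 (p : Par) (x y : ℂ) : ℂ :=
  (p.a20 * x ^ 2 + p.a11 * x * y + p.a02 * y ^ 2) * (p.c20 * x ^ 2 + p.c11 * x * y + p.c02 * y ^ 2)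
    - (p.b20 * x ^ 2 + p.b11 * x * y + p.b02 * y ^ 2) ^ 2

/-- Nonvanishing of the quartic form. -/
def ND (p : Par) : Prop := ∃ x y, D4 p x y ≠ 0

theorem ND.swp {p : Par} (h : ND p) : ND (swp p) := by
  obtain ⟨x, y, h⟩ := h
  refine ⟨y, x, ?_⟩
  have : D4 (FM.swp p) y x = D4 p x y := by simp only [D4, FM.swp]; ring
  rw [this]; exact h

theorem ND.shear {p : Par} (h : ND p) (ka : ℂ) : ND (shear ka p) := by
  obtain ⟨x, y, h⟩ := h
  refine ⟨x + ka * y, y, ?_⟩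
  have : D4 (FM.shear ka p) (x + ka * y) y = D4 p x y := by simp only [D4, FM.shear]; ring
  rw [this]; exact h

theorem ND.sheary {p : Par} (h : ND p) (ka : ℂ) : ND (sheary ka p) := ((h.swp).shear ka).swp

theorem quartic_root (a b c d e : ℂ) (ha : a ≠ 0) :
    ∃ t : ℂ, a * t ^ 4 + b * t ^ 3 + c * t ^ 2 + d * t + e = 0 := by
  set f : Polynomial ℂ := Polynomial.C a * Polynomial.X ^ 4 + Polynomial.C b * Polynomial.X ^ 3
    + Polynomial.C c * Polynomial.X ^ 2 + Polynomial.C d * Polynomial.X + Polynomial.C e with hf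
  have hev : ∀ t, f.eval t = a * t ^ 4 + b * t ^ 3 + c * t ^ 2 + d * t + e := by
    intro t
    simp [hf]
  have hdeg : f.degree ≠ 0 := by
    intro h0
    have hc := Polynomial.eq_C_of_degree_eq_zero h0
    have hcst : ∀ t, f.eval t = f.coeff 0 := by
      intro t
      rw [hc]
      simp
    have e0 := (hev 0).symm.trans (hcst 0)
    have e1 := (hev 1).symm.trans (hcst 1)
    have e2 := (hev (-1)).symm.trans (hcst (-1))
    have e3 := (hev 2).symm.trans (hcst 2)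
    have e4 := (hev (-2)).symm.trans (hcst (-2))
    apply ha
    linear_combination (e3 + e4 - 4 * e1 - 4 * e2 + 6 * e0) / 24
  obtain ⟨t, ht⟩ := IsAlgClosed.exists_root f hdeg
  exact ⟨t, by rw [← hev]; exact ht⟩

/-- Order two facts. -/
theorem t3_order2 {p : Par} {s : SPar} (F : Facts p s) {a20 a11 a02 b20 b11 b02 c20 c11 c02 : ℂ}
    (h : T3Q p a20 a11 a02 b20 b11 b02 c20 c11 c02) :
    a20 * s.s1 + b20 * s.s2 = 0 ∧ a11 * s.s1 + b11 * s.s2 = 0 ∧ a02 * s.s1 + b02 * s.s2 = 0 ∧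
    b20 * s.s1 + c20 * s.s2 = 0 ∧ b11 * s.s1 + c11 * s.s2 = 0 ∧ b02 * s.s1 + c02 * s.s2 = 0 := by
  obtain ⟨⟨l1, l2, l3, l4, l5, l6⟩, h1, h2, h3, h4, h5, h6, h7, h8, h9⟩ := h
  have k1 := F.e1_2_0
  have k2 := F.e1_1_1
  have k3 := F.e1_0_2
  have k4 := F.e2_2_0
  have k5 := F.e2_1_1
  have k6 := F.e2_0_2
  simp only [ce1_2_0, ce1_1_1, ce1_0_2, ce2_2_0, ce2_1_1, ce2_0_2, l1, l2, l3, l4, l5, l6,
    h1, h2, h3, h4, h5, h6, h7, h8, h9] at k1 k2 k3 k4 k5 k6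
  refine ⟨?_, ?_, ?_, ?_, ?_, ?_⟩
  · linear_combination k1
  · linear_combination k2
  · linear_combination k3
  · linear_combination k4
  · linear_combination k5
  · linear_combination k6

theorem t3_s0 {p : Par} {s : SPar} (F : Facts p s) (hl : Lin p 0 0 0 0 0 0) (hD : ND p) :
    s.s1 = 0 ∧ s.s2 = 0 := by
  obtain ⟨k1, k2, k3, k4, k5, k6⟩ := t3_order2 F ⟨hl, rfl, rfl, rfl, rfl, rfl, rfl, rfl, rfl, rfl⟩
  obtain ⟨x, y, hD⟩ := hD
  have e1 : D4 p x y * s.s1 = 0 := by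
    simp only [D4]
    linear_combination (p.c20 * x ^ 2 + p.c11 * x * y + p.c02 * y ^ 2)
      * (x ^ 2 * k1 + x * y * k2 + y ^ 2 * k3)
      - (p.b20 * x ^ 2 + p.b11 * x * y + p.b02 * y ^ 2) * (x ^ 2 * k4 + x * y * k5 + y ^ 2 * k6)
  have e2 : D4 p x y * s.s2 = 0 := by
    simp only [D4]
    linear_combination (p.a20 * x ^ 2 + p.a11 * x * y + p.a02 * y ^ 2)
      * (x ^ 2 * k4 + x * y * k5 + y ^ 2 * k6)
      - (p.b20 * x ^ 2 + p.b11 * x * y + p.b02 * y ^ 2) * (x ^ 2 * k1 + x * y * k2 + y ^ 2 * k3)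
  exact ⟨(mul_eq_zero.mp e1).resolve_left hD, (mul_eq_zero.mp e2).resolve_left hD⟩

end Pool.Agent.H38.FM
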