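import Pool.Agent.H67.FM.T3A

/-!
# Zeros with vanishing linear part: the tangency argument
-/

noncomputable section

set_option linter.unusedSimpArgs false

namespace Pool.Agent.H38.FM

open FM67 Matrix

/-- Coefficient of the quartic form. -/
def dd0 (p : Par) : ℂ := p.a20 * p.c20 - p.b20 ^ 2
/-- Coefficient of the quartic form. -/
def dd1 (p : Par) : ℂ := p.a20 * p.c11 + p.a11 * p.c20 - 2 * p.b20 * p.b11
/-- Coefficient of the quartic form. -/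
def dd2 (p : Par) : ℂ := p.a20 * p.c02 + p.a11 * p.c11 + p.a02 * p.c20 - 2 * p.b20 * p.b02 - p.b11 ^ 2
/-- Coefficient of the quartic form. -/
def dd3 (p : Par) : ℂ := p.a11 * p.c02 + p.a02 * p.c11 - 2 * p.b11 * p.b02
/-- Coefficient of the quartic form. -/
def dd4 (p : Par) : ℂ := p.a02 * p.c02 - p.b02 ^ 2

/-- Order three facts. -/
theorem t3_order3 {p : Par} {s : SPar} (F : Facts p s) (hl : Lin p 0 0 0 0 0 0)
    (h1 : s.s1 = 0) (h2 : s.s2 = 0) :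
    (p.a20 * s.s11 + p.a11 * p.c20 - p.b20 * p.b11 + p.b20 * s.s21 = 0 ∧
    p.a20 * p.b11 + p.a20 * s.s12 - p.a11 * p.b20 + p.a11 * p.c11 + p.a11 * s.s11
      + 2 * p.a02 * p.c20 - 2 * p.b20 * p.b02 + p.b20 * s.s22 - p.b11 ^ 2 + p.b11 * s.s21 = 0 ∧
    2 * p.a20 * p.b02 + p.a11 * p.c02 + p.a11 * s.s12 - 2 * p.a02 * p.b20 + 2 * p.a02 * p.c11
      + p.a02 * s.s11 - 3 * p.b11 * p.b02 + p.b11 * s.s22 + p.b02 * s.s21 = 0 ∧
    p.a11 * p.b02 - p.a02 * p.b11 + 2 * p.a02 * p.c02 + p.a02 * s.s12 - 2 * p.b02 ^ 2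
      + p.b02 * s.s22 = 0) ∧
    ((-2 * p.a20 * p.c20 + p.b11 * p.c20 + 2 * p.b20 ^ 2 - p.b20 * p.c11 + p.b20 * s.s11 + p.c20 * s.s21 = 0) ∧ (-2 * p.a11 * p.c20 - p.a20 * p.c11 + 2 * p.b02 * p.c20 + 3 * p.b11 * p.b20 + p.b11 * s.s11 - 2 * p.b20 * p.c02 + p.b20 * s.s12 + p.c11 * s.s21 + p.c20 * s.s22 = 0) ∧ (-2 * p.a02 * p.c20 - p.a11 * p.c11 + 2 * p.b02 * p.b20 + p.b02 * p.c11 + p.b02 * s.s11 + p.b11 ^ 2 - p.b11 * p.c02 + p.b11 * s.s12 + p.c02 * s.s21 + p.c11 * s.s22 = 0) ∧ (-p.a02 * p.c11 + p.b02 * p.b11 + p.b02 * s.s12 + p.c02 * s.s22 = 0)) := by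
  obtain ⟨l1, l2, l3, l4, l5, l6⟩ := hl
  have k1 := F.e1_3_0
  have k2 := F.e1_2_1
  have k3 := F.e1_1_2
  have k4 := F.e1_0_3
  have k5 := F.e2_3_0
  have k6 := F.e2_2_1
  have k7 := F.e2_1_2
  have k8 := F.e2_0_3
  simp only [ce1_3_0, ce1_2_1, ce1_1_2, ce1_0_3, ce2_3_0, ce2_2_1, ce2_1_2, ce2_0_3,
    l1, l2, l3, l4, l5, l6, h1, h2] at k1 k2 k3 k4 k5 k6 k7 k8
  refine ⟨⟨?_, ?_, ?_, ?_⟩, ?_, ?_, ?_, ?_⟩
  · linear_combination k1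
  · linear_combination k2
  · linear_combination k3
  · linear_combination k4
  · linear_combination k5
  · linear_combination k6
  · linear_combination k7
  · linear_combination k8

theorem t3_k1 {p : Par} {s : SPar} (F : Facts p s) (hl : Lin p 0 0 0 0 0 0)
    (hs1 : s.s1 = 0) (hs2 : s.s2 = 0) (h0 : dd0 p = 0) :
    p.b20 * dd1 p = 0 ∧ p.c20 * dd1 p = 0 := by
  obtain ⟨⟨g10, g11, g12, g13⟩, g20, g21, g22, g23⟩ := t3_order3 F hl hs1 hs2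
  simp only [dd0, dd1, dd2, dd3, dd4] at *
  constructor
  · linear_combination (p.b20 * g10 + (-(p.a20) * g20) + (s.s21 + (2 * p.a20 + p.b11) + -(4 * p.a20)) * h0) / 1
  · linear_combination (p.c20 * g10 + (-(p.b20) * g20) + (-s.s11 + (2 * p.b20 + p.c11) + -(4 * p.b20)) * h0) / 1

theorem t3_k2 {p : Par} {s : SPar} (F : Facts p s) (hl : Lin p 0 0 0 0 0 0)
    (hs1 : s.s1 = 0) (hs2 : s.s2 = 0) (h0 : dd0 p = 0) (h1 : dd1 p = 0) :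
    p.b20 * dd2 p = 0 ∧ p.c20 * dd2 p = 0 := by
  obtain ⟨⟨g10, g11, g12, g13⟩, g20, g21, g22, g23⟩ := t3_order3 F hl hs1 hs2
  simp only [dd0, dd1, dd2, dd3, dd4] at *
  constructor
  · linear_combination (p.b20 * g11 + (-(p.a20) * g21) + p.b11 * g10 + (-(p.a11) * g20) + (s.s21 + (2 * p.a20 + p.b11) + -(3 * p.a20) + -(1 * p.b11)) * h1 + (s.s22 + (p.a11 + 2 * p.b02) + -(4 * p.a11)) * h0) / 2
  · linear_combination (p.c20 * g11 + (-(p.b20) * g21) + p.c11 * g10 + (-(p.b11) * g20) + (-s.s11 + (2 * p.b20 + p.c11) + -(3 * p.b20) + -(1 * p.c11)) * h1 + (-s.s12 + (p.b11 + 2 * p.c02) + -(4 * p.b11)) * h0) / 2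

theorem t3_k3 {p : Par} {s : SPar} (F : Facts p s) (hl : Lin p 0 0 0 0 0 0)
    (hs1 : s.s1 = 0) (hs2 : s.s2 = 0) (h0 : dd0 p = 0) (h1 : dd1 p = 0) (h2 : dd2 p = 0) :
    p.b20 * dd3 p = 0 ∧ p.c20 * dd3 p = 0 := by
  obtain ⟨⟨g10, g11, g12, g13⟩, g20, g21, g22, g23⟩ := t3_order3 F hl hs1 hs2
  simp only [dd0, dd1, dd2, dd3, dd4] at *
  constructor
  · linear_combination (p.b20 * g12 + (-(p.a20) * g22) + p.b11 * g11 + (-(p.a11) * g21) + p.b02 * g10 + (-(p.a02) * g20) + (s.s21 + (2 * p.a20 + p.b11) + -(2 * p.a20) + -(2 * p.b11)) * h2 + (s.s22 + (p.a11 + 2 * p.b02) + -(3 * p.a11) + -(1 * p.b02)) * h1 + (-(4 * p.a02)) * h0) / 3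
  · linear_combination (p.c20 * g12 + (-(p.b20) * g22) + p.c11 * g11 + (-(p.b11) * g21) + p.c02 * g10 + (-(p.b02) * g20) + (-s.s11 + (2 * p.b20 + p.c11) + -(2 * p.b20) + -(2 * p.c11)) * h2 + (-s.s12 + (p.b11 + 2 * p.c02) + -(3 * p.b11) + -(1 * p.c02)) * h1 + (-(4 * p.b02)) * h0) / 3

theorem t3_k4 {p : Par} {s : SPar} (F : Facts p s) (hl : Lin p 0 0 0 0 0 0)
    (hs1 : s.s1 = 0) (hs2 : s.s2 = 0) (h0 : dd0 p = 0) (h1 : dd1 p = 0) (h2 : dd2 p = 0) (h3 : dd3 p = 0) :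
    p.b20 * dd4 p = 0 ∧ p.c20 * dd4 p = 0 := by
  obtain ⟨⟨g10, g11, g12, g13⟩, g20, g21, g22, g23⟩ := t3_order3 F hl hs1 hs2
  simp only [dd0, dd1, dd2, dd3, dd4] at *
  constructor
  · linear_combination (p.b20 * g13 + (-(p.a20) * g23) + p.b11 * g12 + (-(p.a11) * g22) + p.b02 * g11 + (-(p.a02) * g21) + (s.s21 + (2 * p.a20 + p.b11) + -(1 * p.a20) + -(3 * p.b11)) * h3 + (s.s22 + (p.a11 + 2 * p.b02) + -(2 * p.a11) + -(2 * p.b02)) * h2 + (-(3 * p.a02)) * h1) / 4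
  · linear_combination (p.c20 * g13 + (-(p.b20) * g23) + p.c11 * g12 + (-(p.b11) * g22) + p.c02 * g11 + (-(p.b02) * g21) + (-s.s11 + (2 * p.b20 + p.c11) + -(1 * p.b20) + -(3 * p.c11)) * h3 + (-s.s12 + (p.b11 + 2 * p.c02) + -(2 * p.b11) + -(2 * p.c02)) * h2 + (-(3 * p.b02)) * h1) / 4

/-- In the nondegenerate case a root of the quartic form at infinity kills `b20` and `c20`. -/
theorem t3_b20 {p : Par} (hp : Base p) (hl : Lin p 0 0 0 0 0 0) (hD : ND p) (h0 : dd0 p = 0) :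
    p.b20 = 0 ∧ p.c20 = 0 := by
  obtain ⟨s, hs⟩ := base_sys hp
  have F := facts_of_sys hs hp.2.2.1 hp.2.2.2.1 hp.2.2.2.2
  obtain ⟨hs1, hs2⟩ := t3_s0 F hl hD
  by_cases h1 : dd1 p = 0
  · by_cases h2 : dd2 p = 0
    · by_cases h3 : dd3 p = 0
      · by_cases h4 : dd4 p = 0
        · exfalso
          obtain ⟨x, y, hxy⟩ := hD
          apply hxy
          simp only [dd0, dd1, dd2, dd3, dd4] at h0 h1 h2 h3 h4
          simp only [D4]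
          linear_combination x ^ 4 * h0 + x ^ 3 * y * h1 + x ^ 2 * y ^ 2 * h2
            + x * y ^ 3 * h3 + y ^ 4 * h4
        · obtain ⟨e1, e2⟩ := t3_k4 F hl hs1 hs2 h0 h1 h2 h3
          exact ⟨(mul_eq_zero.mp e1).resolve_right h4, (mul_eq_zero.mp e2).resolve_right h4⟩
      · obtain ⟨e1, e2⟩ := t3_k3 F hl hs1 hs2 h0 h1 h2
        exact ⟨(mul_eq_zero.mp e1).resolve_right h3, (mul_eq_zero.mp e2).resolve_right h3⟩
    · obtain ⟨e1, e2⟩ := t3_k2 F hl hs1 hs2 h0 h1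
      exact ⟨(mul_eq_zero.mp e1).resolve_right h2, (mul_eq_zero.mp e2).resolve_right h2⟩
  · obtain ⟨e1, e2⟩ := t3_k1 F hl hs1 hs2 h0
    exact ⟨(mul_eq_zero.mp e1).resolve_right h1, (mul_eq_zero.mp e2).resolve_right h1⟩

end Pool.Agent.H38.FM
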