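import Pool.Agent.H67.FM.T3B

/-!
# Zeros with vanishing linear part: use of the elimination trees
-/

noncomputable section

set_option linter.unusedSimpArgs false

namespace Pool.Agent.H38.FM

open FM67 Matrix

theorem use_G2a {p : Par} (hp : Base p) (hD : ND p) {a20 a11 a02 b02 c11 c02 : ℂ}
    (h : T3Q p a20 a11 a02 0 a20 b02 0 c11 c02) (hc : c11 ≠ 0) :
    a11 = 0 ∧ a02 = 0 ∧ b02 = 0 ∧ a20 ≠ 0 := by
  obtain ⟨s, hs⟩ := base_sys hp
  have F := facts_of_sys hs hp.2.2.1 hp.2.2.2.1 hp.2.2.2.2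
  have hl := h.1
  obtain ⟨hs1, hs2⟩ := t3_s0 F hl hD
  obtain ⟨⟨g10, g11, g12, g13⟩, g20, g21, g22, g23⟩ := t3_order3 F hl hs1 hs2
  obtain ⟨⟨l1, l2, l3, l4, l5, l6⟩, h1, h2, h3, h4, h5, h6, h7, h8, h9⟩ := h
  have k1 := F.f_3_1
  have k2 := F.f_2_2
  have k3 := F.f_1_3
  simp only [cf_3_1, cf_2_2, cf_1_3, l1, l2, l3, l4, l5, l6, h1, h2, h3, h4, h5, h6, h7, h8, h9,
    hs1, hs2] at k1 k2 k3
  simp only [h1, h2, h3, h4, h5, h6, h7, h8, h9] at g10 g11 g12 g13 g20 g21 g22 g23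
  obtain ⟨x, y, hD⟩ := hD
  have := tree_G2a a20 a11 a02 b02 c11 c02 s.s11 s.s12 s.s21 s.s22
    (by linear_combination g10) (by linear_combination g11) (by linear_combination g12)
    (by linear_combination g13) (by linear_combination g21) (by linear_combination g22)
    (by linear_combination g23) (by linear_combination k1) (by linear_combination k2)
    (by linear_combination k3) hc ⟨x, y, fun h0 => hD (by
      simp only [D4, h1, h2, h3, h4, h5, h6, h7, h8, h9]; linear_combination h0)⟩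
  exact ⟨this.1, this.2.1, this.2.2.1, this.2.2.2.2⟩

theorem use_G2b {p : Par} (hp : Base p) (hD : ND p) {a20 a11 a02 b11 c02 : ℂ}
    (h : T3Q p a20 a11 a02 0 b11 0 0 0 c02) (hc : b11 - c02 ≠ 0) :
    ((a20 = 0) ∧ (a11 = 0) ∧ (a02 = 0) ∧ (b11 - c02 ≠ 0) ∧ (b11 ≠ 0)) ∨
    ((a11 = 0) ∧ (a02 = 0) ∧ (c02 = 0) ∧ (a20 ≠ 0) ∧ (b11 ≠ 0)) ∨
    ((a11 = 0) ∧ (a02 = 0) ∧ (b11 - c02 ≠ 0) ∧ (a20 ≠ 0) ∧ (c02 ≠ 0)) := by
  obtain ⟨s, hs⟩ := base_sys hp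
  have F := facts_of_sys hs hp.2.2.1 hp.2.2.2.1 hp.2.2.2.2
  have hl := h.1
  obtain ⟨hs1, hs2⟩ := t3_s0 F hl hD
  obtain ⟨⟨g10, g11, g12, g13⟩, g20, g21, g22, g23⟩ := t3_order3 F hl hs1 hs2
  obtain ⟨⟨l1, l2, l3, l4, l5, l6⟩, h1, h2, h3, h4, h5, h6, h7, h8, h9⟩ := h
  have k1 := F.f_0_4
  have k3 := F.f_1_3
  simp only [cf_0_4, cf_1_3, l1, l2, l3, l4, l5, l6, h1, h2, h3, h4, h5, h6, h7, h8, h9,
    hs1, hs2] at k1 k3
  simp only [h1, h2, h3, h4, h5, h6, h7, h8, h9] at g10 g11 g12 g13 g20 g21 g22 g23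
  obtain ⟨x, y, hD⟩ := hD
  exact tree_G2b a20 a11 a02 b11 c02 s.s11 s.s12 s.s21 s.s22
    (by linear_combination g10) (by linear_combination g11) (by linear_combination g12)
    (by linear_combination g13) (by linear_combination g21) (by linear_combination g22)
    (by linear_combination g23) (by linear_combination k3)
    (by linear_combination k1) hc ⟨x, y, fun h0 => hD (by
      simp only [D4, h1, h2, h3, h4, h5, h6, h7, h8, h9]; linear_combination h0)⟩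

theorem use_G2c {p : Par} (hp : Base p) (hD : ND p) {a20 a02 b11 b02 : ℂ}
    (h : T3Q p a20 0 a02 0 b11 b02 0 0 b11) (hc : a20 - b11 ≠ 0) :
    ((a20 = 0) ∧ (b02 = 0) ∧ (b11 ≠ 0)) ∨
    ((b02 = 0) ∧ (a20 - b11 ≠ 0) ∧ (a20 ≠ 0) ∧ (b11 ≠ 0)) := by
  obtain ⟨s, hs⟩ := base_sys hp
  have F := facts_of_sys hs hp.2.2.1 hp.2.2.2.1 hp.2.2.2.2
  have hl := h.1
  obtain ⟨hs1, hs2⟩ := t3_s0 F hl hD
  obtain ⟨⟨g10, g11, g12, g13⟩, g20, g21, g22, g23⟩ := t3_order3 F hl hs1 hs2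
  obtain ⟨⟨l1, l2, l3, l4, l5, l6⟩, h1, h2, h3, h4, h5, h6, h7, h8, h9⟩ := h
  have k1 := F.f_0_4
  simp only [cf_0_4, l1, l2, l3, l4, l5, l6, h1, h2, h3, h4, h5, h6, h7, h8, h9,
    hs1, hs2] at k1
  simp only [h1, h2, h3, h4, h5, h6, h7, h8, h9] at g10 g11 g12 g13 g20 g21 g22 g23
  obtain ⟨x, y, hD⟩ := hD
  exact tree_G2c a20 a02 b11 b02 s.s11 s.s12 s.s21 s.s22
    (by linear_combination g10) (by linear_combination g11) (by linear_combination g12)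
    (by linear_combination g13) (by linear_combination g21) (by linear_combination g22)
    (by linear_combination g23)
    (by linear_combination k1) hc ⟨x, y, fun h0 => hD (by
      simp only [D4, h1, h2, h3, h4, h5, h6, h7, h8, h9]; linear_combination h0)⟩

theorem use_G2d {p : Par} (hp : Base p) (hD : ND p) {a11 a02 b11 b02 : ℂ}
    (h : T3Q p b11 a11 a02 0 b11 b02 0 0 b11) :
    ((a11 = 0) ∧ (b11 = 0) ∧ (b02 ≠ 0)) ∨
    ((b11 = 0) ∧ (a11 ≠ 0) ∧ (b02 ≠ 0)) ∨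
    ((b02 = 0) ∧ (b11 ≠ 0)) ∨
    ((a11 = 2 * b02) ∧ (b11 ≠ 0) ∧ (b02 ≠ 0)) := by
  obtain ⟨s, hs⟩ := base_sys hp
  have F := facts_of_sys hs hp.2.2.1 hp.2.2.2.1 hp.2.2.2.2
  have hl := h.1
  obtain ⟨hs1, hs2⟩ := t3_s0 F hl hD
  obtain ⟨⟨g10, g11, g12, g13⟩, g20, g21, g22, g23⟩ := t3_order3 F hl hs1 hs2
  obtain ⟨⟨l1, l2, l3, l4, l5, l6⟩, h1, h2, h3, h4, h5, h6, h7, h8, h9⟩ := h
  simp only [h1, h2, h3, h4, h5, h6, h7, h8, h9] at g10 g11 g12 g13 g20 g21 g22 g23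
  obtain ⟨x, y, hD⟩ := hD
  exact tree_G2d a11 a02 b11 b02 s.s11 s.s12 s.s21 s.s22
    (by linear_combination g10) (by linear_combination g11) (by linear_combination g12)
    (by linear_combination g13) (by linear_combination g22)
    (by linear_combination g23) ⟨x, y, fun h0 => hD (by
      simp only [D4, h1, h2, h3, h4, h5, h6, h7, h8, h9]; linear_combination h0)⟩

end Pool.Agent.H38.FM
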