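import Pool.Agent.H67.FM.T3C

/-!
# Zeros with vanishing linear part: classification of the quadratic part
-/

noncomputable section

set_option linter.unusedSimpArgs false

namespace Pool.Agent.H38.FM

open FM67 Matrix

/-- The list of quadratic types. -/
def QAll (p : Par) : Prop :=
  T3Q p 0 0 0 0 0 0 0 0 0 ∨
  (∃ a b c, T3Q p a 0 0 0 b 0 0 0 c ∧ a ≠ 0 ∧ c ≠ 0) ∨
  (∃ a b, T3Q p a 0 0 0 b 0 0 0 0 ∧ a ≠ 0 ∧ b ≠ 0) ∨
  (∃ b, T3Q p 0 0 0 0 b 0 0 0 0 ∧ b ≠ 0) ∨
  (∃ a b c d, T3Q p a b c 0 d 0 0 0 d ∧ d ≠ 0) ∨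
  (∃ c d e, T3Q p d (2 * e) c 0 d e 0 0 d ∧ d ≠ 0 ∧ e ≠ 0) ∨
  (∃ a c, T3Q p a 0 c 0 0 0 0 0 0 ∧ a ≠ 0) ∨
  (∃ b, T3Q p 0 b 0 0 0 0 0 0 0 ∧ b ≠ 0) ∨
  (∃ c, T3Q p 0 0 c 0 0 0 0 0 0 ∧ c ≠ 0) ∨
  (∃ b e, T3Q p 0 b 0 0 0 e 0 0 0 ∧ e ≠ 0) ∨
  (∃ c e, T3Q p 0 (2 * e) c 0 0 e 0 0 0 ∧ e ≠ 0 ∧ c ≠ 0)

section
variable {p : Par}

theorem qA1 {a b c : ℂ} (h : T3Q p a 0 0 0 b 0 0 0 c) (h1 : a ≠ 0) (h2 : c ≠ 0) : QAll p :=
  Or.inr (Or.inl ⟨a, b, c, h, h1, h2⟩)
theorem qA2 {a b : ℂ} (h : T3Q p a 0 0 0 b 0 0 0 0) (h1 : a ≠ 0) (h2 : b ≠ 0) : QAll p :=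
  Or.inr (Or.inr (Or.inl ⟨a, b, h, h1, h2⟩))
theorem qA5 {b : ℂ} (h : T3Q p 0 0 0 0 b 0 0 0 0) (h1 : b ≠ 0) : QAll p :=
  Or.inr (Or.inr (Or.inr (Or.inl ⟨b, h, h1⟩)))
theorem qB {a b c d : ℂ} (h : T3Q p a b c 0 d 0 0 0 d) (h1 : d ≠ 0) : QAll p :=
  Or.inr (Or.inr (Or.inr (Or.inr (Or.inl ⟨a, b, c, d, h, h1⟩))))
theorem qB0 {c d e : ℂ} (h : T3Q p d (2 * e) c 0 d e 0 0 d) (h1 : d ≠ 0) (h2 : e ≠ 0) : QAll p :=
  Or.inr (Or.inr (Or.inr (Or.inr (Or.inr (Or.inl ⟨c, d, e, h, h1, h2⟩)))))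
theorem qBz1 {a c : ℂ} (h : T3Q p a 0 c 0 0 0 0 0 0) (h1 : a ≠ 0) : QAll p :=
  Or.inr (Or.inr (Or.inr (Or.inr (Or.inr (Or.inr (Or.inl ⟨a, c, h, h1⟩))))))
theorem qBz2 {b : ℂ} (h : T3Q p 0 b 0 0 0 0 0 0 0) (h1 : b ≠ 0) : QAll p :=
  Or.inr (Or.inr (Or.inr (Or.inr (Or.inr (Or.inr (Or.inr (Or.inl ⟨b, h, h1⟩)))))))
theorem qBz3 {c : ℂ} (h : T3Q p 0 0 c 0 0 0 0 0 0) (h1 : c ≠ 0) : QAll p :=
  Or.inr (Or.inr (Or.inr (Or.inr (Or.inr (Or.inr (Or.inr (Or.inr (Or.inl ⟨c, h, h1⟩))))))))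
theorem qC1 {b e : ℂ} (h : T3Q p 0 b 0 0 0 e 0 0 0) (h1 : e ≠ 0) : QAll p :=
  Or.inr (Or.inr (Or.inr (Or.inr (Or.inr (Or.inr (Or.inr (Or.inr (Or.inr (Or.inl
    ⟨b, e, h, h1⟩)))))))))
theorem qC2 {c e : ℂ} (h : T3Q p 0 (2 * e) c 0 0 e 0 0 0) (h1 : e ≠ 0) (h2 : c ≠ 0) : QAll p :=
  Or.inr (Or.inr (Or.inr (Or.inr (Or.inr (Or.inr (Or.inr (Or.inr (Or.inr (Or.inr
    ⟨c, e, h, h1, h2⟩)))))))))
end

theorem Ex.lin2 {p q : Par} {R : Par → Prop} (hr : Rel p q) (H : Ex q R) : Ex p R := by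
  obtain ⟨r, hqr, hr', hR⟩ := H
  exact ⟨r, hr.trans hqr, hr', hR⟩

theorem bz {p : Par} (hp : Base p) {a b c : ℂ} (h : T3Q p a b c 0 0 0 0 0 0) : Ex p QAll := by
  by_cases ha : a = 0
  · subst ha
    by_cases hb : b = 0
    · subst hb
      by_cases hc : c = 0
      · subst hc
        exact Ex.of hp (Or.inl h)
      · exact Ex.of hp (qBz3 h hc)
    · have h2 := quad_shear h (c / b)
      have hk : c / b * b = c := div_mul_cancel₀ c hb
      exact ⟨_, rel_shear _ p, hp.shear _, qBz2 (h2.congr (by ring) rfl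
        (by linear_combination -hk) (by ring) (by ring) (by ring) rfl (by ring) (by ring))
        (by intro h0; apply hb; linear_combination h0)⟩
  · have h2 := quad_shear h (b / (2 * a))
    have h2a : 2 * a ≠ 0 := mul_ne_zero two_ne_zero ha
    have hk : b / (2 * a) * (2 * a) = b := div_mul_cancel₀ b h2a
    exact ⟨_, rel_shear _ p, hp.shear _, qBz1 (h2.congr (a20' := a) (by ring)
      (by linear_combination -hk) rfl (by ring) (by ring) (by ring) rfl (by ring) (by ring)) ha⟩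

theorem cfam {p : Par} (hp : Base p) {a11 a02 b02 : ℂ} (hb : b02 ≠ 0)
    (h : T3Q p 0 a11 a02 0 0 b02 0 0 0) : Ex p QAll := by
  by_cases h1 : a11 = 2 * b02
  · subst h1
    by_cases h2 : a02 = 0
    · subst h2
      exact Ex.of hp (qC1 h hb)
    · exact Ex.of hp (qC2 h hb h2)
  · have hne : a11 - 2 * b02 ≠ 0 := sub_ne_zero.mpr h1
    have h2 := quad_shear h (a02 / (a11 - 2 * b02))
    have hk : a02 / (a11 - 2 * b02) * (a11 - 2 * b02) = a02 := div_mul_cancel₀ _ hne
    exact ⟨_, rel_shear _ p, hp.shear _, qC1 (h2.congr (a11' := a11) (b02' := b02) (by ring)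
      (by ring) (by linear_combination -hk) (by ring) (by ring) (by ring) rfl (by ring)
      (by ring)) hb⟩

theorem caseI {p : Par} (hp : Base p) (hD : ND p) {a20 a11 a02 b11 b02 c11 c02 : ℂ}
    (h : T3Q p a20 a11 a02 0 b11 b02 0 c11 c02) : Ex p QAll := by
  by_cases hc : c11 = 0
  · subst hc
    by_cases hbc : b11 - c02 = 0
    · have hbc' : c02 = b11 := by linear_combination -hbc
      subst hbc'
      by_cases hab : a20 - c02 = 0
      · have hab' : a20 = c02 := by linear_combination hab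
        subst hab'
        rcases use_G2d hp hD h with ⟨h1, h2, h3⟩ | ⟨h1, h2, h3⟩ | ⟨h1, h2⟩ | ⟨h1, h2, h3⟩
        · subst h2
          exact cfam hp h3 h
        · subst h1
          exact cfam hp h3 h
        · subst h1
          exact Ex.of hp (qB h h2)
        · subst h1
          exact Ex.of hp (qB0 h h2 h3)
      · have h2ne : 2 * (a20 - c02) ≠ 0 := mul_ne_zero two_ne_zero hab
        have hk : a11 / (2 * (a20 - c02)) * (2 * (a20 - c02)) = a11 := div_mul_cancel₀ _ h2ne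
        have h2 := quad_shear h (a11 / (2 * (a20 - c02)))
        generalize hka : a11 / (2 * (a20 - c02)) = ka at h2 hk
        have h3 := h2.congr (a20' := a20) (a11' := 0) (b20' := 0) (b11' := c02) (b02' := b02)
          (c20' := 0) (c11' := 0) (c02' := c02) (by ring) (by linear_combination -hk) rfl
          (by ring) (by ring) (by ring) rfl (by ring) (by ring)
        refine Ex.lin2 (rel_shear ka p) ?_
        have hq := hp.shear ka
        have hDq := hD.shear ka
        rcases use_G2c hq hDq h3 hab with ⟨h4, h5, h6⟩ | ⟨h4, -, -, h6⟩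
        · subst h5
          exact Ex.of hq (qB h3 h6)
        · subst h4
          exact Ex.of hq (qB h3 h6)
    · have hk : b02 / (b11 - c02) * (b11 - c02) = b02 := div_mul_cancel₀ _ hbc
      have h2 := quad_shear h (b02 / (b11 - c02))
      generalize hka : b02 / (b11 - c02) = ka at h2 hk
      obtain ⟨A, B, h3⟩ : ∃ A B, T3Q (shear ka p) a20 A B 0 b11 0 0 0 c02 :=
        ⟨_, _, h2.congr (a20' := a20) (b20' := 0) (b11' := b11) (b02' := 0)
          (c20' := 0) (c11' := 0) (c02' := c02) (by ring) rfl rfl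
          (by ring) (by ring) (by linear_combination -hk) rfl (by ring) (by ring)⟩
      refine Ex.lin2 (rel_shear ka p) ?_
      have hq := hp.shear ka
      have hDq := hD.shear ka
      rcases use_G2b hq hDq h3 hbc with ⟨h4, h5, h6, h7, h8⟩ | ⟨h4, h5, h6, h7, h8⟩ |
        ⟨h4, h5, h6, h7, h8⟩
      · rw [h4, h5, h6] at h3
        by_cases hc2 : c02 = 0
        · subst hc2
          exact Ex.of hq (qA5 h3 h8)
        · exact ⟨_, rel_swp _, hq.swp, qA2 (quad_swp h3) hc2 h8⟩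
      · rw [h4, h5, h6] at h3
        exact Ex.of hq (qA2 h3 h7 h8)
      · rw [h4, h5] at h3
        exact Ex.of hq (qA1 h3 h7 h8)
  · have hk : (a20 - b11) / c11 * c11 = a20 - b11 := div_mul_cancel₀ _ hc
    have h2 := quad_shear h ((a20 - b11) / c11)
    generalize hka : (a20 - b11) / c11 = ka at h2 hk
    obtain ⟨A, B, E, D, h3⟩ : ∃ A B E D, T3Q (shear ka p) a20 A B 0 a20 E 0 c11 D :=
      ⟨_, _, _, _, h2.congr (a20' := a20) (b20' := 0) (b11' := a20) (c20' := 0) (c11' := c11)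
        (by ring) rfl rfl (by ring) (by linear_combination hk) rfl rfl (by ring) rfl⟩
    refine Ex.lin2 (rel_shear ka p) ?_
    have hq := hp.shear ka
    have hDq := hD.shear ka
    obtain ⟨h4, h5, h6, h7⟩ := use_G2a hq hDq h3 hc
    rw [h4, h5, h6] at h3
    exact ⟨_, rel_swp _, hq.swp, qB (quad_swp h3) h7⟩

/-- The quartic form vanishes. -/
def ZD (p : Par) : Prop := ∀ x y, D4 p x y = 0

theorem ZD.swp {p : Par} (h : ZD p) : ZD (swp p) := by
  intro x y
  have : D4 (FM.swp p) x y = D4 p y x := by simp only [D4, FM.swp]; ring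
  rw [this]; exact h y x

theorem ZD.shear {p : Par} (h : ZD p) (ka : ℂ) : ZD (shear ka p) := by
  intro x y
  have : D4 (FM.shear ka p) x y = D4 p (x - ka * y) y := by simp only [D4, FM.shear]; ring
  rw [this]; exact h _ _

theorem ZD.sheary {p : Par} (h : ZD p) (ka : ℂ) : ZD (sheary ka p) := ((h.swp).shear ka).swp

theorem ZD.coeffs {p : Par} (h : ZD p) :
    dd0 p = 0 ∧ dd1 p = 0 ∧ dd2 p = 0 ∧ dd3 p = 0 ∧ dd4 p = 0 := by
  have h0 := h 1 0
  have h4 := h 0 1
  have h1 := h 1 1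
  have h2 := h 1 (-1)
  have h3 := h 1 2
  have h5 := h 2 1
  simp only [D4] at h0 h1 h2 h3 h4 h5
  simp only [dd0, dd1, dd2, dd3, dd4]
  refine ⟨?_, ?_, ?_, ?_, ?_⟩
  · linear_combination h0
  · linear_combination (h5 - h0 * 16 - h4 - 4 * ((h1 + h2) / 2 - h0 - h4)) / 6
      - (h1 - h2) / 6
  · linear_combination (h1 + h2) / 2 - h0 - h4
  · linear_combination (h1 - h2) / 2 - ((h5 - h0 * 16 - h4 - 4 * ((h1 + h2) / 2 - h0 - h4)) / 6
      - (h1 - h2) / 6)
  · linear_combination h4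

theorem caseII' {p : Par} (hp : Base p) (hZ : ZD p) {a20 a11 a02 b11 b02 c11 c02 : ℂ}
    (h : T3Q p a20 a11 a02 0 b11 b02 0 c11 c02) : Ex p QAll := by
  obtain ⟨d0, d1, d2, d3, d4⟩ := hZ.coeffs
  obtain ⟨hl, h1, h2, h3, h4, h5, h6, h7, h8, h9⟩ := id h
  simp only [dd0, dd1, dd2, dd3, dd4, h1, h2, h3, h4, h5, h6, h7, h8, h9] at d0 d1 d2 d3 d4
  by_cases hc : c11 = 0
  · subst hc
    by_cases hc2 : c02 = 0
    · subst hc2
      have hb : b11 = 0 := by
        have : b11 ^ 2 = 0 := by linear_combination -d2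
        exact pow_eq_zero_iff (two_ne_zero) |>.mp this
      have hb' : b02 = 0 := by
        have : b02 ^ 2 = 0 := by linear_combination -d4
        exact pow_eq_zero_iff (two_ne_zero) |>.mp this
      subst hb
      subst hb'
      exact bz hp h
    · by_cases hbc : b11 - c02 = 0
      · have hbc' : b11 = c02 := by linear_combination hbc
        subst hbc'
        have ha : a20 = b11 := by
          have : b11 * (a20 - b11) = 0 := by linear_combination d2
          have := (mul_eq_zero.mp this).resolve_left hc2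
          linear_combination this
        have ha' : a11 = 2 * b02 := by
          have : b11 * (a11 - 2 * b02) = 0 := by linear_combination d3
          have := (mul_eq_zero.mp this).resolve_left hc2
          linear_combination this
        rw [ha, ha'] at h
        by_cases hb2 : b02 = 0
        · subst hb2
          exact Ex.of hp (qB h hc2)
        · exact Ex.of hp (qB0 h hc2 hb2)
      · have hk : b02 / (b11 - c02) * (b11 - c02) = b02 := div_mul_cancel₀ _ hbc
        have hq2 := quad_shear h (b02 / (b11 - c02))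
        generalize hka : b02 / (b11 - c02) = ka at hq2 hk
        have hq3 := hq2.congr (a20' := a20) (b20' := 0) (b11' := b11) (b02' := 0)
          (c20' := 0) (c11' := 0) (c02' := c02) (by ring) rfl rfl
          (by ring) (by ring) (by linear_combination -hk) rfl (by ring) (by ring)
        refine Ex.lin2 (rel_shear ka p) ?_
        have hq := hp.shear ka
        obtain ⟨e0, e1, e2, e3, e4⟩ := (hZ.shear ka).coeffs
        obtain ⟨gl, g1, g2, g3, g4, g5, g6, g7, g8, g9⟩ := id hq3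
        simp only [dd0, dd1, dd2, dd3, dd4, g1, g4, g5, g6, g7, g8, g9] at e0 e1 e2 e3 e4
        have ha02 : (shear ka p).a02 = 0 := by
          have : (shear ka p).a02 * c02 = 0 := by linear_combination e4
          exact (mul_eq_zero.mp this).resolve_right hc2
        have ha11 : (shear ka p).a11 = 0 := by
          have : (shear ka p).a11 * c02 = 0 := by linear_combination e3
          exact (mul_eq_zero.mp this).resolve_right hc2
        have hq4 : T3Q (shear ka p) a20 0 0 0 b11 0 0 0 c02 :=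
          ⟨gl, g1, ha11, ha02, g4, g5, g6, g7, g8, g9⟩
        by_cases hb : b11 = 0
        · subst hb
          exact ⟨_, rel_swp _, hq.swp, by
            have ha20 : a20 = 0 := by
              have : a20 * c02 = 0 := by linear_combination d2
              exact (mul_eq_zero.mp this).resolve_right hc2
            rw [ha20] at hq4
            exact qBz1 (quad_swp hq4) hc2⟩
        · have ha20 : a20 ≠ 0 := by
            intro ha
            apply hb
            rw [ha] at d2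
            have : b11 ^ 2 = 0 := by linear_combination -d2
            exact pow_eq_zero_iff (two_ne_zero) |>.mp this
          exact Ex.of hq (qA1 hq4 ha20 hc2)
  · have ha : a20 = 0 := by
      have : a20 * c11 = 0 := by linear_combination d1
      exact (mul_eq_zero.mp this).resolve_right hc
    subst ha
    have hk : b11 / c11 * c11 = b11 := div_mul_cancel₀ _ hc
    have hq2 := quad_shear h (-(b11 / c11))
    generalize hka : b11 / c11 = ka at hq2 hk
    have hq3 := hq2.congr (a20' := 0) (b20' := 0) (b11' := 0)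
      (c20' := 0) (c11' := c11) (by ring) rfl rfl
      (by ring) (by linear_combination -hk) rfl rfl (by ring) rfl
    refine Ex.lin2 (rel_shear (-ka) p) ?_
    have hq := hp.shear (-ka)
    obtain ⟨e0, e1, e2, e3, e4⟩ := (hZ.shear (-ka)).coeffs
    obtain ⟨gl, g1, g2, g3, g4, g5, g6, g7, g8, g9⟩ := id hq3
    simp only [dd0, dd1, dd2, dd3, dd4, g1, g4, g5, g7, g8] at e0 e1 e2 e3 e4
    have ha11 : (shear (-ka) p).a11 = 0 := by
      have : (shear (-ka) p).a11 * c11 = 0 := by linear_combination e2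
      exact (mul_eq_zero.mp this).resolve_right hc
    have ha02 : (shear (-ka) p).a02 = 0 := by
      have : (shear (-ka) p).a02 * c11 = 0 := by
        linear_combination e3 - (shear (-ka) p).c02 * ha11
      exact (mul_eq_zero.mp this).resolve_right hc
    have hb02 : (shear (-ka) p).b02 = 0 := by
      have : (shear (-ka) p).b02 ^ 2 = 0 := by
        linear_combination -e4 + (shear (-ka) p).c02 * ha02
      exact pow_eq_zero_iff (two_ne_zero) |>.mp this
    have hq4 : T3Q (shear (-ka) p) 0 0 0 0 0 0 0 c11 (shear (-ka) p).c02 :=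
      ⟨gl, g1, ha11, ha02, g4, g5, hb02, g7, g8, rfl⟩
    refine Ex.lin2 (rel_swp _) ?_
    exact bz hq.swp (quad_swp hq4)

theorem q_nd {p : Par} (hp : Base p) (hD : ND p) (hl : Lin p 0 0 0 0 0 0) (h0 : dd0 p = 0) :
    Ex p QAll := by
  obtain ⟨h1, h2⟩ := t3_b20 hp hl hD h0
  exact caseI hp hD ⟨hl, rfl, rfl, rfl, h1, rfl, rfl, h2, rfl, rfl⟩

theorem q_zd {p : Par} (hp : Base p) (hZ : ZD p) (hl : Lin p 0 0 0 0 0 0) (h0 : p.c20 = 0) :
    Ex p QAll := by
  obtain ⟨d0, d1, d2, d3, d4⟩ := hZ.coeffs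
  have hb : p.b20 = 0 := by
    simp only [dd0, h0] at d0
    have : p.b20 ^ 2 = 0 := by linear_combination -d0
    exact pow_eq_zero_iff (two_ne_zero) |>.mp this
  exact caseII' hp hZ ⟨hl, rfl, rfl, rfl, hb, rfl, rfl, h0, rfl, rfl⟩

theorem qAll {p : Par} (hp : Base p) (hl : Lin p 0 0 0 0 0 0) : Ex p QAll := by
  have hswp : Lin (swp p) 0 0 0 0 0 0 := lin_swp hl
  have hsy : ∀ ka, Lin (sheary ka p) 0 0 0 0 0 0 := fun ka =>
    (lin_sheary hl ka).congr (by ring) rfl (by ring) (by ring) (by ring) (by ring)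
  by_cases hD : ND p
  · by_cases h4 : dd4 p = 0
    · refine Ex.lin2 (rel_swp p) (q_nd hp.swp hD.swp hswp ?_)
      simp only [dd0, dd4, swp] at *
      linear_combination h4
    · obtain ⟨t, ht⟩ := quartic_root (dd4 p) (-dd3 p) (dd2 p) (-dd1 p) (dd0 p) h4
      refine Ex.lin2 (rel_sheary t p) (q_nd (hp.sheary t) (hD.sheary t) (hsy t) ?_)
      simp only [dd0, dd1, dd2, dd3, dd4, sheary, swp, shear] at *
      linear_combination ht
  · have hZ : ZD p := by
      intro x y
      by_contra h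
      exact hD ⟨x, y, h⟩
    by_cases h4 : p.a02 = 0
    · exact Ex.lin2 (rel_swp p) (q_zd hp.swp hZ.swp hswp h4)
    · obtain ⟨t, ht⟩ := quartic_root p.a02 (2 * p.b02 - p.a11) (p.c02 - 2 * p.b11 + p.a20)
        (2 * p.b20 - p.c11) p.c20 h4
      refine Ex.lin2 (rel_sheary t p) (q_zd (hp.sheary t) (hZ.sheary t) (hsy t) ?_)
      simp only [sheary, swp, shear]
      linear_combination ht

end Pool.Agent.H38.FM
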