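import Pool.Agent.H67.FM.CurvE

/-!
# Flat metrics: every component of the discriminant is tangent, `D ∣ g(dD, ·)`
-/

namespace FM67

open MvPolynomial

theorem f_mul_pderiv (f t : R2) (n : ℕ) (i : Fin 2) :
    f * pderiv i (f ^ n * t) = f ^ n * ((n : R2) * pderiv i f * t + f * pderiv i t) := by
  rcases n with _ | n
  · simp
  · rw [pderiv_mul, pderiv_pow, Nat.add_sub_cancel]
    push_cast
    ring

theorem dvd_of_primes {D N : R2} (hD : D ≠ 0)
    (h : ∀ f, Irreducible f → ∀ n : ℕ, f ^ n ∣ D → f ^ n ∣ N) : D ∣ N := by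
  revert h hD
  refine UniqueFactorizationMonoid.induction_on_coprime (P := fun D => D ≠ 0 →
    (∀ f, Irreducible f → ∀ n : ℕ, f ^ n ∣ D → f ^ n ∣ N) → D ∣ N) D ?_ ?_ ?_ ?_
  · intro h
    exact absurd rfl h
  · intro x hx _ _
    exact hx.dvd
  · intro p i hp _ h
    exact h p hp.irreducible i (dvd_refl _)
  · intro x y hxy hx hy h0 h
    have h1 := hx (left_ne_zero_of_mul h0) fun f hf n hn => h f hf n (hn.mul_right y)
    have h2 := hy (right_ne_zero_of_mul h0) fun f hf n hn => h f hf n (hn.mul_left x)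
    exact hxy.mul_dvd h1 h2

/-- Every irreducible factor of the discriminant of a flat metric is tangent. -/
theorem tangent_factor {a b c f : R2} (hE : Ep a b c = 0) (hD0 : Dp a b c ≠ 0)
    (hf : Irreducible f) (hfD : f ∣ Dp a b c) :
    f ∣ a * pderiv 0 f + b * pderiv 1 f ∧ f ∣ b * pderiv 0 f + c * pderiv 1 f := by
  obtain ⟨m, k, hk, hD⟩ := WfDvdMonoid.max_power_factor hD0 hf
  have hm : m ≠ 0 := by
    rintro rfl
    rw [pow_zero, one_mul] at hD
    exact hk (hD ▸ hfD)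
  obtain ⟨n, rfl⟩ := Nat.exists_eq_succ_of_ne_zero hm
  rw [Nat.succ_eq_add_one] at hD
  have hf0 := hf.ne_zero
  set f0 := pderiv 0 f with hf0d
  set f1 := pderiv 1 f with hf1d
  set d0 : R2 := ((n : R2) + 1) * k * f0 + f * pderiv 0 k with hd0
  set d1 : R2 := ((n : R2) + 1) * k * f1 + f * pderiv 1 k with hd1
  have hD0' : pderiv 0 (Dp a b c) = f ^ n * d0 := by
    rw [hD, pderiv_mul, pderiv_pow, Nat.add_sub_cancel, hd0]
    push_cast
    ring
  have hD1' : pderiv 1 (Dp a b c) = f ^ n * d1 := by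
    rw [hD, pderiv_mul, pderiv_pow, Nat.add_sub_cancel, hd1]
    push_cast
    ring
  set t1 : R2 := f * k * (pderiv 0 b + pderiv 1 c) - (b * d0 + c * d1) with ht1
  set t2 : R2 := -(f * k * (pderiv 0 a + pderiv 1 b)) + (a * d0 + b * d1) with ht2
  have hs1 : sg1 a b c = f ^ n * t1 := by
    rw [sg1, hD0', hD1', hD, ht1]; ring
  have hs2 : sg2 a b c = f ^ n * t2 := by
    rw [sg2, hD0', hD1', hD, ht2]; ring
  have hp2 := f_mul_pderiv f t2 n 0
  have hp1 := f_mul_pderiv f t1 n 1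
  rw [← hs2, ← hf0d] at hp2
  rw [← hs1, ← hf1d] at hp1
  set Th : R2 := f0 * t2 - f1 * t1 with hTh
  set rest : R2 := 2 * k * (pderiv 0 t2 - pderiv 1 t1)
    - 3 * (pderiv 0 k * t2 - pderiv 1 k * t1) with hrest
  -- the equation divided by powers of f
  have eq1 : f ^ n * (-((n : R2) + 3) * k * Th + f * rest) + f * k * om3 a b c = 0 := by
    have hfn : f ^ (n + 1) ≠ 0 := pow_ne_zero _ hf0
    refine (mul_eq_zero.mp ?_).resolve_left hfn
    have h1 : f * Ep a b c = 0 := by rw [hE, mul_zero]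
    rw [Ep, hD0', hD1', hs2, hs1, hD] at h1
    rw [hs2] at hp2
    rw [hs1] at hp1
    rw [hTh, hrest]
    linear_combination h1 - 2 * f ^ (n + 1) * k * (hp2 - hp1)
      + 3 * f ^ (n + n + 1) * (t2 * hd0 - t1 * hd1)
  have id_c : c * om3 a b c = -(f ^ n) * (2 * f * k * (pderiv 0 b * pderiv 1 c
      - pderiv 0 c * pderiv 1 b) + d0 * (pderiv 1 b * c - pderiv 1 c * b)
      + d1 * (b * pderiv 0 c - c * pderiv 0 b)) := by
    have h0 : f ^ n * d0 = pderiv 0 a * c + a * pderiv 0 c - 2 * b * pderiv 0 b := by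
      rw [← hD0', Dp]; simp; ring
    have h1 : f ^ n * d1 = pderiv 1 a * c + a * pderiv 1 c - 2 * b * pderiv 1 b := by
      rw [← hD1', Dp]; simp; ring
    have h2 : f ^ n * (f * k) = a * c - b ^ 2 := by
      have : Dp a b c = a * c - b ^ 2 := rfl
      rw [← this, hD]; ring
    rw [om3]
    linear_combination 2 * (pderiv 0 b * pderiv 1 c - pderiv 0 c * pderiv 1 b) * h2
      + (pderiv 1 b * c - pderiv 1 c * b) * h0 + (b * pderiv 0 c - c * pderiv 0 b) * h1
  have id_a : a * om3 a b c = -(f ^ n) * (2 * f * k * (pderiv 0 a * pderiv 1 b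
      - pderiv 0 b * pderiv 1 a) + d0 * (pderiv 1 a * b - pderiv 1 b * a)
      + d1 * (a * pderiv 0 b - b * pderiv 0 a)) := by
    have h0 : f ^ n * d0 = pderiv 0 a * c + a * pderiv 0 c - 2 * b * pderiv 0 b := by
      rw [← hD0', Dp]; simp; ring
    have h1 : f ^ n * d1 = pderiv 1 a * c + a * pderiv 1 c - 2 * b * pderiv 1 b := by
      rw [← hD1', Dp]; simp; ring
    have h2 : f ^ n * (f * k) = a * c - b ^ 2 := by
      have : Dp a b c = a * c - b ^ 2 := rfl
      rw [← this, hD]; ring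
    rw [om3]
    linear_combination 2 * (pderiv 0 a * pderiv 1 b - pderiv 0 b * pderiv 1 a) * h2
      + (pderiv 1 a * b - pderiv 1 b * a) * h0 + (a * pderiv 0 b - b * pderiv 0 a) * h1
  have hfn : f ^ n ≠ 0 := pow_ne_zero _ hf0
  have hn3 : ¬ f ∣ ((n : R2) + 3) := by
    intro hdiv
    have hu : IsUnit ((n : R2) + 3) := by
      have h3 : (C (3 : ℂ) : R2) = 3 := map_ofNat C 3
      have : ((n : R2) + 3) = C ((n : ℂ) + 3) := by simp [h3]
      rw [this]
      exact (isUnit_iff_ne_zero.mpr (by exact_mod_cast (by omega : n + 3 ≠ 0))).map C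
    exact hf.not_isUnit (isUnit_of_dvd_unit hdiv hu)
  have hn1 : ¬ f ∣ ((n : R2) + 1) := by
    intro hdiv
    have hu : IsUnit ((n : R2) + 1) := by
      have : ((n : R2) + 1) = C ((n : ℂ) + 1) := by simp
      rw [this]
      exact (isUnit_iff_ne_zero.mpr (by exact_mod_cast Nat.succ_ne_zero n)).map C
    exact hf.not_isUnit (isUnit_of_dvd_unit hdiv hu)
  have hpr := hf.prime
  have dTh : ∀ w r : R2, w * om3 a b c = -(f ^ n) * r → f ∣ w * Th := by
    intro w r hr
    have h1 : ((n : R2) + 3) * (k * (w * Th)) = f * (w * rest - k * r) := by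
      refine mul_left_cancel₀ hfn ?_
      linear_combination -w * eq1 + f * k * hr
    have h2 : f ∣ ((n : R2) + 3) * (k * (w * Th)) := ⟨_, h1⟩
    exact (hpr.dvd_or_dvd ((hpr.dvd_or_dvd h2).resolve_left hn3)).resolve_left hk
  set q : R2 := a * f0 ^ 2 + 2 * b * f0 * f1 + c * f1 ^ 2 with hq
  have hThq : Th = ((n : R2) + 1) * k * q + f * (-(k * (pderiv 0 a + pderiv 1 b)) * f0
      + (a * pderiv 0 k + b * pderiv 1 k) * f0 - (k * (pderiv 0 b + pderiv 1 c)) * f1
      + (b * pderiv 0 k + c * pderiv 1 k) * f1) := by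
    rw [hTh, ht1, ht2, hd0, hd1, hq]; ring
  have dq : ∀ w, f ∣ w * Th → f ∣ w * q := by
    intro w hw
    have h1 : f ∣ ((n : R2) + 1) * (k * (w * q)) := by
      have h2 : ((n : R2) + 1) * (k * (w * q)) = w * Th - f * (w *
        (-(k * (pderiv 0 a + pderiv 1 b)) * f0
      + (a * pderiv 0 k + b * pderiv 1 k) * f0 - (k * (pderiv 0 b + pderiv 1 c)) * f1
      + (b * pderiv 0 k + c * pderiv 1 k) * f1)) := by
        rw [hThq]; ring
      rw [h2]
      exact dvd_sub hw (dvd_mul_right _ _)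
    exact (hpr.dvd_or_dvd ((hpr.dvd_or_dvd h1).resolve_left hn1)).resolve_left hk
  have qa := dq a (dTh a _ id_a)
  have qc := dq c (dTh c _ id_c)
  constructor
  · refine hpr.dvd_of_dvd_pow (n := 2) ?_
    have : (a * f0 + b * f1) ^ 2 = a * q - Dp a b c * f1 ^ 2 := by
      rw [hq, Dp]; ring
    rw [this]
    exact dvd_sub qa (hfD.mul_right _)
  · refine hpr.dvd_of_dvd_pow (n := 2) ?_
    have : (b * f0 + c * f1) ^ 2 = c * q - Dp a b c * f0 ^ 2 := by
      rw [hq, Dp]; ring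
    rw [this]
    exact dvd_sub qc (hfD.mul_right _)

/-- The discriminant of a flat metric divides `g(dD, ·)`. -/
theorem dvd_of_flat {a b c : R2} (hE : Ep a b c = 0) (hD0 : Dp a b c ≠ 0) :
    Dp a b c ∣ a * pderiv 0 (Dp a b c) + b * pderiv 1 (Dp a b c) ∧
    Dp a b c ∣ b * pderiv 0 (Dp a b c) + c * pderiv 1 (Dp a b c) := by
  have key : ∀ f, Irreducible f → ∀ n : ℕ, f ^ n ∣ Dp a b c →
      f ^ n ∣ a * pderiv 0 (Dp a b c) + b * pderiv 1 (Dp a b c) ∧
      f ^ n ∣ b * pderiv 0 (Dp a b c) + c * pderiv 1 (Dp a b c) := by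
    intro f hf n hn
    rcases n with _ | n
    · simp
    · have hfD : f ∣ Dp a b c := (dvd_pow_self f (Nat.succ_ne_zero n)).trans hn
      obtain ⟨⟨u, hu⟩, ⟨w, hw⟩⟩ := tangent_factor hE hD0 hf hfD
      obtain ⟨k, hk⟩ := hn
      constructor
      · refine ⟨((n : R2) + 1) * k * u + (a * pderiv 0 k + b * pderiv 1 k), ?_⟩
        rw [hk, pderiv_mul, pderiv_mul, pderiv_pow, pderiv_pow, Nat.add_sub_cancel]
        push_cast
        linear_combination ((n : R2) + 1) * k * f ^ n * hu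
      · refine ⟨((n : R2) + 1) * k * w + (b * pderiv 0 k + c * pderiv 1 k), ?_⟩
        rw [hk, pderiv_mul, pderiv_mul, pderiv_pow, pderiv_pow, Nat.add_sub_cancel]
        push_cast
        linear_combination ((n : R2) + 1) * k * f ^ n * hw
  exact ⟨dvd_of_primes hD0 fun f hf n hn => (key f hf n hn).1,
    dvd_of_primes hD0 fun f hf n hn => (key f hf n hn).2⟩

end FM67
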