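import Pool.Agent.H67.FM.Bez

/-!
# Invariant ideals of derivations and singular points

If an ideal `I` of `ℂ[X₀, X₁, X₂]` is invariant under a derivation then so is every minimal prime
over it. Consequence: when all the vector fields `G (ζ × x)` are tangent to a plane curve `f = 0`,
and `p` is a singular point of `f`, or a common point with another such curve, then these fields
vanish at `p`.
-/

namespace FM67

open MvPolynomial Matrix

/-- `t ^ n * u ∈ I` for an element `t` of a minimal prime over `I` and some `u` outside it. -/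
theorem exists_pow_mul_mem {R : Type*} [CommRing R] {I P : Ideal R} (hP : P ∈ I.minimalPrimes)
    {t : R} (ht : t ∈ P) : ∃ n : ℕ, ∃ u, u ∉ P ∧ t ^ n * u ∈ I := by
  by_contra hcon
  push Not at hcon
  have hPp : P.IsPrime := hP.1.1
  set S : Submonoid R := Submonoid.powers t ⊔ P.primeCompl with hS
  have hdisj : Disjoint (I : Set R) S := by
    rw [Set.disjoint_left]
    intro a haI haS
    rw [SetLike.mem_coe, hS, Submonoid.mem_sup] at haS
    obtain ⟨y, ⟨n, rfl⟩, u, hu, rfl⟩ := haS
    exact hcon n u hu haI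
  obtain ⟨Q, hQ, hIQ, hQS⟩ := Ideal.exists_le_prime_disjoint I S hdisj
  have hQP : Q ≤ P := by
    intro a ha
    by_contra haP
    have : a ∈ (S : Set R) := by
      have h1 : P.primeCompl ≤ S := le_sup_right
      exact h1 haP
    exact (Set.disjoint_left.mp hQS) ha this
  have hPQ : P ≤ Q := hP.2 ⟨hQ, hIQ⟩ hQP
  have : t ∈ (S : Set R) := by
    have h1 : Submonoid.powers t ≤ S := le_sup_left
    exact h1 (Submonoid.mem_powers t)
  exact (Set.disjoint_left.mp hQS) (hPQ ht) this

/-- A minimal prime over an invariant ideal is invariant (Seidenberg). -/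
theorem der_mem_minimalPrime {I P : Ideal R3} (v : Derivation ℂ R3 R3)
    (hv : ∀ f ∈ I, v f ∈ I) (hP : P ∈ I.minimalPrimes) {t : R3} (ht : t ∈ P) : v t ∈ P := by
  by_contra hw
  have hPp : P.IsPrime := hP.1.1
  obtain ⟨n, u, hu, h⟩ := exists_pow_mul_mem hP ht
  have key : ∀ n : ℕ, (∃ u, u ∉ P ∧ t ^ n * u ∈ I) → False := by
    intro n
    induction n with
    | zero =>
      rintro ⟨u, hu, h⟩
      exact hu (hP.1.2 (by simpa using h))
    | succ n ih =>
      rintro ⟨u, hu, h⟩
      refine ih ⟨v t * u ^ 2, ?_, ?_⟩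
      · intro hmem
        rcases hPp.mem_or_mem hmem with h1 | h1
        · exact hw h1
        · exact hu (hPp.mem_of_pow_mem _ h1)
      · have h1 : v (t ^ (n + 1) * u) ∈ I := hv _ h
        have h2 : v (t ^ (n + 1) * u) = ((n : R3) + 1) * (t ^ n * (v t * u)) + t ^ (n+1) * v u := by
          rw [Derivation.leibniz, Derivation.leibniz_pow]
          simp only [smul_eq_mul, nsmul_eq_mul, Nat.add_sub_cancel]
          push_cast
          ring
        have h3 : ((n : R3) + 1) * (t ^ n * (v t * u ^ 2)) ∈ I := by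
          have : ((n : R3) + 1) * (t ^ n * (v t * u ^ 2))
              = u * v (t ^ (n + 1) * u) - v u * (t ^ (n+1) * u) := by
            rw [h2]; ring
          rw [this]
          exact I.sub_mem (I.mul_mem_left _ h1) (I.mul_mem_left _ h)
        have h4 : t ^ n * (v t * u ^ 2)
            = C ((n : ℂ) + 1)⁻¹ * (((n : R3) + 1) * (t ^ n * (v t * u ^ 2))) := by
          have hne : ((n : ℂ) + 1) ≠ 0 := by exact_mod_cast Nat.succ_ne_zero n
          have h5 : ((n : R3) + 1) = C ((n : ℂ) + 1) := by simp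
          have h6 : C ((n : ℂ) + 1)⁻¹ * C ((n : ℂ) + 1) = (1 : R3) := by
            rw [← map_mul, inv_mul_cancel₀ hne, map_one]
          rw [h5, ← mul_assoc (C ((n : ℂ) + 1)⁻¹), h6, one_mul]
        rw [h4]
        exact I.mul_mem_left _ h3
  exact key n ⟨u, hu, h⟩

/-- Restriction to the line through `p`. -/
noncomputable def lin (p : Fin 3 → ℂ) : R3 →ₐ[ℂ] Polynomial ℂ :=
  MvPolynomial.aeval (fun i => Polynomial.C (p i) * Polynomial.X)

theorem lin_homog {p : Fin 3 → ℂ} {f : R3} {n : ℕ} (h : f.IsHomogeneous n) :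
    lin p f = Polynomial.C (eval p f) * Polynomial.X ^ n := by
  have h1 : lin p = ((Polynomial.mapAlgHom (MvPolynomial.aeval (R := ℂ) p))).comp scal := by
    ext i : 1
    simp [lin, scal]
  rw [h1]
  simp [scal_eq_of_homog h]

theorem mem_ker_lin {p : Fin 3 → ℂ} {f : R3} {n : ℕ} (h : f.IsHomogeneous n) :
    f ∈ RingHom.ker (lin p) ↔ eval p f = 0 := by
  rw [RingHom.mem_ker, lin_homog h]
  simp

theorem eval_of_mem_ker_lin {p : Fin 3 → ℂ} {f : R3} (h : f ∈ RingHom.ker (lin p)) :
    eval p f = 0 := by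
  rw [RingHom.mem_ker] at h
  have h1 : (Polynomial.aeval (1 : ℂ)) (lin p f) = eval p f := by
    have h2 : (Polynomial.aeval (R := ℂ) (1 : ℂ)).comp (lin p) = MvPolynomial.aeval p := by
      ext i
      simp [lin]
    have h3 := DFunLike.congr_fun h2 f
    rw [MvPolynomial.aeval_eq_eval] at h3
    simpa using h3
  rw [← h1, h, map_zero]

theorem height_ker_lin {p : Fin 3 → ℂ} (hp : p ≠ 0) :
    (RingHom.ker (lin p)).height + 1 ≤ 3 := by
  have hp1 : (RingHom.ker (lin p)).IsPrime := RingHom.ker_isPrime _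
  have hp2 : (RingHom.ker (chn 3)).IsPrime := RingHom.ker_isPrime _
  have hX3 : ∀ i : Fin 3, (X i : R3) ∈ RingHom.ker (chn 3) := fun i => chn_X_mem i.2
  have hlt : RingHom.ker (lin p) < RingHom.ker (chn 3) := by
    refine lt_of_le_of_ne ?_ ?_
    · intro f hf
      rw [mem_ker_chn3]
      rw [RingHom.mem_ker] at hf
      have h2 : (Polynomial.aeval (R := ℂ) (0 : ℂ)).comp (lin p)
          = MvPolynomial.aeval (0 : Fin 3 → ℂ) := by
        ext i
        simp [lin]
      have h3 := DFunLike.congr_fun h2 f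
      rw [MvPolynomial.aeval_eq_eval] at h3
      have h4 : (Polynomial.aeval (R := ℂ) (0 : ℂ)) (lin p f) = eval (0 : Fin 3 → ℂ) f := by
        simpa using h3
      rw [← h4, hf, map_zero]
    · intro he
      obtain ⟨i, hi⟩ : ∃ i, p i ≠ 0 := by
        by_contra hcon
        push Not at hcon
        exact hp (funext hcon)
      have h1 : (X i : R3) ∈ RingHom.ker (lin p) := he ▸ hX3 i
      have h2 := eval_of_mem_ker_lin h1
      simp at h2
      exact hi h2
  have h1 := Ideal.height_add_one_le_of_lt_of_isPrime hlt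
  refine le_trans h1 ?_
  have hmin : RingHom.ker (chn 3) ∈
      (Ideal.span (((Finset.univ : Finset (Fin 3)).image (fun i => (X i : R3)) :
        Finset R3) : Set R3)).minimalPrimes := by
    refine ⟨⟨hp2, ?_⟩, ?_⟩
    · rw [Ideal.span_le]
      intro q hq
      obtain ⟨i, rfl⟩ : ∃ i, (X i : R3) = q := by simpa using hq
      exact hX3 i
    · rintro Q ⟨hQ, hIQ⟩ _
      refine ker_chn3_le fun i => hIQ (Ideal.subset_span ?_)
      simp
  refine le_trans (Ideal.height_le_card_of_mem_minimalPrimes_span_finset hmin) ?_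
  have : (((Finset.univ : Finset (Fin 3)).image (fun i => (X i : R3)))).card ≤ 3 :=
    le_trans Finset.card_image_le (by simp)
  exact_mod_cast this

/-- The prime of the point `p` is minimal over an ideal containing an irreducible `F` and
a polynomial not divisible by `F`. -/
theorem ker_lin_minimal {p : Fin 3 → ℂ} (hp : p ≠ 0) {F g : R3} (hF : Irreducible F)
    (hg : ¬ F ∣ g) {I : Ideal R3} (hFI : F ∈ I) (hgI : g ∈ I) (hI : I ≤ RingHom.ker (lin p)) :
    RingHom.ker (lin p) ∈ I.minimalPrimes := by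
  have hpr : (RingHom.ker (lin p)).IsPrime := RingHom.ker_isPrime _
  refine ⟨⟨hpr, hI⟩, ?_⟩
  rintro Q ⟨hQ, hIQ⟩ hle
  by_contra hne
  have hlt : Q < RingHom.ker (lin p) := lt_of_le_not_ge hle hne
  have hFp : (Ideal.span {F}).IsPrime :=
    (Ideal.span_singleton_prime hF.ne_zero).mpr hF.prime
  have h0 : (⊥ : Ideal R3) < Ideal.span {F} := by
    rw [bot_lt_iff_ne_bot]
    intro h
    rw [Ideal.span_singleton_eq_bot] at h
    exact hF.ne_zero h
  have h1 : Ideal.span {F} < Q := by
    refine lt_of_le_of_ne ?_ ?_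
    · rw [Ideal.span_singleton_le_iff_mem]; exact hIQ hFI
    · intro he
      have : g ∈ Ideal.span {F} := he ▸ hIQ hgI
      rw [Ideal.mem_span_singleton] at this
      exact hg this
  have hbot : (⊥ : Ideal R3).IsPrime := Ideal.isPrime_bot
  have e0 := Ideal.height_add_one_le_of_lt_of_isPrime h0
  have e1 := Ideal.height_add_one_le_of_lt_of_isPrime h1
  have e2 := Ideal.height_add_one_le_of_lt_of_isPrime hlt
  have e3 := height_ker_lin hp
  have e4 : (1 : ℕ∞) ≤ (Ideal.span {F}).height := le_trans (by simp) e0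
  have e5 : (1 : ℕ∞) + 1 ≤ Q.height := le_trans (by gcongr) e1
  have e6 : (1 : ℕ∞) + 1 + 1 ≤ (RingHom.ker (lin p)).height := le_trans (by gcongr) e2
  have e7 : (1 : ℕ∞) + 1 + 1 + 1 ≤ 3 := le_trans (by gcongr) e3
  have e8 : ((4 : ℕ) : ℕ∞) ≤ ((3 : ℕ) : ℕ∞) := by
    refine le_trans (le_of_eq ?_) e7
    norm_num
  have e9 : (4 : ℕ) ≤ 3 := by exact_mod_cast e8
  omega

/-- The vector of coordinates. -/
noncomputable def xv : Fin 3 → R3 := fun i => X i

/-- The gradient. -/
noncomputable def gr (f : R3) : Fin 3 → R3 := fun i => pderiv i f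

/-- The vector field `G (ζ × x)`. -/
noncomputable def vf (G : Matrix (Fin 3) (Fin 3) R3) (ζ : Fin 3 → ℂ) : Fin 3 → R3 :=
  G.mulVec (crossProduct (fun i => C (ζ i)) xv)

/-- The curve `f = 0` is tangent to `G`. -/
def Tang (G : Matrix (Fin 3) (Fin 3) R3) (f : R3) : Prop :=
  ∀ i, f ∣ (crossProduct (G.mulVec (gr f)) xv) i

theorem mkDer_apply (w : Fin 3 → R3) (f : R3) :
    mkDerivation ℂ w f = ∑ j, w j * pderiv j f := by
  have : mkDerivation ℂ w = w 0 • (pderiv 0 : Derivation ℂ R3 R3) + w 1 • pderiv 1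
      + w 2 • pderiv 2 := by
    apply MvPolynomial.derivation_ext
    intro i
    rw [mkDerivation_X]
    fin_cases i <;> simp [pderiv_X, Pi.single_apply]
  rw [this, Fin.sum_univ_three]
  simp

theorem vf_dvd {G : Matrix (Fin 3) (Fin 3) R3} (hG : G.IsSymm) {f : R3} (h : Tang G f)
    (ζ : Fin 3 → ℂ) : f ∣ mkDerivation ℂ (vf G ζ) f := by
  have h01 : G 1 0 = G 0 1 := hG.apply 0 1
  have h02 : G 2 0 = G 0 2 := hG.apply 0 2
  have h12 : G 2 1 = G 1 2 := hG.apply 1 2
  have e : mkDerivation ℂ (vf G ζ) f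
      = -∑ i, C (ζ i) * (crossProduct (G.mulVec (gr f)) xv) i := by
    rw [mkDer_apply]
    simp only [vf, gr, xv, Fin.sum_univ_three, Matrix.mulVec, dotProduct, cross_apply,
      Matrix.cons_val_zero, Matrix.cons_val_one, Matrix.cons_val_two, Matrix.head_cons,
      Matrix.tail_cons, Matrix.cons_val]
    rw [h01, h02, h12]
    ring
  rw [e, dvd_neg]
  exact Finset.dvd_sum fun i _ => Dvd.dvd.mul_left (h i) _

theorem der_pderiv (w : Fin 3 → R3) (f : R3) (i : Fin 3) :
    mkDerivation ℂ w (pderiv i f)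
      = pderiv i (mkDerivation ℂ w f) - ∑ j, pderiv i (w j) * pderiv j f := by
  rw [mkDer_apply, mkDer_apply, map_sum]
  simp only [pderiv_mul, Finset.sum_add_distrib]
  have : ∀ j, pderiv i (pderiv j f) = pderiv j (pderiv i f) := by
    intro j
    have h : ⁅(pderiv i : Derivation ℂ R3 R3), (pderiv j : Derivation ℂ R3 R3)⁆ = 0 := by
      apply MvPolynomial.derivation_ext
      intro k
      rw [Derivation.commutator_apply]
      fin_cases k <;> simp [pderiv_X, Pi.single_apply, apply_ite]
    have h2 := DFunLike.congr_fun h f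
    rw [Derivation.commutator_apply] at h2
    simpa [sub_eq_zero] using h2
  simp only [this]
  ring

/-- The tensor `G` vanishes at the point `p`. -/
def ZeroAt (G : Matrix (Fin 3) (Fin 3) R3) (p : Fin 3 → ℂ) : Prop :=
  ∀ ξ η : Fin 3 → ℂ, ξ ⬝ᵥ p = 0 → η ⬝ᵥ p = 0 →
    ξ ⬝ᵥ (G.map (eval p)).mulVec η = 0

/-- Criterion: all the fields `G (ζ × x)` are radial at `p`. -/
theorem zeroAt_of_vf {G : Matrix (Fin 3) (Fin 3) R3} {p : Fin 3 → ℂ} (hp : p ≠ 0)
    (h : ∀ ζ : Fin 3 → ℂ, ∀ i k, p k * eval p (vf G ζ i) = p i * eval p (vf G ζ k)) :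
    ZeroAt G p := by
  intro ξ η hξ hη
  obtain ⟨k, hk⟩ : ∃ i, p i ≠ 0 := by
    by_contra hcon
    push Not at hcon
    exact hp (funext hcon)
  -- η = ζ × p
  obtain ⟨ζ, hζ⟩ : ∃ ζ : Fin 3 → ℂ, crossProduct ζ p = η := by
    rw [dotProduct, Fin.sum_univ_three] at hη
    fin_cases k
    · refine ⟨![0, -η 2 / p 0, η 1 / p 0], ?_⟩
      simp at hk
      rw [cross_apply]
      funext i
      fin_cases i
      · simp; field_simp; linear_combination -hη
      · simp; field_simp
      · simp; field_simp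
    · refine ⟨![η 2 / p 1, 0, -η 0 / p 1], ?_⟩
      simp at hk
      rw [cross_apply]
      funext i
      fin_cases i
      · simp; field_simp
      · simp; field_simp; linear_combination -hη
      · simp; field_simp
    · refine ⟨![-η 1 / p 2, η 0 / p 2, 0], ?_⟩
      simp at hk
      rw [cross_apply]
      funext i
      fin_cases i
      · simp; field_simp
      · simp; field_simp
      · simp; field_simp; linear_combination -hη
  have hv : ∀ i, eval p (vf G ζ i) = (G.map (eval p)).mulVec η i := by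
    intro i
    rw [← hζ]
    simp [vf, xv, Matrix.mulVec, dotProduct, cross_apply, Fin.sum_univ_three]
  have h1 : ∀ i, p k * (G.map (eval p)).mulVec η i = p i * (G.map (eval p)).mulVec η k := by
    intro i
    rw [← hv, ← hv]
    exact h ζ i k
  have h2 : p k * (ξ ⬝ᵥ (G.map (eval p)).mulVec η) = 0 := by
    have : p k * (ξ ⬝ᵥ (G.map (eval p)).mulVec η)
        = (ξ ⬝ᵥ p) * (G.map (eval p)).mulVec η k := by
      simp only [dotProduct, Finset.mul_sum, Finset.sum_mul]
      refine Finset.sum_congr rfl fun i _ => ?_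
      linear_combination ξ i * h1 i
    rw [this, hξ, zero_mul]
  exact (mul_eq_zero.mp h2).resolve_left hk

/-- Main criterion through an invariant ideal. -/
theorem zeroAt_of_ideal {G : Matrix (Fin 3) (Fin 3) R3} {p : Fin 3 → ℂ} (hp : p ≠ 0)
    {I : Ideal R3} (hI : ∀ ζ, ∀ f ∈ I, mkDerivation ℂ (vf G ζ) f ∈ I)
    (hmin : RingHom.ker (lin p) ∈ I.minimalPrimes) : ZeroAt G p := by
  refine zeroAt_of_vf hp fun ζ i k => ?_
  set t : R3 := C (p k) * X i - C (p i) * X k with ht
  have h1 : t ∈ RingHom.ker (lin p) := by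
    rw [mem_ker_lin (n := 1)]
    · simp [ht]; ring
    · exact ((isHomogeneous_X _ _).C_mul _).sub ((isHomogeneous_X _ _).C_mul _)
  have h2 := eval_of_mem_ker_lin (der_mem_minimalPrime _ (hI ζ) hmin h1)
  rw [ht, map_sub, Derivation.leibniz, Derivation.leibniz, mkDerivation_X, mkDerivation_X,
    derivation_C, derivation_C] at h2
  simp at h2
  linear_combination h2

/-- Two different components of the discriminant meet at a zero. -/
theorem zeroAt_of_two {G : Matrix (Fin 3) (Fin 3) R3} (hG : G.IsSymm) {p : Fin 3 → ℂ}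
    (hp : p ≠ 0) {F g : R3} {m n : ℕ} (hF : F.IsHomogeneous m) (hg : g.IsHomogeneous n)
    (hFi : Irreducible F) (hFg : ¬ F ∣ g) (tF : Tang G F) (tg : Tang G g)
    (h1 : eval p F = 0) (h2 : eval p g = 0) : ZeroAt G p := by
  have hFI : F ∈ Ideal.span ({F, g} : Set R3) := Ideal.subset_span (by simp)
  have hgI : g ∈ Ideal.span ({F, g} : Set R3) := Ideal.subset_span (by simp)
  refine zeroAt_of_ideal (I := Ideal.span {F, g}) hp ?_ ?_
  · intro ζ f hf
    refine Submodule.span_induction (p := fun f _ => mkDerivation ℂ (vf G ζ) f ∈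
      Ideal.span ({F, g} : Set R3)) ?_ ?_ ?_ ?_ hf
    · rintro q hq
      rcases hq with rfl | hq
      · exact Ideal.mem_of_dvd _ (vf_dvd hG tF ζ) hFI
      · rw [Set.mem_singleton_iff] at hq
        subst hq
        exact Ideal.mem_of_dvd _ (vf_dvd hG tg ζ) hgI
    · simp
    · intro a b _ _ ha hb
      rw [map_add]; exact Ideal.add_mem _ ha hb
    · intro a b hb' hb
      rw [smul_eq_mul, Derivation.leibniz]
      refine Ideal.add_mem _ ?_ ?_
      · exact Ideal.mul_mem_left _ _ hb
      · rw [smul_eq_mul]; exact Ideal.mul_mem_right _ _ hb'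
  · refine ker_lin_minimal hp hFi hFg hFI hgI ?_
    rw [Ideal.span_le]
    rintro q hq
    rcases hq with rfl | hq
    · exact (mem_ker_lin hF).mpr h1
    · rw [Set.mem_singleton_iff] at hq
      subst hq
      exact (mem_ker_lin hg).mpr h2

/-- A singular point of a component of the discriminant is a zero. -/
theorem zeroAt_of_sing {G : Matrix (Fin 3) (Fin 3) R3} (hG : G.IsSymm) {p : Fin 3 → ℂ}
    (hp : p ≠ 0) {F : R3} {m : ℕ} (hF : F.IsHomogeneous m) (hm : 0 < m)
    (hFi : Irreducible F) (tF : Tang G F) (h1 : ∀ i, eval p (pderiv i F) = 0) :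
    ZeroAt G p := by
  have hE : ∑ i : Fin 3, X i * pderiv i F = m • F := hF.sum_X_mul_pderiv
  have hFp : eval p F = 0 := by
    have h2 := congrArg (eval p) hE
    simp [h1] at h2
    rcases h2 with h2 | h2
    · omega
    · exact h2
  set S : Set R3 := insert F (Set.range (fun i => pderiv i F)) with hS
  have hFI : F ∈ Ideal.span S := Ideal.subset_span (by simp [hS])
  have hdI : ∀ i, pderiv i F ∈ Ideal.span S := fun i => Ideal.subset_span (by simp [hS])
  -- some partial derivative is not divisible by F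
  obtain ⟨i0, hi0⟩ : ∃ i, ¬ F ∣ pderiv i F := by
    by_contra hcon
    push Not at hcon
    have hz : ∀ i, pderiv i F = 0 := by
      intro i
      by_contra hne
      obtain ⟨c, hc⟩ := hcon i
      have hc0 : c ≠ 0 := by
        rintro rfl
        exact hne (by rw [hc, mul_zero])
      have hd1 : (pderiv i F).totalDegree = m - 1 := (hF.pderiv (i := i)).totalDegree hne
      have hd2 : (pderiv i F).totalDegree = F.totalDegree + c.totalDegree := by
        rw [hc]; exact totalDegree_mul_of_isDomain hFi.ne_zero hc0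
      rw [hF.totalDegree hFi.ne_zero] at hd2
      omega
    simp only [hz, mul_zero, Finset.sum_const_zero] at hE
    rw [eq_comm, smul_eq_zero] at hE
    rcases hE with hE | hE
    · omega
    · exact hFi.ne_zero hE
  refine zeroAt_of_ideal (I := Ideal.span S) hp ?_ ?_
  · intro ζ f hf
    refine Submodule.span_induction (p := fun f _ => mkDerivation ℂ (vf G ζ) f ∈
      Ideal.span S) ?_ ?_ ?_ ?_ hf
    · rintro q hq
      obtain ⟨c, hc⟩ := vf_dvd hG tF ζ
      rcases hq with rfl | ⟨i, rfl⟩
      · exact Ideal.mem_of_dvd _ (vf_dvd hG tF ζ) hFI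
      · show mkDerivation ℂ (vf G ζ) (pderiv i F) ∈ _
        rw [der_pderiv, hc, pderiv_mul]
        refine Ideal.sub_mem _ (Ideal.add_mem _ ?_ ?_) (Ideal.sum_mem _ fun j _ => ?_)
        · exact Ideal.mul_mem_right _ _ (hdI i)
        · exact Ideal.mul_mem_right _ _ hFI
        · exact Ideal.mul_mem_left _ _ (hdI j)
    · simp
    · intro a b _ _ ha hb
      rw [map_add]; exact Ideal.add_mem _ ha hb
    · intro a b hb' hb
      rw [smul_eq_mul, Derivation.leibniz]
      refine Ideal.add_mem _ ?_ ?_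
      · exact Ideal.mul_mem_left _ _ hb
      · rw [smul_eq_mul]; exact Ideal.mul_mem_right _ _ hb'
  · refine ker_lin_minimal hp hFi hi0 hFI (hdI i0) ?_
    rw [Ideal.span_le]
    rintro q hq
    rcases hq with rfl | ⟨i, rfl⟩
    · exact (mem_ker_lin hF).mpr hFp
    · exact (mem_ker_lin (hF.pderiv (i := i))).mpr (h1 i)

end FM67
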