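import Pool.Agent.H67.FM.Conic

/-!
# Existence of a zero

A symmetric 2-tensor `G` on the projective plane whose discriminant curve is tangent to `G`
(in particular every flat one) has a zero.
-/

namespace FM67

open MvPolynomial Matrix

theorem tang_of_factor {G : Matrix (Fin 3) (Fin 3) R3} {D f : R3} (hD : D ≠ 0)
    (hf : Irreducible f) (hfD : f ∣ D) (ht : Tang G D) : Tang G f := by
  obtain ⟨m, k, hk, hDk⟩ := WfDvdMonoid.max_power_factor hD hf
  have hm : m ≠ 0 := by
    rintro rfl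
    rw [pow_zero, one_mul] at hDk
    exact hk (hDk ▸ hfD)
  obtain ⟨n, rfl⟩ := Nat.exists_eq_succ_of_ne_zero hm
  have hg : ∀ i, gr D i = f ^ n * (((n : R3) + 1) * k * gr f i + f * gr k i) := by
    intro i
    simp only [gr]
    rw [hDk, pderiv_mul, pderiv_pow, Nat.succ_eq_add_one, Nat.add_sub_cancel]
    push_cast
    ring
  have hcr : ∀ i, crossProduct (G.mulVec (gr D)) xv i
      = f ^ n * (((n : R3) + 1) * k * crossProduct (G.mulVec (gr f)) xv i
        + f * crossProduct (G.mulVec (gr k)) xv i) := by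
    intro i
    rw [cross_apply, cross_apply, cross_apply]
    fin_cases i <;>
    · simp [Matrix.mulVec, dotProduct, Fin.sum_univ_three, hg]
      ring
  intro i
  obtain ⟨c, hc⟩ := ht i
  rw [hcr i, hDk] at hc
  have hfn : f ^ n ≠ 0 := pow_ne_zero _ hf.ne_zero
  have h1 : ((n : R3) + 1) * k * crossProduct (G.mulVec (gr f)) xv i
      = f * (k * c - crossProduct (G.mulVec (gr k)) xv i) := by
    refine mul_left_cancel₀ hfn ?_
    rw [pow_succ] at hc
    linear_combination hc
  have h2 : f ∣ ((n : R3) + 1) * k * crossProduct (G.mulVec (gr f)) xv i := ⟨_, h1⟩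
  rcases hf.prime.dvd_or_dvd h2 with h3 | h3
  · exfalso
    rcases hf.prime.dvd_or_dvd h3 with h4 | h4
    · have hu : IsUnit ((n : R3) + 1) := by
        have : ((n : R3) + 1) = C ((n : ℂ) + 1) := by simp
        rw [this]
        exact (isUnit_iff_ne_zero.mpr (by exact_mod_cast Nat.succ_ne_zero n)).map C
      exact hf.not_isUnit (isUnit_of_dvd_unit h4 hu)
    · exact hk h4
  · exact h3

theorem not_unit_of_homog {D : R3} {n : ℕ} (h : D.IsHomogeneous n) (h0 : D ≠ 0) (hn : 0 < n) :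
    ¬ IsUnit D := by
  rintro ⟨u, rfl⟩
  have h1 : ((u : R3) * ((u⁻¹ : R3ˣ) : R3)).IsHomogeneous 0 := by
    rw [Units.mul_inv]; exact isHomogeneous_one _ _
  obtain ⟨k, l, hk, hl, hkl⟩ := homog_of_mul h1 h0 (Units.ne_zero _)
  have := hk.inj_right h h0
  omega

theorem factor_homog {D f : R3} {n : ℕ} (h : D.IsHomogeneous n) (h0 : D ≠ 0)
    (hf : Irreducible f) (hfD : f ∣ D) : ∃ d, 0 < d ∧ f.IsHomogeneous d := by
  obtain ⟨c, rfl⟩ := hfD
  obtain ⟨k, l, hk, hl, hkl⟩ := homog_of_mul h hf.ne_zero (right_ne_zero_of_mul h0)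
  refine ⟨k, ?_, hk⟩
  rcases Nat.eq_zero_or_pos k with h1 | h1
  · exfalso
    subst h1
    obtain ⟨a, ha⟩ := const_form hk
    have ha0 : a ≠ 0 := by
      rintro rfl
      exact hf.ne_zero (by rw [ha, C_0])
    apply hf.not_isUnit
    rw [ha]
    exact (isUnit_iff_ne_zero.mpr ha0).map C
  · exact h1

/-- **Zero theorem.** -/
theorem exists_zero {G : Matrix (Fin 3) (Fin 3) R3} (hs : G.IsSymm)
    (hG : ∀ i j, (G i j).IsHomogeneous 2) (hD0 : disc G ≠ 0) (ht : Tang G (disc G)) :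
    ∃ p : Fin 3 → ℂ, p ≠ 0 ∧ ZeroAt G p := by
  have hDh := disc_homog hs hG
  set D := disc G with hD
  have hDu : ¬ IsUnit D := not_unit_of_homog hDh hD0 (by norm_num)
  obtain ⟨f, hf, hfD⟩ := WfDvdMonoid.exists_irreducible_factor hDu hD0
  obtain ⟨d, hd, hfh⟩ := factor_homog hDh hD0 hf hfD
  have tf := tang_of_factor hD0 hf hfD ht
  by_cases hcase : ∃ g, Irreducible g ∧ g ∣ D ∧ ¬ f ∣ g
  · obtain ⟨g, hg, hgD, hfg⟩ := hcase
    obtain ⟨e, he, hgh⟩ := factor_homog hDh hD0 hg hgD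
    have tg := tang_of_factor hD0 hg hgD ht
    obtain ⟨p, hp, hp1, hp2⟩ := exists_common_zero hfh hgh hd he
    exact ⟨p, hp, zeroAt_of_two hs hp hfh hgh hf hfg tf tg hp1 hp2⟩
  push Not at hcase
  obtain ⟨m, k, hk, hDk⟩ := WfDvdMonoid.max_power_factor hD0 hf
  have hk0 : k ≠ 0 := by
    rintro rfl
    exact hk (dvd_zero _)
  have hku : IsUnit k := by
    by_contra hku
    obtain ⟨q, hq, hqk⟩ := WfDvdMonoid.exists_irreducible_factor hku hk0
    exact hk ((hcase q hq (hqk.trans ⟨f ^ m, by rw [hDk]; ring⟩)).trans hqk)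
  have hfm : (f ^ m).IsHomogeneous (d * m) := hfh.pow m
  have hfm0 : f ^ m ≠ 0 := pow_ne_zero _ hf.ne_zero
  obtain ⟨a, b, ha, hb, hab⟩ := homog_of_mul (hDk ▸ hDh) hfm0 hk0
  have hb0 : b = 0 := by
    by_contra hne
    exact not_unit_of_homog hb hk0 (Nat.pos_of_ne_zero hne) hku
  have ha6 : d * m = 6 := by
    have := ha.inj_right hfm hfm0
    omega
  subst hb0
  obtain ⟨c, hc⟩ := const_form hb
  -- a square root of -c
  obtain ⟨s, hs2⟩ : ∃ s : ℂ, s ^ 2 = -c := by
    obtain ⟨s, hs⟩ := IsAlgClosed.exists_pow_nat_eq (-c) (n := 2) (by norm_num)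
    exact ⟨s, hs⟩
  have hCs : (C s : R3) ^ 2 = -C c := by
    rw [← map_pow, hs2, map_neg]
  have hm6 : m ≤ 6 := by
    by_contra hcon
    have : d * m ≥ 1 * 7 := Nat.mul_le_mul hd (by omega)
    omega
  interval_cases m
  · omega
  · -- irreducible sextic
    have hDi : Irreducible D := by
      rw [hDk, pow_one]
      exact (associated_mul_unit_right f k hku).irreducible hf
    exact exists_zero_of_irreducible hs hG hDi ht
  · refine exists_zero_of_square hs hG hD0 (t := C s * f) ?_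
    rw [← hD, hDk, hc]
    linear_combination f ^ 2 * hCs
  · have hd2 : d = 2 := by omega
    subst hd2
    exact exists_zero_of_conic hs hG hfh hf tf
  · omega
  · omega
  · refine exists_zero_of_square hs hG hD0 (t := C s * f ^ 3) ?_
    rw [← hD, hDk, hc]
    linear_combination f ^ 6 * hCs

end FM67
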